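import Mathlib

/-!
# A determinant form of Jensen inequality

If `v i` are orthonormal in `L2 mu` then the Gram matrix of the same functions with respect to
`exp G dmu` has determinant at least `exp (int (sum_i v_i^2) G dmu)`.
-/

open MeasureTheory Matrix Finset
open scoped BigOperators

namespace Pool.Agent.NUQ

variable {α : Type*} [MeasurableSpace α] {n : ℕ}

/-- Jensen inequality for the exponential with an explicit nonnegative density. -/
theorem exp_le_of_density (μ : Measure α) (q G : α → ℝ) (C : ℝ)
    (hq : Integrable (fun x => q x ^ 2) μ) (hG : AEStronglyMeasurable G μ)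
    (hGC : ∀ x, |G x| ≤ C) (h1 : ∫ x, q x ^ 2 ∂μ = 1) :
    Real.exp (∫ x, q x ^ 2 * G x ∂μ) ≤ ∫ x, q x ^ 2 * Real.exp (G x) ∂μ := by
  set c := ∫ x, q x ^ 2 * G x ∂μ with hc
  have hqG : Integrable (fun x => q x ^ 2 * G x) μ := by
    refine hq.mul_bdd (c := C) hG ?_
    exact Filter.Eventually.of_forall fun x => by simpa using hGC x
  have hqE : Integrable (fun x => q x ^ 2 * Real.exp (G x)) μ := by
    refine hq.mul_bdd (c := Real.exp C) (Real.continuous_exp.comp_aestronglyMeasurable hG) ?_
    refine Filter.Eventually.of_forall fun x => ?_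
    simp only [Real.norm_eq_abs, Real.abs_exp]
    exact Real.exp_le_exp.2 ((le_abs_self _).trans (hGC x))
  have hlow : ∫ x, Real.exp c * (q x ^ 2 + q x ^ 2 * G x - c * q x ^ 2) ∂μ
      ≤ ∫ x, q x ^ 2 * Real.exp (G x) ∂μ := by
    refine integral_mono ?_ hqE ?_
    · exact ((hq.add hqG).sub (hq.const_mul c)).const_mul _
    · intro x
      have h0 : 0 ≤ q x ^ 2 := sq_nonneg _
      have h2 : G x - c + 1 ≤ Real.exp (G x - c) := Real.add_one_le_exp _
      have h3 : Real.exp (G x) = Real.exp c * Real.exp (G x - c) := by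
        rw [← Real.exp_add]; congr 1; ring
      have h4 : 0 < Real.exp c := Real.exp_pos _
      have h5 : Real.exp c * (G x - c + 1) ≤ Real.exp (G x) := by
        rw [h3]; exact mul_le_mul_of_nonneg_left h2 h4.le
      have h6 := mul_le_mul_of_nonneg_left h5 h0
      calc Real.exp c * (q x ^ 2 + q x ^ 2 * G x - c * q x ^ 2)
          = q x ^ 2 * (Real.exp c * (G x - c + 1)) := by ring
        _ ≤ _ := h6
  have heq : ∫ x, Real.exp c * (q x ^ 2 + q x ^ 2 * G x - c * q x ^ 2) ∂μ = Real.exp c := by
    rw [integral_const_mul]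
    have : ∫ x, (q x ^ 2 + q x ^ 2 * G x - c * q x ^ 2) ∂μ = 1 := by
      have e1 : ∫ x, (q x ^ 2 + q x ^ 2 * G x - c * q x ^ 2) ∂μ
          = (∫ x, (q x ^ 2 + q x ^ 2 * G x) ∂μ) - ∫ x, c * q x ^ 2 ∂μ :=
        integral_sub (hq.add hqG) (hq.const_mul c)
      have e2 : ∫ x, (q x ^ 2 + q x ^ 2 * G x) ∂μ
          = (∫ x, q x ^ 2 ∂μ) + ∫ x, q x ^ 2 * G x ∂μ := integral_add hq hqG
      rw [e1, e2, integral_const_mul, h1, ← hc]
      ring
    rw [this, mul_one]
  rw [heq] at hlow
  exact hlow

/-- Determinant Jensen inequality. -/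
theorem exp_trace_le_det (μ : Measure α) (v : Fin n → α → ℝ) (G : α → ℝ) (C : ℝ)
    (hv : ∀ i j, Integrable (fun x => v i x * v j x) μ)
    (hG : AEStronglyMeasurable G μ) (hGC : ∀ x, |G x| ≤ C)
    (horth : ∀ i j, ∫ x, v i x * v j x ∂μ = if i = j then 1 else 0) :
    Real.exp (∫ x, (∑ i, v i x ^ 2) * G x ∂μ) ≤
      Matrix.det (Matrix.of fun i j => ∫ x, v i x * v j x * Real.exp (G x) ∂μ) := by
  classical
  set B : Matrix (Fin n) (Fin n) ℝ :=
    Matrix.of fun i j => ∫ x, v i x * v j x * Real.exp (G x) ∂μ with hBdef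
  have hB : B.IsHermitian := by
    ext i j
    simp only [hBdef, Matrix.conjTranspose_apply, Matrix.of_apply, star_trivial]
    congr 1; ext x; ring
  have hGexp : AEStronglyMeasurable (fun x => Real.exp (G x)) μ :=
    Real.continuous_exp.comp_aestronglyMeasurable hG
  have hvE : ∀ i j, Integrable (fun x => v i x * v j x * Real.exp (G x)) μ := by
    intro i j
    refine (hv i j).mul_bdd (c := Real.exp C) hGexp ?_
    refine Filter.Eventually.of_forall fun x => ?_
    simp only [Real.norm_eq_abs, Real.abs_exp]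
    exact Real.exp_le_exp.2 ((le_abs_self _).trans (hGC x))
  have hvG : ∀ i j, Integrable (fun x => v i x * v j x * G x) μ := by
    intro i j
    refine (hv i j).mul_bdd (c := C) hG ?_
    exact Filter.Eventually.of_forall fun x => by simpa using hGC x
  set U : Matrix (Fin n) (Fin n) ℝ := (hB.eigenvectorUnitary : Matrix (Fin n) (Fin n) ℝ) with hU
  have hUU : Uᵀ * U = 1 := by
    have := (Matrix.mem_unitaryGroup_iff').1 hB.eigenvectorUnitary.2
    simpa [Matrix.star_eq_conjTranspose, Matrix.conjTranspose_eq_transpose_of_trivial] using this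
  have hUU' : U * Uᵀ = 1 := by
    have := (Matrix.mem_unitaryGroup_iff).1 hB.eigenvectorUnitary.2
    simpa [Matrix.star_eq_conjTranspose, Matrix.conjTranspose_eq_transpose_of_trivial] using this
  have hdiag : Uᵀ * B * U = Matrix.diagonal hB.eigenvalues := by
    have h := hB.spectral_theorem
    have h' : B = U * Matrix.diagonal hB.eigenvalues * Uᵀ := by
      conv_lhs => rw [h]
      simp [Unitary.conjStarAlgAut_apply, Matrix.star_eq_conjTranspose,
        Matrix.conjTranspose_eq_transpose_of_trivial, hU]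
    calc Uᵀ * B * U = Uᵀ * (U * Matrix.diagonal hB.eigenvalues * Uᵀ) * U := by rw [← h']
      _ = (Uᵀ * U) * Matrix.diagonal hB.eigenvalues * (Uᵀ * U) := by
          simp only [Matrix.mul_assoc]
      _ = _ := by rw [hUU]; simp
  -- the rotated functions
  let q : Fin n → α → ℝ := fun i x => ∑ a, U a i * v a x
  have hq2 : ∀ i x, q i x ^ 2 = ∑ a, ∑ b, U a i * U b i * (v a x * v b x) := by
    intro i x
    simp only [q, sq, Finset.sum_mul_sum]
    refine Finset.sum_congr rfl fun a _ => Finset.sum_congr rfl fun b _ => by ring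
  have hqint : ∀ i, Integrable (fun x => q i x ^ 2) μ := by
    intro i
    simp only [hq2]
    exact integrable_finsetSum _ fun a _ => integrable_finsetSum _ fun b _ =>
      (hv a b).const_mul _
  have hq1 : ∀ i, ∫ x, q i x ^ 2 ∂μ = 1 := by
    intro i
    simp only [hq2]
    rw [integral_finsetSum _ fun a _ => integrable_finsetSum _ fun b _ =>
      (hv a b).const_mul _]
    have : ∀ a ∈ (Finset.univ : Finset (Fin n)),
        ∫ x, ∑ b, U a i * U b i * (v a x * v b x) ∂μ = U a i * U a i := by
      intro a _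
      rw [integral_finsetSum _ fun b _ => (hv a b).const_mul _]
      simp only [integral_const_mul, horth]
      simp
    rw [Finset.sum_congr rfl this]
    have h1 := congrFun (congrFun hUU i) i
    simpa [Matrix.mul_apply, Matrix.transpose_apply] using h1
  have heig : ∀ i, ∫ x, q i x ^ 2 * Real.exp (G x) ∂μ = hB.eigenvalues i := by
    intro i
    have h1 : ∀ x, q i x ^ 2 * Real.exp (G x)
        = ∑ a, ∑ b, U a i * U b i * (v a x * v b x * Real.exp (G x)) := by
      intro x
      rw [hq2, Finset.sum_mul]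
      refine Finset.sum_congr rfl fun a _ => ?_
      rw [Finset.sum_mul]
      refine Finset.sum_congr rfl fun b _ => by ring
    simp only [h1]
    rw [integral_finsetSum _ fun a _ => integrable_finsetSum _ fun b _ =>
      (hvE a b).const_mul _]
    have h2 : ∀ a ∈ (Finset.univ : Finset (Fin n)),
        ∫ x, ∑ b, U a i * U b i * (v a x * v b x * Real.exp (G x)) ∂μ
          = ∑ b, U a i * U b i * B a b := by
      intro a _
      rw [integral_finsetSum _ fun b _ => (hvE a b).const_mul _]
      simp only [integral_const_mul]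
      rfl
    rw [Finset.sum_congr rfl h2]
    have h3 := congrFun (congrFun hdiag i) i
    rw [Matrix.diagonal_apply_eq] at h3
    rw [← h3]
    simp only [Matrix.mul_apply, Matrix.transpose_apply, Finset.sum_mul]
    rw [Finset.sum_comm]
    refine Finset.sum_congr rfl fun a _ => Finset.sum_congr rfl fun b _ => by ring
  have hsum : ∀ x, ∑ i, q i x ^ 2 = ∑ a, v a x ^ 2 := by
    intro x
    simp only [hq2]
    rw [Finset.sum_comm]
    refine Finset.sum_congr rfl fun a _ => ?_
    rw [Finset.sum_comm]
    have h1 : ∀ b ∈ (Finset.univ : Finset (Fin n)),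
        ∑ i, U a i * U b i * (v a x * v b x) = (if a = b then 1 else 0) * (v a x * v b x) := by
      intro b _
      rw [← Finset.sum_mul]
      congr 1
      have h2 := congrFun (congrFun hUU' a) b
      simpa [Matrix.mul_apply, Matrix.transpose_apply, Matrix.one_apply] using h2
    rw [Finset.sum_congr rfl h1]
    simp [sq]
  have hqGint : ∀ i, Integrable (fun x => q i x ^ 2 * G x) μ := by
    intro i
    refine (hqint i).mul_bdd (c := C) hG ?_
    exact Filter.Eventually.of_forall fun x => by simpa using hGC x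
  have htrace : ∫ x, (∑ i, v i x ^ 2) * G x ∂μ = ∑ i, ∫ x, q i x ^ 2 * G x ∂μ := by
    rw [← integral_finsetSum _ fun i _ => hqGint i]
    congr 1; ext x
    rw [← hsum, Finset.sum_mul]
  rw [htrace, Real.exp_sum, hB.det_eq_prod_eigenvalues]
  simp only [RCLike.ofReal_real_eq_id, id_eq]
  refine Finset.prod_le_prod (fun i _ => (Real.exp_pos _).le) fun i _ => ?_
  rw [← heig i]
  exact exp_le_of_density μ (q i) G C (hqint i) hG hGC (hq1 i)

end Pool.Agent.NUQ
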