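import Mathlib

/-!
# Shifted Legendre polynomials: the sums used for the trace, Fejer positivity, integrals
-/

open MeasureTheory Filter Topology Set Finset
open scoped BigOperators Real

namespace Pool.Agent.NUQ

/-- coefficient of the shifted Legendre polynomial -/
noncomputable def tL (n k : ℕ) : ℝ := (-1) ^ k * (n.choose k : ℝ) * ((n + k).choose k : ℝ)

/-- shifted Legendre polynomial, `Lg n z = P_n (1 - 2 z)` -/
noncomputable def Lg (n : ℕ) (z : ℝ) : ℝ := ∑ k ∈ range (n + 1), tL n k * z ^ k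

/-- coefficient of `Hg` -/
noncomputable def gH (n k : ℕ) : ℝ := (-1) ^ k * ((n + 1).choose k : ℝ) * ((n + k).choose k : ℝ)

noncomputable def Hg (n : ℕ) (z : ℝ) : ℝ := ∑ k ∈ range (n + 2), gH n k * z ^ k

noncomputable def rR (n k : ℕ) : ℝ := (-1) ^ k * (n.choose k : ℝ) * ((n + 1 + k).choose k : ℝ)

noncomputable def Rg (n : ℕ) (z : ℝ) : ℝ := ∑ k ∈ range (n + 1), rR n k * z ^ k

theorem tL_zero_of_lt {n k : ℕ} (h : n < k) : tL n k = 0 := by
  simp [tL, Nat.choose_eq_zero_of_lt h]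

theorem rR_zero_of_lt {n k : ℕ} (h : n < k) : rR n k = 0 := by
  simp [rR, Nat.choose_eq_zero_of_lt h]

theorem Lg_eq_range {n N : ℕ} (h : n < N) (z : ℝ) : Lg n z = ∑ k ∈ range N, tL n k * z ^ k := by
  unfold Lg
  refine Finset.sum_subset (by intro x; simp; omega) ?_
  intro k _ hk
  have : n < k := by simpa using hk
  rw [tL_zero_of_lt this]; ring

theorem choose_n (n k : ℕ) :
    ((n : ℝ) + 1) * (n.choose k : ℝ) = ((n : ℝ) + 1 - k) * ((n + 1).choose k : ℝ) := by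
  rcases Nat.lt_or_ge (n + 1) k with h | h
  · rw [Nat.choose_eq_zero_of_lt h, Nat.choose_eq_zero_of_lt (by omega)]; simp
  · have h1 := Nat.choose_mul_succ_eq n k
    have h2 : ((n.choose k * (n + 1) : ℕ) : ℝ) = (((n + 1).choose k * (n + 1 - k) : ℕ) : ℝ) := by
      rw [h1]
    push_cast [Nat.cast_sub h] at h2
    linarith

theorem choose_Y (n k : ℕ) :
    ((n : ℝ) + 1) * ((n + 1 + k).choose k : ℝ) = ((n : ℝ) + 1 + k) * ((n + k).choose k : ℝ) := by
  have h1 := Nat.choose_mul_succ_eq (n + k) k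
  have e : n + k + 1 - k = n + 1 := by omega
  rw [e] at h1
  have h2 : (((n + k).choose k * (n + k + 1) : ℕ) : ℝ)
      = (((n + k + 1).choose k * (n + 1) : ℕ) : ℝ) := by rw [h1]
  have e2 : n + 1 + k = n + k + 1 := by omega
  rw [e2]
  push_cast at h2
  linarith

theorem choose_pred (n k : ℕ) :
    ((n : ℝ) + 1) * (n.choose k : ℝ) = ((k : ℝ) + 1) * ((n + 1).choose (k + 1) : ℝ) := by
  have h1 := Nat.add_one_mul_choose_eq n k
  have h2 : (((n + 1) * n.choose k : ℕ) : ℝ)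
      = (((n + 1).choose (k + 1) * (k + 1) : ℕ) : ℝ) := by rw [h1]
  push_cast at h2
  linarith

theorem choose_Y_pred (n k : ℕ) :
    ((n : ℝ) + 1) * ((n + 1 + k).choose k : ℝ)
      = ((k : ℝ) + 1) * ((n + (k + 1)).choose (k + 1) : ℝ) := by
  have h1 := Nat.choose_succ_right_eq (n + 1 + k) k
  have e : n + 1 + k - k = n + 1 := by omega
  rw [e] at h1
  have h2 : (((n + 1 + k).choose (k + 1) * (k + 1) : ℕ) : ℝ)
      = (((n + 1 + k).choose k * (n + 1) : ℕ) : ℝ) := by rw [h1]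
  have e2 : n + (k + 1) = n + 1 + k := by omega
  rw [e2]
  push_cast at h2
  linarith

theorem two_gH (n k : ℕ) : 2 * gH n k = tL n k + tL (n + 1) k := by
  unfold gH tL
  have h1 := choose_n n k
  have h2 := choose_Y n k
  have hn : ((n : ℝ) + 1) ≠ 0 := by positivity
  have e1 : (n.choose k : ℝ) = ((n : ℝ) + 1 - k) * ((n + 1).choose k : ℝ) / ((n : ℝ) + 1) := by
    rw [← h1]; field_simp
  have e2 : ((n + 1 + k).choose k : ℝ)
      = ((n : ℝ) + 1 + k) * ((n + k).choose k : ℝ) / ((n : ℝ) + 1) := by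
    rw [← h2]; field_simp
  rw [e1, e2]
  field_simp
  ring

theorem gH_succ (n k : ℕ) : gH n (k + 1) = rR n (k + 1) - rR n k := by
  unfold gH rR
  have hn : ((n : ℝ) + 1) ≠ 0 := by positivity
  have h1 := choose_n n (k + 1)
  have h2 := choose_Y n (k + 1)
  have h3 := choose_pred n k
  have h4 := choose_Y_pred n k
  have e1 : (n.choose (k + 1) : ℝ) = ((n : ℝ) + 1 - (k + 1 : ℕ)) *
      ((n + 1).choose (k + 1) : ℝ) / ((n : ℝ) + 1) := by
    rw [← h1]; field_simp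
  have e2 : ((n + 1 + (k + 1)).choose (k + 1) : ℝ)
      = ((n : ℝ) + 1 + (k + 1 : ℕ)) * ((n + (k + 1)).choose (k + 1) : ℝ) / ((n : ℝ) + 1) := by
    rw [← h2]; field_simp
  have e3 : (n.choose k : ℝ) = ((k : ℝ) + 1) * ((n + 1).choose (k + 1) : ℝ) / ((n : ℝ) + 1) := by
    rw [← h3]; field_simp
  have e4 : ((n + 1 + k).choose k : ℝ)
      = ((k : ℝ) + 1) * ((n + (k + 1)).choose (k + 1) : ℝ) / ((n : ℝ) + 1) := by
    rw [← h4]; field_simp
  rw [e1, e2, e3, e4]
  push_cast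
  field_simp
  ring

/-- `(2n+3) L_{n+1} - (2n+1) L_n` in coefficients. -/
theorem coef_id (n k : ℕ) :
    (2 * (n : ℝ) + 3) * tL (n + 1) k - (2 * (n : ℝ) + 1) * tL n k
      = 2 * (2 * (k : ℝ) + 1) * gH n k := by
  unfold gH tL
  have h1 := choose_n n k
  have h2 := choose_Y n k
  have hn : ((n : ℝ) + 1) ≠ 0 := by positivity
  have e1 : (n.choose k : ℝ) = ((n : ℝ) + 1 - k) * ((n + 1).choose k : ℝ) / ((n : ℝ) + 1) := by
    rw [← h1]; field_simp
  have e2 : ((n + 1 + k).choose k : ℝ)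
      = ((n : ℝ) + 1 + k) * ((n + k).choose k : ℝ) / ((n : ℝ) + 1) := by
    rw [← h2]; field_simp
  rw [e1, e2]
  field_simp
  ring

theorem Hg_eq_L (n : ℕ) (z : ℝ) : Hg n z = (Lg n z + Lg (n + 1) z) / 2 := by
  rw [Lg_eq_range (N := n + 2) (by omega), Lg_eq_range (N := n + 2) (by omega)]
  unfold Hg
  rw [← Finset.sum_add_distrib, Finset.sum_div]
  refine Finset.sum_congr rfl fun k _ => ?_
  have := two_gH n k
  linear_combination (z ^ k / 2) * this

theorem Hg_eq_R (n : ℕ) (z : ℝ) : Hg n z = (1 - z) * Rg n z := by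
  unfold Hg
  rw [Finset.sum_range_succ']
  have h0 : gH n 0 * z ^ 0 = 1 := by simp [gH]
  rw [h0]
  have h1 : Rg n z = ∑ k ∈ range (n + 1), rR n (k + 1) * z ^ (k + 1) + 1 := by
    have h2 : Rg n z = ∑ k ∈ range (n + 2), rR n k * z ^ k := by
      unfold Rg
      rw [Finset.sum_range_succ _ (n + 1), rR_zero_of_lt (Nat.lt_succ_self n)]
      ring
    rw [h2, Finset.sum_range_succ']
    simp [rR]
  have h3 : z * Rg n z = ∑ k ∈ range (n + 1), rR n k * z ^ (k + 1) := by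
    unfold Rg
    rw [Finset.mul_sum]
    exact Finset.sum_congr rfl fun k _ => by ring
  have h4 : (1 - z) * Rg n z = Rg n z - z * Rg n z := by ring
  rw [h4, h3]
  conv_rhs => rw [h1]
  have h5 : ∑ k ∈ range (n + 1), gH n (k + 1) * z ^ (k + 1)
      = ∑ k ∈ range (n + 1), rR n (k + 1) * z ^ (k + 1)
        - ∑ k ∈ range (n + 1), rR n k * z ^ (k + 1) := by
    rw [← Finset.sum_sub_distrib]
    refine Finset.sum_congr rfl fun k _ => ?_
    rw [gH_succ]; ring
  rw [h5]; ring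

theorem Hg_one (n : ℕ) : Hg n 1 = 0 := by rw [Hg_eq_R]; ring

theorem continuous_Lg (n : ℕ) : Continuous (Lg n) := by
  unfold Lg; fun_prop

theorem continuous_Hg (n : ℕ) : Continuous (Hg n) := by
  unfold Hg; fun_prop

theorem hasDerivAt_aH (n : ℕ) (a : ℝ) :
    HasDerivAt (fun b : ℝ => b * Hg n (b ^ 2))
      (1 / 2 * ((2 * (n : ℝ) + 3) * Lg (n + 1) (a ^ 2) - (2 * (n : ℝ) + 1) * Lg n (a ^ 2))) a := by
  have e1 : (fun b : ℝ => b * Hg n (b ^ 2))
      = fun b : ℝ => ∑ k ∈ range (n + 2), gH n k * b ^ (2 * k + 1) := by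
    funext b
    unfold Hg
    rw [Finset.mul_sum]
    exact Finset.sum_congr rfl fun k _ => by rw [← pow_mul]; ring
  have e2 : 1 / 2 * ((2 * (n : ℝ) + 3) * Lg (n + 1) (a ^ 2) - (2 * (n : ℝ) + 1) * Lg n (a ^ 2))
      = ∑ k ∈ range (n + 2), gH n k * (((2 * k + 1 : ℕ) : ℝ) * a ^ (2 * k + 1 - 1)) := by
    rw [Lg_eq_range (N := n + 2) (by omega), Lg_eq_range (n := n) (N := n + 2) (by omega),
      Finset.mul_sum, Finset.mul_sum, ← Finset.sum_sub_distrib, Finset.mul_sum]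
    refine Finset.sum_congr rfl fun k _ => ?_
    have := coef_id n k
    rw [Nat.add_sub_cancel, ← pow_mul]
    push_cast
    linear_combination (a ^ (2 * k) / 2) * this
  rw [e1, e2]
  exact HasDerivAt.fun_sum fun k _ => (hasDerivAt_pow (2 * k + 1) a).const_mul _

theorem hasDerivAt_a3H (n : ℕ) (a : ℝ) :
    HasDerivAt (fun b : ℝ => b ^ 3 * Hg n (b ^ 2))
      (1 / 2 * ((2 * (n : ℝ) + 5) * (a ^ 2 * Lg (n + 1) (a ^ 2))
        - (2 * (n : ℝ) - 1) * (a ^ 2 * Lg n (a ^ 2)))) a := by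
  have h1 := (hasDerivAt_pow 2 a).mul (hasDerivAt_aH n a)
  have e1 : ((fun b : ℝ => b ^ 2) * fun b : ℝ => b * Hg n (b ^ 2))
      = fun b : ℝ => b ^ 3 * Hg n (b ^ 2) := by
    funext b; simp only [Pi.mul_apply]; ring
  rw [e1] at h1
  have e2 : ((2 : ℕ) : ℝ) * a ^ (2 - 1) * (a * Hg n (a ^ 2)) + a ^ 2 * (1 / 2 *
      ((2 * (n : ℝ) + 3) * Lg (n + 1) (a ^ 2) - (2 * (n : ℝ) + 1) * Lg n (a ^ 2)))
      = 1 / 2 * ((2 * (n : ℝ) + 5) * (a ^ 2 * Lg (n + 1) (a ^ 2))
        - (2 * (n : ℝ) - 1) * (a ^ 2 * Lg n (a ^ 2))) := by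
    rw [Hg_eq_L]
    push_cast
    ring
  rw [e2] at h1
  exact h1

theorem int_Lg (n : ℕ) : ∫ a in (-1 : ℝ)..1, Lg n (a ^ 2) = 2 / (2 * (n : ℝ) + 1) := by
  induction n with
  | zero => simp [Lg, tL]; norm_num
  | succ n ih =>
    have hL : ∀ k, Continuous (fun a : ℝ => Lg k (a ^ 2)) := fun k =>
      (continuous_Lg k).comp (by fun_prop)
    have h1 := intervalIntegral.integral_eq_sub_of_hasDerivAt (a := (-1 : ℝ)) (b := 1)
      (fun a _ => hasDerivAt_aH n a) (by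
        refine Continuous.intervalIntegrable ?_ _ _
        exact (((hL (n + 1)).const_mul _).sub ((hL n).const_mul _)).const_mul _)
    have e : (1 : ℝ) * Hg n (1 ^ 2) - -1 * Hg n ((-1) ^ 2) = 0 := by
      norm_num [Hg_one]
    rw [e, intervalIntegral.integral_const_mul, intervalIntegral.integral_sub
      (((hL (n + 1)).const_mul _).intervalIntegrable _ _)
      (((hL n).const_mul _).intervalIntegrable _ _), intervalIntegral.integral_const_mul,
      intervalIntegral.integral_const_mul, ih] at h1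
    have hn : 2 * (n : ℝ) + 1 ≠ 0 := by positivity
    have hn3 : 2 * (n : ℝ) + 3 ≠ 0 := by positivity
    rw [mul_div_cancel₀ _ hn] at h1
    have h2 : (2 * (n : ℝ) + 3) * ∫ a in (-1 : ℝ)..1, Lg (n + 1) (a ^ 2) = 2 := by linarith
    push_cast
    rw [eq_div_iff (by positivity)]
    linarith

theorem int_a2Lg (n : ℕ) : ∫ a in (-1 : ℝ)..1, a ^ 2 * Lg n (a ^ 2)
    = -2 / ((2 * (n : ℝ) - 1) * (2 * (n : ℝ) + 1) * (2 * (n : ℝ) + 3)) := by
  induction n with
  | zero => simp [Lg, tL]; norm_num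
  | succ n ih =>
    have hL : ∀ k, Continuous (fun a : ℝ => a ^ 2 * Lg k (a ^ 2)) := fun k =>
      (continuous_pow 2).mul ((continuous_Lg k).comp (by fun_prop))
    have h1 := intervalIntegral.integral_eq_sub_of_hasDerivAt (a := (-1 : ℝ)) (b := 1)
      (fun a _ => hasDerivAt_a3H n a) (by
        refine Continuous.intervalIntegrable ?_ _ _
        exact (((hL (n + 1)).const_mul _).sub ((hL n).const_mul _)).const_mul _)
    have e : (1 : ℝ) ^ 3 * Hg n (1 ^ 2) - (-1) ^ 3 * Hg n ((-1) ^ 2) = 0 := by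
      norm_num [Hg_one]
    rw [e, intervalIntegral.integral_const_mul, intervalIntegral.integral_sub
      (((hL (n + 1)).const_mul _).intervalIntegrable _ _)
      (((hL n).const_mul _).intervalIntegrable _ _), intervalIntegral.integral_const_mul,
      intervalIntegral.integral_const_mul, ih] at h1
    have hn1 : 2 * (n : ℝ) - 1 ≠ 0 := by
      intro h
      have h2 : (2 * n : ℝ) = 1 := by linarith
      have h3 : 2 * n = 1 := by exact_mod_cast h2
      omega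
    have hn : 2 * (n : ℝ) + 1 ≠ 0 := by positivity
    have hn3 : 2 * (n : ℝ) + 3 ≠ 0 := by positivity
    have hn5 : 2 * (n : ℝ) + 5 ≠ 0 := by positivity
    have h2 : (2 * (n : ℝ) + 5) * ∫ a in (-1 : ℝ)..1, a ^ 2 * Lg (n + 1) (a ^ 2)
        = -2 / ((2 * (n : ℝ) + 1) * (2 * (n : ℝ) + 3)) := by
      have h3 : (2 * (n : ℝ) - 1) * (-2 / ((2 * (n : ℝ) - 1) * (2 * (n : ℝ) + 1) *
          (2 * (n : ℝ) + 3))) = -2 / ((2 * (n : ℝ) + 1) * (2 * (n : ℝ) + 3)) := by
        field_simp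
      rw [h3] at h1
      linarith
    have h4 : ∫ a in (-1 : ℝ)..1, a ^ 2 * Lg (n + 1) (a ^ 2)
        = -2 / ((2 * (n : ℝ) + 1) * (2 * (n : ℝ) + 3)) / (2 * (n : ℝ) + 5) := by
      rw [← h2]; field_simp
    rw [h4]
    push_cast
    have e1 : 2 * ((n : ℝ) + 1) - 1 = 2 * n + 1 := by ring
    have e2 : 2 * ((n : ℝ) + 1) + 1 = 2 * n + 3 := by ring
    have e3 : 2 * ((n : ℝ) + 1) + 3 = 2 * n + 5 := by ring
    rw [e1, e2, e3, div_div]

theorem int_J_ge (n : ℕ) : 2 / (2 * (n : ℝ) + 1) - (if n = 0 then 2 / 3 else 0)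
    ≤ ∫ a in (-1 : ℝ)..1, (1 - a ^ 2) * Lg n (a ^ 2) := by
  have hL : Continuous (fun a : ℝ => Lg n (a ^ 2)) := (continuous_Lg n).comp (by fun_prop)
  have hL2 : Continuous (fun a : ℝ => a ^ 2 * Lg n (a ^ 2)) := (continuous_pow 2).mul hL
  have h1 : ∫ a in (-1 : ℝ)..1, (1 - a ^ 2) * Lg n (a ^ 2)
      = (∫ a in (-1 : ℝ)..1, Lg n (a ^ 2)) - ∫ a in (-1 : ℝ)..1, a ^ 2 * Lg n (a ^ 2) := by
    rw [← intervalIntegral.integral_sub (hL.intervalIntegrable _ _) (hL2.intervalIntegrable _ _)]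
    congr 1; funext a; ring
  rw [h1, int_Lg, int_a2Lg]
  rcases Nat.eq_zero_or_pos n with rfl | hn
  · norm_num
  · rw [if_neg (by omega)]
    have h2 : (1 : ℝ) ≤ n := by exact_mod_cast hn
    have h3 : 0 < (2 * (n : ℝ) - 1) * (2 * (n : ℝ) + 1) * (2 * (n : ℝ) + 3) := by
      have : 0 < 2 * (n : ℝ) - 1 := by linarith
      positivity
    have h4 : -2 / ((2 * (n : ℝ) - 1) * (2 * (n : ℝ) + 1) * (2 * (n : ℝ) + 3)) ≤ 0 :=
      div_nonpos_of_nonpos_of_nonneg (by norm_num) h3.le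
    linarith

end Pool.Agent.NUQ
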