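import Mathlib
import Pool.Agent.NUQ.Leg

/-!
# Fejer positivity of Legendre sums, via an average of Chebyshev polynomials
-/

open MeasureTheory Filter Topology Set Finset
open scoped BigOperators Real

namespace Pool.Agent.NUQ

noncomputable def Wc (n k : ℕ) : ℝ := (-1) ^ n * ((n + k).choose (2 * k) : ℝ) * (-4) ^ k

noncomputable def Wf (n : ℕ) (s : ℝ) : ℝ := ∑ k ∈ range (n + 1), Wc n k * s ^ k

theorem Wc_zero_of_lt {n k : ℕ} (h : n < k) : Wc n k = 0 := by
  simp [Wc, Nat.choose_eq_zero_of_lt (by omega : n + k < 2 * k)]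

theorem Wf_eq_range {n N : ℕ} (h : n < N) (s : ℝ) : Wf n s = ∑ k ∈ range N, Wc n k * s ^ k := by
  unfold Wf
  refine Finset.sum_subset (by intro x; simp; omega) ?_
  intro k _ hk
  have : n < k := by simpa using hk
  rw [Wc_zero_of_lt this]; ring

theorem Wc_rec (n k : ℕ) :
    Wc (n + 2) (k + 1) = 4 * Wc (n + 1) k - 2 * Wc (n + 1) (k + 1) - Wc n (k + 1) := by
  unfold Wc
  have e1 : n + 2 + (k + 1) = (n + 1 + k + 1) + 1 := by omega
  have e2 : n + 1 + (k + 1) = (n + 1 + k) + 1 := by omega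
  have e3 : n + (k + 1) = n + 1 + k := by omega
  have e4 : 2 * (k + 1) = (2 * k + 1) + 1 := by omega
  rw [e1, e2, e3, e4, Nat.choose_succ_succ' (n + 1 + k + 1), Nat.choose_succ_succ' (n + 1 + k) (2 * k),
    Nat.choose_succ_succ' (n + 1 + k) (2 * k + 1)]
  push_cast
  ring

theorem Wc_rec_zero (n : ℕ) : Wc (n + 2) 0 = -2 * Wc (n + 1) 0 - Wc n 0 := by
  unfold Wc
  simp
  ring

theorem Wf_rec (n : ℕ) (s : ℝ) :
    Wf (n + 2) s = 2 * (2 * s - 1) * Wf (n + 1) s - Wf n s := by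
  have h1 : Wf (n + 2) s = ∑ k ∈ range (n + 2), Wc (n + 2) (k + 1) * s ^ (k + 1)
      + Wc (n + 2) 0 := by
    rw [Wf_eq_range (N := n + 3) (by omega), Finset.sum_range_succ']
    simp
  have h2 : Wf (n + 1) s = ∑ k ∈ range (n + 2), Wc (n + 1) (k + 1) * s ^ (k + 1)
      + Wc (n + 1) 0 := by
    rw [Wf_eq_range (N := n + 3) (by omega), Finset.sum_range_succ']
    simp
  have h3 : Wf n s = ∑ k ∈ range (n + 2), Wc n (k + 1) * s ^ (k + 1) + Wc n 0 := by
    rw [Wf_eq_range (N := n + 3) (by omega), Finset.sum_range_succ']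
    simp
  have h4 : s * Wf (n + 1) s = ∑ k ∈ range (n + 2), Wc (n + 1) k * s ^ (k + 1) := by
    rw [Wf_eq_range (N := n + 2) (by omega), Finset.mul_sum]
    exact Finset.sum_congr rfl fun k _ => by ring
  have h5 : 2 * (2 * s - 1) * Wf (n + 1) s - Wf n s
      = 4 * (s * Wf (n + 1) s) - 2 * Wf (n + 1) s - Wf n s := by ring
  rw [h5, h4]
  conv_rhs => rw [h2, h3]
  rw [h1, Wc_rec_zero]
  have h6 : ∑ k ∈ range (n + 2), Wc (n + 2) (k + 1) * s ^ (k + 1)
      = 4 * ∑ k ∈ range (n + 2), Wc (n + 1) k * s ^ (k + 1)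
        - 2 * ∑ k ∈ range (n + 2), Wc (n + 1) (k + 1) * s ^ (k + 1)
        - ∑ k ∈ range (n + 2), Wc n (k + 1) * s ^ (k + 1) := by
    rw [Finset.mul_sum, Finset.mul_sum, ← Finset.sum_sub_distrib, ← Finset.sum_sub_distrib]
    refine Finset.sum_congr rfl fun k _ => ?_
    rw [Wc_rec]; ring
  rw [h6]; ring

open Polynomial.Chebyshev in
theorem Wf_eq_T (n : ℕ) (s : ℝ) :
    2 * (1 - s) * Wf n s = (T ℝ n).eval (2 * s - 1) - (T ℝ (n + 1)).eval (2 * s - 1) := by
  have hT : ∀ k : ℕ, (T ℝ ((k : ℤ) + 2)).eval (2 * s - 1)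
      = 2 * (2 * s - 1) * (T ℝ ((k : ℤ) + 1)).eval (2 * s - 1) - (T ℝ k).eval (2 * s - 1) := by
    intro k
    rw [T_add_two]
    simp
  suffices H : (2 * (1 - s) * Wf n s
      = (T ℝ n).eval (2 * s - 1) - (T ℝ (n + 1)).eval (2 * s - 1)) ∧
      (2 * (1 - s) * Wf (n + 1) s
      = (T ℝ (n + 1)).eval (2 * s - 1) - (T ℝ (n + 2)).eval (2 * s - 1)) from H.1
  induction n with
  | zero =>
    have h2 := hT 0
    simp only [Nat.cast_zero, zero_add, T_zero, T_one, Polynomial.eval_one,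
      Polynomial.eval_X] at h2 ⊢
    constructor
    · simp [Wf, Wc]; ring
    · rw [h2]
      have : Wf 1 s = -1 + 4 * s := by
        simp [Wf, Wc, Finset.sum_range_succ]
        ring
      rw [this]; ring
  | succ n ih =>
    obtain ⟨i1, i2⟩ := ih
    have e1 : ((n + 1 : ℕ) : ℤ) = (n : ℤ) + 1 := by push_cast; ring
    have e2 : ((n + 1 : ℕ) : ℤ) + 1 = (n : ℤ) + 2 := by push_cast; ring
    have h3 := hT (n + 1)
    rw [e2, e1] at h3
    rw [e1]
    refine ⟨by rw [i2]; norm_num [add_assoc], ?_⟩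
    have e4 : ((n : ℤ) + 1 + 1) = (n : ℤ) + 2 := by ring
    rw [h3, e4, Wf_rec]
    have h4 := hT n
    linear_combination 2 * (2 * s - 1) * i2 - i1 - h4

open Polynomial.Chebyshev in
theorem sum_Wf (N : ℕ) (s : ℝ) :
    2 * (1 - s) * ∑ n ∈ range N, Wf n s = 1 - (T ℝ N).eval (2 * s - 1) := by
  induction N with
  | zero => simp
  | succ N ih =>
    rw [Finset.sum_range_succ, mul_add, ih, Wf_eq_T]
    push_cast
    ring

theorem sum_Wf_nonneg (N : ℕ) {s : ℝ} (h0 : 0 ≤ s) (h1 : s < 1) :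
    0 ≤ ∑ n ∈ range N, Wf n s := by
  have h := sum_Wf N s
  have h2 : |(Polynomial.Chebyshev.T ℝ (N : ℤ)).eval (2 * s - 1)| ≤ 1 :=
    Polynomial.Chebyshev.abs_eval_T_real_le_one _ (by rw [abs_le]; constructor <;> linarith)
  have h3 := (abs_le.1 h2).2
  have h4 : 0 ≤ 2 * (1 - s) * ∑ n ∈ range N, Wf n s := by rw [h]; linarith
  have h5 : 0 < 2 * (1 - s) := by linarith
  exact nonneg_of_mul_nonneg_right h4 h5

theorem int_sin_pow (k : ℕ) :
    ∫ x in (0 : ℝ)..π, Real.sin x ^ (2 * k) = π * ((2 * k).choose k : ℝ) / 4 ^ k := by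
  rw [integral_sin_pow_even]
  have h : ∀ k : ℕ, ∏ i ∈ range k, (2 * (i : ℝ) + 1) / (2 * i + 2)
      = ((2 * k).choose k : ℝ) / 4 ^ k := by
    intro k
    induction k with
    | zero => simp
    | succ k ih =>
      rw [Finset.prod_range_succ, ih]
      have h1 := Nat.succ_mul_centralBinom_succ k
      rw [Nat.centralBinom_eq_two_mul_choose, Nat.centralBinom_eq_two_mul_choose] at h1
      have h2 : (((k + 1) * (2 * (k + 1)).choose (k + 1) : ℕ) : ℝ)
          = ((2 * (2 * k + 1) * (2 * k).choose k : ℕ) : ℝ) := by rw [h1]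
      push_cast at h2
      have hk : ((k : ℝ) + 1) ≠ 0 := by positivity
      have h3 : ((2 * (k + 1)).choose (k + 1) : ℝ)
          = 2 * (2 * (k : ℝ) + 1) * ((2 * k).choose k : ℝ) / ((k : ℝ) + 1) := by
        rw [← h2]; field_simp
      rw [h3, pow_succ]
      field_simp
      ring
  rw [h, mul_div_assoc]

theorem Lg_eq_aeval (n : ℕ) (z : ℝ) :
    Lg n z = Polynomial.aeval z (Polynomial.shiftedLegendre n) := by
  rw [Polynomial.aeval_eq_sum_range, Polynomial.natDegree_shiftedLegendre]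
  unfold Lg tL
  refine Finset.sum_congr rfl fun k _ => ?_
  rw [Polynomial.coeff_shiftedLegendre, Nat.choose_symm_add]
  simp

theorem Lg_symm (n : ℕ) (z : ℝ) : Lg n z = (-1) ^ n * Lg n (1 - z) := by
  rw [Lg_eq_aeval, Lg_eq_aeval]
  exact Polynomial.shiftedLegendre_eval_symm n z

theorem int_Wf (n : ℕ) (c : ℝ) :
    ∫ x in (0 : ℝ)..π, Wf n (c * Real.sin x ^ 2) = π * Lg n (1 - c) := by
  have h1 : ∀ x : ℝ, Wf n (c * Real.sin x ^ 2)
      = ∑ k ∈ range (n + 1), Wc n k * c ^ k * Real.sin x ^ (2 * k) := by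
    intro x
    unfold Wf
    refine Finset.sum_congr rfl fun k _ => ?_
    rw [mul_pow, ← pow_mul]; ring
  simp only [h1]
  rw [intervalIntegral.integral_finsetSum]
  · rw [Lg_symm, sub_sub_cancel]
    unfold Lg
    rw [Finset.mul_sum, Finset.mul_sum]
    refine Finset.sum_congr rfl fun k hk => ?_
    rw [intervalIntegral.integral_const_mul, int_sin_pow]
    unfold Wc tL
    have hk' : k ≤ n := by simpa [Nat.lt_succ_iff] using hk
    have h2 : (n + k).choose (2 * k) * (2 * k).choose k = (n + k).choose k * n.choose k := by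
      have h3 := Nat.choose_mul (n := n + k) (k := 2 * k) (s := k) (by omega)
      have e1 : n + k - k = n := by omega
      have e2 : 2 * k - k = k := by omega
      rw [e1, e2] at h3
      exact h3
    have h3 : ((n + k).choose (2 * k) : ℝ) * ((2 * k).choose k : ℝ)
        = ((n + k).choose k : ℝ) * (n.choose k : ℝ) := by exact_mod_cast h2
    have h4 : ((-4 : ℝ)) ^ k = (-1) ^ k * 4 ^ k := by rw [← mul_pow]; norm_num
    rw [h4]
    field_simp
    linear_combination (c ^ k) * h3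
  · intro k _
    exact (by fun_prop : Continuous fun x : ℝ =>
      Wc n k * c ^ k * Real.sin x ^ (2 * k)).intervalIntegrable _ _

theorem continuous_Wf (n : ℕ) : Continuous (Wf n) := by
  unfold Wf; fun_prop

/-- Fejer positivity. -/
theorem sum_Lg_nonneg (N : ℕ) {z : ℝ} (h0 : 0 ≤ z) (h1 : z ≤ 1) :
    0 ≤ ∑ n ∈ range N, Lg n z := by
  rcases eq_or_lt_of_le h0 with rfl | hz
  · refine Finset.sum_nonneg fun n _ => ?_
    have : Lg n 0 = 1 := by
      unfold Lg
      rw [Finset.sum_range_succ']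
      simp [tL]
    rw [this]; norm_num
  have h2 : ∑ n ∈ range N, π * Lg n (1 - (1 - z))
      = ∫ x in (0 : ℝ)..π, ∑ n ∈ range N, Wf n ((1 - z) * Real.sin x ^ 2) := by
    rw [intervalIntegral.integral_finsetSum]
    · exact Finset.sum_congr rfl fun n _ => (int_Wf n (1 - z)).symm
    · intro n _
      exact ((continuous_Wf n).comp (by fun_prop)).intervalIntegrable _ _
  have h3 : 0 ≤ ∫ x in (0 : ℝ)..π, ∑ n ∈ range N, Wf n ((1 - z) * Real.sin x ^ 2) := by
    refine intervalIntegral.integral_nonneg Real.pi_pos.le fun x _ => ?_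
    have h4 : Real.sin x ^ 2 ≤ 1 := Real.sin_sq_le_one x
    have h5 : 0 ≤ Real.sin x ^ 2 := sq_nonneg _
    refine sum_Wf_nonneg N (mul_nonneg (by linarith) h5) ?_
    nlinarith
  rw [← h2, ← Finset.mul_sum, sub_sub_cancel] at h3
  exact nonneg_of_mul_nonneg_right h3 Real.pi_pos

end Pool.Agent.NUQ
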