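import Mathlib

/-!
# The master integral `int_0^oo sinh (b x) / sinh (pi x) dx = (1/2) tan (b/2)`
-/

open MeasureTheory Filter Topology Set
open scoped BigOperators Real

namespace Pool.Agent.NUQ

theorem integrable_exp_neg_mul_abs {c : ℝ} (hc : 0 < c) :
    Integrable (fun x : ℝ => Real.exp (-(c * |x|))) := by
  rw [← integrableOn_univ, ← Iic_union_Ioi (a := (0 : ℝ))]
  refine IntegrableOn.union ?_ ?_
  · refine (integrableOn_exp_mul_Iic hc 0).congr_fun ?_ measurableSet_Iic
    intro x hx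
    simp only [mem_Iic] at hx
    simp only [abs_of_nonpos hx]
    congr 1; ring
  · refine (integrableOn_exp_mul_Ioi (a := -c) (by linarith) 0).congr_fun ?_ measurableSet_Ioi
    intro x hx
    simp only [mem_Ioi] at hx
    simp only [abs_of_pos hx]
    congr 1; ring

theorem sinh_le_mul_cosh {x : ℝ} (hx : 0 ≤ x) : Real.sinh x ≤ x * Real.cosh x := by
  have h : MonotoneOn (fun y : ℝ => y * Real.cosh y - Real.sinh y) (Ici 0) := by
    refine monotoneOn_of_deriv_nonneg (convex_Ici 0) ?_ ?_ ?_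
    · fun_prop
    · fun_prop
    · intro y hy
      simp only [interior_Ici, mem_Ioi] at hy
      have hd : HasDerivAt (fun y : ℝ => y * Real.cosh y - Real.sinh y)
          (1 * Real.cosh y + y * Real.sinh y - Real.cosh y) y :=
        ((hasDerivAt_id y).mul (Real.hasDerivAt_cosh y)).sub (Real.hasDerivAt_sinh y)
      rw [hd.deriv]
      have : 0 < Real.sinh y := Real.sinh_pos_iff.2 hy
      nlinarith
  have := h (by simp : (0 : ℝ) ∈ Ici 0) (by simpa using hx : x ∈ Ici 0) hx
  simp at this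
  linarith

theorem abs_sinh_le (x : ℝ) : |Real.sinh x| ≤ |x| * Real.cosh x := by
  rcases le_total 0 x with hx | hx
  · rw [abs_of_nonneg (Real.sinh_nonneg_iff.2 hx), abs_of_nonneg hx]
    exact sinh_le_mul_cosh hx
  · have h := sinh_le_mul_cosh (x := -x) (by linarith)
    rw [Real.sinh_neg, Real.cosh_neg] at h
    rw [abs_of_nonpos (Real.sinh_nonpos_iff.2 hx), abs_of_nonpos hx]
    exact h

theorem norm_sinh_le (z : ℂ) : ‖Complex.sinh z‖ ≤ ‖z‖ * Real.cosh z.re := by
  have hc : 0 < Real.cosh z.re := Real.cosh_pos _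
  refine le_of_sq_le_sq ?_ (by positivity)
  have h1 : ‖Complex.sinh z‖ ^ 2 = Real.sinh z.re ^ 2 * Real.cos z.im ^ 2
      + Real.cosh z.re ^ 2 * Real.sin z.im ^ 2 := by
    rw [← Complex.normSq_eq_norm_sq, Complex.normSq_apply]
    have : Complex.sinh z = (Real.sinh z.re * Real.cos z.im : ℝ)
        + (Real.cosh z.re * Real.sin z.im : ℝ) * Complex.I := by
      conv_lhs => rw [← Complex.re_add_im z]
      rw [Complex.sinh_add, Complex.sinh_mul_I, Complex.cosh_mul_I]
      push_cast
      ring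
    rw [this]
    simp only [Complex.add_re, Complex.ofReal_re, Complex.mul_re, Complex.I_re, Complex.I_im,
      Complex.ofReal_im, Complex.add_im, Complex.mul_im]
    ring
  have h2 : ‖z‖ ^ 2 = z.re ^ 2 + z.im ^ 2 := by
    rw [← Complex.normSq_eq_norm_sq, Complex.normSq_apply]; ring
  rw [h1, mul_pow, h2]
  have h3 : Real.sinh z.re ^ 2 ≤ z.re ^ 2 * Real.cosh z.re ^ 2 := by
    rw [← mul_pow]
    refine sq_le_sq.2 ?_
    rw [abs_mul, abs_of_pos hc]
    exact abs_sinh_le z.re
  have h4 : Real.sin z.im ^ 2 ≤ z.im ^ 2 := by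
    have := Real.abs_sin_le_abs (x := z.im)
    exact sq_le_sq.2 this
  have h5 : Real.cos z.im ^ 2 ≤ 1 := Real.cos_sq_le_one _
  have h6 : 0 ≤ Real.cosh z.re ^ 2 := by positivity
  calc Real.sinh z.re ^ 2 * Real.cos z.im ^ 2 + Real.cosh z.re ^ 2 * Real.sin z.im ^ 2
      ≤ (z.re ^ 2 * Real.cosh z.re ^ 2) * 1 + Real.cosh z.re ^ 2 * z.im ^ 2 := by
        have h7 : 0 ≤ Real.cos z.im ^ 2 := sq_nonneg _
        have h8 : 0 ≤ z.re ^ 2 * Real.cosh z.re ^ 2 := by positivity
        nlinarith [mul_le_mul_of_nonneg_left h4 h6, mul_le_mul h3 h5 h7 h8]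
    _ = (z.re ^ 2 + z.im ^ 2) * Real.cosh z.re ^ 2 := by ring

/-- `y / sinh y <= (1 + 2 y) exp (-y)` in product form. -/
theorem mul_exp_le_sinh {y : ℝ} (_hy : 0 ≤ y) :
    y * Real.exp y ≤ (1 + 2 * y) * Real.sinh y := by
  have h1 : 1 + 2 * y ≤ Real.exp y * Real.exp y := by
    rw [← Real.exp_add]
    have := Real.add_one_le_exp (y + y)
    linarith
  have h2 : Real.exp y * Real.exp (-y) = 1 := by
    rw [← Real.exp_add]; simp
  rw [Real.sinh_eq]
  have h3 : 0 < Real.exp (-y) := Real.exp_pos _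
  have h4 : 0 < Real.exp y := Real.exp_pos _
  -- (1+2y) exp(-y) <= exp y
  have h5 : (1 + 2 * y) * Real.exp (-y) ≤ Real.exp y := by
    calc (1 + 2 * y) * Real.exp (-y) ≤ (Real.exp y * Real.exp y) * Real.exp (-y) :=
          mul_le_mul_of_nonneg_right h1 h3.le
      _ = Real.exp y * (Real.exp y * Real.exp (-y)) := by ring
      _ = Real.exp y := by rw [h2, mul_one]
  nlinarith

/-- Pointwise bound for the master integrand. -/
theorem norm_master_le {ζ : ℂ} {x : ℝ} (hx : 0 < x) :
    ‖Complex.sinh (ζ * x) / (Real.sinh (x / 2) : ℝ)‖ ≤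
      2 * ‖ζ‖ * ((1 + x) * Real.exp (-((1 / 2 - |ζ.re|) * x))) := by
  have hs : 0 < Real.sinh (x / 2) := Real.sinh_pos_iff.2 (by linarith)
  rw [norm_div, Complex.norm_real, Real.norm_of_nonneg hs.le, div_le_iff₀ hs]
  have h1 := norm_sinh_le (ζ * x)
  have h2 : (ζ * (x : ℂ)).re = ζ.re * x := by simp
  have h3 : ‖ζ * (x : ℂ)‖ = ‖ζ‖ * x := by
    rw [norm_mul, Complex.norm_real, Real.norm_of_nonneg hx.le]
  rw [h2, h3] at h1
  have h4 : Real.cosh (ζ.re * x) ≤ Real.exp (|ζ.re| * x) := by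
    rw [← Real.cosh_abs, abs_mul, abs_of_pos hx]
    have h5 : 0 ≤ |ζ.re| * x := by positivity
    rw [Real.cosh_eq]
    have h6 : Real.exp (-(|ζ.re| * x)) ≤ Real.exp (|ζ.re| * x) :=
      Real.exp_le_exp.2 (by linarith)
    linarith
  have h5 := mul_exp_le_sinh (y := x / 2) (by linarith)
  have h6 : Real.exp (-((1 / 2 - |ζ.re|) * x)) = Real.exp (|ζ.re| * x) * Real.exp (-(x / 2)) := by
    rw [← Real.exp_add]; congr 1; ring
  have h7 : Real.exp (x / 2) * Real.exp (-(x / 2)) = 1 := by
    rw [← Real.exp_add]; simp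
  have hz : 0 ≤ ‖ζ‖ := norm_nonneg _
  have he : 0 < Real.exp (|ζ.re| * x) := Real.exp_pos _
  have he2 : 0 < Real.exp (-(x / 2)) := Real.exp_pos _
  have h8 : x / 2 ≤ (1 + x) * Real.sinh (x / 2) * Real.exp (-(x / 2)) := by
    have h9 := mul_le_mul_of_nonneg_right h5 he2.le
    calc x / 2 = x / 2 * Real.exp (x / 2) * Real.exp (-(x / 2)) := by
          rw [mul_assoc, h7, mul_one]
      _ ≤ (1 + 2 * (x / 2)) * Real.sinh (x / 2) * Real.exp (-(x / 2)) := h9
      _ = _ := by ring
  calc ‖Complex.sinh (ζ * x)‖ ≤ ‖ζ‖ * x * Real.cosh (ζ.re * x) := h1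
    _ ≤ ‖ζ‖ * x * Real.exp (|ζ.re| * x) := by gcongr
    _ = (2 * ‖ζ‖ * Real.exp (|ζ.re| * x)) * (x / 2) := by ring
    _ ≤ (2 * ‖ζ‖ * Real.exp (|ζ.re| * x)) *
        ((1 + x) * Real.sinh (x / 2) * Real.exp (-(x / 2))) := by gcongr
    _ = _ := by rw [h6]; ring

theorem integrableOn_lin_exp {c : ℝ} (hc : 0 < c) :
    IntegrableOn (fun x : ℝ => (1 + x) * Real.exp (-(c * x))) (Ioi 0) := by
  have h1 : IntegrableOn (fun x : ℝ => (2 / c + 1) * Real.exp (-(c / 2) * x)) (Ioi 0) :=
    (integrableOn_exp_mul_Ioi (a := -(c / 2)) (by linarith) 0).const_mul _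
  refine Integrable.mono' h1 ?_ ?_
  · exact (by fun_prop : Measurable (fun x : ℝ => (1 + x) * Real.exp (-(c * x)))).aestronglyMeasurable
  · refine (ae_restrict_iff' measurableSet_Ioi).2 (Eventually.of_forall fun x hx => ?_)
    simp only [mem_Ioi] at hx
    rw [Real.norm_of_nonneg (by positivity)]
    have h2 : c / 2 * x ≤ Real.exp (c / 2 * x) := by
      have := Real.add_one_le_exp (c / 2 * x); linarith
    have h3 : (1 : ℝ) ≤ Real.exp (c / 2 * x) := Real.one_le_exp (by positivity)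
    have h4 : 1 + x ≤ (2 / c + 1) * Real.exp (c / 2 * x) := by
      have : x = 2 / c * (c / 2 * x) := by field_simp
      have h5 : x ≤ 2 / c * Real.exp (c / 2 * x) := by
        calc x = 2 / c * (c / 2 * x) := this
          _ ≤ _ := by gcongr
      linarith
    calc (1 + x) * Real.exp (-(c * x)) ≤ ((2 / c + 1) * Real.exp (c / 2 * x)) * Real.exp (-(c * x)) := by
          gcongr
      _ = (2 / c + 1) * Real.exp (-(c / 2) * x) := by
          rw [mul_assoc, ← Real.exp_add]; congr 2; ring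

theorem integrableOn_master {ζ : ℂ} (hζ : |ζ.re| < 1 / 2) :
    IntegrableOn (fun x : ℝ => Complex.sinh (ζ * x) / (Real.sinh (x / 2) : ℝ)) (Ioi 0) := by
  have h1 : IntegrableOn (fun x : ℝ => 2 * ‖ζ‖ * ((1 + x) *
      Real.exp (-((1 / 2 - |ζ.re|) * x)))) (Ioi 0) :=
    (integrableOn_lin_exp (by linarith)).const_mul _
  refine Integrable.mono' h1 ?_ ?_
  · refine Measurable.aestronglyMeasurable ?_
    have : Measurable (fun x : ℝ => Complex.sinh (ζ * x)) := by
      exact (Complex.continuous_sinh.comp (by fun_prop)).measurable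
    have h2 : Measurable (fun x : ℝ => ((Real.sinh (x / 2) : ℝ) : ℂ)) := by
      exact (Complex.continuous_ofReal.comp (Real.continuous_sinh.comp (by fun_prop))).measurable
    exact this.div h2
  · refine (ae_restrict_iff' measurableSet_Ioi).2 (Eventually.of_forall fun x hx => ?_)
    exact norm_master_le hx

/-- Mittag-Leffler series of the tangent. -/
theorem tan_series {ζ : ℂ} (hζ : |ζ.re| < 1 / 2) :
    Tendsto (fun N : ℕ => ∑ n ∈ Finset.range N,
      (1 / ((n : ℂ) + 1 / 2 - ζ) - 1 / ((n : ℂ) + 1 / 2 + ζ))) atTop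
      (𝓝 (π * Complex.tan (π * ζ))) := by
  have hre := abs_lt.1 hζ
  set x : ℂ := 1 / 2 - ζ with hx
  have hxre : x.re = 1 / 2 - ζ.re := by simp [hx]
  have hxZ : x ∈ Complex.integerComplement := by
    rw [Complex.mem_integerComplement_iff]
    rintro ⟨k, hk⟩
    have h1 : (k : ℝ) = x.re := by rw [← hk]; simp
    rw [hxre] at h1
    have h2 : (0 : ℝ) < k := by rw [h1]; linarith
    have h3 : (k : ℝ) < 1 := by rw [h1]; linarith
    have h4 : (0 : ℤ) < k := by exact_mod_cast h2
    have h5 : k < (1 : ℤ) := by exact_mod_cast h3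
    omega
  have h0 := tendsto_logDeriv_euler_cot_sub hxZ
  have hcot : Complex.cot (π * x) = Complex.tan (π * ζ) := by
    have : (π : ℂ) * x = π / 2 - π * ζ := by rw [hx]; ring
    rw [this, Complex.cot, Complex.cos_pi_div_two_sub, Complex.sin_pi_div_two_sub,
      Complex.tan_eq_sin_div_cos]
  have hlim : Tendsto (fun N : ℕ => 1 / x - 1 / ((N : ℂ) + x)) atTop (𝓝 (1 / x - 0)) := by
    refine tendsto_const_nhds.sub ?_
    have h1 : Tendsto (fun N : ℕ => ‖(N : ℂ) + x‖) atTop atTop := by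
      refine tendsto_atTop_mono (f := fun N : ℕ => (N : ℝ)) ?_ tendsto_natCast_atTop_atTop
      intro N
      have h2 := Complex.re_le_norm ((N : ℂ) + x)
      simp only [Complex.add_re, Complex.natCast_re, hxre] at h2
      linarith
    have h2 : Tendsto (fun N : ℕ => ‖1 / ((N : ℂ) + x)‖) atTop (𝓝 0) := by
      simp only [one_div, norm_inv]
      exact h1.inv_tendsto_atTop
    exact tendsto_zero_iff_norm_tendsto_zero.2 h2
  have h1 := h0.add hlim
  have e : π * Complex.cot (π * x) - 1 / x + (1 / x - 0) = π * Complex.tan (π * ζ) := by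
    rw [hcot]; ring
  rw [e] at h1
  refine h1.congr fun N => ?_
  induction N with
  | zero => simp
  | succ N ih =>
    rw [Finset.sum_range_succ, Finset.sum_range_succ, ← ih]
    have e1 : (N : ℂ) + 1 / 2 - ζ = N + x := by rw [hx]; ring
    have e2 : x - ((N : ℂ) + 1) = -((N : ℂ) + 1 / 2 + ζ) := by rw [hx]; ring
    have e3 : x + ((N : ℂ) + 1) = ((N + 1 : ℕ) : ℂ) + x := by push_cast; ring
    simp only [cotTerm]
    rw [e1, e2, e3, div_neg]
    ring

theorem partial_master (ζ : ℂ) {x : ℝ} (hx : 0 < x) (N : ℕ) :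
    ∑ n ∈ Finset.range N, (Complex.exp (-((n : ℂ) + 1 / 2 - ζ) * x)
        - Complex.exp (-((n : ℂ) + 1 / 2 + ζ) * x))
      = Complex.sinh (ζ * x) / (Real.sinh (x / 2) : ℝ) * (1 - Complex.exp (-(N * x))) := by
  have hs : ((Real.sinh (x / 2) : ℝ) : ℂ) ≠ 0 := by
    have : 0 < Real.sinh (x / 2) := Real.sinh_pos_iff.2 (by linarith)
    exact_mod_cast this.ne'
  induction N with
  | zero => simp
  | succ N ih =>
    rw [Finset.sum_range_succ, ih]
    rw [div_mul_eq_mul_div, div_mul_eq_mul_div, div_add' _ _ _ hs, div_left_inj' hs]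
    have e1 : Complex.exp (-((N : ℂ) + 1 / 2 - ζ) * x)
        = Complex.exp (-(N * x)) * Complex.exp (-(x / 2)) * Complex.exp (ζ * x) := by
      rw [← Complex.exp_add, ← Complex.exp_add]; congr 1; ring
    have e2 : Complex.exp (-((N : ℂ) + 1 / 2 + ζ) * x)
        = Complex.exp (-(N * x)) * Complex.exp (-(x / 2)) * Complex.exp (-(ζ * x)) := by
      rw [← Complex.exp_add, ← Complex.exp_add]; congr 1; ring
    have e3 : Complex.exp (-(((N + 1 : ℕ) : ℂ) * x))
        = Complex.exp (-(N * x)) * (Complex.exp (-(x / 2)) * Complex.exp (-(x / 2))) := by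
      rw [← Complex.exp_add, ← Complex.exp_add]; congr 1; push_cast; ring
    have e4 : ((Real.sinh (x / 2) : ℝ) : ℂ)
        = (Complex.exp (x / 2) - Complex.exp (-(x / 2))) / 2 := by
      push_cast
      rw [Complex.sinh]
    have e5 : Complex.exp ((x : ℂ) / 2) * Complex.exp (-((x : ℂ) / 2)) = 1 := by
      rw [← Complex.exp_add]; simp
    rw [e1, e2, e3, e4, Complex.sinh]
    linear_combination (Complex.exp (ζ * x) - Complex.exp (-(ζ * x))) / 2 *
      Complex.exp (-(N * x)) * e5

/-- The master integral. -/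
theorem master {ζ : ℂ} (hζ : |ζ.re| < 1 / 2) :
    ∫ x : ℝ in Ioi 0, Complex.sinh (ζ * x) / (Real.sinh (x / 2) : ℝ)
      = π * Complex.tan (π * ζ) := by
  have hre := abs_lt.1 hζ
  have hint := integrableOn_master hζ
  have h1 : Tendsto (fun N : ℕ => ∫ x : ℝ in Ioi 0,
      Complex.sinh (ζ * x) / (Real.sinh (x / 2) : ℝ) * (1 - Complex.exp (-(N * x)))) atTop
      (𝓝 (∫ x : ℝ in Ioi 0, Complex.sinh (ζ * x) / (Real.sinh (x / 2) : ℝ))) := by
    refine tendsto_integral_of_dominated_convergence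
      (fun x : ℝ => ‖Complex.sinh (ζ * x) / (Real.sinh (x / 2) : ℝ)‖) ?_ hint.norm ?_ ?_
    · intro N
      refine hint.aestronglyMeasurable.mul ?_
      have : Continuous (fun x : ℝ => 1 - Complex.exp (-((N : ℂ) * x))) := by fun_prop
      exact this.aestronglyMeasurable
    · intro N
      refine (ae_restrict_iff' measurableSet_Ioi).2 (Eventually.of_forall fun x hx => ?_)
      simp only [mem_Ioi] at hx
      rw [norm_mul]
      have h2 : ‖1 - Complex.exp (-((N : ℂ) * x))‖ ≤ 1 := by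
        have e : Complex.exp (-((N : ℂ) * x)) = (Real.exp (-(N * x)) : ℝ) := by
          push_cast; ring_nf
        rw [e, ← Complex.ofReal_one, ← Complex.ofReal_sub, Complex.norm_real, Real.norm_eq_abs]
        have h3 : Real.exp (-(N * x)) ≤ 1 := Real.exp_le_one_iff.2 (by
          have : 0 ≤ (N : ℝ) * x := by positivity
          linarith)
        have h4 : 0 < Real.exp (-(N * x)) := Real.exp_pos _
        rw [abs_le]; constructor <;> linarith
      calc _ ≤ ‖Complex.sinh (ζ * x) / (Real.sinh (x / 2) : ℝ)‖ * 1 := by gcongr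
        _ = _ := mul_one _
    · refine (ae_restrict_iff' measurableSet_Ioi).2 (Eventually.of_forall fun x hx => ?_)
      simp only [mem_Ioi] at hx
      have h2 : Tendsto (fun N : ℕ => Complex.exp (-((N : ℂ) * x))) atTop (𝓝 0) := by
        have h3 : Tendsto (fun N : ℕ => Real.exp (-((N : ℝ) * x))) atTop (𝓝 0) := by
          refine Real.tendsto_exp_neg_atTop_nhds_zero.comp ?_
          exact tendsto_natCast_atTop_atTop.atTop_mul_const hx
        have h4 := (Complex.continuous_ofReal.tendsto 0).comp h3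
        simp only [Complex.ofReal_zero] at h4
        refine h4.congr fun N => ?_
        simp [Function.comp]
      have h3 := (h2.const_sub 1).const_mul
        (Complex.sinh (ζ * x) / (Real.sinh (x / 2) : ℝ))
      simpa using h3
  have h2 : Tendsto (fun N : ℕ => ∫ x : ℝ in Ioi 0,
      Complex.sinh (ζ * x) / (Real.sinh (x / 2) : ℝ) * (1 - Complex.exp (-(N * x)))) atTop
      (𝓝 (π * Complex.tan (π * ζ))) := by
    refine (tan_series hζ).congr fun N => ?_
    have h3 : ∫ x : ℝ in Ioi 0,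
        Complex.sinh (ζ * x) / (Real.sinh (x / 2) : ℝ) * (1 - Complex.exp (-(N * x)))
        = ∫ x : ℝ in Ioi 0, ∑ n ∈ Finset.range N,
          (Complex.exp (-((n : ℂ) + 1 / 2 - ζ) * x)
            - Complex.exp (-((n : ℂ) + 1 / 2 + ζ) * x)) := by
      refine setIntegral_congr_fun measurableSet_Ioi fun x hx => ?_
      exact (partial_master ζ hx N).symm
    rw [h3]
    have hi1 : ∀ n : ℕ, IntegrableOn
        (fun x : ℝ => Complex.exp (-((n : ℂ) + 1 / 2 - ζ) * x)) (Ioi 0) := fun n =>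
      integrableOn_exp_mul_complex_Ioi (by
        simp only [Complex.neg_re, Complex.sub_re, Complex.add_re, Complex.natCast_re,
          Complex.one_re, Complex.div_ofNat_re]
        have : (0 : ℝ) ≤ n := Nat.cast_nonneg n
        linarith) 0
    have hi2 : ∀ n : ℕ, IntegrableOn
        (fun x : ℝ => Complex.exp (-((n : ℂ) + 1 / 2 + ζ) * x)) (Ioi 0) := fun n =>
      integrableOn_exp_mul_complex_Ioi (by
        simp only [Complex.neg_re, Complex.add_re, Complex.natCast_re,
          Complex.one_re, Complex.div_ofNat_re]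
        have : (0 : ℝ) ≤ n := Nat.cast_nonneg n
        linarith) 0
    have e0 : ∫ x : ℝ in Ioi 0, ∑ n ∈ Finset.range N,
          (Complex.exp (-((n : ℂ) + 1 / 2 - ζ) * x)
            - Complex.exp (-((n : ℂ) + 1 / 2 + ζ) * x))
        = ∑ n ∈ Finset.range N, ∫ x : ℝ in Ioi 0, (Complex.exp (-((n : ℂ) + 1 / 2 - ζ) * x)
            - Complex.exp (-((n : ℂ) + 1 / 2 + ζ) * x)) :=
      integral_finsetSum _ fun n _ => (hi1 n).sub (hi2 n)
    rw [e0]
    refine Finset.sum_congr rfl fun n _ => ?_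
    have e1 : ∫ x : ℝ in Ioi 0, (Complex.exp (-((n : ℂ) + 1 / 2 - ζ) * x)
            - Complex.exp (-((n : ℂ) + 1 / 2 + ζ) * x))
        = (∫ x : ℝ in Ioi 0, Complex.exp (-((n : ℂ) + 1 / 2 - ζ) * x))
          - ∫ x : ℝ in Ioi 0, Complex.exp (-((n : ℂ) + 1 / 2 + ζ) * x) :=
      integral_sub (hi1 n) (hi2 n)
    rw [e1, integral_exp_mul_complex_Ioi (by
        simp only [Complex.neg_re, Complex.sub_re, Complex.add_re, Complex.natCast_re,
          Complex.one_re, Complex.div_ofNat_re]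
        have : (0 : ℝ) ≤ n := Nat.cast_nonneg n
        linarith), integral_exp_mul_complex_Ioi (by
        simp only [Complex.neg_re, Complex.add_re, Complex.natCast_re,
          Complex.one_re, Complex.div_ofNat_re]
        have : (0 : ℝ) ≤ n := Nat.cast_nonneg n
        linarith)]
    simp only [Complex.ofReal_zero, mul_zero, Complex.exp_zero, neg_div_neg_eq]
  exact tendsto_nhds_unique h1 h2

/-- Scaled version of integrability. -/
theorem integrableOn_master' {β : ℂ} {c : ℝ} (hc : 0 < c) (hβ : |β.re| < c) :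
    IntegrableOn (fun x : ℝ => Complex.sinh (β * x) / (Real.sinh (c * x) : ℝ)) (Ioi 0) := by
  have h2c : 0 < 2 * c := by linarith
  have hζ : |(β / (2 * c)).re| < 1 / 2 := by
    have : (β / (2 * (c : ℂ))).re = β.re / (2 * c) := by
      have e : (2 * (c : ℂ)) = ((2 * c : ℝ) : ℂ) := by push_cast; ring
      rw [e, Complex.div_ofReal_re]
    rw [this, abs_div, abs_of_pos h2c, div_lt_iff₀ h2c]
    linarith
  have h := integrableOn_master hζ
  have h1 := (integrableOn_Ioi_comp_mul_left_iff (f := fun x : ℝ =>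
    Complex.sinh (β / (2 * c) * x) / (Real.sinh (x / 2) : ℝ)) 0 h2c).2 (by simpa using h)
  refine h1.congr_fun (fun x _ => ?_) measurableSet_Ioi
  have hcc : (c : ℂ) ≠ 0 := by exact_mod_cast hc.ne'
  simp only
  congr 2
  · push_cast; field_simp
  · congr 1; ring

/-- Scaled version of the master integral. -/
theorem master' {β : ℂ} {c : ℝ} (hc : 0 < c) (hβ : |β.re| < c) :
    ∫ x : ℝ in Ioi 0, Complex.sinh (β * x) / (Real.sinh (c * x) : ℝ)
      = π / (2 * c) * Complex.tan (π * β / (2 * c)) := by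
  have h2c : 0 < 2 * c := by linarith
  have hcc : (c : ℂ) ≠ 0 := by exact_mod_cast hc.ne'
  have hζ : |(β / (2 * c)).re| < 1 / 2 := by
    have : (β / (2 * (c : ℂ))).re = β.re / (2 * c) := by
      have e : (2 * (c : ℂ)) = ((2 * c : ℝ) : ℂ) := by push_cast; ring
      rw [e, Complex.div_ofReal_re]
    rw [this, abs_div, abs_of_pos h2c, div_lt_iff₀ h2c]
    linarith
  have h1 := integral_comp_mul_left_Ioi (fun x : ℝ =>
    Complex.sinh (β / (2 * c) * x) / (Real.sinh (x / 2) : ℝ)) 0 h2c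
  rw [mul_zero, master hζ] at h1
  have h2 : ∫ x : ℝ in Ioi 0, Complex.sinh (β * x) / (Real.sinh (c * x) : ℝ)
      = ∫ x : ℝ in Ioi 0, Complex.sinh (β / (2 * c) * ((2 * c * x : ℝ) : ℂ))
        / (Real.sinh (2 * c * x / 2) : ℝ) := by
    refine setIntegral_congr_fun measurableSet_Ioi fun x _ => ?_
    congr 2
    · push_cast; field_simp
    · congr 1; ring
  rw [h2, h1, Complex.real_smul]
  push_cast
  rw [mul_div_assoc]
  field_simp

end Pool.Agent.NUQ
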