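import Mathlib
import Pool.Agent.NUQ.Mas

/-!
# Real forms of the master integral
-/

open MeasureTheory Filter Topology Set
open scoped BigOperators Real

namespace Pool.Agent.NUQ

theorem tan_re_im (p q : ℝ) (h : Real.cos (2 * p) + Real.cosh (2 * q) ≠ 0) :
    Complex.tan (p + q * Complex.I)
      = ((Real.sin (2 * p) / (Real.cos (2 * p) + Real.cosh (2 * q)) : ℝ) : ℂ)
        + ((Real.sinh (2 * q) / (Real.cos (2 * p) + Real.cosh (2 * q)) : ℝ) : ℂ) * Complex.I := by
  set z : ℂ := p + q * Complex.I with hz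
  set z' : ℂ := p - q * Complex.I with hz'
  have e1 : ((Real.cos (2 * p) + Real.cosh (2 * q) : ℝ) : ℂ)
      = 2 * Complex.cos z * Complex.cos z' := by
    have h1 : ((Real.cos (2 * p) : ℝ) : ℂ) = Complex.cos (z + z') := by
      push_cast; congr 1; rw [hz, hz']; ring
    have h2 : ((Real.cosh (2 * q) : ℝ) : ℂ) = Complex.cos (z - z') := by
      rw [Complex.ofReal_cosh, ← Complex.cos_mul_I]; congr 1; rw [hz, hz']; push_cast; ring
    rw [Complex.ofReal_add, h1, h2, Complex.cos_add z z', Complex.cos_sub z z']; ring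
  have e2 : ((Real.sin (2 * p) : ℝ) : ℂ) + ((Real.sinh (2 * q) : ℝ) : ℂ) * Complex.I
      = 2 * Complex.sin z * Complex.cos z' := by
    have h1 : ((Real.sin (2 * p) : ℝ) : ℂ) = Complex.sin (z + z') := by
      push_cast; congr 1; rw [hz, hz']; ring
    have h2 : ((Real.sinh (2 * q) : ℝ) : ℂ) * Complex.I = Complex.sin (z - z') := by
      rw [Complex.ofReal_sinh, ← Complex.sin_mul_I]; congr 1; rw [hz, hz']; push_cast; ring
    rw [h1, h2, Complex.sin_add z z', Complex.sin_sub z z']; ring
  have hne : 2 * Complex.cos z * Complex.cos z' ≠ 0 := by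
    rw [← e1]; exact_mod_cast h
  have hz1 : Complex.cos z ≠ 0 := by
    intro h0; apply hne; rw [h0]; ring
  have hz2 : Complex.cos z' ≠ 0 := by
    intro h0; apply hne; rw [h0]; ring
  rw [Complex.ofReal_div, Complex.ofReal_div, div_mul_eq_mul_div, ← add_div, e1, e2,
    Complex.tan_eq_sin_div_cos]
  field_simp

theorem sinh_re (a b : ℝ) : (Complex.sinh (a + b * Complex.I)).re = Real.sinh a * Real.cos b := by
  rw [Complex.sinh_add, Complex.sinh_mul_I, Complex.cosh_mul_I]
  have h1 : Complex.sinh a = (Real.sinh a : ℝ) := by simp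
  have h2 : Complex.cosh a = (Real.cosh a : ℝ) := by simp
  have h3 : Complex.cos b = (Real.cos b : ℝ) := by simp
  have h4 : Complex.sin b = (Real.sin b : ℝ) := by simp
  rw [h1, h2, h3, h4]
  simp only [Complex.add_re, Complex.mul_re, Complex.ofReal_re, Complex.ofReal_im, Complex.I_re,
    Complex.I_im, Complex.mul_im]
  ring

theorem sinh_im (a b : ℝ) : (Complex.sinh (a + b * Complex.I)).im = Real.cosh a * Real.sin b := by
  rw [Complex.sinh_add, Complex.sinh_mul_I, Complex.cosh_mul_I]
  have h1 : Complex.sinh a = (Real.sinh a : ℝ) := by simp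
  have h2 : Complex.cosh a = (Real.cosh a : ℝ) := by simp
  have h3 : Complex.cos b = (Real.cos b : ℝ) := by simp
  have h4 : Complex.sin b = (Real.sin b : ℝ) := by simp
  rw [h1, h2, h3, h4]
  simp only [Complex.add_im, Complex.mul_re, Complex.ofReal_re, Complex.ofReal_im, Complex.I_re,
    Complex.I_im, Complex.mul_im]
  ring

theorem master_re_eq {a b c x : ℝ} :
    (Complex.sinh ((a + b * Complex.I) * x) / (Real.sinh (c * x) : ℝ)).re
      = Real.sinh (a * x) * Real.cos (b * x) / Real.sinh (c * x) := by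
  rw [Complex.div_ofReal_re]
  congr 1
  have : ((a : ℂ) + b * Complex.I) * x = ((a * x : ℝ) : ℂ) + ((b * x : ℝ) : ℂ) * Complex.I := by
    push_cast; ring
  rw [this, sinh_re]

theorem master_im_eq {a b c x : ℝ} :
    (Complex.sinh ((a + b * Complex.I) * x) / (Real.sinh (c * x) : ℝ)).im
      = Real.cosh (a * x) * Real.sin (b * x) / Real.sinh (c * x) := by
  rw [Complex.div_ofReal_im]
  congr 1
  have : ((a : ℂ) + b * Complex.I) * x = ((a * x : ℝ) : ℂ) + ((b * x : ℝ) : ℂ) * Complex.I := by
    push_cast; ring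
  rw [this, sinh_im]

theorem integrableOn_re {a b c : ℝ} (hc : 0 < c) (ha : |a| < c) :
    IntegrableOn (fun x : ℝ => Real.sinh (a * x) * Real.cos (b * x) / Real.sinh (c * x))
      (Ioi 0) := by
  have h : |((a : ℂ) + b * Complex.I).re| < c := by simpa using ha
  have h1 := (integrableOn_master' hc h).re
  refine Integrable.congr h1 (Eventually.of_forall fun x => ?_)
  exact master_re_eq

theorem integrableOn_im {a b c : ℝ} (hc : 0 < c) (ha : |a| < c) :
    IntegrableOn (fun x : ℝ => Real.cosh (a * x) * Real.sin (b * x) / Real.sinh (c * x))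
      (Ioi 0) := by
  have h : |((a : ℂ) + b * Complex.I).re| < c := by simpa using ha
  have h1 := (integrableOn_master' hc h).im
  refine Integrable.congr h1 (Eventually.of_forall fun x => ?_)
  exact master_im_eq

theorem cos_add_cosh_pos {θ y : ℝ} (h : |θ| < π) : 0 < Real.cos θ + Real.cosh y := by
  have h1 : -1 < Real.cos θ := by
    rw [← Real.cos_abs, ← Real.cos_pi]
    exact Real.cos_lt_cos_of_nonneg_of_le_pi (abs_nonneg _) le_rfl h
  have h2 := Real.one_le_cosh y
  linarith

theorem int_both {a b c : ℝ} (hc : 0 < c) (ha : |a| < c) :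
    (∫ x : ℝ in Ioi 0, Real.sinh (a * x) * Real.cos (b * x) / Real.sinh (c * x)
      = π / (2 * c) * (Real.sin (π * a / c) / (Real.cos (π * a / c) + Real.cosh (π * b / c)))) ∧
    (∫ x : ℝ in Ioi 0, Real.cosh (a * x) * Real.sin (b * x) / Real.sinh (c * x)
      = π / (2 * c) *
        (Real.sinh (π * b / c) / (Real.cos (π * a / c) + Real.cosh (π * b / c)))) := by
  have h : |((a : ℂ) + b * Complex.I).re| < c := by simpa using ha
  have h1 := master' hc h
  have hi := integrableOn_master' hc h
  have e : (π : ℂ) * ((a : ℂ) + b * Complex.I) / (2 * c)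
      = ((π * a / (2 * c) : ℝ) : ℂ) + ((π * b / (2 * c) : ℝ) : ℂ) * Complex.I := by
    push_cast; ring
  have ea : 2 * (π * a / (2 * c)) = π * a / c := by field_simp
  have eb : 2 * (π * b / (2 * c)) = π * b / c := by field_simp
  have hθ : |π * a / c| < π := by
    rw [abs_div, abs_mul, abs_of_pos Real.pi_pos, abs_of_pos hc, div_lt_iff₀ hc]
    exact mul_lt_mul_of_pos_left ha Real.pi_pos
  have hpos := cos_add_cosh_pos (y := π * b / c) hθ
  rw [e, tan_re_im _ _ (by rw [ea, eb]; exact hpos.ne'), ea, eb] at h1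
  have e2 : (π : ℂ) / (2 * c) = ((π / (2 * c) : ℝ) : ℂ) := by push_cast; ring
  rw [e2] at h1
  constructor
  · have h3 := congrArg RCLike.re h1
    rw [← integral_re hi] at h3
    have h4 : ∫ x : ℝ in Ioi 0, Real.sinh (a * x) * Real.cos (b * x) / Real.sinh (c * x)
        = ∫ x : ℝ in Ioi 0, RCLike.re (Complex.sinh ((a + b * Complex.I) * x)
          / (Real.sinh (c * x) : ℝ)) := by
      refine integral_congr_ae (Eventually.of_forall fun x => ?_)
      exact master_re_eq.symm
    rw [h4, h3]
    simp only [RCLike.re_to_complex, Complex.add_re, Complex.mul_re, Complex.ofReal_re,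
      Complex.ofReal_im, Complex.I_re, Complex.I_im]
    ring
  · have h3 := congrArg RCLike.im h1
    rw [← integral_im hi] at h3
    have h4 : ∫ x : ℝ in Ioi 0, Real.cosh (a * x) * Real.sin (b * x) / Real.sinh (c * x)
        = ∫ x : ℝ in Ioi 0, RCLike.im (Complex.sinh ((a + b * Complex.I) * x)
          / (Real.sinh (c * x) : ℝ)) := by
      refine integral_congr_ae (Eventually.of_forall fun x => ?_)
      exact master_im_eq.symm
    rw [h4, h3]
    simp only [RCLike.im_to_complex, Complex.add_im, Complex.mul_im, Complex.mul_re,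
      Complex.add_re, Complex.ofReal_re, Complex.ofReal_im, Complex.I_re, Complex.I_im]
    ring

/-- Fourier transform of `sin phi / (cosh x + cos phi)`. -/
theorem int_phi {φ : ℝ} (hφ : |φ| < π) (X : ℝ) :
    ∫ x : ℝ in Ioi 0, Real.sinh (φ * x) * Real.cos (X * x) / Real.sinh (π * x)
      = 1 / 2 * (Real.sin φ / (Real.cos φ + Real.cosh X)) := by
  have h := (int_both (b := X) Real.pi_pos hφ).1
  have hp := Real.pi_pos.ne'
  rw [h, mul_div_cancel_left₀ _ hp, mul_div_cancel_left₀ _ hp]
  congr 1
  field_simp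

/-- The function `A`. -/
noncomputable def Afun (t : ℝ) : ℝ := Real.sinh (2 * t) / (Real.cosh (2 * t) + √2 / 2)

/-- The spectral density of `A`. -/
noncomputable def WA (k : ℝ) : ℝ := Real.cosh (π / 8 * k) / Real.sinh (π / 2 * k)

theorem int_A (t : ℝ) : ∫ k : ℝ in Ioi 0, Real.sin (t * k) * WA k = Afun t := by
  have h1 : |π / 8| < π / 2 := by
    rw [abs_of_pos (by positivity)]; have := Real.pi_pos; linarith
  have h := (int_both (a := π / 8) (b := t) (c := π / 2) (by positivity) h1).2
  have hp := Real.pi_pos.ne'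
  have e1 : π * (π / 8) / (π / 2) = π / 4 := by field_simp; ring
  have e2 : π * t / (π / 2) = 2 * t := by field_simp
  have e3 : π / (2 * (π / 2)) = 1 := by field_simp
  rw [e1, e2, e3, one_mul, Real.cos_pi_div_four] at h
  rw [Afun, add_comm (Real.cosh (2 * t)), ← h]
  refine integral_congr_ae (Eventually.of_forall fun x => ?_)
  simp only [WA]
  ring

theorem integrable_A (t : ℝ) : IntegrableOn (fun k : ℝ => Real.sin (t * k) * WA k) (Ioi 0) := by
  have h1 : |π / 8| < π / 2 := by
    rw [abs_of_pos (by positivity)]; have := Real.pi_pos; linarith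
  refine Integrable.congr (integrableOn_im (a := π / 8) (b := t) (c := π / 2) (by positivity) h1)
    (Eventually.of_forall fun x => ?_)
  simp only [WA]
  ring

/-- The half line sine transform of `1 / sinh (pi x)`. -/
theorem int_tanh (u : ℝ) : ∫ x : ℝ in Ioi 0, Real.sin (u * x) / Real.sinh (π * x)
    = 1 / 2 * Real.tanh (u / 2) := by
  have h := (int_both (a := 0) (b := u) Real.pi_pos (by simpa using Real.pi_pos)).2
  have hp := Real.pi_pos.ne'
  simp only [zero_mul, Real.cosh_zero, one_mul, mul_zero, zero_div, Real.cos_zero] at h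
  rw [h, mul_div_cancel_left₀ _ hp]
  have e : π / (2 * π) = 1 / 2 := by field_simp
  rw [e]
  congr 1
  have h1 : u = 2 * (u / 2) := by ring
  have hc := (Real.cosh_pos (u / 2)).ne'
  rw [Real.tanh_eq_sinh_div_cosh]
  conv_lhs => rw [h1]
  rw [Real.sinh_two_mul, Real.cosh_two_mul]
  have h2 := Real.cosh_sq (u / 2)
  have h3 : 1 + (Real.cosh (u / 2) ^ 2 + Real.sinh (u / 2) ^ 2) = 2 * Real.cosh (u / 2) ^ 2 := by
    rw [h2]; ring
  rw [h3]
  field_simp

theorem integrable_tanh (u : ℝ) :
    IntegrableOn (fun x : ℝ => Real.sin (u * x) / Real.sinh (π * x)) (Ioi 0) := by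
  have h := integrableOn_im (a := 0) (b := u) Real.pi_pos (by simpa using Real.pi_pos)
  simpa using h

end Pool.Agent.NUQ
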