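import Mathlib
import Pool.Agent.NUQ.Mas2

/-!
# The weight `x / sinh (pi x)` and the transform `E q u = int q(x) w(x) exp(i u x) dx`
-/

open MeasureTheory Filter Topology Set
open scoped BigOperators Real

namespace Pool.Agent.NUQ

/-- The weight. -/
noncomputable def wt (x : ℝ) : ℝ := x / Real.sinh (π * x)

theorem wt_neg (x : ℝ) : wt (-x) = wt x := by
  unfold wt
  rw [mul_neg, Real.sinh_neg, neg_div_neg_eq]

theorem wt_abs (x : ℝ) : wt |x| = wt x := by
  rcases abs_choice x with h | h
  · rw [h]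
  · rw [h, wt_neg]

theorem wt_nonneg (x : ℝ) : 0 ≤ wt x := by
  rw [← wt_abs]
  unfold wt
  have : 0 ≤ Real.sinh (π * |x|) := Real.sinh_nonneg_iff.2 (by positivity)
  positivity

theorem wt_pos {x : ℝ} (hx : x ≠ 0) : 0 < wt x := by
  rw [← wt_abs]
  unfold wt
  have h : 0 < |x| := abs_pos.2 hx
  have : 0 < Real.sinh (π * |x|) := Real.sinh_pos_iff.2 (by positivity)
  positivity

theorem measurable_wt : Measurable wt := by
  unfold wt
  exact measurable_id.div (Real.continuous_sinh.comp (by fun_prop)).measurable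

theorem wt_le (x : ℝ) : wt x ≤ 2 * Real.exp (-((π - 1) * |x|)) := by
  rw [← wt_abs]
  rcases eq_or_ne x 0 with rfl | hx
  · simp only [abs_zero, wt, zero_div]; positivity
  have hp : 0 < |x| := abs_pos.2 hx
  have hs : 0 < Real.sinh (π * |x|) := Real.sinh_pos_iff.2 (by positivity)
  have h1 := mul_exp_le_sinh (y := π * |x|) (by positivity)
  have h2 : Real.exp (π * |x|) * Real.exp (-(π * |x|)) = 1 := by rw [← Real.exp_add]; simp
  have h3 : π * |x| ≤ (1 + 2 * (π * |x|)) * Real.sinh (π * |x|) * Real.exp (-(π * |x|)) := by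
    have h4 := mul_le_mul_of_nonneg_right h1 (Real.exp_pos (-(π * |x|))).le
    calc π * |x| = π * |x| * Real.exp (π * |x|) * Real.exp (-(π * |x|)) := by
          rw [mul_assoc, h2, mul_one]
      _ ≤ _ := h4
  have h5 : 1 + 2 * (π * |x|) ≤ 2 * π * Real.exp |x| := by
    have h6 := Real.add_one_le_exp |x|
    have h7 := Real.pi_gt_three
    have h8 : 2 * π * (|x| + 1) ≤ 2 * π * Real.exp |x| := by gcongr
    nlinarith
  have h9 : |x| ≤ 2 * Real.exp (-((π - 1) * |x|)) * Real.sinh (π * |x|) := by
    have h10 : π * |x| ≤ (2 * π * Real.exp |x|) * Real.sinh (π * |x|) * Real.exp (-(π * |x|)) := by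
      refine h3.trans ?_
      gcongr
    have h11 : Real.exp (-((π - 1) * |x|)) = Real.exp |x| * Real.exp (-(π * |x|)) := by
      rw [← Real.exp_add]; congr 1; ring
    rw [h11]
    have hpi := Real.pi_pos
    have h12 : π * |x| ≤ π * (2 * (Real.exp |x| * Real.exp (-(π * |x|))) * Real.sinh (π * |x|)) := by
      calc π * |x| ≤ _ := h10
        _ = _ := by ring
    exact le_of_mul_le_mul_left h12 hpi
  unfold wt
  rw [div_le_iff₀ hs]
  exact h9

theorem abs_pow_le (k : ℕ) (x : ℝ) : |x| ^ k ≤ k.factorial * Real.exp |x| := by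
  have h := Real.pow_div_factorial_le_exp |x| (abs_nonneg x) k
  rwa [div_le_iff₀ (by positivity), mul_comm] at h

theorem integrable_pow_wt (k : ℕ) : Integrable (fun x : ℝ => x ^ k * wt x) := by
  have hpi := Real.pi_gt_three
  have h1 : Integrable (fun x : ℝ => (2 * (k.factorial : ℝ)) * Real.exp (-((π - 2) * |x|))) :=
    (integrable_exp_neg_mul_abs (by linarith)).const_mul _
  refine Integrable.mono' h1 ((measurable_id.pow_const k).mul measurable_wt).aestronglyMeasurable
    (Eventually.of_forall fun x => ?_)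
  rw [norm_mul, norm_pow, Real.norm_eq_abs, Real.norm_of_nonneg (wt_nonneg x)]
  have h2 := abs_pow_le k x
  have h3 := wt_le x
  calc |x| ^ k * wt x ≤ (k.factorial * Real.exp |x|) * (2 * Real.exp (-((π - 1) * |x|))) := by
        gcongr
        exact wt_nonneg x
    _ = 2 * k.factorial * (Real.exp |x| * Real.exp (-((π - 1) * |x|))) := by ring
    _ = 2 * k.factorial * Real.exp (-((π - 2) * |x|)) := by
        rw [← Real.exp_add]; congr 2; ring

theorem integrable_poly_wt (q : Polynomial ℝ) : Integrable (fun x : ℝ => q.eval x * wt x) := by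
  have h : ∀ x : ℝ, q.eval x * wt x
      = ∑ k ∈ Finset.range (q.natDegree + 1), q.coeff k * (x ^ k * wt x) := by
    intro x
    rw [Polynomial.eval_eq_sum_range, Finset.sum_mul]
    exact Finset.sum_congr rfl fun k _ => by ring
  simp only [h]
  exact integrable_finsetSum _ fun k _ => (integrable_pow_wt k).const_mul _

theorem integrable_poly_wt_mul (q : Polynomial ℝ) {g : ℝ → ℂ} (hg : Measurable g)
    (hb : ∀ x, ‖g x‖ ≤ 1) :
    Integrable (fun x : ℝ => ((q.eval x * wt x : ℝ) : ℂ) * g x) := by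
  have h1 : Integrable (fun x : ℝ => ((q.eval x * wt x : ℝ) : ℂ)) := (integrable_poly_wt q).ofReal
  exact h1.mul_bdd (c := 1) hg.aestronglyMeasurable (Eventually.of_forall hb)

theorem norm_exp_I (u x : ℝ) : ‖Complex.exp (u * x * Complex.I)‖ = 1 := by
  have : (u : ℂ) * x * Complex.I = ((u * x : ℝ) : ℂ) * Complex.I := by push_cast; ring
  rw [this, Complex.norm_exp_ofReal_mul_I]

/-- The transform. -/
noncomputable def E (q : Polynomial ℝ) (u : ℝ) : ℂ :=
  ∫ x : ℝ, ((q.eval x * wt x : ℝ) : ℂ) * Complex.exp (u * x * Complex.I)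

theorem integrable_E (q : Polynomial ℝ) (u : ℝ) :
    Integrable (fun x : ℝ => ((q.eval x * wt x : ℝ) : ℂ) * Complex.exp (u * x * Complex.I)) :=
  integrable_poly_wt_mul q (by fun_prop) fun x => (norm_exp_I u x).le

theorem E_add (p q : Polynomial ℝ) (u : ℝ) : E (p + q) u = E p u + E q u := by
  unfold E
  rw [← integral_add (integrable_E p u) (integrable_E q u)]
  refine integral_congr_ae (Eventually.of_forall fun x => ?_)
  simp only [Polynomial.eval_add]
  push_cast
  ring

theorem E_C_mul (c : ℝ) (q : Polynomial ℝ) (u : ℝ) : E (Polynomial.C c * q) u = c * E q u := by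
  unfold E
  rw [← integral_const_mul]
  refine integral_congr_ae (Eventually.of_forall fun x => ?_)
  simp only [Polynomial.eval_mul, Polynomial.eval_C]
  push_cast
  ring

theorem E_sub (p q : Polynomial ℝ) (u : ℝ) : E (p - q) u = E p u - E q u := by
  have : p - q = p + Polynomial.C (-1) * q := by simp; ring
  rw [this, E_add, E_C_mul]
  push_cast; ring

theorem hasDerivAt_E (q : Polynomial ℝ) (u : ℝ) :
    HasDerivAt (E q) (Complex.I * E (Polynomial.X * q) u) u := by
  have h := hasDerivAt_integral_of_dominated_loc_of_deriv_le (μ := volume) (x₀ := u)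
    (s := univ) (F := fun (v : ℝ) (x : ℝ) =>
      ((q.eval x * wt x : ℝ) : ℂ) * Complex.exp (v * x * Complex.I))
    (F' := fun (v : ℝ) (x : ℝ) =>
      ((q.eval x * wt x : ℝ) : ℂ) * (Complex.exp (v * x * Complex.I) * (x * Complex.I)))
    (bound := fun x => ‖((Polynomial.X * q).eval x * wt x : ℝ)‖) univ_mem
    (Eventually.of_forall fun v => (integrable_E q v).aestronglyMeasurable)
    (integrable_E q u) ?_ ?_ (integrable_poly_wt _).norm ?_
  · have h2 := h.2
    have e : ∫ x : ℝ, ((q.eval x * wt x : ℝ) : ℂ) *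
        (Complex.exp (u * x * Complex.I) * (x * Complex.I))
        = Complex.I * E (Polynomial.X * q) u := by
      unfold E
      rw [← integral_const_mul]
      refine integral_congr_ae (Eventually.of_forall fun x => ?_)
      simp only [Polynomial.eval_mul, Polynomial.eval_X]
      push_cast
      ring
    rw [← e]
    exact h2
  · refine Measurable.aestronglyMeasurable ?_
    refine Measurable.mul ?_ (by fun_prop)
    exact (Complex.continuous_ofReal.measurable).comp
      ((Polynomial.continuous q).measurable.mul measurable_wt)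
  · refine Eventually.of_forall fun x v _ => ?_
    rw [norm_mul, norm_mul, norm_exp_I, one_mul, norm_mul, Complex.norm_I, mul_one,
      Complex.norm_real, Complex.norm_real]
    simp only [Polynomial.eval_mul, Polynomial.eval_X, norm_mul]
    apply le_of_eq; ring
  · refine Eventually.of_forall fun x v _ => ?_
    have h1 : HasDerivAt (fun v : ℝ => (v : ℂ) * x * Complex.I) (1 * x * Complex.I) v :=
      ((Complex.ofRealCLM.hasDerivAt (x := v)).mul_const _).mul_const _
    have h2 := (h1.cexp).const_mul ((q.eval x * wt x : ℝ) : ℂ)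
    simpa using h2

theorem hasDerivAt_tanh (y : ℝ) : HasDerivAt Real.tanh (1 - Real.tanh y ^ 2) y := by
  have hc := (Real.cosh_pos y).ne'
  have h := (Real.hasDerivAt_sinh y).div (Real.hasDerivAt_cosh y) hc
  have h1 : (Real.sinh / Real.cosh : ℝ → ℝ) = Real.tanh := by
    funext z; simp [Real.tanh_eq_sinh_div_cosh]
  rw [h1] at h
  have e : (Real.cosh y * Real.cosh y - Real.sinh y * Real.sinh y) / Real.cosh y ^ 2
      = 1 - Real.tanh y ^ 2 := by
    rw [Real.tanh_eq_sinh_div_cosh]
    field_simp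
  rw [e] at h
  exact h

theorem hasDerivAt_tanh_half (u : ℝ) :
    HasDerivAt (fun v : ℝ => Real.tanh (v / 2)) (1 / 2 * (1 - Real.tanh (u / 2) ^ 2)) u := by
  have h1 : HasDerivAt (fun v : ℝ => v / 2) (1 / 2) u := (hasDerivAt_id u).div_const 2
  have h2 := (hasDerivAt_tanh (u / 2)).comp u h1
  have e : (1 - Real.tanh (u / 2) ^ 2) * (1 / 2) = 1 / 2 * (1 - Real.tanh (u / 2) ^ 2) := by ring
  rw [e] at h2
  exact h2

theorem hasDerivAt_int_tanh (u : ℝ) :
    HasDerivAt (fun v : ℝ => ∫ x : ℝ in Ioi 0, Real.sin (v * x) / Real.sinh (π * x))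
      (∫ x : ℝ in Ioi 0, Real.cos (u * x) * wt x) u := by
  have hw : IntegrableOn wt (Ioi 0) := by
    have := integrable_pow_wt 0
    simp only [pow_zero, one_mul] at this
    exact this.integrableOn
  refine (hasDerivAt_integral_of_dominated_loc_of_deriv_le (μ := volume.restrict (Ioi 0))
    (x₀ := u) (s := univ) (F := fun (v : ℝ) (x : ℝ) => Real.sin (v * x) / Real.sinh (π * x))
    (F' := fun (v : ℝ) (x : ℝ) => Real.cos (v * x) * wt x)
    (bound := fun x => wt x) univ_mem
    (Eventually.of_forall fun v => (integrable_tanh v).aestronglyMeasurable)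
    (integrable_tanh u) ?_ ?_ hw ?_).2
  · exact ((by fun_prop : Measurable (fun x : ℝ => Real.cos (u * x))).mul
      measurable_wt).aestronglyMeasurable
  · refine Eventually.of_forall fun x v _ => ?_
    rw [norm_mul, Real.norm_of_nonneg (wt_nonneg x), Real.norm_eq_abs]
    have := Real.abs_cos_le_one (v * x)
    have h2 := wt_nonneg x
    nlinarith
  · refine Eventually.of_forall fun x v _ => ?_
    have h1 : HasDerivAt (fun v : ℝ => v * x) (1 * x) v := (hasDerivAt_id v).mul_const x
    have h2 := (h1.sin).div_const (Real.sinh (π * x))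
    have e : Real.cos (v * x) * (1 * x) / Real.sinh (π * x) = Real.cos (v * x) * wt x := by
      unfold wt; ring
    rw [e] at h2
    exact h2

theorem int_cos_wt (u : ℝ) : ∫ x : ℝ in Ioi 0, Real.cos (u * x) * wt x
    = 1 / 4 * (1 - Real.tanh (u / 2) ^ 2) := by
  have h1 := hasDerivAt_int_tanh u
  have h2 : HasDerivAt (fun v : ℝ => 1 / 2 * Real.tanh (v / 2))
      (1 / 4 * (1 - Real.tanh (u / 2) ^ 2)) u := by
    have h := (hasDerivAt_tanh_half u).const_mul (1 / 2 : ℝ)
    have e : 1 / 2 * (1 / 2 * (1 - Real.tanh (u / 2) ^ 2))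
        = 1 / 4 * (1 - Real.tanh (u / 2) ^ 2) := by ring
    rw [e] at h
    exact h
  have h3 : (fun v : ℝ => ∫ x : ℝ in Ioi 0, Real.sin (v * x) / Real.sinh (π * x))
      = fun v : ℝ => 1 / 2 * Real.tanh (v / 2) := funext int_tanh
  rw [h3] at h1
  exact h1.unique h2

theorem integral_even_real {f : ℝ → ℝ} (hf : ∀ x, f (-x) = f x) (hi : Integrable f) :
    ∫ x : ℝ, f x = 2 * ∫ x : ℝ in Ioi 0, f x := by
  rw [← intervalIntegral.integral_Iic_add_Ioi (b := 0) hi.integrableOn hi.integrableOn]
  have h := integral_comp_neg_Iic (0 : ℝ) f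
  simp only [hf, neg_zero] at h
  rw [h]; ring

theorem E_one (u : ℝ) : E 1 u = ((1 / 2 * (1 - Real.tanh (u / 2) ^ 2) : ℝ) : ℂ) := by
  have hw : Integrable wt := by
    have := integrable_pow_wt 0
    simpa using this
  have hcos : Integrable (fun x : ℝ => Real.cos (u * x) * wt x) := by
    refine hw.bdd_mul (c := 1) (by fun_prop) ?_
    exact Eventually.of_forall fun x => by simpa using Real.abs_cos_le_one (u * x)
  have hsin : Integrable (fun x : ℝ => Real.sin (u * x) * wt x) := by
    refine hw.bdd_mul (c := 1) (by fun_prop) ?_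
    exact Eventually.of_forall fun x => by simpa using Real.abs_sin_le_one (u * x)
  have h1 : ∫ x : ℝ, Real.cos (u * x) * wt x = 1 / 2 * (1 - Real.tanh (u / 2) ^ 2) := by
    rw [integral_even_real _ hcos, int_cos_wt]
    · ring
    · intro x
      rw [wt_neg, mul_neg, Real.cos_neg]
  have h2 : ∫ x : ℝ, Real.sin (u * x) * wt x = 0 := by
    have h := integral_neg_eq_self (fun x : ℝ => Real.sin (u * x) * wt x) volume
    simp only [wt_neg, mul_neg, Real.sin_neg, neg_mul] at h
    rw [integral_neg] at h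
    linarith
  have h3 : E 1 u = ∫ x : ℝ, (((Real.cos (u * x) * wt x : ℝ) : ℂ)
      + ((Real.sin (u * x) * wt x : ℝ) : ℂ) * Complex.I) := by
    unfold E
    refine integral_congr_ae (Eventually.of_forall fun x => ?_)
    have : (u : ℂ) * x * Complex.I = ((u * x : ℝ) : ℂ) * Complex.I := by push_cast; ring
    simp only [Polynomial.eval_one, one_mul]
    rw [this, Complex.exp_mul_I]
    push_cast
    ring
  have h4 : ∫ x : ℝ, (((Real.cos (u * x) * wt x : ℝ) : ℂ)
      + ((Real.sin (u * x) * wt x : ℝ) : ℂ) * Complex.I)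
      = (∫ x : ℝ, ((Real.cos (u * x) * wt x : ℝ) : ℂ))
        + ∫ x : ℝ, ((Real.sin (u * x) * wt x : ℝ) : ℂ) * Complex.I :=
    integral_add hcos.ofReal (hsin.ofReal.mul_const _)
  have h5 : ∫ x : ℝ, ((Real.cos (u * x) * wt x : ℝ) : ℂ)
      = ((∫ x : ℝ, Real.cos (u * x) * wt x : ℝ) : ℂ) := integral_ofReal
  have h6 : ∫ x : ℝ, ((Real.sin (u * x) * wt x : ℝ) : ℂ)
      = ((∫ x : ℝ, Real.sin (u * x) * wt x : ℝ) : ℂ) := integral_ofReal
  rw [h3, h4, integral_mul_const, h5, h6, h1, h2]
  simp

end Pool.Agent.NUQ
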