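import Mathlib
import Pool.Agent.NUQ.MPw

/-!
# Closed form of `E (MP l * MP n)` for the Meixner-Pollaczek polynomials (lambda = 1, phi = pi/2)
-/

open MeasureTheory Filter Topology Set Finset
open scoped BigOperators Real

namespace Pool.Agent.NUQ

/-- The Meixner-Pollaczek polynomials with `lambda = 1`, angle `pi/2`. -/
noncomputable def MP : ℕ → Polynomial ℝ
  | 0 => 1
  | 1 => Polynomial.C 2 * Polynomial.X
  | (n + 2) => Polynomial.C (2 / ((n : ℝ) + 2)) * (Polynomial.X * MP (n + 1)) - MP n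

theorem MP_zero : MP 0 = 1 := by rw [MP]
theorem MP_one : MP 1 = Polynomial.C 2 * Polynomial.X := by rw [MP]
theorem MP_add_two (n : ℕ) :
    MP (n + 2) = Polynomial.C (2 / ((n : ℝ) + 2)) * (Polynomial.X * MP (n + 1)) - MP n := by
  rw [MP]

noncomputable def Af (n p : ℕ) (a : ℝ) : ℝ := (-1) ^ p * (n.choose p : ℝ) * a ^ (n - p)

noncomputable def Bf (n j : ℕ) (a : ℝ) : ℝ := ((n + 1 + j).choose j : ℝ) * a ^ j

noncomputable def dB (n : ℕ) : ℕ → ℝ → ℝ
  | 0, _ => 0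
  | (j + 1), a => ((n : ℝ) + 2 + j) * Bf n j a

theorem Af_succ (n p : ℕ) (a : ℝ) :
    a * (((p : ℝ) + 1) * Af n (p + 1) a) = -(((n : ℝ) - p) * Af n p a) := by
  unfold Af
  rcases lt_or_ge p n with h | h
  · have h1 : (n.choose (p + 1) : ℝ) * ((p : ℝ) + 1) = n.choose p * ((n : ℝ) - p) := by
      have := Nat.choose_succ_right_eq n p
      have h2 : ((n.choose (p + 1) * (p + 1) : ℕ) : ℝ) = ((n.choose p * (n - p) : ℕ) : ℝ) := by
        rw [this]
      push_cast [Nat.cast_sub h.le] at h2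
      exact h2
    have h3 : a ^ (n - p) = a ^ (n - (p + 1)) * a := by
      rw [← pow_succ]; congr 1; omega
    rw [h3, pow_succ]
    linear_combination (-(-1) ^ p * a ^ (n - (p + 1)) * a) * h1
  · rw [Nat.choose_eq_zero_of_lt (by omega : n < p + 1)]
    rcases eq_or_lt_of_le h with h2 | h2
    · subst h2; simp
    · rw [Nat.choose_eq_zero_of_lt h2]; simp

theorem Bf_succ (n j : ℕ) (a : ℝ) :
    ((j : ℝ) + 1) * Bf n (j + 1) a = ((n : ℝ) + 2 + j) * a * Bf n j a := by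
  unfold Bf
  have h := Nat.add_one_mul_choose_eq (n + 1 + j) j
  have h2 : (((n + 1 + j + 1) * (n + 1 + j).choose j : ℕ) : ℝ)
      = (((n + 1 + j + 1).choose (j + 1) * (j + 1) : ℕ) : ℝ) := by rw [h]
  have e : n + 1 + (j + 1) = (n + 1 + j + 1) := by omega
  rw [e, pow_succ]
  push_cast at h2 ⊢
  linear_combination (-a ^ j * a) * h2

theorem hasDerivAt_Af (n p : ℕ) (a : ℝ) :
    HasDerivAt (Af n p) (-(((p : ℝ) + 1) * Af n (p + 1) a)) a := by
  have h := ((hasDerivAt_pow (n - p) a).const_mul ((-1) ^ p * (n.choose p : ℝ)))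
  have e : (-1) ^ p * (n.choose p : ℝ) * (((n - p : ℕ) : ℝ) * a ^ (n - p - 1))
      = -(((p : ℝ) + 1) * Af n (p + 1) a) := by
    unfold Af
    have h1 : (n.choose (p + 1) : ℝ) * ((p : ℝ) + 1) = n.choose p * ((n - p : ℕ) : ℝ) := by
      have := Nat.choose_succ_right_eq n p
      have h2 : ((n.choose (p + 1) * (p + 1) : ℕ) : ℝ) = ((n.choose p * (n - p) : ℕ) : ℝ) := by
        rw [this]
      push_cast at h2
      exact h2
    have h3 : n - (p + 1) = n - p - 1 := by omega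
    rw [h3, pow_succ]
    linear_combination (-(-1) ^ p * a ^ (n - p - 1)) * h1
  rw [e] at h
  exact h

theorem hasDerivAt_Bf (n j : ℕ) (a : ℝ) : HasDerivAt (Bf n j) (dB n j a) a := by
  have h := (hasDerivAt_pow j a).const_mul ((n + 1 + j).choose j : ℝ)
  cases j with
  | zero =>
    have e : Bf n 0 = fun y : ℝ => ((n + 1 + 0).choose 0 : ℝ) * y ^ 0 := by
      funext y; simp [Bf]
    rw [e]
    simpa [dB] using h
  | succ j =>
    have e : ((n + 1 + (j + 1)).choose (j + 1) : ℝ) * (((j + 1 : ℕ) : ℝ) * a ^ (j + 1 - 1))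
        = dB n (j + 1) a := by
      have h1 := Nat.add_one_mul_choose_eq (n + 1 + j) j
      have h2 : (((n + 1 + j + 1) * (n + 1 + j).choose j : ℕ) : ℝ)
          = (((n + 1 + j + 1).choose (j + 1) * (j + 1) : ℕ) : ℝ) := by rw [h1]
      have e : n + 1 + (j + 1) = (n + 1 + j + 1) := by omega
      simp only [dB, Bf]
      rw [e, Nat.add_sub_cancel]
      push_cast at h2 ⊢
      linear_combination (-a ^ j) * h2
    rw [e] at h
    exact h

theorem a_mul_dB (n j : ℕ) (a : ℝ) : a * dB n j a = j * Bf n j a := by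
  cases j with
  | zero => simp [dB]
  | succ j =>
    have := Bf_succ n j a
    simp only [dB]
    push_cast
    linear_combination -this

noncomputable def Kt (n l : ℕ) (a : ℝ) : ℝ :=
  ∑ x ∈ antidiagonal l, Af n x.1 a * Bf n x.2 a

noncomputable def dKt (n l : ℕ) (a : ℝ) : ℝ :=
  ∑ x ∈ antidiagonal l,
    (-(((x.1 : ℝ) + 1) * Af n (x.1 + 1) a) * Bf n x.2 a + Af n x.1 a * dB n x.2 a)

theorem hasDerivAt_Kt (n l : ℕ) (a : ℝ) : HasDerivAt (Kt n l) (dKt n l a) a := by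
  unfold dKt
  have h : ∀ x ∈ antidiagonal l, HasDerivAt (fun b => Af n x.1 b * Bf n x.2 b)
      (-(((x.1 : ℝ) + 1) * Af n (x.1 + 1) a) * Bf n x.2 a + Af n x.1 a * dB n x.2 a) a :=
    fun x _ => (hasDerivAt_Af n x.1 a).mul (hasDerivAt_Bf n x.2 a)
  exact HasDerivAt.fun_sum h

theorem shift1 (m : ℕ) (f : ℕ → ℕ → ℝ) :
    ∑ x ∈ antidiagonal (m + 1), (x.1 : ℝ) * f x.1 x.2
      = ∑ x ∈ antidiagonal m, ((x.1 : ℝ) + 1) * f (x.1 + 1) x.2 := by
  rw [Finset.Nat.sum_antidiagonal_succ]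
  simp

theorem shift2 (m : ℕ) (f : ℕ → ℕ → ℝ) :
    ∑ x ∈ antidiagonal (m + 1), (x.2 : ℝ) * f x.1 x.2
      = ∑ x ∈ antidiagonal m, ((x.2 : ℝ) + 1) * f x.1 (x.2 + 1) := by
  rw [Finset.Nat.sum_antidiagonal_succ']
  simp

theorem Kt_mul (n m : ℕ) (a : ℝ) :
    ((m : ℝ) + 1) * Kt n (m + 1) a = ∑ x ∈ antidiagonal m,
      ((((x.1 : ℝ) + 1) * Af n (x.1 + 1) a) * Bf n x.2 a
        + Af n x.1 a * (((x.2 : ℝ) + 1) * Bf n (x.2 + 1) a)) := by
  have h1 : ((m : ℝ) + 1) * Kt n (m + 1) a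
      = ∑ x ∈ antidiagonal (m + 1), (x.1 : ℝ) * (Af n x.1 a * Bf n x.2 a)
        + ∑ x ∈ antidiagonal (m + 1), (x.2 : ℝ) * (Af n x.1 a * Bf n x.2 a) := by
    unfold Kt
    rw [Finset.mul_sum, ← Finset.sum_add_distrib]
    refine Finset.sum_congr rfl fun x hx => ?_
    have h2 : (x.1 : ℝ) + x.2 = m + 1 := by
      have := Finset.HasAntidiagonal.mem_antidiagonal.1 hx
      exact_mod_cast this
    rw [← h2]; ring
  rw [h1, shift1 m (fun p j => Af n p a * Bf n j a), shift2 m (fun p j => Af n p a * Bf n j a),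
    ← Finset.sum_add_distrib]
  refine Finset.sum_congr rfl fun x _ => ?_
  ring

theorem Kt_one (n : ℕ) (a : ℝ) :
    Kt n 1 a = 2 * a * Kt n 0 a - (1 - a ^ 2) * dKt n 0 a := by
  have h := Kt_mul n 0 a
  have h1 : Kt n 0 a = Af n 0 a * Bf n 0 a := by simp [Kt]
  have h2 : dKt n 0 a = -((((0 : ℕ) : ℝ) + 1) * Af n (0 + 1) a) * Bf n 0 a + Af n 0 a * dB n 0 a := by
    simp [dKt]
  simp only [Finset.Nat.antidiagonal_zero, Finset.sum_singleton, dB] at h h2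
  have h3 := Bf_succ n 0 a
  have h4 := Af_succ n 0 a
  rw [h1, h2]
  push_cast at h h3 h4 ⊢
  linear_combination h + Af n 0 a * h3 + a * Bf n 0 a * h4

theorem Kt_rec (n l : ℕ) (a : ℝ) :
    ((l : ℝ) + 2) * (Kt n (l + 2) a - Kt n l a)
      = 2 * a * Kt n (l + 1) a - (1 - a ^ 2) * dKt n (l + 1) a := by
  have h := Kt_mul n (l + 1) a
  have h0 : ((l : ℝ) + 2) * Kt n l a
      = ∑ x ∈ antidiagonal (l + 1),
        (Af n x.1 a * dB n x.2 a + x.1 * (a * (Af n x.1 a * Bf n x.2 a))) := by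
    rw [Finset.sum_add_distrib, shift1 l (fun p j => a * (Af n p a * Bf n j a))]
    have h1 : ∑ x ∈ antidiagonal (l + 1), Af n x.1 a * dB n x.2 a
        = ∑ x ∈ antidiagonal l, Af n x.1 a * (((n : ℝ) + 2 + x.2) * Bf n x.2 a) := by
      rw [Finset.Nat.sum_antidiagonal_succ']
      simp [dB]
    rw [h1, ← Finset.sum_add_distrib]
    unfold Kt
    rw [Finset.mul_sum]
    refine Finset.sum_congr rfl fun x hx => ?_
    have h2 : (x.1 : ℝ) + x.2 = l := by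
      have := Finset.HasAntidiagonal.mem_antidiagonal.1 hx
      exact_mod_cast this
    have h3 := Af_succ n x.1 a
    rw [← h2]
    linear_combination (-Bf n x.2 a) * h3
  have h5 : 2 * a * Kt n (l + 1) a - (1 - a ^ 2) * dKt n (l + 1) a
      = ∑ x ∈ antidiagonal (l + 1), (2 * a * (Af n x.1 a * Bf n x.2 a)
        - (1 - a ^ 2) * (-(((x.1 : ℝ) + 1) * Af n (x.1 + 1) a) * Bf n x.2 a
          + Af n x.1 a * dB n x.2 a)) := by
    rw [Finset.sum_sub_distrib, ← Finset.mul_sum, ← Finset.mul_sum]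
    rfl
  have h6 : ((l : ℝ) + 2) * (Kt n (l + 2) a - Kt n l a)
      = (((l + 1 : ℕ) : ℝ) + 1) * Kt n (l + 1 + 1) a - ((l : ℝ) + 2) * Kt n l a := by
    push_cast; ring
  rw [h6, h, h0, h5, ← Finset.sum_sub_distrib]
  refine Finset.sum_congr rfl fun x _ => ?_
  have h7 := Af_succ n x.1 a
  have h8 := Bf_succ n x.2 a
  have h9 := a_mul_dB n x.2 a
  linear_combination (Af n x.1 a) * h8 + (a * Bf n x.2 a) * h7 + (-a * Af n x.1 a) * h9

theorem Kt_zero_left (l : ℕ) (a : ℝ) : Kt 0 l a = ((l : ℝ) + 1) * a ^ l := by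
  unfold Kt
  rw [Finset.sum_eq_single (0, l)]
  · simp [Af, Bf, add_comm 1 l]
  · rintro ⟨p, j⟩ hx hne
    have h := Finset.HasAntidiagonal.mem_antidiagonal.1 hx
    simp only at h
    have hp : p ≠ 0 := by
      rintro rfl
      apply hne
      simp at h
      rw [h]
    simp only [Af]
    rw [Nat.choose_eq_zero_of_lt (Nat.pos_of_ne_zero hp)]
    simp
  · intro h; exact absurd (by simp) h

theorem Kt_zero_right (n : ℕ) (a : ℝ) : Kt n 0 a = a ^ n := by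
  simp [Kt, Af, Bf]

/-- The key closed form, conditional on the base case `l = 0`. -/
theorem E_MP_aux (n : ℕ)
    (h0 : ∀ u : ℝ, E (MP 0 * MP n) u = 1 / 2 * Complex.I ^ n * ((n : ℂ) + 1)
      * ((1 - Real.tanh (u / 2) ^ 2 : ℝ) : ℂ) * ((Kt n 0 (Real.tanh (u / 2)) : ℝ) : ℂ)) (l : ℕ) :
    ∀ u : ℝ, E (MP l * MP n) u = 1 / 2 * Complex.I ^ (l + n) * ((n : ℂ) + 1)
      * ((1 - Real.tanh (u / 2) ^ 2 : ℝ) : ℂ) * ((Kt n l (Real.tanh (u / 2)) : ℝ) : ℂ) := by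
  -- derivative of the right side
  have hder : ∀ (l : ℕ) (u : ℝ), HasDerivAt (fun v : ℝ => (1 / 2 * Complex.I ^ (l + n) *
      ((n : ℂ) + 1)) * ((((1 - Real.tanh (v / 2) ^ 2) * Kt n l (Real.tanh (v / 2)) : ℝ)) : ℂ))
      ((1 / 2 * Complex.I ^ (l + n) * ((n : ℂ) + 1)) *
        ((1 / 2 * (1 - Real.tanh (u / 2) ^ 2) * (-(2 * Real.tanh (u / 2)) *
          Kt n l (Real.tanh (u / 2)) + (1 - Real.tanh (u / 2) ^ 2) *
          dKt n l (Real.tanh (u / 2))) : ℝ) : ℂ)) u := by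
    intro l u
    have h1 := hasDerivAt_tanh_half u
    have h2 := (hasDerivAt_Kt n l (Real.tanh (u / 2))).comp u h1
    have h3 : HasDerivAt (fun v : ℝ => 1 - Real.tanh (v / 2) ^ 2)
        (-(2 * Real.tanh (u / 2) * (1 / 2 * (1 - Real.tanh (u / 2) ^ 2)))) u := by
      have := (h1.pow 2).const_sub 1
      simpa using this
    have h4 : HasDerivAt (fun v : ℝ => (1 - Real.tanh (v / 2) ^ 2) * Kt n l (Real.tanh (v / 2)))
        (1 / 2 * (1 - Real.tanh (u / 2) ^ 2) * (-(2 * Real.tanh (u / 2)) *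
          Kt n l (Real.tanh (u / 2)) + (1 - Real.tanh (u / 2) ^ 2) *
          dKt n l (Real.tanh (u / 2)))) u := by
      have h5 := h3.mul h2
      have e : -(2 * Real.tanh (u / 2) * (1 / 2 * (1 - Real.tanh (u / 2) ^ 2))) *
          (Kt n l ∘ fun v : ℝ => Real.tanh (v / 2)) u + (1 - Real.tanh (u / 2) ^ 2) *
          (dKt n l (Real.tanh (u / 2)) * (1 / 2 * (1 - Real.tanh (u / 2) ^ 2)))
          = 1 / 2 * (1 - Real.tanh (u / 2) ^ 2) * (-(2 * Real.tanh (u / 2)) *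
          Kt n l (Real.tanh (u / 2)) + (1 - Real.tanh (u / 2) ^ 2) *
          dKt n l (Real.tanh (u / 2))) := by
        simp only [Function.comp]; ring
      rw [e] at h5
      exact h5
    exact h4.ofReal_comp.const_mul (1 / 2 * Complex.I ^ (l + n) * ((n : ℂ) + 1))
  -- the inductive step: derivative identity
  have hstep : ∀ (l : ℕ), (∀ u : ℝ, E (MP l * MP n) u = 1 / 2 * Complex.I ^ (l + n) *
      ((n : ℂ) + 1) * ((1 - Real.tanh (u / 2) ^ 2 : ℝ) : ℂ) *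
        ((Kt n l (Real.tanh (u / 2)) : ℝ) : ℂ)) →
      ∀ u : ℝ, E (Polynomial.X * (MP l * MP n)) u = -Complex.I *
        ((1 / 2 * Complex.I ^ (l + n) * ((n : ℂ) + 1)) *
        ((1 / 2 * (1 - Real.tanh (u / 2) ^ 2) * (-(2 * Real.tanh (u / 2)) *
          Kt n l (Real.tanh (u / 2)) + (1 - Real.tanh (u / 2) ^ 2) *
          dKt n l (Real.tanh (u / 2))) : ℝ) : ℂ)) := by
    intro l hl u
    have h1 := hasDerivAt_E (MP l * MP n) u
    have h2 := hder l u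
    have h3 : E (MP l * MP n) = (fun v : ℝ => (1 / 2 * Complex.I ^ (l + n) *
      ((n : ℂ) + 1)) * ((((1 - Real.tanh (v / 2) ^ 2) * Kt n l (Real.tanh (v / 2)) : ℝ)) : ℂ)) := by
      funext v
      rw [hl v]
      push_cast
      ring
    rw [← h3] at h2
    have h4 := h1.unique h2
    rw [← h4]
    linear_combination (E (Polynomial.X * (MP l * MP n)) u) * Complex.I_mul_I
  suffices H : (∀ u : ℝ, E (MP l * MP n) u = 1 / 2 * Complex.I ^ (l + n) * ((n : ℂ) + 1)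
      * ((1 - Real.tanh (u / 2) ^ 2 : ℝ) : ℂ) * ((Kt n l (Real.tanh (u / 2)) : ℝ) : ℂ)) ∧
      (∀ u : ℝ, E (MP (l + 1) * MP n) u = 1 / 2 * Complex.I ^ (l + 1 + n) * ((n : ℂ) + 1)
      * ((1 - Real.tanh (u / 2) ^ 2 : ℝ) : ℂ) * ((Kt n (l + 1) (Real.tanh (u / 2)) : ℝ) : ℂ)) from
    H.1
  induction l with
  | zero =>
    have hb : ∀ u : ℝ, E (MP 0 * MP n) u = 1 / 2 * Complex.I ^ (0 + n) * ((n : ℂ) + 1)
      * ((1 - Real.tanh (u / 2) ^ 2 : ℝ) : ℂ) * ((Kt n 0 (Real.tanh (u / 2)) : ℝ) : ℂ) := by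
      intro u; rw [zero_add]; exact h0 u
    refine ⟨hb, fun u => ?_⟩
    have h1 := hstep 0 hb u
    have e : MP (0 + 1) * MP n = Polynomial.C 2 * (Polynomial.X * (MP 0 * MP n)) := by
      rw [zero_add, MP_one, MP_zero]; ring
    rw [e, E_C_mul, h1]
    have h2 := Kt_one n (Real.tanh (u / 2))
    rw [zero_add, zero_add, h2, pow_add]
    push_cast
    ring
  | succ l ih =>
    refine ⟨ih.2, fun u => ?_⟩
    have h1 := hstep (l + 1) ih.2 u
    have h2 := ih.1 u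
    have e : MP (l + 1 + 1) * MP n = Polynomial.C (2 / ((l : ℝ) + 2)) *
        (Polynomial.X * (MP (l + 1) * MP n)) - MP l * MP n := by
      rw [MP_add_two]; ring
    rw [e, E_sub, E_C_mul, h1, h2]
    have h3 := Kt_rec n l (Real.tanh (u / 2))
    have hl : ((l : ℝ) + 2) ≠ 0 := by positivity
    set a := Real.tanh (u / 2) with ha
    have h4 : Kt n (l + 1 + 1) a = Kt n l a
        + (2 * a * Kt n (l + 1) a - (1 - a ^ 2) * dKt n (l + 1) a) / ((l : ℝ) + 2) := by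
      rw [← h3]; field_simp; ring
    have hI : Complex.I ^ (l + 1 + 1 + n) = -Complex.I ^ (l + n) := by
      rw [show l + 1 + 1 + n = (l + n) + 2 by ring, pow_add, Complex.I_sq]; ring
    have hI2 : -Complex.I * Complex.I ^ (l + 1 + n) = Complex.I ^ (l + n) := by
      rw [show l + 1 + n = (l + n) + 1 by ring, pow_succ]
      linear_combination (-Complex.I ^ (l + n)) * Complex.I_mul_I
    set X : ℝ := 1 / 2 * (1 - a ^ 2) * (-(2 * a) * Kt n (l + 1) a
      + (1 - a ^ 2) * dKt n (l + 1) a) with hX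
    have hR : 2 / ((l : ℝ) + 2) * X = -((1 - a ^ 2) *
        ((2 * a * Kt n (l + 1) a - (1 - a ^ 2) * dKt n (l + 1) a) / ((l : ℝ) + 2))) := by
      rw [hX]; field_simp; ring
    calc ((2 / ((l : ℝ) + 2) : ℝ) : ℂ) * (-Complex.I * (1 / 2 * Complex.I ^ (l + 1 + n) *
          ((n : ℂ) + 1) * (X : ℂ))) - 1 / 2 * Complex.I ^ (l + n) * ((n : ℂ) + 1) *
          ((1 - a ^ 2 : ℝ) : ℂ) * ((Kt n l a : ℝ) : ℂ)
        = 1 / 2 * (-Complex.I * Complex.I ^ (l + 1 + n)) * ((n : ℂ) + 1) *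
          ((2 / ((l : ℝ) + 2) * X : ℝ) : ℂ) - 1 / 2 * Complex.I ^ (l + n) * ((n : ℂ) + 1) *
          ((1 - a ^ 2 : ℝ) : ℂ) * ((Kt n l a : ℝ) : ℂ) := by
          rw [Complex.ofReal_mul (2 / ((l : ℝ) + 2)) X]; ring
      _ = 1 / 2 * (-Complex.I ^ (l + n)) * ((n : ℂ) + 1) * ((1 - a ^ 2 : ℝ) : ℂ) *
          ((Kt n l a + (2 * a * Kt n (l + 1) a - (1 - a ^ 2) * dKt n (l + 1) a)
            / ((l : ℝ) + 2) : ℝ) : ℂ) := by
          rw [hI2, hR, Complex.ofReal_neg, Complex.ofReal_mul, Complex.ofReal_add (Kt n l a)]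
          ring
      _ = _ := by rw [hI, h4]

/-- The closed form for all `l`, `n`. -/
theorem E_MP (l n : ℕ) (u : ℝ) :
    E (MP l * MP n) u = 1 / 2 * Complex.I ^ (l + n) * ((n : ℂ) + 1)
      * ((1 - Real.tanh (u / 2) ^ 2 : ℝ) : ℂ) * ((Kt n l (Real.tanh (u / 2)) : ℝ) : ℂ) := by
  have h00 : ∀ u : ℝ, E (MP 0 * MP 0) u = 1 / 2 * Complex.I ^ 0 * (((0 : ℕ) : ℂ) + 1)
      * ((1 - Real.tanh (u / 2) ^ 2 : ℝ) : ℂ) * ((Kt 0 0 (Real.tanh (u / 2)) : ℝ) : ℂ) := by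
    intro u
    rw [MP_zero, mul_one, E_one, Kt_zero_right]
    push_cast; simp
  have h0 : ∀ u : ℝ, E (MP 0 * MP n) u = 1 / 2 * Complex.I ^ n * ((n : ℂ) + 1)
      * ((1 - Real.tanh (u / 2) ^ 2 : ℝ) : ℂ) * ((Kt n 0 (Real.tanh (u / 2)) : ℝ) : ℂ) := by
    intro u
    have h1 := E_MP_aux 0 h00 n u
    rw [mul_comm (MP 0), h1, Kt_zero_left, Kt_zero_right]
    push_cast
    simp
    ring
  exact E_MP_aux n h0 l u

end Pool.Agent.NUQ
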