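import Mathlib
import Pool.Agent.NUQ.MPc
import Pool.Agent.NUQ.Fej

/-!
# The trace function `c_m(u) = sum_{l<m} int p_{2l}^2 w cos(u x) dx = (1/2) sum_{n<2m} L_n(tanh^2(u/2))`
-/

open MeasureTheory Filter Topology Set Finset
open scoped BigOperators Real

namespace Pool.Agent.NUQ

theorem Kt_diag (n : ℕ) (a : ℝ) : Kt n n a = (-1) ^ n * Rg n (a ^ 2) := by
  unfold Kt Rg
  rw [Finset.Nat.sum_antidiagonal_eq_sum_range_succ_mk, ← Finset.sum_range_reflect,
    Finset.mul_sum]
  refine Finset.sum_congr rfl fun j hj => ?_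
  have hj' : j ≤ n := by simpa [Nat.lt_succ_iff] using hj
  have e1 : n + 1 - 1 - j = n - j := by omega
  have e2 : n - (n - j) = j := by omega
  simp only [e1, e2, Af, Bf, rR]
  rw [Nat.choose_symm hj', ← pow_mul]
  have e3 : ((-1 : ℝ)) ^ (n - j) = (-1) ^ n * (-1) ^ j := by
    have h1 : ((-1 : ℝ)) ^ n = (-1) ^ (n - j) * (-1) ^ j := by
      rw [← pow_add]; congr 1; omega
    rw [h1, mul_assoc, ← mul_pow]; norm_num
  rw [e3, two_mul, pow_add]
  ring

theorem E_diag (n : ℕ) (u : ℝ) :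
    E (MP n * MP n) u = (((1 / 2 * ((n : ℝ) + 1)) * Hg n (Real.tanh (u / 2) ^ 2) : ℝ) : ℂ) := by
  rw [E_MP, Kt_diag, Hg_eq_R]
  have h1 : Complex.I ^ (n + n) = (-1) ^ n := by
    rw [← two_mul, pow_mul, Complex.I_sq]
  rw [h1]
  have h2 : ((-1 : ℂ)) ^ n * (-1) ^ n = 1 := by rw [← mul_pow]; norm_num
  push_cast
  linear_combination (1 / 2 * ((n : ℂ) + 1) * (1 - Complex.tanh (u / 2) ^ 2) *
    (Rg n (Real.tanh (u / 2) ^ 2) : ℂ)) * h2

theorem integrable_poly_wt_cos (q : Polynomial ℝ) (u : ℝ) :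
    Integrable (fun x : ℝ => q.eval x * wt x * Real.cos (u * x)) := by
  refine (integrable_poly_wt q).mul_bdd (c := 1) (by fun_prop) ?_
  exact Eventually.of_forall fun x => by simpa using Real.abs_cos_le_one (u * x)

theorem E_re (q : Polynomial ℝ) (u : ℝ) :
    (E q u).re = ∫ x : ℝ, q.eval x * wt x * Real.cos (u * x) := by
  unfold E
  have h := integral_re (integrable_E q u)
  simp only [RCLike.re_to_complex] at h
  rw [← h]
  refine integral_congr_ae (Eventually.of_forall fun x => ?_)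
  simp only
  have : (u : ℂ) * x * Complex.I = ((u * x : ℝ) : ℂ) * Complex.I := by push_cast; ring
  rw [this, Complex.re_ofReal_mul, Complex.exp_ofReal_mul_I_re]

theorem int_diag (n : ℕ) (u : ℝ) :
    ∫ x : ℝ, (MP n * MP n).eval x * wt x * Real.cos (u * x)
      = (1 / 2 * ((n : ℝ) + 1)) * Hg n (Real.tanh (u / 2) ^ 2) := by
  rw [← E_re, E_diag, Complex.ofReal_re]

theorem Kt_at_zero (n l : ℕ) : Kt n l 0 = if n = l then (-1) ^ n else 0 := by
  unfold Kt
  split_ifs with h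
  · subst h
    rw [Finset.sum_eq_single (n, 0)]
    · simp [Af, Bf]
    · rintro ⟨p, j⟩ hx hne
      have h1 := Finset.HasAntidiagonal.mem_antidiagonal.1 hx
      simp only at h1
      have hj : j ≠ 0 := by
        rintro rfl
        apply hne
        simp at h1
        rw [h1]
      simp [Bf, hj]
    · intro h; exact absurd (by simp) h
  · refine Finset.sum_eq_zero ?_
    rintro ⟨p, j⟩ hx
    have h1 := Finset.HasAntidiagonal.mem_antidiagonal.1 hx
    simp only at h1 ⊢
    rcases Nat.eq_zero_or_pos j with rfl | hj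
    · have hp : p ≠ n := by omega
      rcases Nat.lt_or_ge p n with h2 | h2
      · have : n - p ≠ 0 := by omega
        simp [Af, this]
      · have : n < p := by omega
        simp [Af, Nat.choose_eq_zero_of_lt this]
    · simp [Bf, hj.ne']

theorem int_orth (l n : ℕ) (hpar : Even (l + n)) :
    ∫ x : ℝ, (MP l * MP n).eval x * wt x = if l = n then 1 / 2 * ((n : ℝ) + 1) else 0 := by
  have h1 := E_re (MP l * MP n) 0
  simp only [zero_mul, Real.cos_zero, mul_one] at h1
  rw [← h1, E_MP]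
  simp only [zero_div, Real.tanh_zero]
  rw [Kt_at_zero]
  split_ifs with h2 h3 h3
  · subst h2
    have h4 : Complex.I ^ (n + n) = (-1) ^ n := by rw [← two_mul, pow_mul, Complex.I_sq]
    rw [h4]
    have h5 : ((-1 : ℂ)) ^ n * (-1) ^ n = 1 := by rw [← mul_pow]; norm_num
    have h6 : 1 / 2 * ((-1 : ℂ)) ^ n * ((n : ℂ) + 1) * ((1 - 0 ^ 2 : ℝ) : ℂ) *
        (((-1) ^ n : ℝ) : ℂ) = ((1 / 2 * ((n : ℝ) + 1) : ℝ) : ℂ) := by
      push_cast
      linear_combination (1 / 2 * ((n : ℂ) + 1)) * h5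
    rw [h6, Complex.ofReal_re]
  · exact absurd h2.symm h3
  · exact absurd h3.symm h2
  · simp

theorem MP_parity (n : ℕ) (x : ℝ) : (MP n).eval (-x) = (-1) ^ n * (MP n).eval x := by
  suffices H : (MP n).eval (-x) = (-1) ^ n * (MP n).eval x ∧
      (MP (n + 1)).eval (-x) = (-1) ^ (n + 1) * (MP (n + 1)).eval x from H.1
  induction n with
  | zero => simp [MP_zero, MP_one]
  | succ n ih =>
    refine ⟨ih.2, ?_⟩
    rw [MP_add_two]
    simp only [Polynomial.eval_sub, Polynomial.eval_mul, Polynomial.eval_C, Polynomial.eval_X]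
    rw [ih.1, ih.2, pow_succ, pow_succ]
    ring

/-- `f_m(x) = sum_{l<m} p_{2l}(x)^2 w(x)`. -/
noncomputable def fm (m : ℕ) (x : ℝ) : ℝ :=
  ∑ l ∈ range m, (MP (2 * l) * MP (2 * l)).eval x * wt x / (1 / 2 * (((2 * l : ℕ) : ℝ) + 1))

theorem integrable_fm (m : ℕ) : Integrable (fm m) := by
  unfold fm
  exact integrable_finsetSum _ fun l _ => (integrable_poly_wt _).div_const _

theorem fm_nonneg (m : ℕ) (x : ℝ) : 0 ≤ fm m x := by
  unfold fm
  refine Finset.sum_nonneg fun l _ => ?_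
  rw [Polynomial.eval_mul]
  have := wt_nonneg x
  have h2 := mul_self_nonneg ((MP (2 * l)).eval x)
  positivity

theorem int_fm_cos (m : ℕ) (u : ℝ) :
    ∫ x : ℝ, fm m x * Real.cos (u * x) = 1 / 2 * ∑ n ∈ range (2 * m), Lg n (Real.tanh (u / 2) ^ 2) := by
  have h1 : ∀ x : ℝ, fm m x * Real.cos (u * x) = ∑ l ∈ range m,
      (MP (2 * l) * MP (2 * l)).eval x * wt x * Real.cos (u * x)
        / (1 / 2 * (((2 * l : ℕ) : ℝ) + 1)) := by
    intro x
    unfold fm
    rw [Finset.sum_mul]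
    exact Finset.sum_congr rfl fun l _ => by ring
  simp only [h1]
  rw [integral_finsetSum _ fun l _ => (integrable_poly_wt_cos _ u).div_const _]
  have h2 : ∀ l ∈ range m, ∫ x : ℝ, (MP (2 * l) * MP (2 * l)).eval x * wt x * Real.cos (u * x)
        / (1 / 2 * (((2 * l : ℕ) : ℝ) + 1)) = Hg (2 * l) (Real.tanh (u / 2) ^ 2) := by
    intro l _
    rw [integral_div, int_diag]
    have : (1 / 2 * (((2 * l : ℕ) : ℝ) + 1)) ≠ 0 := by positivity
    field_simp
  rw [Finset.sum_congr rfl h2]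
  clear h2 h1
  induction m with
  | zero => simp
  | succ m ih =>
    rw [Finset.sum_range_succ, ih, Hg_eq_L]
    have : 2 * (m + 1) = (2 * m + 1) + 1 := by omega
    rw [this, Finset.sum_range_succ, Finset.sum_range_succ]
    ring

/-- The trace function. -/
noncomputable def cm (m : ℕ) (u : ℝ) : ℝ :=
  1 / 2 * ∑ n ∈ range (2 * m), Lg n (Real.tanh (u / 2) ^ 2)

theorem tanh_sq_lt_one (y : ℝ) : Real.tanh y ^ 2 < 1 := by
  rw [Real.tanh_eq_sinh_div_cosh, div_pow, div_lt_one (by have := Real.cosh_pos y; positivity)]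
  have := Real.cosh_sq y
  linarith

theorem cm_nonneg (m : ℕ) (u : ℝ) : 0 ≤ cm m u := by
  unfold cm
  have := sum_Lg_nonneg (2 * m) (sq_nonneg (Real.tanh (u / 2))) (tanh_sq_lt_one (u / 2)).le
  linarith

end Pool.Agent.NUQ
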