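import Mathlib
import Pool.Agent.NUQ.Tra

/-!
# Lower bound of `int f_m G`
-/

open MeasureTheory Filter Topology Set Finset
open scoped BigOperators Real

namespace Pool.Agent.NUQ

theorem key_ineq {v : ℝ} (hv : 0 ≤ v) :
    Real.sinh (3 * v) ≤ 3 * v * Real.cosh v ^ 4 := by
  have h1 := sinh_le_mul_cosh hv
  have h2 : Real.sinh (3 * v) = Real.sinh v * (4 * Real.cosh v ^ 2 - 1) := by
    rw [Real.sinh_three_mul]
    have := Real.cosh_sq v
    rw [this]; ring
  rw [h2]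
  set C := Real.cosh v with hC
  have hC1 : 1 ≤ C := Real.one_le_cosh v
  have h3 : 0 ≤ 4 * C ^ 2 - 1 := by nlinarith
  have h4 : 0 ≤ (C - 1) * (3 * C ^ 2 - C - 1) := by
    refine mul_nonneg (by linarith) ?_
    nlinarith
  have h5 : Real.sinh v * (4 * C ^ 2 - 1) ≤ v * C * (4 * C ^ 2 - 1) :=
    mul_le_mul_of_nonneg_right h1 h3
  have h6 : 0 ≤ v * C * ((C - 1) * (3 * C ^ 2 - C - 1)) := by positivity
  nlinarith

theorem one_sub_tanh_sq (y : ℝ) : 1 - Real.tanh y ^ 2 = 1 / Real.cosh y ^ 2 := by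
  rw [Real.tanh_eq_sinh_div_cosh]
  have h := (Real.cosh_pos y).ne'
  have h2 := Real.cosh_sq y
  field_simp
  linarith

/-- `sinh (phi eta) / sinh (pi eta) >= (phi/pi) sech^4 (pi eta / 3)`. -/
theorem ratio_ge {φ η : ℝ} (hφ : 0 ≤ φ) (hη : 0 < η) :
    φ / π * (1 - Real.tanh (π * η / 3) ^ 2) ^ 2 ≤ Real.sinh (φ * η) / Real.sinh (π * η) := by
  have hp := Real.pi_pos
  have hs : 0 < Real.sinh (π * η) := Real.sinh_pos_iff.2 (by positivity)
  rw [le_div_iff₀ hs]
  have h1 : φ * η ≤ Real.sinh (φ * η) := Real.self_le_sinh_iff.2 (by positivity)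
  have h2 := key_ineq (v := π * η / 3) (by positivity)
  have e : 3 * (π * η / 3) = π * η := by ring
  rw [e] at h2
  rw [one_sub_tanh_sq]
  have hc : 0 < Real.cosh (π * η / 3) := Real.cosh_pos _
  have h3 : (1 / Real.cosh (π * η / 3) ^ 2) ^ 2 * Real.sinh (π * η) ≤ π * η := by
    rw [div_pow, one_pow, ← pow_mul, div_mul_eq_mul_div, one_mul, div_le_iff₀ (by positivity)]
    exact h2
  calc φ / π * (1 / Real.cosh (π * η / 3) ^ 2) ^ 2 * Real.sinh (π * η)
      = φ / π * ((1 / Real.cosh (π * η / 3) ^ 2) ^ 2 * Real.sinh (π * η)) := by ring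
    _ ≤ φ / π * (π * η) := by
        refine mul_le_mul_of_nonneg_left h3 (by positivity)
    _ = φ * η := by field_simp
    _ ≤ _ := h1

theorem tendsto_tanh : Tendsto Real.tanh atTop (𝓝 1) := by
  have h1 : ∀ y : ℝ, Real.tanh y = (1 - Real.exp (-(2 * y))) / (1 + Real.exp (-(2 * y))) := by
    intro y
    rw [Real.tanh_eq_sinh_div_cosh, Real.sinh_eq, Real.cosh_eq]
    have h2 : Real.exp (-(2 * y)) = Real.exp (-y) * Real.exp (-y) := by
      rw [← Real.exp_add]; congr 1; ring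
    have h3 : Real.exp y * Real.exp (-y) = 1 := by rw [← Real.exp_add]; simp
    have h4 : 0 < Real.exp y := Real.exp_pos _
    have h5 : 0 < Real.exp (-y) := Real.exp_pos _
    rw [h2, div_eq_div_iff (by positivity) (by positivity)]
    linear_combination (Real.exp (-y)) * h3
  have h2 : Tendsto (fun y : ℝ => Real.exp (-(2 * y))) atTop (𝓝 0) := by
    refine Real.tendsto_exp_neg_atTop_nhds_zero.comp ?_
    exact tendsto_id.const_mul_atTop (by norm_num)
  have h3 : Tendsto (fun y : ℝ => (1 - Real.exp (-(2 * y))) / (1 + Real.exp (-(2 * y)))) atTop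
      (𝓝 ((1 - 0) / (1 + 0))) := (h2.const_sub 1).div (h2.const_add 1) (by norm_num)
  norm_num at h3
  refine h3.congr fun y => ?_
  rw [h1]

/-- integral of `sech^4 * poly(tanh)` -/
theorem int_sech4 (m : ℕ) :
    IntegrableOn (fun η : ℝ => (1 - Real.tanh (π * η / 3) ^ 2) ^ 2 * cm m (2 * π / 3 * η))
      (Ioi 0) ∧
    ∫ η in Ioi (0 : ℝ), (1 - Real.tanh (π * η / 3) ^ 2) ^ 2 * cm m (2 * π / 3 * η)
      = 3 / π * ∫ a in (0 : ℝ)..1, (1 - a ^ 2) * (1 / 2 * ∑ n ∈ range (2 * m), Lg n (a ^ 2)) := by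
  set q : ℝ → ℝ := fun a => (1 - a ^ 2) * (1 / 2 * ∑ n ∈ range (2 * m), Lg n (a ^ 2)) with hq
  have hqc : Continuous q := by
    refine (by fun_prop : Continuous fun a : ℝ => 1 - a ^ 2).mul (continuous_const.mul ?_)
    exact continuous_finsetSum _ fun n _ => (continuous_Lg n).comp (by fun_prop)
  have hp := Real.pi_pos
  have hder : ∀ η : ℝ, HasDerivAt (fun η : ℝ => 3 / π * ∫ a in (0 : ℝ)..(Real.tanh (π * η / 3)), q a)
      ((1 - Real.tanh (π * η / 3) ^ 2) ^ 2 * cm m (2 * π / 3 * η)) η := by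
    intro η
    have h1 : HasDerivAt (fun y : ℝ => π * y / 3) (π / 3) η := by
      have := ((hasDerivAt_id η).const_mul π).div_const 3
      simpa using this
    have h2 := (hasDerivAt_tanh (π * η / 3)).comp η h1
    have h3 : HasDerivAt (fun y : ℝ => ∫ a in (0 : ℝ)..y, q a) (q (Real.tanh (π * η / 3)))
        (Real.tanh (π * η / 3)) :=
      intervalIntegral.integral_hasDerivAt_right (hqc.intervalIntegrable _ _)
        (hqc.stronglyMeasurableAtFilter _ _) hqc.continuousAt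
    have h4 := (h3.comp η h2).const_mul (3 / π)
    have e : 3 / π * (q (Real.tanh (π * η / 3)) * ((1 - Real.tanh (π * η / 3) ^ 2) * (π / 3)))
        = (1 - Real.tanh (π * η / 3) ^ 2) ^ 2 * cm m (2 * π / 3 * η) := by
      have e2 : 2 * π / 3 * η / 2 = π * η / 3 := by ring
      simp only [hq, cm, e2]
      field_simp
    rw [e] at h4
    exact h4
  have hlim : Tendsto (fun η : ℝ => 3 / π * ∫ a in (0 : ℝ)..(Real.tanh (π * η / 3)), q a) atTop
      (𝓝 (3 / π * ∫ a in (0 : ℝ)..1, q a)) := by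
    refine Tendsto.const_mul _ ?_
    have h1 : Tendsto (fun η : ℝ => Real.tanh (π * η / 3)) atTop (𝓝 1) := by
      refine tendsto_tanh.comp ?_
      have h2 : (fun η : ℝ => π * η / 3) = fun η : ℝ => π / 3 * η := by funext η; ring
      rw [h2]
      exact tendsto_id.const_mul_atTop (by positivity)
    have h2 : Continuous (fun y : ℝ => ∫ a in (0 : ℝ)..y, q a) :=
      intervalIntegral.continuous_primitive (fun a b => hqc.intervalIntegrable a b) 0
    exact (h2.tendsto 1).comp h1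
  have hnn : ∀ η ∈ Ioi (0 : ℝ), 0 ≤ (1 - Real.tanh (π * η / 3) ^ 2) ^ 2 * cm m (2 * π / 3 * η) :=
    fun η _ => mul_nonneg (sq_nonneg _) (cm_nonneg m _)
  have hint := integrableOn_Ioi_deriv_of_nonneg' (fun x _ => hder x) hnn hlim
  refine ⟨hint, ?_⟩
  have h5 := integral_Ioi_of_hasDerivAt_of_tendsto' (fun x _ => hder x) hint hlim
  rw [h5]
  simp

theorem sum_int_ge (m : ℕ) :
    1 / 2 * (∑ n ∈ range (2 * m), 1 / (2 * (n : ℝ) + 1) - 1 / 3)
      ≤ ∫ a in (0 : ℝ)..1, (1 - a ^ 2) * (1 / 2 * ∑ n ∈ range (2 * m), Lg n (a ^ 2)) := by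
  have hL : ∀ n, Continuous (fun a : ℝ => (1 - a ^ 2) * Lg n (a ^ 2)) := fun n =>
    (by fun_prop : Continuous fun a : ℝ => 1 - a ^ 2).mul ((continuous_Lg n).comp (by fun_prop))
  have h1 : ∫ a in (0 : ℝ)..1, (1 - a ^ 2) * (1 / 2 * ∑ n ∈ range (2 * m), Lg n (a ^ 2))
      = 1 / 2 * ∑ n ∈ range (2 * m), ∫ a in (0 : ℝ)..1, (1 - a ^ 2) * Lg n (a ^ 2) := by
    rw [← intervalIntegral.integral_finsetSum fun n _ => (hL n).intervalIntegrable _ _,
      ← intervalIntegral.integral_const_mul]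
    congr 1
    funext a
    rw [Finset.mul_sum, Finset.mul_sum, Finset.mul_sum]
    exact Finset.sum_congr rfl fun n _ => by ring
  have h2 : ∀ n, ∫ a in (0 : ℝ)..1, (1 - a ^ 2) * Lg n (a ^ 2)
      = 1 / 2 * ∫ a in (-1 : ℝ)..1, (1 - a ^ 2) * Lg n (a ^ 2) := by
    intro n
    have h3 : ∫ a in (-1 : ℝ)..1, (1 - a ^ 2) * Lg n (a ^ 2)
        = (∫ a in (-1 : ℝ)..0, (1 - a ^ 2) * Lg n (a ^ 2))
          + ∫ a in (0 : ℝ)..1, (1 - a ^ 2) * Lg n (a ^ 2) :=
      (intervalIntegral.integral_add_adjacent_intervals ((hL n).intervalIntegrable _ _)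
        ((hL n).intervalIntegrable _ _)).symm
    have h4 : ∫ a in (-1 : ℝ)..0, (1 - a ^ 2) * Lg n (a ^ 2)
        = ∫ a in (0 : ℝ)..1, (1 - a ^ 2) * Lg n (a ^ 2) := by
      have h5 := intervalIntegral.integral_comp_neg (a := (0 : ℝ)) (b := 1)
        (fun a : ℝ => (1 - a ^ 2) * Lg n (a ^ 2))
      simp only [neg_zero, even_two, Even.neg_pow] at h5
      exact h5.symm
    rw [h3, h4]; ring
  rw [h1]
  have h3 : ∀ n : ℕ, 1 / (2 * (n : ℝ) + 1) - (if n = 0 then 1 / 3 else 0)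
      ≤ ∫ a in (0 : ℝ)..1, (1 - a ^ 2) * Lg n (a ^ 2) := by
    intro n
    rw [h2]
    have := int_J_ge n
    have e : 1 / 2 * (2 / (2 * (n : ℝ) + 1) - (if n = 0 then 2 / 3 else 0))
        = 1 / (2 * (n : ℝ) + 1) - (if n = 0 then 1 / 3 else 0) := by
      split_ifs <;> ring
    linarith
  refine mul_le_mul_of_nonneg_left ?_ (by norm_num)
  calc ∑ n ∈ range (2 * m), 1 / (2 * (n : ℝ) + 1) - 1 / 3
      ≤ ∑ n ∈ range (2 * m), (1 / (2 * (n : ℝ) + 1) - (if n = 0 then 1 / 3 else 0)) := by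
        rw [Finset.sum_sub_distrib]
        refine sub_le_sub_left ?_ _
        rw [Finset.sum_ite_eq']
        split_ifs <;> norm_num
    _ ≤ _ := Finset.sum_le_sum fun n _ => h3 n

/-- `k_phi(eta) = sinh (phi eta) / sinh (pi eta)` -/
noncomputable def kf (φ η : ℝ) : ℝ := Real.sinh (φ * η) / Real.sinh (π * η)

theorem integrable_kf {φ : ℝ} (hφ : |φ| < π) : IntegrableOn (kf φ) (Ioi 0) := by
  have h := integrableOn_re (a := φ) (b := 0) Real.pi_pos hφ
  simp only [zero_mul, Real.cos_zero, mul_one] at h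
  exact h

/-- `g_phi(x) = sin phi / (cos phi + cosh (2 pi x/3))` -/
noncomputable def gf (φ x : ℝ) : ℝ := Real.sin φ / (Real.cos φ + Real.cosh (2 * π / 3 * x))

theorem gf_eq {φ : ℝ} (hφ : |φ| < π) (x : ℝ) :
    gf φ x = 2 * ∫ η in Ioi (0 : ℝ), kf φ η * Real.cos (2 * π / 3 * η * x) := by
  have h := int_phi hφ (2 * π / 3 * x)
  have h1 : ∫ η in Ioi (0 : ℝ), kf φ η * Real.cos (2 * π / 3 * η * x)
      = ∫ η in Ioi (0 : ℝ), Real.sinh (φ * η) * Real.cos (2 * π / 3 * x * η)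
        / Real.sinh (π * η) := by
    refine integral_congr_ae (Eventually.of_forall fun η => ?_)
    have e : 2 * π / 3 * η * x = 2 * π / 3 * x * η := by ring
    simp only [kf, e]
    ring
  rw [h1, h]
  unfold gf
  ring

theorem trace_phi {φ : ℝ} (h0 : 0 ≤ φ) (hφ : φ < π) (m : ℕ) :
    3 * φ / π ^ 2 * (∑ n ∈ range (2 * m), 1 / (2 * (n : ℝ) + 1) - 1 / 3)
      ≤ ∫ x : ℝ, fm m x * gf φ x := by
  have hφ' : |φ| < π := by rw [abs_of_nonneg h0]; exact hφ
  have hk := integrable_kf hφ'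
  have hf := integrable_fm m
  have hprod : Integrable (fun p : ℝ × ℝ => fm m p.1 * kf φ p.2)
      (volume.prod (volume.restrict (Ioi 0))) := hf.mul_prod hk
  have hF : Integrable (fun p : ℝ × ℝ => fm m p.1 * kf φ p.2 * Real.cos (2 * π / 3 * p.2 * p.1))
      (volume.prod (volume.restrict (Ioi 0))) := by
    refine hprod.mul_bdd (c := 1) ?_ ?_
    · exact (by fun_prop : Continuous fun p : ℝ × ℝ =>
        Real.cos (2 * π / 3 * p.2 * p.1)).aestronglyMeasurable
    · exact Eventually.of_forall fun p => by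
        simpa using Real.abs_cos_le_one (2 * π / 3 * p.2 * p.1)
  have h1 : ∫ x : ℝ, fm m x * gf φ x = 2 * ∫ x : ℝ, ∫ η in Ioi (0 : ℝ),
      fm m x * kf φ η * Real.cos (2 * π / 3 * η * x) := by
    rw [← integral_const_mul]
    refine integral_congr_ae (Eventually.of_forall fun x => ?_)
    simp only
    rw [gf_eq hφ' x]
    have h2 : ∫ η in Ioi (0 : ℝ), fm m x * kf φ η * Real.cos (2 * π / 3 * η * x)
        = fm m x * ∫ η in Ioi (0 : ℝ), kf φ η * Real.cos (2 * π / 3 * η * x) := by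
      rw [← integral_const_mul]
      refine integral_congr_ae (Eventually.of_forall fun η => ?_)
      simp only
      ring
    rw [h2]; ring
  have h2 : ∫ x : ℝ, ∫ η in Ioi (0 : ℝ), fm m x * kf φ η * Real.cos (2 * π / 3 * η * x)
      = ∫ η in Ioi (0 : ℝ), ∫ x : ℝ, fm m x * kf φ η * Real.cos (2 * π / 3 * η * x) :=
    integral_integral_swap hF
  have h3 : ∀ η : ℝ, ∫ x : ℝ, fm m x * kf φ η * Real.cos (2 * π / 3 * η * x)
      = kf φ η * cm m (2 * π / 3 * η) := by
    intro η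
    rw [cm, ← int_fm_cos, ← integral_const_mul]
    refine integral_congr_ae (Eventually.of_forall fun x => ?_)
    simp only
    ring
  have h4 : IntegrableOn (fun η : ℝ => kf φ η * cm m (2 * π / 3 * η)) (Ioi 0) := by
    have h5 := hF.integral_prod_right
    refine Integrable.congr h5 (Eventually.of_forall fun η => ?_)
    exact h3 η
  rw [h1, h2]
  simp only [h3]
  obtain ⟨h5, h6⟩ := int_sech4 m
  have h7 : ∫ η in Ioi (0 : ℝ), φ / π * ((1 - Real.tanh (π * η / 3) ^ 2) ^ 2 *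
      cm m (2 * π / 3 * η)) ≤ ∫ η in Ioi (0 : ℝ), kf φ η * cm m (2 * π / 3 * η) := by
    refine setIntegral_mono_on (h5.const_mul _) h4 measurableSet_Ioi fun η hη => ?_
    have h8 := ratio_ge h0 (η := η) hη
    have h9 := cm_nonneg m (2 * π / 3 * η)
    calc φ / π * ((1 - Real.tanh (π * η / 3) ^ 2) ^ 2 * cm m (2 * π / 3 * η))
        = φ / π * (1 - Real.tanh (π * η / 3) ^ 2) ^ 2 * cm m (2 * π / 3 * η) := by ring
      _ ≤ _ := mul_le_mul_of_nonneg_right h8 h9
  rw [integral_const_mul, h6] at h7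
  have h8 := sum_int_ge m
  have hp := Real.pi_pos
  have h9 : φ / π * (3 / π * (1 / 2 * (∑ n ∈ range (2 * m), 1 / (2 * (n : ℝ) + 1) - 1 / 3)))
      ≤ ∫ η in Ioi (0 : ℝ), kf φ η * cm m (2 * π / 3 * η) := by
    refine le_trans ?_ h7
    gcongr
  calc 3 * φ / π ^ 2 * (∑ n ∈ range (2 * m), 1 / (2 * (n : ℝ) + 1) - 1 / 3)
      = 2 * (φ / π * (3 / π * (1 / 2 *
        (∑ n ∈ range (2 * m), 1 / (2 * (n : ℝ) + 1) - 1 / 3)))) := by
        field_simp
    _ ≤ _ := mul_le_mul_of_nonneg_left h9 (by norm_num)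

/-- `G(x) = log (1 + 1/(2 cosh (2 pi x / 3)))` -/
noncomputable def Gf (x : ℝ) : ℝ := Real.log (1 + 1 / (2 * Real.cosh (2 * π / 3 * x)))

theorem Gf_eq (x : ℝ) : Gf x = ∫ φ in (π / 3)..(π / 2), gf φ x := by
  have hp := Real.pi_pos
  have hc := Real.one_le_cosh (2 * π / 3 * x)
  have hpos : ∀ φ ∈ uIcc (π / 3) (π / 2), 0 < Real.cos φ + Real.cosh (2 * π / 3 * x) := by
    intro φ hφ
    rw [Set.uIcc_of_le (by linarith)] at hφ
    have h1 : 0 ≤ Real.cos φ := Real.cos_nonneg_of_mem_Icc ⟨by linarith [hφ.1], hφ.2⟩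
    linarith
  have hder : ∀ φ ∈ uIcc (π / 3) (π / 2), HasDerivAt
      (fun φ : ℝ => -Real.log (Real.cos φ + Real.cosh (2 * π / 3 * x))) (gf φ x) φ := by
    intro φ hφ
    have h1 := ((Real.hasDerivAt_cos φ).add_const (Real.cosh (2 * π / 3 * x))).log (hpos φ hφ).ne'
    have h2 := h1.neg
    have e : -(-Real.sin φ / (Real.cos φ + Real.cosh (2 * π / 3 * x))) = gf φ x := by
      unfold gf; ring
    rw [e] at h2
    exact h2
  have hcont : ContinuousOn (fun φ : ℝ => gf φ x) (uIcc (π / 3) (π / 2)) := by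
    unfold gf
    refine ContinuousOn.div (by fun_prop) (by fun_prop) fun φ hφ => (hpos φ hφ).ne'
  rw [intervalIntegral.integral_eq_sub_of_hasDerivAt hder hcont.intervalIntegrable]
  rw [Real.cos_pi_div_two, Real.cos_pi_div_three]
  have hc0 : 0 < Real.cosh (2 * π / 3 * x) := by linarith
  have h1 : 1 + 1 / (2 * Real.cosh (2 * π / 3 * x))
      = (1 / 2 + Real.cosh (2 * π / 3 * x)) / (0 + Real.cosh (2 * π / 3 * x)) := by
    field_simp
    ring
  unfold Gf
  rw [h1, Real.log_div (by positivity) (by positivity)]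
  ring

theorem Gf_nonneg (x : ℝ) : 0 ≤ Gf x := by
  unfold Gf
  refine Real.log_nonneg ?_
  have := Real.cosh_pos (2 * π / 3 * x)
  have : 0 < 1 / (2 * Real.cosh (2 * π / 3 * x)) := by positivity
  linarith

theorem Gf_le (x : ℝ) : Gf x ≤ 1 := by
  unfold Gf
  have hc := Real.one_le_cosh (2 * π / 3 * x)
  have h1 : 1 / (2 * Real.cosh (2 * π / 3 * x)) ≤ 1 := by
    rw [div_le_one (by linarith)]; linarith
  have h2 : 0 < 1 / (2 * Real.cosh (2 * π / 3 * x)) := by positivity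
  calc Real.log (1 + 1 / (2 * Real.cosh (2 * π / 3 * x)))
      ≤ (1 + 1 / (2 * Real.cosh (2 * π / 3 * x))) - 1 := Real.log_le_sub_one_of_pos (by linarith)
    _ ≤ 1 := by linarith

theorem exp_Gf (x : ℝ) : Real.exp (Gf x) = 1 + 1 / (2 * Real.cosh (2 * π / 3 * x)) := by
  unfold Gf
  refine Real.exp_log ?_
  have := Real.cosh_pos (2 * π / 3 * x)
  positivity

theorem measurable_Gf : Measurable Gf := by
  unfold Gf
  refine Real.measurable_log.comp ?_
  have h : Continuous fun x : ℝ => Real.cosh (2 * π / 3 * x) :=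
    Real.continuous_cosh.comp (by fun_prop)
  exact measurable_const.add (measurable_const.div (measurable_const.mul h.measurable))

/-- The lower bound of the trace. -/
theorem trace_ge (m : ℕ) :
    5 / 24 * (∑ n ∈ range (2 * m), 1 / (2 * (n : ℝ) + 1) - 1 / 3) ≤ ∫ x : ℝ, fm m x * Gf x := by
  have hp := Real.pi_pos
  have hle : π / 3 ≤ π / 2 := by linarith
  set μ : Measure ℝ := volume.restrict (Ioc (π / 3) (π / 2)) with hμ
  have hgm : Measurable (fun p : ℝ × ℝ => gf p.2 p.1) := by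
    unfold gf
    refine Measurable.div (by fun_prop) ?_
    refine Measurable.add (by fun_prop) ?_
    exact (Real.continuous_cosh.comp (by fun_prop)).measurable
  have h0 : Integrable (fun p : ℝ × ℝ => fm m p.1 * 1) (volume.prod μ) :=
    (integrable_fm m).mul_prod (integrable_const (1 : ℝ))
  have hF : Integrable (fun p : ℝ × ℝ => fm m p.1 * gf p.2 p.1) (volume.prod μ) := by
    have h00 : Integrable (fun p : ℝ × ℝ => fm m p.1) (volume.prod μ) := by simpa using h0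
    refine h00.mul_bdd (c := 1) hgm.aestronglyMeasurable ?_
    have hae : ∀ᵐ p : ℝ × ℝ ∂(volume.prod μ), p.2 ∈ Ioc (π / 3) (π / 2) := by
      have h1 : ∀ᵐ y ∂μ, y ∈ Ioc (π / 3) (π / 2) := ae_restrict_mem measurableSet_Ioc
      exact Measure.quasiMeasurePreserving_snd.ae h1
    filter_upwards [hae] with p hp2
    have h1 : 0 ≤ Real.cos p.2 := Real.cos_nonneg_of_mem_Icc ⟨by linarith [hp2.1], hp2.2⟩
    have h2 := Real.one_le_cosh (2 * π / 3 * p.1)
    have h3 : |Real.sin p.2| ≤ 1 := Real.abs_sin_le_one _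
    unfold gf
    rw [norm_div, Real.norm_eq_abs, Real.norm_of_nonneg (by linarith),
      div_le_one (by linarith)]
    linarith
  have h1 : ∫ x : ℝ, fm m x * Gf x = ∫ x : ℝ, ∫ φ, fm m x * gf φ x ∂μ := by
    refine integral_congr_ae (Eventually.of_forall fun x => ?_)
    simp only
    rw [Gf_eq, intervalIntegral.integral_of_le hle, ← integral_const_mul]
  have h2 : ∫ x : ℝ, ∫ φ, fm m x * gf φ x ∂μ = ∫ φ, (∫ x : ℝ, fm m x * gf φ x) ∂μ :=
    integral_integral_swap hF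
  rw [h1, h2]
  set S : ℝ := ∑ n ∈ range (2 * m), 1 / (2 * (n : ℝ) + 1) - 1 / 3 with hS
  have h3 : ∫ φ, 3 * φ / π ^ 2 * S ∂μ ≤ ∫ φ, (∫ x : ℝ, fm m x * gf φ x) ∂μ := by
    have h4 : Integrable (fun φ : ℝ => ∫ x : ℝ, fm m x * gf φ x) μ := hF.integral_prod_right
    refine integral_mono_ae ?_ h4 ?_
    · have : Continuous (fun φ : ℝ => 3 * φ / π ^ 2 * S) := by fun_prop
      exact (this.integrableOn_Icc (a := π / 3) (b := π / 2)).mono_set Ioc_subset_Icc_self
    · have h5 : ∀ᵐ y ∂μ, y ∈ Ioc (π / 3) (π / 2) := ae_restrict_mem measurableSet_Ioc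
      filter_upwards [h5] with φ hφ
      exact trace_phi (by linarith [hφ.1]) (by linarith [hφ.2]) m
  refine le_trans (le_of_eq ?_) h3
  rw [hμ, ← intervalIntegral.integral_of_le hle]
  have h4 : ∫ φ in (π / 3)..(π / 2), 3 * φ / π ^ 2 * S
      = 3 * S / π ^ 2 * ∫ φ in (π / 3)..(π / 2), φ := by
    rw [← intervalIntegral.integral_const_mul]
    congr 1; funext φ; ring
  rw [h4, integral_id]
  field_simp
  ring

end Pool.Agent.NUQ
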