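import Mathlib
import Pool.Agent.NUQ.Jen
import Pool.Agent.NUQ.Low

/-!
# Lower bound for the Hankel determinant of the density `k * WA k`
-/

open MeasureTheory Filter Topology Set Finset
open scoped BigOperators Real

namespace Pool.Agent.NUQ

theorem MP_coeff_succ (n k : ℕ) : (MP (n + 2)).coeff (k + 1)
    = 2 / ((n : ℝ) + 2) * (MP (n + 1)).coeff k - (MP n).coeff (k + 1) := by
  rw [MP_add_two, Polynomial.coeff_sub, Polynomial.coeff_C_mul, Polynomial.coeff_X_mul]

theorem MP_coeff_zero (n : ℕ) : (MP (n + 2)).coeff 0 = -(MP n).coeff 0 := by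
  rw [MP_add_two, Polynomial.coeff_sub, Polynomial.coeff_C_mul, Polynomial.mul_coeff_zero,
    Polynomial.coeff_X_zero]
  ring

theorem MP_coeff_gt (n : ℕ) : ∀ k, n < k → (MP n).coeff k = 0 := by
  induction n using Nat.strong_induction_on with
  | _ n ih =>
    intro k hk
    match n, ih with
    | 0, _ =>
      rw [MP_zero, Polynomial.coeff_one, if_neg (by omega)]
    | 1, _ =>
      rw [MP_one, Polynomial.coeff_C_mul, Polynomial.coeff_X, if_neg (by omega), mul_zero]
    | (n + 2), ih =>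
      obtain ⟨k, rfl⟩ : ∃ j, k = j + 1 := ⟨k - 1, by omega⟩
      rw [MP_coeff_succ, ih (n + 1) (by omega) k (by omega), ih n (by omega) (k + 1) (by omega)]
      ring

theorem MP_coeff_odd (n : ℕ) : ∀ k, Odd (n + k) → (MP n).coeff k = 0 := by
  induction n using Nat.strong_induction_on with
  | _ n ih =>
    intro k hk
    match n, ih with
    | 0, _ =>
      have : k ≠ 0 := by rintro rfl; simp at hk
      rw [MP_zero, Polynomial.coeff_one, if_neg (by omega)]
    | 1, _ =>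
      have : k ≠ 1 := by rintro rfl; revert hk; decide
      rw [MP_one, Polynomial.coeff_C_mul, Polynomial.coeff_X, if_neg (by omega), mul_zero]
    | (n + 2), ih =>
      cases k with
      | zero =>
        rw [MP_coeff_zero, ih n (by omega) 0 (by
          rw [Nat.odd_iff] at hk ⊢; omega)]
        ring
      | succ k =>
        rw [MP_coeff_succ, ih (n + 1) (by omega) k (by rw [Nat.odd_iff] at hk ⊢; omega),
          ih n (by omega) (k + 1) (by rw [Nat.odd_iff] at hk ⊢; omega)]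
        ring

theorem MP_coeff_lead (n : ℕ) : (MP n).coeff n = 2 ^ n / (n.factorial : ℝ) := by
  suffices H : (MP n).coeff n = 2 ^ n / (n.factorial : ℝ) ∧
      (MP (n + 1)).coeff (n + 1) = 2 ^ (n + 1) / ((n + 1).factorial : ℝ) from H.1
  induction n with
  | zero =>
    constructor
    · simp [MP_zero]
    · simp [MP_one]
  | succ n ih =>
    refine ⟨ih.2, ?_⟩
    rw [MP_coeff_succ, ih.2, MP_coeff_gt n (n + 1 + 1) (by omega),
      Nat.factorial_succ (n + 1)]
    have h1 : ((n + 1).factorial : ℝ) ≠ 0 := by positivity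
    have h2 : ((n : ℝ) + 2) ≠ 0 := by positivity
    push_cast
    have h3 : ((n : ℝ) + 1 + 1) ≠ 0 := by positivity
    field_simp
    ring

theorem sum_even_odd (m : ℕ) (f : ℕ → ℝ) :
    ∑ k ∈ range (2 * m), f k = ∑ a ∈ range m, (f (2 * a) + f (2 * a + 1)) := by
  induction m with
  | zero => simp
  | succ m ih =>
    have : 2 * (m + 1) = (2 * m + 1) + 1 := by omega
    rw [this, Finset.sum_range_succ, Finset.sum_range_succ, Finset.sum_range_succ, ih]
    ring

theorem MP_eval_even {m l : ℕ} (hl : l < m) (x : ℝ) :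
    (MP (2 * l)).eval x = ∑ a ∈ range m, (MP (2 * l)).coeff (2 * a) * x ^ (2 * a) := by
  have hdeg : (MP (2 * l)).natDegree < 2 * m := by
    have h1 : (MP (2 * l)).natDegree ≤ 2 * l :=
      Polynomial.natDegree_le_iff_coeff_eq_zero.2 fun k hk => MP_coeff_gt _ _ hk
    omega
  rw [Polynomial.eval_eq_sum_range' hdeg, sum_even_odd]
  refine Finset.sum_congr rfl fun a _ => ?_
  rw [MP_coeff_odd (2 * l) (2 * a + 1) (by rw [Nat.odd_iff]; omega)]
  ring

/-- moments -/
noncomputable def Mo (n : ℕ) : ℝ := ∫ x : ℝ, x ^ (2 * n) * wt x * Real.exp (Gf x)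

theorem integrable_Mo (n : ℕ) : Integrable (fun x : ℝ => x ^ n * wt x * Real.exp (Gf x)) := by
  refine (integrable_pow_wt n).mul_bdd (c := Real.exp 1)
    (Real.measurable_exp.comp measurable_Gf).aestronglyMeasurable ?_
  exact Eventually.of_forall fun x => by
    simp only [Real.norm_eq_abs, Real.abs_exp]
    exact Real.exp_le_exp.2 (Gf_le x)

theorem kWA_eq {x : ℝ} (hx : 0 < x) :
    (8 / 3 * x) * WA (8 / 3 * x) = 4 / 3 * (wt x * Real.exp (Gf x)) := by
  have hp := Real.pi_pos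
  rw [exp_Gf]
  unfold WA wt
  set y := π * x / 3 with hy
  have hypos : 0 < y := by positivity
  have e1 : π / 8 * (8 / 3 * x) = y := by rw [hy]; ring
  have e2 : π / 2 * (8 / 3 * x) = 2 * (2 * y) := by rw [hy]; ring
  have e3 : π * x = 3 * y := by rw [hy]; ring
  have e4 : 2 * π / 3 * x = 2 * y := by rw [hy]; ring
  rw [e1, e2, e3, e4]
  have hs : 0 < Real.sinh y := Real.sinh_pos_iff.2 hypos
  have hc : 0 < Real.cosh y := Real.cosh_pos y
  have hc2 : 0 < Real.cosh (2 * y) := Real.cosh_pos _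
  have hs3 : Real.sinh (3 * y) = Real.sinh y * (2 * Real.cosh (2 * y) + 1) := by
    rw [Real.sinh_three_mul, Real.cosh_two_mul]
    have := Real.cosh_sq y
    rw [this]; ring
  have hs4 : Real.sinh (2 * (2 * y)) = 4 * Real.sinh y * Real.cosh y * Real.cosh (2 * y) := by
    rw [Real.sinh_two_mul (2 * y), Real.sinh_two_mul y]; ring
  rw [hs3, hs4]
  have h5 : 0 < 2 * Real.cosh (2 * y) + 1 := by positivity
  field_simp
  ring

theorem HA_entry (n : ℕ) : ∫ k in Ioi (0 : ℝ), k ^ (2 * n + 1) * WA k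
    = 16 / 9 * (8 / 3) ^ (2 * n) * Mo n := by
  have h83 : (0 : ℝ) < 8 / 3 := by norm_num
  have h1 := integral_comp_mul_left_Ioi (fun k : ℝ => k ^ (2 * n + 1) * WA k) 0 h83
  rw [mul_zero] at h1
  have h2 : ∫ k in Ioi (0 : ℝ), k ^ (2 * n + 1) * WA k
      = 8 / 3 * ∫ x in Ioi (0 : ℝ), (8 / 3 * x) ^ (2 * n + 1) * WA (8 / 3 * x) := by
    rw [h1, smul_eq_mul]; field_simp
  have h3 : ∫ x in Ioi (0 : ℝ), (8 / 3 * x) ^ (2 * n + 1) * WA (8 / 3 * x)
      = ∫ x in Ioi (0 : ℝ), ((8 / 3) ^ (2 * n) * (4 / 3)) *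
        (x ^ (2 * n) * wt x * Real.exp (Gf x)) := by
    refine setIntegral_congr_fun measurableSet_Ioi fun x hx => ?_
    have := kWA_eq (x := x) hx
    calc (8 / 3 * x) ^ (2 * n + 1) * WA (8 / 3 * x)
        = (8 / 3 * x) ^ (2 * n) * ((8 / 3 * x) * WA (8 / 3 * x)) := by ring
      _ = _ := by rw [this, mul_pow]; ring
  have h4 : Mo n = 2 * ∫ x in Ioi (0 : ℝ), x ^ (2 * n) * wt x * Real.exp (Gf x) := by
    unfold Mo
    refine integral_even_real ?_ (integrable_Mo (2 * n))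
    intro x
    have e1 : Gf (-x) = Gf x := by
      unfold Gf
      rw [mul_neg, Real.cosh_neg]
    rw [wt_neg, e1, Even.neg_pow (even_two_mul n)]
  rw [h2, h3, integral_const_mul, h4]
  ring

/-- The Hankel matrix. -/
noncomputable def HA (m : ℕ) : Matrix (Fin m) (Fin m) ℝ :=
  Matrix.of fun a b => ∫ k in Ioi (0 : ℝ), k ^ (2 * ((a : ℕ) + b) + 1) * WA k

noncomputable def MoM (m : ℕ) : Matrix (Fin m) (Fin m) ℝ :=
  Matrix.of fun a b => Mo ((a : ℕ) + b)

noncomputable def Cm (m : ℕ) : Matrix (Fin m) (Fin m) ℝ :=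
  Matrix.of fun i a => (MP (2 * (i : ℕ))).coeff (2 * (a : ℕ))

noncomputable def Gr (m : ℕ) : Matrix (Fin m) (Fin m) ℝ :=
  Matrix.of fun i j => ∫ x : ℝ, (MP (2 * (i : ℕ))).eval x * (MP (2 * (j : ℕ))).eval x
    * wt x * Real.exp (Gf x)

theorem det_Cm (m : ℕ) : (Cm m).det = ∏ i : Fin m, (2 ^ (2 * (i : ℕ)) / ((2 * (i : ℕ)).factorial : ℝ)) := by
  rw [Matrix.det_of_isLowerTriangular]
  · refine Finset.prod_congr rfl fun i _ => ?_
    simp only [Cm, Matrix.of_apply]
    exact MP_coeff_lead _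
  · intro i j hij
    simp only [Cm, Matrix.of_apply]
    refine MP_coeff_gt _ _ ?_
    have : (i : ℕ) < j := by simpa using hij
    omega

theorem Gr_eq (m : ℕ) : Gr m = Cm m * MoM m * (Cm m).transpose := by
  ext i j
  simp only [Gr, Matrix.of_apply, Matrix.mul_apply, Matrix.transpose_apply, Cm, MoM]
  have h1 : ∀ x : ℝ, (MP (2 * (i : ℕ))).eval x * (MP (2 * (j : ℕ))).eval x
      * wt x * Real.exp (Gf x) = ∑ b : Fin m, ∑ a : Fin m,
        ((MP (2 * (i : ℕ))).coeff (2 * (a : ℕ)) * (MP (2 * (j : ℕ))).coeff (2 * (b : ℕ))) *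
        (x ^ (2 * ((a : ℕ) + b)) * wt x * Real.exp (Gf x)) := by
    intro x
    rw [MP_eval_even i.2, MP_eval_even j.2, Finset.sum_range, Finset.sum_range,
      Finset.sum_mul_sum, Finset.sum_comm, Finset.sum_mul, Finset.sum_mul]
    refine Finset.sum_congr rfl fun b _ => ?_
    rw [Finset.sum_mul, Finset.sum_mul]
    refine Finset.sum_congr rfl fun a _ => ?_
    ring
  simp only [h1]
  rw [integral_finsetSum _ fun b _ => integrable_finsetSum _ fun a _ =>
    (integrable_Mo _).const_mul _]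
  refine Finset.sum_congr rfl fun b _ => ?_
  rw [integral_finsetSum _ fun a _ => (integrable_Mo _).const_mul _, Finset.sum_mul]
  refine Finset.sum_congr rfl fun a _ => ?_
  rw [integral_const_mul]
  simp only [Mo]
  ring

theorem det_Gr (m : ℕ) : (Gr m).det = (Cm m).det ^ 2 * (MoM m).det := by
  rw [Gr_eq, Matrix.det_mul, Matrix.det_mul, Matrix.det_transpose]
  ring

theorem det_HA (m : ℕ) : (HA m).det
    = (∏ i : Fin m, (16 / 9 * (8 / 3) ^ (4 * (i : ℕ)) : ℝ)) * (MoM m).det := by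
  have h1 : HA m = Matrix.diagonal (fun i : Fin m => (16 / 9 * (8 / 3) ^ (2 * (i : ℕ)) : ℝ))
      * MoM m * Matrix.diagonal (fun i : Fin m => ((8 / 3) ^ (2 * (i : ℕ)) : ℝ)) := by
    ext i j
    rw [Matrix.mul_diagonal, Matrix.diagonal_mul]
    simp only [HA, MoM, Matrix.of_apply]
    rw [HA_entry]
    ring
  rw [h1, Matrix.det_mul, Matrix.det_mul, Matrix.det_diagonal, Matrix.det_diagonal]
  have h2 : (∏ i : Fin m, (16 / 9 * (8 / 3) ^ (4 * (i : ℕ)) : ℝ))
      = (∏ i : Fin m, (16 / 9 * (8 / 3) ^ (2 * (i : ℕ)) : ℝ)) *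
        ∏ i : Fin m, ((8 / 3) ^ (2 * (i : ℕ)) : ℝ) := by
    rw [← Finset.prod_mul_distrib]
    refine Finset.prod_congr rfl fun i _ => ?_
    rw [mul_assoc, ← pow_add]
    congr 2
    ring
  rw [h2]; ring

/-- Jensen for the Gram matrix. -/
theorem Gr_ge (m : ℕ) :
    (∏ i : Fin m, (1 / 2 * (((2 * (i : ℕ) : ℕ) : ℝ) + 1))) *
      Real.exp (5 / 24 * (∑ n ∈ range (2 * m), 1 / (2 * (n : ℝ) + 1) - 1 / 3))
      ≤ (Gr m).det := by
  set h : Fin m → ℝ := fun i => 1 / 2 * (((2 * (i : ℕ) : ℕ) : ℝ) + 1) with hh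
  have hpos : ∀ i, 0 < h i := fun i => by simp only [hh]; positivity
  set v : Fin m → ℝ → ℝ := fun i x => (MP (2 * (i : ℕ))).eval x * √(wt x) / √(h i) with hv
  have hvv : ∀ i j x, v i x * v j x
      = (MP (2 * (i : ℕ)) * MP (2 * (j : ℕ))).eval x * wt x / (√(h i) * √(h j)) := by
    intro i j x
    simp only [hv, Polynomial.eval_mul]
    have h1 : √(wt x) * √(wt x) = wt x := Real.mul_self_sqrt (wt_nonneg x)
    rw [div_mul_div_comm]
    congr 1
    linear_combination ((MP (2 * (i : ℕ))).eval x * (MP (2 * (j : ℕ))).eval x) * h1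
  have h1 := exp_trace_le_det (volume : Measure ℝ) v Gf 1
    (fun i j => by
      simp only [hvv]
      exact (integrable_poly_wt _).div_const _)
    measurable_Gf.aestronglyMeasurable
    (fun x => by rw [abs_of_nonneg (Gf_nonneg x)]; exact Gf_le x)
    (fun i j => by
      simp only [hvv]
      rw [integral_div, int_orth _ _ (by rw [Nat.even_iff]; omega)]
      by_cases hij : i = j
      · subst hij
        rw [if_pos rfl, if_pos rfl, Real.mul_self_sqrt (hpos i).le]
        exact div_self (hpos i).ne'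
      · have : ¬ (2 * (i : ℕ) = 2 * (j : ℕ)) := by
          intro h0; exact hij (Fin.ext (by omega))
        rw [if_neg this, if_neg hij, zero_div])
  have h2 : ∫ x : ℝ, (∑ i, v i x ^ 2) * Gf x = ∫ x : ℝ, fm m x * Gf x := by
    congr 1
    funext x
    congr 1
    unfold fm
    rw [Finset.sum_range]
    refine Finset.sum_congr rfl fun i _ => ?_
    rw [sq, hvv, Real.mul_self_sqrt (hpos i).le]
  have h3 : (Matrix.of fun i j : Fin m => ∫ x : ℝ, v i x * v j x * Real.exp (Gf x))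
      = Matrix.diagonal (fun i => 1 / √(h i)) * Gr m * Matrix.diagonal (fun i => 1 / √(h i)) := by
    ext i j
    rw [Matrix.mul_diagonal, Matrix.diagonal_mul]
    simp only [Gr, Matrix.of_apply]
    rw [← integral_const_mul, ← integral_mul_const]
    congr 1
    funext x
    rw [hvv, Polynomial.eval_mul]
    field_simp
  rw [h3, Matrix.det_mul, Matrix.det_mul, Matrix.det_diagonal, h2] at h1
  have h4 : (∏ i : Fin m, 1 / √(h i)) * (Gr m).det * (∏ i : Fin m, 1 / √(h i))
      = (Gr m).det / ∏ i : Fin m, h i := by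
    have h5 : (∏ i : Fin m, 1 / √(h i)) * (∏ i : Fin m, 1 / √(h i)) = 1 / ∏ i : Fin m, h i := by
      rw [← Finset.prod_mul_distrib, one_div, ← Finset.prod_inv_distrib]
      refine Finset.prod_congr rfl fun i _ => ?_
      rw [div_mul_div_comm, one_mul, Real.mul_self_sqrt (hpos i).le, one_div]
    calc (∏ i : Fin m, 1 / √(h i)) * (Gr m).det * (∏ i : Fin m, 1 / √(h i))
        = (Gr m).det * ((∏ i : Fin m, 1 / √(h i)) * (∏ i : Fin m, 1 / √(h i))) := by ring
      _ = _ := by rw [h5]; ring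
  rw [h4] at h1
  have hP : 0 < ∏ i : Fin m, h i := Finset.prod_pos fun i _ => hpos i
  rw [le_div_iff₀ hP] at h1
  have h6 := trace_ge m
  have h7 := Real.exp_le_exp.2 h6
  calc (∏ i : Fin m, h i) *
      Real.exp (5 / 24 * (∑ n ∈ range (2 * m), 1 / (2 * (n : ℝ) + 1) - 1 / 3))
      ≤ (∏ i : Fin m, h i) * Real.exp (∫ x : ℝ, fm m x * Gf x) := by gcongr
    _ = Real.exp (∫ x : ℝ, fm m x * Gf x) * ∏ i : Fin m, h i := by ring
    _ ≤ _ := h1

/-- The bulk factor. -/
noncomputable def bulk (m : ℕ) : ℝ :=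
  ∏ i : Fin m, (8 / 9 * (4 / 3) ^ (4 * (i : ℕ)) * ((2 * (i : ℕ)).factorial : ℝ)
    * ((2 * (i : ℕ) + 1).factorial : ℝ))

theorem bulk_pos (m : ℕ) : 0 < bulk m := by
  unfold bulk
  exact Finset.prod_pos fun i _ => by positivity

/-- Main lower bound of the Hankel determinant. -/
theorem HA_ge (m : ℕ) :
    bulk m * Real.exp (5 / 24 * (∑ n ∈ range (2 * m), 1 / (2 * (n : ℝ) + 1) - 1 / 3))
      ≤ (HA m).det := by
  have h1 := Gr_ge m
  rw [det_Gr] at h1
  set K : ℝ := (Cm m).det with hK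
  have hKpos : 0 < K := by
    rw [hK, det_Cm]
    exact Finset.prod_pos fun i _ => by positivity
  rw [det_HA]
  set Ex := Real.exp (5 / 24 * (∑ n ∈ range (2 * m), 1 / (2 * (n : ℝ) + 1) - 1 / 3)) with hEx
  have h2 : (∏ i : Fin m, (1 / 2 * (((2 * (i : ℕ) : ℕ) : ℝ) + 1))) * Ex / K ^ 2
      ≤ (MoM m).det := by
    rw [div_le_iff₀ (by positivity)]
    linarith
  have h3 : bulk m = (∏ i : Fin m, (16 / 9 * (8 / 3) ^ (4 * (i : ℕ)) : ℝ)) *
      ((∏ i : Fin m, (1 / 2 * (((2 * (i : ℕ) : ℕ) : ℝ) + 1))) / K ^ 2) := by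
    rw [hK, det_Cm, ← Finset.prod_pow, ← Finset.prod_div_distrib, ← Finset.prod_mul_distrib]
    unfold bulk
    refine Finset.prod_congr rfl fun i _ => ?_
    rw [Nat.factorial_succ]
    have h4 : ((8 : ℝ) / 3) ^ (4 * (i : ℕ)) = (4 / 3) ^ (4 * (i : ℕ)) * (2 ^ (2 * (i : ℕ))) ^ 2 := by
      rw [← pow_mul, show 2 * (i : ℕ) * 2 = 4 * (i : ℕ) by ring, ← mul_pow]
      norm_num
    rw [h4]
    push_cast
    field_simp
    ring
  calc bulk m * Ex = (∏ i : Fin m, (16 / 9 * (8 / 3) ^ (4 * (i : ℕ)) : ℝ)) *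
      ((∏ i : Fin m, (1 / 2 * (((2 * (i : ℕ) : ℕ) : ℝ) + 1))) * Ex / K ^ 2) := by
        rw [h3]; ring
    _ ≤ _ := by
        refine mul_le_mul_of_nonneg_left h2 ?_
        exact Finset.prod_nonneg fun i _ => by positivity

end Pool.Agent.NUQ
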