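import Mathlib
import Pool.Agent.NUQ.Hank

/-!
# The confluent limit of `det A(eps (i - j))`
-/

open MeasureTheory Filter Topology Set Finset
open scoped BigOperators Real

namespace Pool.Agent.NUQ

/-- forward difference matrix -/
noncomputable def Pm (N : ℕ) : Matrix (Fin N) (Fin N) ℝ :=
  Matrix.of fun i a => (-1) ^ ((a : ℕ) + (i : ℕ)) * ((i : ℕ).choose (a : ℕ) : ℝ)

theorem det_Pm (N : ℕ) : (Pm N).det = 1 := by
  rw [Matrix.det_of_isLowerTriangular]
  · refine Finset.prod_eq_one fun i _ => ?_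
    simp only [Pm, Matrix.of_apply, Nat.choose_self, Nat.cast_one, mul_one]
    rw [← two_mul, pow_mul]; norm_num
  · intro i j hij
    simp only [Pm, Matrix.of_apply]
    have : (i : ℕ) < j := by simpa using hij
    rw [Nat.choose_eq_zero_of_lt this]
    simp

theorem sum_Pm {N : ℕ} (i : Fin N) (x : ℂ) :
    ∑ a : Fin N, ((Pm N i a : ℝ) : ℂ) * x ^ (a : ℕ) = (x - 1) ^ (i : ℕ) := by
  rw [sub_pow]
  simp only [one_pow, mul_one, Pm, Matrix.of_apply]
  have h1 : ∑ a : Fin N, (((-1) ^ ((a : ℕ) + (i : ℕ)) * ((i : ℕ).choose (a : ℕ) : ℝ) : ℝ) : ℂ) *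
      x ^ (a : ℕ) = ∑ a ∈ range N, ((((-1) ^ (a + (i : ℕ)) * ((i : ℕ).choose a : ℝ) : ℝ) : ℂ) *
      x ^ a) := by
    rw [Finset.sum_range]
  rw [h1]
  symm
  have h2 : ∑ a ∈ range ((i : ℕ) + 1), (-1 : ℂ) ^ (a + (i : ℕ)) * x ^ a * ((i : ℕ).choose a : ℂ)
      = ∑ a ∈ range N, (-1 : ℂ) ^ (a + (i : ℕ)) * x ^ a * ((i : ℕ).choose a : ℂ) := by
    refine Finset.sum_subset ?_ ?_
    · intro a ha
      have := i.2
      simp only [Finset.mem_range] at ha ⊢
      omega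
    · intro a _ ha
      have : (i : ℕ) < a := by
        simp only [Finset.mem_range] at ha
        omega
      rw [Nat.choose_eq_zero_of_lt this]
      simp
  rw [h2]
  refine Finset.sum_congr rfl fun a _ => ?_
  push_cast
  ring

/-- the integrand after forward differences -/
noncomputable def Fd (i j : ℕ) (θ : ℝ) : ℝ :=
  ((Complex.exp (θ * Complex.I) - 1) ^ i * (Complex.exp (-(θ * Complex.I)) - 1) ^ j).im

theorem sum_sin {N : ℕ} (i j : Fin N) (θ : ℝ) :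
    ∑ a : Fin N, ∑ b : Fin N, Pm N i a * Pm N j b * Real.sin (((a : ℕ) - (b : ℕ) : ℝ) * θ)
      = Fd i j θ := by
  unfold Fd
  rw [← sum_Pm i, ← sum_Pm j, Finset.sum_mul_sum, Complex.im_sum]
  refine Finset.sum_congr rfl fun a _ => ?_
  rw [Complex.im_sum]
  refine Finset.sum_congr rfl fun b _ => ?_
  have h1 : Complex.exp (θ * Complex.I) ^ (a : ℕ) * Complex.exp (-(θ * Complex.I)) ^ (b : ℕ)
      = Complex.exp ((((((a : ℕ) : ℝ) - ((b : ℕ) : ℝ)) * θ : ℝ) : ℂ) * Complex.I) := by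
    rw [← Complex.exp_nat_mul, ← Complex.exp_nat_mul, ← Complex.exp_add]
    congr 1
    push_cast
    ring
  have h2 : ((Pm N i a : ℝ) : ℂ) * Complex.exp (θ * Complex.I) ^ (a : ℕ) *
      (((Pm N j b : ℝ) : ℂ) * Complex.exp (-(θ * Complex.I)) ^ (b : ℕ))
      = ((Pm N i a * Pm N j b : ℝ) : ℂ) *
        Complex.exp ((((((a : ℕ) : ℝ) - ((b : ℕ) : ℝ)) * θ : ℝ) : ℂ) * Complex.I) := by
    rw [← h1]; push_cast; ring
  rw [h2, Complex.im_ofReal_mul, Complex.exp_ofReal_mul_I_im]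

theorem norm_exp_sub_one_le (θ : ℝ) : ‖Complex.exp (θ * Complex.I) - 1‖ ≤ |θ| := by
  have h := Real.norm_exp_I_mul_ofReal_sub_one_le (x := θ)
  rwa [mul_comm Complex.I, Real.norm_eq_abs] at h

theorem norm_exp_sub_one_le' (θ : ℝ) : ‖Complex.exp (-(θ * Complex.I)) - 1‖ ≤ |θ| := by
  have h := norm_exp_sub_one_le (-θ)
  rw [abs_neg] at h
  have e : ((-θ : ℝ) : ℂ) * Complex.I = -(θ * Complex.I) := by push_cast; ring
  rwa [e] at h

theorem abs_Fd_le (i j : ℕ) (θ : ℝ) : |Fd i j θ| ≤ |θ| ^ (i + j) := by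
  unfold Fd
  refine (Complex.abs_im_le_norm _).trans ?_
  rw [norm_mul, norm_pow, norm_pow, pow_add]
  gcongr
  · exact norm_exp_sub_one_le θ
  · exact norm_exp_sub_one_le' θ

/-- moments of `WA` -/
noncomputable def Mk (n : ℕ) : ℝ := ∫ k in Ioi (0 : ℝ), k ^ n * WA k

theorem WA_nonneg {k : ℝ} (hk : 0 < k) : 0 ≤ WA k := by
  unfold WA
  have h1 : 0 < Real.sinh (π / 2 * k) := Real.sinh_pos_iff.2 (by positivity)
  have h2 := Real.cosh_pos (π / 8 * k)
  positivity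

theorem measurable_WA : Measurable WA := by
  unfold WA
  exact (Real.continuous_cosh.comp (by fun_prop)).measurable.div
    (Real.continuous_sinh.comp (by fun_prop)).measurable

theorem integrable_kWA (n : ℕ) : IntegrableOn (fun k : ℝ => k ^ (n + 1) * WA k) (Ioi 0) := by
  have h83 : (0 : ℝ) < 8 / 3 := by norm_num
  have h1 : IntegrableOn (fun x : ℝ => (8 / 3) ^ n * (4 / 3) *
      (x ^ n * wt x * Real.exp (Gf x))) (Ioi 0) := ((integrable_Mo n).const_mul _).integrableOn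
  have h2 : IntegrableOn (fun x : ℝ => (8 / 3 * x) ^ (n + 1) * WA (8 / 3 * x)) (Ioi 0) := by
    refine h1.congr_fun (fun x hx => ?_) measurableSet_Ioi
    have := kWA_eq (x := x) hx
    calc (8 / 3) ^ n * (4 / 3) * (x ^ n * wt x * Real.exp (Gf x))
        = (8 / 3 * x) ^ n * ((8 / 3 * x) * WA (8 / 3 * x)) := by rw [this, mul_pow]; ring
      _ = _ := by ring
  have h3 := (integrableOn_Ioi_comp_mul_left_iff (f := fun k : ℝ => k ^ (n + 1) * WA k) 0 h83).1 h2
  simpa using h3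

/-- The limiting matrix. -/
noncomputable def Lm (N : ℕ) : Matrix (Fin N) (Fin N) ℝ :=
  Matrix.of fun i j => (Complex.I ^ (i : ℕ) * (-Complex.I) ^ (j : ℕ)).im * Mk ((i : ℕ) + j)

theorem tendsto_exp_div (k : ℝ) :
    Tendsto (fun ε : ℝ => (Complex.exp (((ε * k : ℝ) : ℂ) * Complex.I) - 1) / ε)
      (𝓝[>] 0) (𝓝 (k * Complex.I)) := by
  have h1 : HasDerivAt (fun ε : ℝ => Complex.exp (((ε * k : ℝ) : ℂ) * Complex.I))
      (k * Complex.I) 0 := by
    have h2 : HasDerivAt (fun ε : ℝ => ((ε * k : ℝ) : ℂ) * Complex.I) (k * Complex.I) 0 := by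
      have h3 : HasDerivAt (fun ε : ℝ => ε * k) k 0 := by
        simpa using (hasDerivAt_id (0 : ℝ)).mul_const k
      exact h3.ofReal_comp.mul_const _
    have h4 := h2.cexp
    simpa using h4
  have h5 := h1.tendsto_slope_zero_right
  refine h5.congr fun ε => ?_
  simp only [zero_add, zero_mul, Complex.ofReal_zero, Complex.exp_zero]
  rw [Complex.real_smul]
  push_cast
  ring

theorem tendsto_Fd (i j : ℕ) (k : ℝ) :
    Tendsto (fun ε : ℝ => Fd i j (ε * k) / ε ^ (i + j)) (𝓝[>] 0)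
      (𝓝 ((Complex.I ^ i * (-Complex.I) ^ j).im * k ^ (i + j))) := by
  have h1 := tendsto_exp_div k
  have h2 := tendsto_exp_div (-k)
  have h3 := (h1.pow i).mul (h2.pow j)
  have h4 := (Complex.continuous_im.tendsto _).comp h3
  have e1 : (((k : ℂ) * Complex.I) ^ i * (((-k : ℝ) : ℂ) * Complex.I) ^ j).im
      = (Complex.I ^ i * (-Complex.I) ^ j).im * k ^ (i + j) := by
    have : ((k : ℂ) * Complex.I) ^ i * (((-k : ℝ) : ℂ) * Complex.I) ^ j
        = ((k ^ (i + j) : ℝ) : ℂ) * (Complex.I ^ i * (-Complex.I) ^ j) := by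
      push_cast
      rw [mul_pow, show (-(k : ℂ)) * Complex.I = k * (-Complex.I) by ring, mul_pow, pow_add]
      ring
    rw [this, Complex.im_ofReal_mul]; ring
  rw [e1] at h4
  refine h4.congr' ?_
  filter_upwards [self_mem_nhdsWithin] with ε hε
  have hε0 : (ε : ℝ) ≠ 0 := ne_of_gt hε
  simp only [Function.comp, Fd]
  have e2 : ((Complex.exp (((ε * k : ℝ) : ℂ) * Complex.I) - 1) / ε) ^ i *
      ((Complex.exp (((ε * -k : ℝ) : ℂ) * Complex.I) - 1) / ε) ^ j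
      = (((Complex.exp (((ε * k : ℝ) : ℂ) * Complex.I) - 1) ^ i *
        (Complex.exp (-(((ε * k : ℝ) : ℂ) * Complex.I)) - 1) ^ j)) / ((ε ^ (i + j) : ℝ) : ℂ) := by
    have e3 : (((ε * -k : ℝ) : ℂ) * Complex.I) = -(((ε * k : ℝ) : ℂ) * Complex.I) := by
      push_cast; ring
    rw [e3, div_pow, div_pow, div_mul_div_comm, pow_add]
    push_cast
    rfl
  rw [e2, Complex.div_ofReal_im]

/-- dominated convergence for the entries -/
theorem tendsto_entry (i j : ℕ) :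
    Tendsto (fun ε : ℝ => (∫ k in Ioi (0 : ℝ), Fd i j (ε * k) * WA k) / ε ^ (i + j)) (𝓝[>] 0)
      (𝓝 ((Complex.I ^ i * (-Complex.I) ^ j).im * Mk (i + j))) := by
  rcases Nat.eq_zero_or_pos (i + j) with h0 | hpos
  · obtain ⟨rfl, rfl⟩ : i = 0 ∧ j = 0 := by omega
    simp [Fd]
  obtain ⟨n, hn⟩ : ∃ n, i + j = n + 1 := ⟨i + j - 1, by omega⟩
  have h1 : ∀ ε : ℝ, (∫ k in Ioi (0 : ℝ), Fd i j (ε * k) * WA k) / ε ^ (i + j)
      = ∫ k in Ioi (0 : ℝ), Fd i j (ε * k) / ε ^ (i + j) * WA k := by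
    intro ε
    rw [← integral_div]
    congr 1
    funext k
    ring
  have h2 : (Complex.I ^ i * (-Complex.I) ^ j).im * Mk (i + j)
      = ∫ k in Ioi (0 : ℝ), (Complex.I ^ i * (-Complex.I) ^ j).im * k ^ (i + j) * WA k := by
    rw [Mk, ← integral_const_mul]
    congr 1
    funext k
    ring
  simp only [h1]
  rw [h2]
  refine tendsto_integral_filter_of_dominated_convergence (fun k : ℝ => k ^ (n + 1) * WA k)
    ?_ ?_ (integrable_kWA n) ?_
  · refine Eventually.of_forall fun ε => ?_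
    refine Measurable.aestronglyMeasurable ?_
    refine Measurable.mul ?_ measurable_WA
    refine Measurable.div_const ?_ _
    unfold Fd
    exact (Complex.continuous_im.comp (by fun_prop)).measurable
  · filter_upwards [self_mem_nhdsWithin] with ε hε
    have hε0 : (0 : ℝ) < ε := hε
    refine (ae_restrict_iff' measurableSet_Ioi).2 (Eventually.of_forall fun k hk => ?_)
    have hk0 : (0 : ℝ) < k := hk
    rw [norm_mul, Real.norm_of_nonneg (WA_nonneg hk0), norm_div, Real.norm_eq_abs,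
      Real.norm_of_nonneg (by positivity)]
    refine mul_le_mul_of_nonneg_right ?_ (WA_nonneg hk0)
    rw [div_le_iff₀ (by positivity), ← hn, ← mul_pow]
    have := abs_Fd_le i j (ε * k)
    rw [abs_of_pos (by positivity : 0 < ε * k)] at this
    rwa [mul_comm k ε]
  · refine Eventually.of_forall fun k => ?_
    exact (tendsto_Fd i j k).mul_const _

/-- the matrix `A (eps (i - j))` -/
noncomputable def Am (N : ℕ) (ε : ℝ) : Matrix (Fin N) (Fin N) ℝ :=
  Matrix.of fun i j => Afun (ε * (i : ℕ) - ε * (j : ℕ))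

theorem PAP_entry {N : ℕ} (ε : ℝ) (i j : Fin N) :
    (Pm N * Am N ε * (Pm N).transpose) i j = ∫ k in Ioi (0 : ℝ), Fd i j (ε * k) * WA k := by
  have h1 : (Pm N * Am N ε * (Pm N).transpose) i j
      = ∑ a : Fin N, ∑ b : Fin N, Pm N i a * Pm N j b * Am N ε a b := by
    simp only [Matrix.mul_apply, Matrix.transpose_apply, Finset.sum_mul]
    rw [Finset.sum_comm]
    refine Finset.sum_congr rfl fun a _ => Finset.sum_congr rfl fun b _ => by ring
  rw [h1]
  have h2 : ∀ k : ℝ, Fd i j (ε * k) * WA k = ∑ a : Fin N, ∑ b : Fin N,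
      Pm N i a * Pm N j b * (Real.sin ((ε * (a : ℕ) - ε * (b : ℕ)) * k) * WA k) := by
    intro k
    rw [← sum_sin, Finset.sum_mul]
    refine Finset.sum_congr rfl fun a _ => ?_
    rw [Finset.sum_mul]
    refine Finset.sum_congr rfl fun b _ => ?_
    have e : (((a : ℕ) : ℝ) - ((b : ℕ) : ℝ)) * (ε * k) = (ε * (a : ℕ) - ε * (b : ℕ)) * k := by ring
    rw [e]; ring
  simp only [h2]
  rw [integral_finsetSum _ fun a _ => integrable_finsetSum _ fun b _ =>
    (integrable_A _).const_mul _]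
  refine Finset.sum_congr rfl fun a _ => ?_
  rw [integral_finsetSum _ fun b _ => (integrable_A _).const_mul _]
  refine Finset.sum_congr rfl fun b _ => ?_
  rw [integral_const_mul, int_A]
  rfl

theorem det_scaled {N : ℕ} (ε : ℝ) (hε : ε ≠ 0) :
    (Am N ε).det / ε ^ (N * (N - 1))
      = (Matrix.of fun i j : Fin N => (∫ k in Ioi (0 : ℝ), Fd i j (ε * k) * WA k)
          / ε ^ ((i : ℕ) + (j : ℕ))).det := by
  have h1 : (Matrix.of fun i j : Fin N => (∫ k in Ioi (0 : ℝ), Fd i j (ε * k) * WA k)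
          / ε ^ ((i : ℕ) + (j : ℕ)))
      = Matrix.diagonal (fun i : Fin N => (ε ^ (i : ℕ))⁻¹) *
        (Pm N * Am N ε * (Pm N).transpose) * Matrix.diagonal (fun i : Fin N => (ε ^ (i : ℕ))⁻¹) := by
    ext i j
    rw [Matrix.mul_diagonal, Matrix.diagonal_mul, PAP_entry, Matrix.of_apply, pow_add]
    field_simp
  rw [h1, Matrix.det_mul, Matrix.det_mul, Matrix.det_mul, Matrix.det_mul, Matrix.det_transpose,
    det_Pm, Matrix.det_diagonal]
  have h2 : (∏ i : Fin N, (ε ^ (i : ℕ))⁻¹) * (∏ i : Fin N, (ε ^ (i : ℕ))⁻¹)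
      = (ε ^ (N * (N - 1)))⁻¹ := by
    rw [← Finset.prod_mul_distrib]
    have h3 : ∀ i : Fin N, (ε ^ (i : ℕ))⁻¹ * (ε ^ (i : ℕ))⁻¹ = (ε ^ (2 * (i : ℕ)))⁻¹ := by
      intro i
      rw [← mul_inv, ← pow_add]; congr 2; ring
    simp only [h3]
    rw [Finset.prod_inv_distrib, Finset.prod_pow_eq_pow_sum, ← Finset.mul_sum]
    congr 2
    have h4 : ∑ i : Fin N, (i : ℕ) = ∑ i ∈ range N, i := by rw [Finset.sum_range]
    rw [h4, mul_comm 2, Finset.sum_range_id_mul_two]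
  calc (Am N ε).det / ε ^ (N * (N - 1)) = (Am N ε).det * (ε ^ (N * (N - 1)))⁻¹ := by
        rw [div_eq_mul_inv]
    _ = _ := by rw [← h2]; ring

theorem tendsto_det (N : ℕ) :
    Tendsto (fun ε : ℝ => (Am N ε).det / ε ^ (N * (N - 1))) (𝓝[>] 0) (𝓝 (Lm N).det) := by
  have h1 : Tendsto (fun ε : ℝ => (Matrix.of fun i j : Fin N =>
      (∫ k in Ioi (0 : ℝ), Fd i j (ε * k) * WA k) / ε ^ ((i : ℕ) + (j : ℕ)))) (𝓝[>] 0)
      (𝓝 (Lm N)) := by
    refine tendsto_pi_nhds.2 fun i => tendsto_pi_nhds.2 fun j => ?_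
    exact tendsto_entry i j
  have h2 : Continuous fun M : Matrix (Fin N) (Fin N) ℝ => M.det := continuous_id.matrix_det
  have h3 := (h2.tendsto (Lm N)).comp h1
  refine h3.congr' ?_
  filter_upwards [self_mem_nhdsWithin] with ε hε
  exact (det_scaled ε (ne_of_gt hε)).symm

/-- even/odd splitting of `Fin (2 m)` -/
noncomputable def eo (m : ℕ) : Fin m ⊕ Fin m ≃ Fin (2 * m) :=
  Equiv.ofBijective (Sum.elim (fun a => ⟨2 * (a : ℕ), by have := a.2; omega⟩)
    (fun a => ⟨2 * (a : ℕ) + 1, by have := a.2; omega⟩)) (by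
    refine (Fintype.bijective_iff_injective_and_card _).2 ⟨?_, by simp [two_mul]⟩
    rintro (a | a) (b | b) h
    · simp only [Sum.elim_inl, Fin.mk.injEq] at h
      rw [Fin.ext (by omega : (a : ℕ) = b)]
    · simp only [Sum.elim_inl, Sum.elim_inr, Fin.mk.injEq] at h
      omega
    · simp only [Sum.elim_inl, Sum.elim_inr, Fin.mk.injEq] at h
      omega
    · simp only [Sum.elim_inr, Fin.mk.injEq] at h
      rw [Fin.ext (by omega : (a : ℕ) = b)])

theorem eo_inl {m : ℕ} (a : Fin m) : ((eo m (Sum.inl a) : Fin (2 * m)) : ℕ) = 2 * (a : ℕ) := rfl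
theorem eo_inr {m : ℕ} (a : Fin m) : ((eo m (Sum.inr a) : Fin (2 * m)) : ℕ) = 2 * (a : ℕ) + 1 := rfl

noncomputable def Bm (m : ℕ) : Matrix (Fin m) (Fin m) ℝ :=
  Matrix.of fun a b => (-1) ^ ((a : ℕ) + (b : ℕ)) * Mk (2 * ((a : ℕ) + b) + 1)

theorem Lm_blocks (m : ℕ) :
    (Lm (2 * m)).submatrix (eo m) (eo m) = Matrix.fromBlocks 0 (-Bm m) (Bm m) 0 := by
  have hI : ∀ a : ℕ, Complex.I ^ (2 * a) = (((-1) ^ a : ℝ) : ℂ) := by
    intro a; rw [pow_mul, Complex.I_sq]; push_cast; rfl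
  have hI' : ∀ a : ℕ, (-Complex.I) ^ (2 * a) = (((-1) ^ a : ℝ) : ℂ) := by
    intro a; rw [pow_mul, neg_sq, Complex.I_sq]; push_cast; rfl
  ext i j
  rw [Matrix.submatrix_apply]
  rcases i with a | a <;> rcases j with b | b
  · simp only [Lm, Matrix.of_apply, eo_inl, Matrix.fromBlocks_apply₁₁, Matrix.zero_apply]
    rw [hI, hI', ← Complex.ofReal_mul, Complex.ofReal_im, zero_mul]
  · simp only [Lm, Matrix.of_apply, eo_inl, eo_inr, Matrix.fromBlocks_apply₁₂, Matrix.neg_apply, Bm]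
    rw [hI, pow_succ, hI', ← mul_assoc, ← Complex.ofReal_mul, Complex.im_ofReal_mul,
      Complex.neg_im, Complex.I_im, pow_add, show 2 * (a : ℕ) + (2 * (b : ℕ) + 1)
        = 2 * ((a : ℕ) + b) + 1 by ring]
    ring
  · simp only [Lm, Matrix.of_apply, eo_inl, eo_inr, Matrix.fromBlocks_apply₂₁, Bm]
    rw [hI', pow_succ, hI, mul_right_comm, ← Complex.ofReal_mul, Complex.im_ofReal_mul,
      Complex.I_im, pow_add, show 2 * (a : ℕ) + 1 + 2 * (b : ℕ) = 2 * ((a : ℕ) + b) + 1 by ring]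
    ring
  · simp only [Lm, Matrix.of_apply, eo_inr, Matrix.fromBlocks_apply₂₂, Matrix.zero_apply]
    rw [pow_succ, pow_succ, hI, hI']
    have : (((-1) ^ (a : ℕ) : ℝ) : ℂ) * Complex.I * ((((-1) ^ (b : ℕ) : ℝ) : ℂ) * -Complex.I)
        = (((-1) ^ (a : ℕ) * (-1) ^ (b : ℕ) : ℝ) : ℂ) := by
      rw [Complex.ofReal_mul]
      linear_combination (-(((-1) ^ (a : ℕ) : ℝ) : ℂ) * (((-1) ^ (b : ℕ) : ℝ) : ℂ)) *
        Complex.I_mul_I
    rw [this, Complex.ofReal_im, zero_mul]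

theorem det_Bm (m : ℕ) : (Bm m).det = (HA m).det := by
  have h1 : Bm m = Matrix.diagonal (fun a : Fin m => ((-1) ^ (a : ℕ) : ℝ)) * HA m *
      Matrix.diagonal (fun a : Fin m => ((-1) ^ (a : ℕ) : ℝ)) := by
    ext i j
    rw [Matrix.mul_diagonal, Matrix.diagonal_mul]
    simp only [Bm, HA, Matrix.of_apply, Mk]
    rw [pow_add]; ring
  rw [h1, Matrix.det_mul, Matrix.det_mul, Matrix.det_diagonal]
  have h2 : (∏ a : Fin m, ((-1) ^ (a : ℕ) : ℝ)) * (∏ a : Fin m, ((-1) ^ (a : ℕ) : ℝ)) = 1 := by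
    rw [← Finset.prod_mul_distrib]
    refine Finset.prod_eq_one fun a _ => ?_
    rw [← mul_pow]; norm_num
  linear_combination ((HA m).det) * h2

theorem det_antiblocks {m : ℕ} (B : Matrix (Fin m) (Fin m) ℝ) :
    (Matrix.fromBlocks 0 (-B) B 0 : Matrix (Fin m ⊕ Fin m) (Fin m ⊕ Fin m) ℝ).det = B.det ^ 2 := by
  have h1 : (Matrix.fromBlocks 0 (-B) B 0 : Matrix (Fin m ⊕ Fin m) (Fin m ⊕ Fin m) ℝ) *
      (Matrix.fromBlocks 0 1 (-1) 0) = Matrix.fromBlocks B 0 0 B := by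
    rw [Matrix.fromBlocks_multiply]
    simp
  have h2 : (Matrix.fromBlocks 0 1 (-1) 0 : Matrix (Fin m ⊕ Fin m) (Fin m ⊕ Fin m) ℝ)
      = Matrix.fromBlocks 1 1 0 1 * Matrix.fromBlocks 1 0 (-1) 1 * Matrix.fromBlocks 1 1 0 1 := by
    rw [Matrix.fromBlocks_multiply, Matrix.fromBlocks_multiply]
    simp
  have h3 : (Matrix.fromBlocks 0 1 (-1) 0 : Matrix (Fin m ⊕ Fin m) (Fin m ⊕ Fin m) ℝ).det = 1 := by
    rw [h2, Matrix.det_mul, Matrix.det_mul, Matrix.det_fromBlocks_zero₂₁,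
      Matrix.det_fromBlocks_zero₁₂]
    simp
  have h4 := congrArg Matrix.det h1
  rw [Matrix.det_mul, h3, mul_one, Matrix.det_fromBlocks_zero₂₁] at h4
  rw [h4, sq]

theorem det_Lm (m : ℕ) : (Lm (2 * m)).det = (HA m).det ^ 2 := by
  rw [← Matrix.det_submatrix_equiv_self (eo m), Lm_blocks, det_antiblocks, det_Bm]

/-- The confluent limit. -/
theorem confluent (m : ℕ) :
    Tendsto (fun ε : ℝ => (Matrix.of fun i j : Fin (2 * m) =>
        Afun (ε * (i : ℕ) - ε * (j : ℕ))).det / ε ^ (2 * m * (2 * m - 1))) (𝓝[>] 0)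
      (𝓝 ((HA m).det ^ 2)) := by
  rw [← det_Lm]
  exact tendsto_det (2 * m)

end Pool.Agent.NUQ
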