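import Pool.Agent.NUF.FINA
import Pool.Agent.NUQD.DetW
import Pool.Agent.NUQ48.ConfR
import Pool.Agent.NUQ.Confl

/-!
# The denominator from below: `DenLow` of `NUF/FINA`, with the exact inequality
-/

set_option autoImplicit false

open Filter Topology Finset

namespace Pool.Agent.NUQ

open Pool.Agent.NUF

/-- exact value of the disc function at loop weight zero -/
theorem Wd0_val (m : ℕ) :
    (near_WW 0).Wd (List.replicate m 1) (List.replicate m 1)
      = (((1 + √2 / 2) ^ (2 * m * (2 * m - 1)) /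
        ((∏ k ∈ Finset.range (2 * m), (k.factorial : ℝ)) ^ 2) * (HA m).det ^ 2 : ℝ) : ℂ) := by
  have h1 := NUQ48.lim_RD (n := 2 * m) (L := (HA m).det ^ 2) (confluent m)
  have h2 := (Complex.continuous_ofReal.tendsto _).comp h1
  exact tendsto_nhds_unique (Wd0_lim m) h2

theorem bulk_closed (m : ℕ) : bulk m
    = (2 / 3) ^ m * (4 / 3) ^ (m * (2 * m - 1)) * ∏ k ∈ Finset.range (2 * m), (k.factorial : ℝ) := by
  have h0 : bulk m = ∏ i ∈ Finset.range m, (8 / 9 * (4 / 3) ^ (4 * i) * ((2 * i).factorial : ℝ)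
    * ((2 * i + 1).factorial : ℝ)) := by
    unfold bulk
    rw [Finset.prod_range]
  rw [h0]
  clear h0
  induction m with
  | zero => simp
  | succ m ih =>
    rw [Finset.prod_range_succ, ih]
    have e1 : 2 * (m + 1) = 2 * m + 1 + 1 := by ring
    have e2 : (m + 1) * (2 * (m + 1) - 1) = m * (2 * m - 1) + (4 * m + 1) := by
      rcases m with _ | k
      · rfl
      · have e3 : 2 * (k + 1 + 1) - 1 = 2 * k + 3 := by omega
        have e4 : 2 * (k + 1) - 1 = 2 * k + 1 := by omega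
        rw [e3, e4]; ring
    rw [e2, e1, Finset.prod_range_succ, Finset.prod_range_succ, pow_add (4 / 3 : ℝ),
      pow_succ (4 / 3 : ℝ), pow_succ (2 / 3 : ℝ)]
    ring

theorem bulk_sq (m : ℕ) : (1 + √2 / 2) ^ (2 * m * (2 * m - 1)) /
    ((∏ k ∈ Finset.range (2 * m), (k.factorial : ℝ)) ^ 2) * bulk m ^ 2 = NUF.bulk m := by
  have hP : (∏ k ∈ Finset.range (2 * m), (k.factorial : ℝ)) ≠ 0 :=
    Finset.prod_ne_zero_iff.2 fun k _ => by positivity
  rw [bulk_closed]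
  unfold NUF.bulk
  have e1 : 2 / 3 * (2 + Real.sqrt 2) = (1 + √2 / 2) * (4 / 3) := by ring
  have e2 : (4 / 3 : ℝ) ^ (2 * m * (2 * m - 1)) = ((4 / 3) ^ (m * (2 * m - 1))) ^ 2 := by
    rw [← pow_mul]; congr 1; ring
  have e3 : (2 / 3 : ℝ) ^ (2 * m) = ((2 / 3) ^ m) ^ 2 := by rw [← pow_mul]; congr 1; ring
  rw [e1, mul_pow (1 + √2 / 2) (4 / 3 : ℝ), e2, e3]
  field_simp

/-- **The exact lower bound** for the disc function at loop weight zero. -/
theorem Wd0_ge (m : ℕ) :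
    NUF.bulk m * Real.exp (5 / 12 * (∑ n ∈ Finset.range (2 * m), 1 / (2 * (n : ℝ) + 1) - 1 / 3))
      ≤ ‖(near_WW 0).Wd (List.replicate m 1) (List.replicate m 1)‖ := by
  rw [Wd0_val, Complex.norm_real]
  refine le_trans ?_ (Real.le_norm_self _)
  rw [← bulk_sq]
  have h1 := HA_ge m
  have hb := bulk_pos m
  set S := ∑ n ∈ Finset.range (2 * m), 1 / (2 * (n : ℝ) + 1) - 1 / 3 with hS
  have h2 : Real.exp (5 / 12 * S) = Real.exp (5 / 24 * S) ^ 2 := by
    rw [← Real.exp_nat_mul]; congr 1; push_cast; ring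
  have h3 : (bulk m * Real.exp (5 / 24 * S)) ^ 2 ≤ (HA m).det ^ 2 := by
    refine pow_le_pow_left₀ (by positivity) h1 2
  have hc : 0 ≤ (1 + √2 / 2) ^ (2 * m * (2 * m - 1)) /
      ((∏ k ∈ Finset.range (2 * m), (k.factorial : ℝ)) ^ 2) := by positivity
  calc (1 + √2 / 2) ^ (2 * m * (2 * m - 1)) /
      ((∏ k ∈ Finset.range (2 * m), (k.factorial : ℝ)) ^ 2) * bulk m ^ 2 * Real.exp (5 / 12 * S)
      = (1 + √2 / 2) ^ (2 * m * (2 * m - 1)) /
        ((∏ k ∈ Finset.range (2 * m), (k.factorial : ℝ)) ^ 2) *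
        (bulk m * Real.exp (5 / 24 * S)) ^ 2 := by rw [h2]; ring
    _ ≤ _ := mul_le_mul_of_nonneg_left h3 hc

theorem half_log_le (m : ℕ) (hm : 1 ≤ m) :
    1 / 2 * Real.log m ≤ ∑ n ∈ Finset.range (2 * m), 1 / (2 * (n : ℝ) + 1) := by
  have h1 := log_add_one_le_harmonic (2 * m)
  have h2 : ((harmonic (2 * m) : ℚ) : ℝ) = ∑ n ∈ Finset.range (2 * m), 1 / ((n : ℝ) + 1) := by
    simp [harmonic]
  rw [h2] at h1
  have hm0 : (0 : ℝ) < m := by exact_mod_cast hm
  have h3 : Real.log m ≤ Real.log ((2 * m + 1 : ℕ) : ℝ) := by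
    refine Real.log_le_log hm0 ?_
    push_cast; linarith
  calc 1 / 2 * Real.log m ≤ 1 / 2 * ∑ n ∈ Finset.range (2 * m), 1 / ((n : ℝ) + 1) := by
        linarith
    _ = ∑ n ∈ Finset.range (2 * m), 1 / 2 * (1 / ((n : ℝ) + 1)) := by rw [Finset.mul_sum]
    _ ≤ _ := by
        refine Finset.sum_le_sum fun n _ => ?_
        rw [one_div, one_div, ← mul_inv, ← one_div]
        refine one_div_le_one_div_of_le (by positivity) ?_
        linarith

/-- **Denominator from below.** -/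
theorem denLow : DenLow := by
  intro ε hε
  refine ⟨Real.exp (-(5 / 36)), Real.exp_pos _, fun m hm => ?_⟩
  refine le_trans ?_ (Wd0_ge m)
  have hm0 : (0 : ℝ) < m := by exact_mod_cast hm
  have hm1 : (1 : ℝ) ≤ m := by exact_mod_cast hm
  have h1 := half_log_le m hm
  have h2 : Real.exp (-(5 / 36)) * (m : ℝ) ^ (5 / 24 - ε)
      ≤ Real.exp (5 / 12 * (∑ n ∈ Finset.range (2 * m), 1 / (2 * (n : ℝ) + 1) - 1 / 3)) := by
    have h3 : (m : ℝ) ^ (5 / 24 - ε) ≤ (m : ℝ) ^ (5 / 24 : ℝ) :=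
      Real.rpow_le_rpow_of_exponent_le hm1 (by linarith)
    have h4 : (m : ℝ) ^ (5 / 24 : ℝ) = Real.exp (5 / 24 * Real.log m) := by
      rw [Real.rpow_def_of_pos hm0]; congr 1; ring
    calc Real.exp (-(5 / 36)) * (m : ℝ) ^ (5 / 24 - ε)
        ≤ Real.exp (-(5 / 36)) * Real.exp (5 / 24 * Real.log m) := by
          rw [← h4]; gcongr
      _ = Real.exp (5 / 24 * Real.log m - 5 / 36) := by
          rw [← Real.exp_add]; congr 1; ring
      _ ≤ _ := Real.exp_le_exp.2 (by linarith)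
  have hb := NUF.bulk_pos m
  calc Real.exp (-(5 / 36)) * (m : ℝ) ^ (5 / 24 - ε) * NUF.bulk m
      ≤ Real.exp (5 / 12 * (∑ n ∈ Finset.range (2 * m), 1 / (2 * (n : ℝ) + 1) - 1 / 3)) *
        NUF.bulk m := by gcongr
    _ = _ := by ring

end Pool.Agent.NUQ
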