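import Pool.Agent.NUQ.Orth2

/-!
# The correlation integral `(m+1)^2 ∫ ph_m(θ+s/2) ph_m(θ-s/2) dθ → sech^2 s`
-/

set_option autoImplicit false

open MeasureTheory Filter Topology

namespace NUQ

noncomputable section

/-- the correlation integral -/
def cm (m : ℕ) (s : ℝ) : ℝ := ∫ θ : ℝ, ph m (θ + s / 2) * ph m (θ - s / 2)

/-! ### an elementary integral -/

lemma gum_le {c : ℝ} (hc : 0 < c) (x : ℝ) : Real.exp (-(4 * x)) * Real.exp (-(c * Real.exp (-(2 * x)))) ≤
    (1 + 6 / c ^ 3) * Real.exp (-(2 * |x|)) := by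
  rcases le_total 0 x with h | h
  · rw [abs_of_nonneg h]
    have h1 : Real.exp (-(c * Real.exp (-(2 * x)))) ≤ 1 := by
      rw [Real.exp_le_one_iff]
      have := Real.exp_pos (-(2 * x))
      have : 0 < c * Real.exp (-(2 * x)) := by positivity
      linarith
    have h2 : Real.exp (-(4 * x)) ≤ Real.exp (-(2 * x)) := Real.exp_le_exp.2 (by linarith)
    have h3 : 0 ≤ 6 / c ^ 3 := by positivity
    have h4 := Real.exp_pos (-(2 * x))
    have h5 := Real.exp_pos (-(4 * x))
    calc _ ≤ Real.exp (-(2 * x)) * 1 := by gcongr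
      _ ≤ (1 + 6 / c ^ 3) * Real.exp (-(2 * x)) := by nlinarith
  · rw [abs_of_nonpos h]
    set y := Real.exp (-(2 * x)) with hy
    have hy0 : 0 < y := Real.exp_pos _
    have h1 := pow_le_exp 3 hc hy0.le
    have e1 : Real.exp (-(4 * x)) = y ^ 2 := by
      rw [hy, ← Real.exp_nat_mul]; congr 1; push_cast; ring
    have e2 : Real.exp (-(2 * -x)) = y⁻¹ := by rw [hy, ← Real.exp_neg]; congr 1; ring
    rw [e1, e2]
    have h2 : Real.exp (c * y) * Real.exp (-(c * y)) = 1 := by rw [← Real.exp_add]; simp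
    have h3 : y ^ 3 * Real.exp (-(c * y)) ≤ 6 / c ^ 3 := by
      calc y ^ 3 * Real.exp (-(c * y)) ≤ ((3 : ℕ).factorial / c ^ 3 * Real.exp (c * y)) * Real.exp (-(c * y)) := by
            gcongr
        _ = (3 : ℕ).factorial / c ^ 3 * (Real.exp (c * y) * Real.exp (-(c * y))) := by ring
        _ = 6 / c ^ 3 := by rw [h2]; norm_num [Nat.factorial]
    calc y ^ 2 * Real.exp (-(c * y)) = (y ^ 3 * Real.exp (-(c * y))) * y⁻¹ := by field_simp
      _ ≤ (6 / c ^ 3) * y⁻¹ := by gcongr
      _ ≤ (1 + 6 / c ^ 3) * y⁻¹ := by gcongr; linarith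

lemma gum_int {c : ℝ} (hc : 0 < c) :
    Integrable fun x : ℝ => Real.exp (-(4 * x)) * Real.exp (-(c * Real.exp (-(2 * x)))) := by
  refine ((int_exp_abs two_pos).const_mul (1 + 6 / c ^ 3)).mono' (by fun_prop : Continuous _).aestronglyMeasurable ?_
  refine Eventually.of_forall fun x => ?_
  rw [Real.norm_eq_abs, abs_of_pos (by positivity)]
  exact gum_le hc x

lemma gum_val {c : ℝ} (hc : 0 < c) :
    ∫ x : ℝ, Real.exp (-(4 * x)) * Real.exp (-(c * Real.exp (-(2 * x)))) = 1 / (2 * c ^ 2) := by
  have hd : ∀ x : ℝ, HasDerivAt (fun x : ℝ => (Real.exp (-(2 * x)) / c + 1 / c ^ 2) / 2 *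
      Real.exp (-(c * Real.exp (-(2 * x))))) (Real.exp (-(4 * x)) * Real.exp (-(c * Real.exp (-(2 * x))))) x := by
    intro x
    have h1 : HasDerivAt (fun x : ℝ => -(2 * x)) (-(2 * 1)) x := ((hasDerivAt_id x).const_mul 2).neg
    have h2 := h1.exp
    have h3 : HasDerivAt (fun x : ℝ => -(c * Real.exp (-(2 * x)))) (-(c * (Real.exp (-(2 * x)) * -(2 * 1)))) x :=
      (h2.const_mul c).neg
    have h4 := h3.exp
    have h5 := (((h2.div_const c).add_const (1 / c ^ 2)).div_const 2).mul h4
    refine h5.congr_deriv ?_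
    have e : Real.exp (-(4 * x)) = Real.exp (-(2 * x)) ^ 2 := by
      rw [← Real.exp_nat_mul]; congr 1; push_cast; ring
    rw [e]
    field_simp
    ring
  have htop : Tendsto (fun x : ℝ => (Real.exp (-(2 * x)) / c + 1 / c ^ 2) / 2 *
      Real.exp (-(c * Real.exp (-(2 * x))))) atTop (𝓝 ((0 / c + 1 / c ^ 2) / 2 * Real.exp (-(c * 0)))) := by
    have h1 : Tendsto (fun x : ℝ => Real.exp (-(2 * x))) atTop (𝓝 0) :=
      Real.tendsto_exp_atBot.comp (tendsto_neg_atTop_atBot.comp (tendsto_id.const_mul_atTop two_pos))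
    exact (((h1.div_const c).add_const _).div_const 2).mul
      ((Real.continuous_exp.tendsto _).comp ((h1.const_mul c).neg))
  have hbot : Tendsto (fun x : ℝ => (Real.exp (-(2 * x)) / c + 1 / c ^ 2) / 2 *
      Real.exp (-(c * Real.exp (-(2 * x))))) atBot (𝓝 0) := by
    have h1 : Tendsto (fun x : ℝ => Real.exp (-(2 * x))) atBot atTop :=
      Real.tendsto_exp_atTop.comp (tendsto_neg_atBot_atTop.comp (tendsto_id.const_mul_atBot two_pos))
    have h2 : Tendsto (fun y : ℝ => (y / c + 1 / c ^ 2) / 2 * Real.exp (-(c * y))) atTop (𝓝 0) := by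
      have h3 : Tendsto (fun y : ℝ => (c * y) ^ 1 * Real.exp (-(c * y))) atTop (𝓝 0) :=
        (Real.tendsto_pow_mul_exp_neg_atTop_nhds_zero 1).comp (tendsto_id.const_mul_atTop hc)
      have h4 : Tendsto (fun y : ℝ => (c * y) ^ 0 * Real.exp (-(c * y))) atTop (𝓝 0) :=
        (Real.tendsto_pow_mul_exp_neg_atTop_nhds_zero 0).comp (tendsto_id.const_mul_atTop hc)
      have h5 := (h3.const_mul (1 / (2 * c ^ 2))).add (h4.const_mul (1 / (2 * c ^ 2)))
      rw [mul_zero, add_zero] at h5
      refine h5.congr fun y => ?_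
      field_simp
    exact h2.comp h1
  rw [integral_of_hasDerivAt_of_tendsto hd (gum_int hc) hbot htop]
  simp
  field_simp

/-! ### the limit -/

lemma one_sub_tanh_eq (a : ℝ) : Real.tanh a = 1 - 2 / (Real.exp (2 * a) + 1) := by
  rw [Real.tanh_eq_sinh_div_cosh, Real.sinh_eq, Real.cosh_eq]
  have h1 := Real.exp_pos a
  have e1 : Real.exp (-a) = (Real.exp a)⁻¹ := Real.exp_neg a
  have e2 : Real.exp (2 * a) = Real.exp a ^ 2 := by rw [← Real.exp_nat_mul]; norm_num
  rw [e1, e2]
  field_simp
  ring

lemma inv_cosh_sq_eq (a : ℝ) : 1 / Real.cosh a ^ 2 = 4 / (Real.exp (2 * a) + 2 + Real.exp (-(2 * a))) := by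
  rw [Real.cosh_eq]
  have h1 := Real.exp_pos a
  have e1 : Real.exp (-a) = (Real.exp a)⁻¹ := Real.exp_neg a
  have e2 : Real.exp (2 * a) = Real.exp a ^ 2 := by rw [← Real.exp_nat_mul]; norm_num
  have e3 : Real.exp (-(2 * a)) = (Real.exp a ^ 2)⁻¹ := by rw [← e2, Real.exp_neg]
  rw [e1, e2, e3]
  field_simp
  ring

/-- the shift -/
def Ls (m : ℕ) : ℝ := Real.log (m + 1) / 2

lemma exp_Ls (m : ℕ) (y : ℝ) : Real.exp (2 * (y + Ls m)) = (m + 1) * Real.exp (2 * y) := by
  unfold Ls
  rw [show 2 * (y + Real.log ((m : ℝ) + 1) / 2) = Real.log ((m : ℝ) + 1) + 2 * y by ring, Real.exp_add,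
    Real.exp_log (by positivity)]

lemma tend_inv : Tendsto (fun m : ℕ => (1 : ℝ) / ((m : ℝ) + 1)) atTop (𝓝 0) :=
  tendsto_one_div_add_atTop_nhds_zero_nat

lemma ph_lim (y : ℝ) : Tendsto (fun m : ℕ => ((m : ℝ) + 1) * ph m (y + Ls m)) atTop
    (𝓝 (4 * Real.exp (-(2 * y)) * Real.exp (-(2 * Real.exp (-(2 * y)))))) := by
  have hE := Real.exp_pos (2 * y)
  -- the factor `sech^2`
  have h1 : Tendsto (fun m : ℕ => ((m : ℝ) + 1) * (1 / Real.cosh (y + Ls m) ^ 2)) atTop
      (𝓝 (4 * Real.exp (-(2 * y)))) := by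
    have e : ∀ m : ℕ, ((m : ℝ) + 1) * (1 / Real.cosh (y + Ls m) ^ 2) =
        4 / (Real.exp (2 * y) + 2 * (1 / ((m : ℝ) + 1)) +
          (1 / ((m : ℝ) + 1)) * (1 / ((m : ℝ) + 1)) * Real.exp (-(2 * y))) := by
      intro m
      have hm : (0 : ℝ) < (m : ℝ) + 1 := by positivity
      rw [inv_cosh_sq_eq, Real.exp_neg, exp_Ls, Real.exp_neg]
      field_simp
    simp_rw [e]
    have h2 : Tendsto (fun m : ℕ => Real.exp (2 * y) + 2 * (1 / ((m : ℝ) + 1)) +
          (1 / ((m : ℝ) + 1)) * (1 / ((m : ℝ) + 1)) * Real.exp (-(2 * y))) atTop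
        (𝓝 (Real.exp (2 * y) + 2 * 0 + 0 * 0 * Real.exp (-(2 * y)))) :=
      ((tend_inv.const_mul 2).const_add _).add ((tend_inv.mul tend_inv).mul_const _)
    have h3 := (tendsto_const_nhds (x := (4 : ℝ))).div h2 (by simp)
    refine h3.congr' ?_ |>.trans (le_of_eq ?_)
    · exact Eventually.of_forall fun m => rfl
    · congr 1
      rw [Real.exp_neg]; field_simp; ring
  -- the factor `tanh^m`
  have h2 : Tendsto (fun m : ℕ => Real.tanh (y + Ls m) ^ m) atTop
      (𝓝 (Real.exp (-(2 * Real.exp (-(2 * y)))))) := by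
    have e : ∀ m : ℕ, Real.tanh (y + Ls m) = 1 + (-(2 / (((m : ℝ) + 1) * Real.exp (2 * y) + 1))) := by
      intro m
      rw [one_sub_tanh_eq, exp_Ls]; ring
    simp_rw [e]
    apply Real.tendsto_one_add_pow_exp_of_tendsto
    have e3 : ∀ m : ℕ, (m : ℝ) * (-(2 / (((m : ℝ) + 1) * Real.exp (2 * y) + 1))) =
        -(2 * (1 - 1 / ((m : ℝ) + 1)) / (Real.exp (2 * y) + 1 / ((m : ℝ) + 1))) := by
      intro m
      have hm : (0 : ℝ) < (m : ℝ) + 1 := by positivity
      field_simp
      ring
    simp_rw [e3]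
    have h4 : Tendsto (fun m : ℕ => -(2 * (1 - 1 / ((m : ℝ) + 1)) / (Real.exp (2 * y) + 1 / ((m : ℝ) + 1)))) atTop
        (𝓝 (-(2 * (1 - 0) / (Real.exp (2 * y) + 0)))) :=
      (((tend_inv.const_sub 1).const_mul 2).div (tend_inv.const_add _) (by simp)).neg
    refine h4.trans (le_of_eq ?_)
    congr 1
    rw [Real.exp_neg]; field_simp; ring
  have h3 := h1.mul h2
  refine h3.congr fun m => ?_
  unfold ph
  ring

lemma tanh_pow_le {m : ℕ} {a : ℝ} (ha : 0 ≤ a) : Real.tanh a ^ m ≤ Real.exp (-(m * Real.exp (-(2 * a)))) := by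
  have h0 : 0 ≤ Real.tanh a := by
    rw [Real.tanh_eq_sinh_div_cosh]
    have := Real.cosh_pos a
    have := Real.sinh_nonneg_iff.2 ha
    positivity
  have h1 : Real.tanh a ≤ 1 - Real.exp (-(2 * a)) := by
    rw [one_sub_tanh_eq, Real.exp_neg]
    have h2 : 1 ≤ Real.exp (2 * a) := Real.one_le_exp (by linarith)
    have h3 : (Real.exp (2 * a))⁻¹ ≤ 2 / (Real.exp (2 * a) + 1) := by
      rw [inv_eq_one_div, div_le_div_iff₀ (by positivity) (by positivity)]
      linarith
    linarith
  have h2 : Real.tanh a ≤ Real.exp (-Real.exp (-(2 * a))) := by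
    have := Real.add_one_le_exp (-Real.exp (-(2 * a)))
    linarith
  calc Real.tanh a ^ m ≤ Real.exp (-Real.exp (-(2 * a))) ^ m := pow_le_pow_left₀ h0 h2 m
    _ = _ := by rw [← Real.exp_nat_mul]; congr 1; ring

lemma ph_neg (m : ℕ) (β : ℝ) : ph m (-β) = (-1) ^ m * ph m β := by
  unfold ph
  rw [Real.tanh_neg, Real.cosh_neg, neg_pow]
  ring

/-- **the limit of the correlation integral** -/
theorem cm_lim {s : ℝ} (hs : 0 ≤ s) :
    Tendsto (fun m : ℕ => ((m : ℝ) + 1) ^ 2 * cm m s) atTop (𝓝 (1 / Real.cosh s ^ 2)) := by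
  -- reduction to the half line
  have hhalf : ∀ m : ℕ, cm m s = 2 * ∫ θ in Set.Ioi (0 : ℝ), ph m (θ + s / 2) * ph m (θ - s / 2) := by
    intro m
    rw [half_int, cm]
    · ring
    · intro k
      rw [show -k + s / 2 = -(k - s / 2) by ring, show -k - s / 2 = -(k + s / 2) by ring, ph_neg, ph_neg]
      have : ((-1 : ℝ) ^ m) * (-1) ^ m = 1 := by rw [← mul_pow]; simp
      linear_combination (ph m (k - s / 2) * ph m (k + s / 2)) * this
  -- the shifted functions
  set f : ℕ → ℝ → ℝ := fun m x => Set.indicator (Set.Ioi (0 : ℝ))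
    (fun θ => ((m : ℝ) + 1) ^ 2 * (ph m (θ + s / 2) * ph m (θ - s / 2))) (x + Ls m) with hf
  have e1 : ∀ m : ℕ, ((m : ℝ) + 1) ^ 2 * cm m s = 2 * ∫ x, f m x := by
    intro m
    rw [hf]
    simp only
    rw [integral_add_right_eq_self (fun x => Set.indicator (Set.Ioi (0 : ℝ))
      (fun θ => ((m : ℝ) + 1) ^ 2 * (ph m (θ + s / 2) * ph m (θ - s / 2))) x),
      integral_indicator measurableSet_Ioi, integral_const_mul, hhalf]
    ring
  simp_rw [e1]
  set g : ℝ → ℝ := fun x => 16 * (Real.exp (-(4 * x)) *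
    Real.exp (-((4 * Real.cosh s) * Real.exp (-(2 * x))))) with hg
  have hcs := Real.cosh_pos s
  have hlim : Tendsto (fun m => ∫ x, f m x) atTop (𝓝 (∫ x, g x)) := by
    refine tendsto_integral_of_dominated_convergence
      (fun x => 32 * (Real.exp (-(4 * x)) * Real.exp (-((Real.exp (-s) / 2) * Real.exp (-(2 * x)))))) ?_ ?_ ?_ ?_
    · intro m
      refine (Measurable.indicator ?_ measurableSet_Ioi).comp (measurable_add_const _) |>.aestronglyMeasurable
      exact (((ph_cont m).comp (continuous_add_const _)).mul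
        ((ph_cont m).comp (continuous_sub_right _))).measurable.const_mul _
    · exact (gum_int (by have := Real.exp_pos (-s); positivity)).const_mul 32
    · intro m
      refine Eventually.of_forall fun x => ?_
      rw [hf]
      simp only
      by_cases hx : x + Ls m ∈ Set.Ioi (0 : ℝ)
      · rw [Set.indicator_of_mem hx]
        have hx0 : 0 < x + Ls m := hx
        have ha : 0 ≤ x + Ls m + s / 2 := by linarith
        have hm : (0 : ℝ) < (m : ℝ) + 1 := by positivity
        rw [Real.norm_eq_abs, abs_mul, abs_mul, abs_of_pos (by positivity : 0 < ((m : ℝ) + 1) ^ 2)]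
        -- bound of the first factor
        have hE1 : Real.exp (-(2 * (x + Ls m + s / 2))) = Real.exp (-(2 * x)) * Real.exp (-s) / (m + 1) := by
          rw [Real.exp_neg, show x + Ls m + s / 2 = (x + s / 2) + Ls m by ring, exp_Ls, Real.exp_neg, Real.exp_neg,
            show 2 * (x + s / 2) = 2 * x + s by ring, Real.exp_add]
          field_simp
        have b1 : |ph m (x + Ls m + s / 2)| ≤ 4 * Real.exp (-(2 * (x + Ls m + s / 2))) *
            Real.exp (-((Real.exp (-s) / 2) * Real.exp (-(2 * x)))) ∨ m = 0 := by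
          rcases Nat.eq_zero_or_pos m with h0 | h0
          · exact Or.inr h0
          · left
            have t0 : 0 ≤ Real.tanh (x + Ls m + s / 2) := by
              rw [Real.tanh_eq_sinh_div_cosh]
              have := Real.cosh_pos (x + Ls m + s / 2)
              have := Real.sinh_nonneg_iff.2 ha
              positivity
            unfold ph
            rw [abs_div, abs_pow, abs_of_nonneg t0, abs_of_pos (cosh_sq_pos _), div_eq_mul_one_div]
            have c1 := tanh_pow_le (m := m) ha
            have c2 := inv_cosh_sq_le (x + Ls m + s / 2)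
            rw [abs_of_nonneg ha] at c2
            have c3 : Real.exp (-(m * Real.exp (-(2 * (x + Ls m + s / 2))))) ≤
                Real.exp (-((Real.exp (-s) / 2) * Real.exp (-(2 * x)))) := by
              apply Real.exp_le_exp.2
              rw [hE1]
              have hm1 : (1 : ℝ) ≤ m := by exact_mod_cast h0
              have : (1 : ℝ) / 2 ≤ m / (m + 1) := by
                rw [div_le_div_iff₀ (by norm_num) hm]; linarith
              have q : 0 < Real.exp (-(2 * x)) * Real.exp (-s) := by positivity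
              have : (m : ℝ) * (Real.exp (-(2 * x)) * Real.exp (-s) / (m + 1)) =
                  (m / (m + 1)) * (Real.exp (-(2 * x)) * Real.exp (-s)) := by ring
              rw [this]
              nlinarith
            calc _ ≤ Real.exp (-((Real.exp (-s) / 2) * Real.exp (-(2 * x)))) *
                (4 * Real.exp (-(2 * (x + Ls m + s / 2)))) := by
                  gcongr
                  exact c1.trans c3
              _ = _ := by ring
        have b1' : |ph m (x + Ls m + s / 2)| ≤ 4 * Real.exp (-(2 * (x + Ls m + s / 2))) *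
            Real.exp (-((Real.exp (-s) / 2) * Real.exp (-(2 * x)))) ∨ m = 0 := b1
        -- bound of the second factor
        have b2 : |ph m (x + Ls m - s / 2)| ≤ 4 * Real.exp (-(2 * (x + Ls m - s / 2))) := by
          refine (ph_abs_le _ _).trans ?_
          rw [inv_cosh_sq_eq, Real.exp_neg (2 * (x + Ls m - s / 2)), div_eq_mul_inv]
          gcongr
          have := Real.exp_pos (2 * (x + Ls m - s / 2))
          have : 0 < (Real.exp (2 * (x + Ls m - s / 2)))⁻¹ := by positivity
          linarith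
        have hE2 : Real.exp (-(2 * (x + Ls m - s / 2))) = Real.exp (-(2 * x)) * Real.exp s / (m + 1) := by
          rw [Real.exp_neg, show x + Ls m - s / 2 = (x - s / 2) + Ls m by ring, exp_Ls, Real.exp_neg,
            show 2 * (x - s / 2) = 2 * x + -s by ring, Real.exp_add, Real.exp_neg s]
          field_simp
        have hes : Real.exp (-s) * Real.exp s = 1 := by rw [← Real.exp_add]; simp
        have he4 : Real.exp (-(4 * x)) = Real.exp (-(2 * x)) * Real.exp (-(2 * x)) := by
          rw [← Real.exp_add]; congr 1; ring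
        rcases b1 with b1 | h0
        · rw [hE1] at b1
          rw [hE2] at b2
          calc ((m : ℝ) + 1) ^ 2 * (|ph m (x + Ls m + s / 2)| * |ph m (x + Ls m - s / 2)|)
              ≤ ((m : ℝ) + 1) ^ 2 * ((4 * (Real.exp (-(2 * x)) * Real.exp (-s) / (m + 1)) *
                Real.exp (-((Real.exp (-s) / 2) * Real.exp (-(2 * x))))) *
                (4 * (Real.exp (-(2 * x)) * Real.exp s / (m + 1)))) := by
                gcongr
            _ = 16 * ((Real.exp (-(2 * x)) * Real.exp (-(2 * x))) *
                Real.exp (-((Real.exp (-s) / 2) * Real.exp (-(2 * x))))) * (Real.exp (-s) * Real.exp s) := by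
                field_simp
                ring
            _ ≤ _ := by
                rw [hes, mul_one, he4]
                gcongr
                norm_num
        · -- `m = 0`
          subst h0
          have hx1 : 0 < x := by
            have : Ls 0 = 0 := by unfold Ls; simp
            rw [this] at hx0; linarith
          have b1 : |ph 0 (x + Ls 0 + s / 2)| ≤ 4 * Real.exp (-(2 * (x + Ls 0 + s / 2))) := by
            refine (ph_abs_le _ _).trans ?_
            have := inv_cosh_sq_le (x + Ls 0 + s / 2)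
            rwa [abs_of_nonneg ha] at this
          rw [hE1] at b1
          rw [hE2] at b2
          have k0 : Real.exp (-(1 / 2 : ℝ)) ≤ Real.exp (-((Real.exp (-s) / 2) * Real.exp (-(2 * x)))) := by
            apply Real.exp_le_exp.2
            have q1 : Real.exp (-s) ≤ 1 := Real.exp_le_one_iff.2 (by linarith)
            have q2 : Real.exp (-(2 * x)) ≤ 1 := Real.exp_le_one_iff.2 (by linarith)
            have q3 := Real.exp_pos (-s)
            have q4 := Real.exp_pos (-(2 * x))
            nlinarith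
          have k1 : (1 : ℝ) / 2 ≤ Real.exp (-((Real.exp (-s) / 2) * Real.exp (-(2 * x)))) := by
            have := Real.add_one_le_exp (-(1 / 2 : ℝ))
            linarith
          rw [Nat.cast_zero, zero_add, div_one] at b1 b2
          have q := Real.exp_pos (-(2 * x))
          calc (((0 : ℕ) : ℝ) + 1) ^ 2 * (|ph 0 (x + Ls 0 + s / 2)| * |ph 0 (x + Ls 0 - s / 2)|)
              ≤ (((0 : ℕ) : ℝ) + 1) ^ 2 * ((4 * (Real.exp (-(2 * x)) * Real.exp (-s))) *
                (4 * (Real.exp (-(2 * x)) * Real.exp s))) := by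
                gcongr
            _ = 32 * ((Real.exp (-(2 * x)) * Real.exp (-(2 * x))) * (1 / 2)) * (Real.exp (-s) * Real.exp s) := by
                push_cast; ring
            _ ≤ 32 * ((Real.exp (-(2 * x)) * Real.exp (-(2 * x))) *
                Real.exp (-((Real.exp (-s) / 2) * Real.exp (-(2 * x))))) * (Real.exp (-s) * Real.exp s) := by
                gcongr
            _ = _ := by rw [hes, mul_one, he4]
      · rw [Set.indicator_of_notMem hx, norm_zero]
        positivity
    · refine Eventually.of_forall fun x => ?_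
      have hev : ∀ᶠ m : ℕ in atTop, 0 < x + Ls m := by
        have h1 : Tendsto Ls atTop atTop := by
          unfold Ls
          refine Tendsto.atTop_div_const two_pos (Real.tendsto_log_atTop.comp ?_)
          exact tendsto_atTop_add_const_right _ _ tendsto_natCast_atTop_atTop
        filter_upwards [h1.eventually_gt_atTop (-x)] with m hm
        linarith
      have h1 := (ph_lim (x + s / 2)).mul (ph_lim (x - s / 2))
      have h2 : Tendsto (fun m => f m x) atTop (𝓝 (4 * Real.exp (-(2 * (x + s / 2))) *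
          Real.exp (-(2 * Real.exp (-(2 * (x + s / 2))))) * (4 * Real.exp (-(2 * (x - s / 2))) *
          Real.exp (-(2 * Real.exp (-(2 * (x - s / 2)))))))) := by
        refine h1.congr' ?_
        filter_upwards [hev] with m hm
        rw [hf]
        simp only
        rw [Set.indicator_of_mem (Set.mem_Ioi.2 hm), show x + s / 2 + Ls m = x + Ls m + s / 2 by ring,
          show x - s / 2 + Ls m = x + Ls m - s / 2 by ring]
        ring
      refine h2.trans (le_of_eq ?_)
      congr 1
      rw [hg]
      simp only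
      have k1 : Real.exp (-(2 * (x + s / 2))) * Real.exp (-(2 * (x - s / 2))) = Real.exp (-(4 * x)) := by
        rw [← Real.exp_add]; congr 1; ring
      have k2 : Real.exp (-(2 * (x + s / 2))) + Real.exp (-(2 * (x - s / 2))) =
          2 * Real.cosh s * Real.exp (-(2 * x)) := by
        rw [Real.cosh_eq, show -(2 * (x + s / 2)) = -(2 * x) + -s by ring,
          show -(2 * (x - s / 2)) = -(2 * x) + s by ring, Real.exp_add, Real.exp_add]
        ring
      have k3 : Real.exp (-(2 * Real.exp (-(2 * (x + s / 2))))) * Real.exp (-(2 * Real.exp (-(2 * (x - s / 2))))) =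
          Real.exp (-((4 * Real.cosh s) * Real.exp (-(2 * x)))) := by
        rw [← Real.exp_add]
        congr 1
        linear_combination (-2 : ℝ) * k2
      rw [← k1, ← k3]
      ring
  have hval : 2 * ∫ x, g x = 1 / Real.cosh s ^ 2 := by
    rw [hg]
    simp only
    rw [integral_const_mul, gum_val (by positivity)]
    field_simp
    ring
  rw [← hval]
  exact hlim.const_mul 2

end

end NUQ
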