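import Mathlib

/-!
# Jensen's inequality for Gram determinants

`exp(∑ ∫ w q_j^2 g) ≤ det (∫ w q_i q_j exp g)` for an orthonormal family `q`.
-/

set_option autoImplicit false

open MeasureTheory Matrix

namespace NUQ

theorem jensen {ι : Type*} [Fintype ι] [DecidableEq ι] (μ : Measure ℝ) {w g : ℝ → ℝ} {q : ι → ℝ → ℝ}
    (hw : ∀ x, 0 ≤ w x) (h1 : ∀ i j, ∫ x, w x * (q i x * q j x) ∂μ = if i = j then 1 else 0)
    (i1 : ∀ i j, Integrable (fun x => w x * (q i x * q j x)) μ)
    (i2 : ∀ i j, Integrable (fun x => w x * (q i x * q j x) * g x) μ)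
    (i3 : ∀ i j, Integrable (fun x => w x * (q i x * q j x) * Real.exp (g x)) μ) :
    Real.exp (∑ j, ∫ x, w x * (q j x * q j x) * g x ∂μ) ≤
      (Matrix.of fun i j => ∫ x, w x * (q i x * q j x) * Real.exp (g x) ∂μ).det := by
  set G : Matrix ι ι ℝ := Matrix.of fun i j => ∫ x, w x * (q i x * q j x) * Real.exp (g x) ∂μ with hG
  have hH : G.IsHermitian := by
    ext i j
    simp only [conjTranspose_apply, star_trivial, hG, Matrix.of_apply]
    congr 1
    funext x
    ring
  set U : Matrix ι ι ℝ := (hH.eigenvectorUnitary : Matrix ι ι ℝ) with hU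
  have hUU : U * star U = 1 := Unitary.coe_mul_star_self hH.eigenvectorUnitary
  have hUU2 : star U * U = 1 := Unitary.coe_star_mul_self hH.eigenvectorUnitary
  have hc : ∀ i j, ∑ a, U i a * U j a = if i = j then 1 else 0 := by
    intro i j
    have := congrFun (congrFun hUU i) j
    rw [Matrix.mul_apply, Matrix.one_apply] at this
    simpa [Matrix.star_apply] using this
  have ho : ∀ a b, ∑ i, U i a * U i b = if a = b then 1 else 0 := by
    intro a b
    have := congrFun (congrFun hUU2 a) b
    rw [Matrix.mul_apply, Matrix.one_apply] at this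
    simpa [Matrix.star_apply] using this
  -- the rotated functions
  set r : ι → ℝ → ℝ := fun a x => ∑ i, U i a * q i x with hr
  have hr2 : ∀ a x, r a x ^ 2 = ∑ i, ∑ j, (U i a * U j a) * (q i x * q j x) := by
    intro a x
    rw [hr]
    simp only
    rw [sq, Finset.sum_mul_sum]
    refine Finset.sum_congr rfl fun i _ => Finset.sum_congr rfl fun j _ => ?_
    ring
  have hint : ∀ (f : ℝ → ℝ) (_ : ∀ i j, Integrable (fun x => w x * (q i x * q j x) * f x) μ) (a : ι),
      Integrable (fun x => w x * r a x ^ 2 * f x) μ ∧ ∫ x, w x * r a x ^ 2 * f x ∂μ =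
        ∑ i, ∑ j, (U i a * U j a) * ∫ x, w x * (q i x * q j x) * f x ∂μ := by
    intro f hf a
    have e : (fun x => w x * r a x ^ 2 * f x) =
        fun x => ∑ i, ∑ j, (U i a * U j a) * (w x * (q i x * q j x) * f x) := by
      funext x
      rw [hr2, Finset.mul_sum, Finset.sum_mul]
      refine Finset.sum_congr rfl fun i _ => ?_
      rw [Finset.mul_sum, Finset.sum_mul]
      refine Finset.sum_congr rfl fun j _ => ?_
      ring
    constructor
    · rw [e]
      exact integrable_finsetSum _ fun i _ => integrable_finsetSum _ fun j _ => (hf i j).const_mul _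
    · rw [e, integral_finsetSum _ fun i _ => integrable_finsetSum _ fun j _ => (hf i j).const_mul _]
      refine Finset.sum_congr rfl fun i _ => ?_
      rw [integral_finsetSum _ fun j _ => (hf i j).const_mul _]
      exact Finset.sum_congr rfl fun j _ => integral_const_mul _ _
  -- mass one
  have hmass : ∀ a, Integrable (fun x => w x * r a x ^ 2) μ ∧ ∫ x, w x * r a x ^ 2 ∂μ = 1 := by
    intro a
    have h := hint (fun _ => 1) (fun i j => by simpa using i1 i j) a
    simp only [mul_one] at h
    refine ⟨h.1, ?_⟩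
    rw [h.2]
    simp_rw [h1]
    simp only [mul_ite, mul_one, mul_zero, Finset.sum_ite_eq, Finset.mem_univ, if_true]
    rw [ho a a, if_pos rfl]
  -- eigenvalues
  have heig : ∀ a, hH.eigenvalues a = ∫ x, w x * r a x ^ 2 * Real.exp (g x) ∂μ := by
    intro a
    rw [(hint _ i3 a).2, hH.eigenvalues_eq a]
    simp only [star_trivial, RCLike.re_to_real, dotProduct, mulVec]
    refine Finset.sum_congr rfl fun i _ => ?_
    rw [Finset.mul_sum]
    refine Finset.sum_congr rfl fun j _ => ?_
    rw [hU, hH.eigenvectorUnitary_apply, hH.eigenvectorUnitary_apply]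
    have e : G i j = ∫ x, w x * (q i x * q j x) * Real.exp (g x) ∂μ := rfl
    linear_combination ((hH.eigenvectorBasis a).ofLp i * (hH.eigenvectorBasis a).ofLp j) * e
  -- Jensen
  have hJ : ∀ a, Real.exp (∫ x, w x * r a x ^ 2 * g x ∂μ) ≤ hH.eigenvalues a := by
    intro a
    rw [heig a]
    set c := ∫ x, w x * r a x ^ 2 * g x ∂μ with hc'
    have key : ∀ x, w x * r a x ^ 2 * (Real.exp c * (1 + (g x - c))) ≤ w x * r a x ^ 2 * Real.exp (g x) := by
      intro x
      have h2 := Real.add_one_le_exp (g x - c)
      have h3 : Real.exp c * (1 + (g x - c)) ≤ Real.exp (g x) := by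
        calc Real.exp c * (1 + (g x - c)) ≤ Real.exp c * Real.exp (g x - c) := by
              gcongr
              linarith
          _ = Real.exp (g x) := by rw [← Real.exp_add]; congr 1; ring
      have h4 : 0 ≤ w x * r a x ^ 2 := mul_nonneg (hw x) (sq_nonneg _)
      exact mul_le_mul_of_nonneg_left h3 h4
    have e1 : (fun x => w x * r a x ^ 2 * (Real.exp c * (1 + (g x - c)))) =
        fun x => Real.exp c * (1 - c) * (w x * r a x ^ 2) + Real.exp c * (w x * r a x ^ 2 * g x) := by
      funext x; ring
    have hi : Integrable (fun x => w x * r a x ^ 2 * (Real.exp c * (1 + (g x - c)))) μ := by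
      rw [e1]
      exact ((hmass a).1.const_mul _).add ((hint _ i2 a).1.const_mul _)
    have h5 := integral_mono hi (hint _ i3 a).1 key
    rw [e1, integral_add ((hmass a).1.const_mul _) ((hint _ i2 a).1.const_mul _), integral_const_mul,
      integral_const_mul, (hmass a).2, ← hc'] at h5
    calc Real.exp c = Real.exp c * (1 - c) * 1 + Real.exp c * c := by ring
      _ ≤ _ := h5
  -- the product
  rw [hH.det_eq_prod_eigenvalues]
  have hsum : ∑ j, ∫ x, w x * (q j x * q j x) * g x ∂μ = ∑ a, ∫ x, w x * r a x ^ 2 * g x ∂μ := by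
    simp_rw [(hint _ i2 _).2]
    rw [Finset.sum_comm]
    refine Finset.sum_congr rfl fun i _ => ?_
    rw [Finset.sum_comm]
    have : ∀ j, ∑ a, U i a * U j a * ∫ x, w x * (q i x * q j x) * g x ∂μ =
        (if i = j then 1 else 0) * ∫ x, w x * (q i x * q j x) * g x ∂μ := by
      intro j
      rw [← Finset.sum_mul, hc]
    simp_rw [this]
    simp
  rw [hsum, Real.exp_sum]
  refine Finset.prod_le_prod (fun a _ => (Real.exp_pos _).le) fun a _ => ?_
  simpa using hJ a

end NUQ
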