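import Pool.Agent.NUQ.Log
import Pool.Agent.NUQ.Jens

/-!
# The lower bound of the Gram determinant: `det G_n ≥ c n^(5/48 - ε)`
-/

set_option autoImplicit false

open MeasureTheory Filter Topology

namespace NUQ

noncomputable section

/-- the Gram matrix -/
def Gm (n : ℕ) : Matrix (Fin n) (Fin n) ℝ :=
  Matrix.of fun i j => ∫ x in Set.Ioi (0 : ℝ), wf x * ((qq i).eval x * (qq j).eval x) * Real.exp (gg x)

lemma qq_f_int (i j : ℕ) {f : ℝ → ℝ} (hf : Continuous f) {B : ℝ} (hB : ∀ k, |f k| ≤ B) :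
    Integrable (fun x => wf x * ((qq i).eval x * (qq j).eval x) * f x) := by
  have h := wf_poly_int (qq i * qq j) (f := f) hf (B := B) (c := 0)
    (by have := Real.pi_pos; linarith) (fun k => by simpa using hB k)
  refine h.congr (Eventually.of_forall fun k => ?_)
  simp only [Polynomial.eval_mul]
  ring

/-- the sum of the one-body terms -/
def bs (j : ℕ) : ℝ := ∫ x in Set.Ioi (0 : ℝ), wf x * ((qq j).eval x * (qq j).eval x) * gg x

lemma bs_eq (j : ℕ) : bs j = (2 * j + 1) / 2 * ∫ k, wf k * ((PP (2 * j)).eval k ^ 2 * gg k) := by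
  unfold bs
  rw [half_int (fun k => by rw [wf_neg, qq_neg, gg_neg]), ← integral_const_mul, ← integral_const_mul]
  congr 1
  funext k
  unfold qq
  rw [Polynomial.eval_mul, Polynomial.eval_C]
  have h := Real.mul_self_sqrt (by positivity : (0 : ℝ) ≤ 2 * j + 1)
  linear_combination (1 / 2 * wf k * (PP (2 * j)).eval k ^ 2 * gg k) * h

lemma bs_nonneg (j : ℕ) : 0 ≤ bs j := by
  unfold bs
  refine integral_nonneg fun x => ?_
  have h1 := wf_pos x
  have h2 := gg_nonneg x
  have h3 : 0 ≤ (qq j).eval x * (qq j).eval x := mul_self_nonneg _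
  positivity

lemma det_ge (n : ℕ) : Real.exp (∑ j ∈ Finset.range n, bs j) ≤ (Gm n).det := by
  have h := jensen (ι := Fin n) (volume.restrict (Set.Ioi (0 : ℝ))) (w := wf) (g := gg)
    (q := fun j x => (qq j).eval x) (fun x => (wf_pos x).le) (fun i j => by
      rw [qq_orth]
      simp only [Fin.ext_iff])
    (fun i j => by
      have := (qq_f_int i j (f := fun _ => 1) continuous_const (B := 1) (fun k => by simp)).restrict (s := Set.Ioi 0)
      simpa using this)
    (fun i j => (qq_f_int i j gg_cont (B := 1) (fun k => by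
      rw [abs_of_nonneg (gg_nonneg k)]; exact gg_le k)).restrict)
    (fun i j => (qq_f_int i j (Real.continuous_exp.comp gg_cont) (B := Real.exp 1) (fun k => by
      simp only [Function.comp]
      rw [abs_of_pos (Real.exp_pos _)]; exact Real.exp_le_exp.2 (gg_le k))).restrict)
  rw [← Fin.sum_univ_eq_sum_range (fun j => bs j) n]
  exact h

theorem det_low {ε : ℝ} (hε : 0 < ε) : ∃ c : ℝ, 0 < c ∧ ∀ n : ℕ, 1 ≤ n →
    c * (n : ℝ) ^ (5 / 48 - ε) ≤ (Gm n).det := by
  have hp := Real.pi_pos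
  -- wlog small epsilon
  set δ : ℝ := min ε (5 / 48) with hδ
  have hδ0 : 0 < δ := lt_min hε (by norm_num)
  have h1 := low_lim gg_cont gg_nonneg gg_le gg_int (ε := 4 * δ) (by positivity)
  rw [gg_integral] at h1
  obtain ⟨M, hM⟩ := eventually_atTop.1 h1
  set κ : ℝ := 5 / 48 - δ with hκ
  have hκ0 : 0 ≤ κ := by rw [hκ]; linarith [min_le_right ε (5 / 48 : ℝ)]
  have hb : ∀ j : ℕ, M ≤ j → κ / ((j : ℝ) + 1) ≤ bs j := by
    intro j hj
    have h2 := hM (2 * j) (by omega)
    rw [bs_eq]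
    set K := ∫ k, wf k * ((PP (2 * j)).eval k ^ 2 * gg k) with hK
    have e : (1 / Real.pi) * (5 * Real.pi / 12) = 5 / 12 := by field_simp
    rw [e] at h2
    push_cast at h2
    have hj1 : (0 : ℝ) < 2 * j + 1 := by positivity
    have h3 : 5 / 12 - 4 * δ = 4 * κ := by rw [hκ]; ring
    rw [h3] at h2
    have h4 : 4 * κ / (2 * j + 1) ≤ (2 * j + 1) * K := by
      rw [div_le_iff₀ hj1]
      calc 4 * κ ≤ (2 * (j : ℝ) + 1) ^ 2 * K := h2
        _ = _ := by ring
    calc κ / ((j : ℝ) + 1) ≤ 2 * κ / (2 * j + 1) := by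
          rw [div_le_div_iff₀ (by positivity) hj1]
          nlinarith
      _ = (4 * κ / (2 * j + 1)) / 2 := by ring
      _ ≤ ((2 * j + 1) * K) / 2 := by gcongr
      _ = _ := by ring
  set H : ℝ := ∑ j ∈ Finset.range M, κ / ((j : ℝ) + 1) with hH
  have hH0 : 0 ≤ H := Finset.sum_nonneg fun j _ => by positivity
  have hsum : ∀ n : ℕ, κ * Real.log (n + 1) - H ≤ ∑ j ∈ Finset.range n, bs j := by
    intro n
    have h5 : ∑ j ∈ Finset.range n, κ / ((j : ℝ) + 1) - H ≤ ∑ j ∈ Finset.range n, bs j := by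
      rcases le_total n M with h | h
      · have h6 : ∑ j ∈ Finset.range n, κ / ((j : ℝ) + 1) ≤ H :=
          Finset.sum_le_sum_of_subset_of_nonneg (Finset.range_mono h) fun j _ _ => by positivity
        have h7 : 0 ≤ ∑ j ∈ Finset.range n, bs j := Finset.sum_nonneg fun j _ => bs_nonneg j
        linarith
      · rw [← Finset.sum_range_add_sum_Ico _ h, ← Finset.sum_range_add_sum_Ico (fun j => bs j) h, hH]
        have h6 : ∑ j ∈ Finset.Ico M n, κ / ((j : ℝ) + 1) ≤ ∑ j ∈ Finset.Ico M n, bs j :=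
          Finset.sum_le_sum fun j hj => hb j (Finset.mem_Ico.1 hj).1
        have h7 : 0 ≤ ∑ j ∈ Finset.range M, bs j := Finset.sum_nonneg fun j _ => bs_nonneg j
        linarith
    have h8 := log_add_one_le_harmonic n
    have h9 : ((harmonic n : ℚ) : ℝ) = ∑ j ∈ Finset.range n, 1 / ((j : ℝ) + 1) := by
      unfold harmonic
      push_cast
      refine Finset.sum_congr rfl fun j _ => ?_
      rw [one_div]
    have h10 : κ * Real.log (n + 1) ≤ ∑ j ∈ Finset.range n, κ / ((j : ℝ) + 1) := by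
      have : ∑ j ∈ Finset.range n, κ / ((j : ℝ) + 1) = κ * ∑ j ∈ Finset.range n, 1 / ((j : ℝ) + 1) := by
        rw [Finset.mul_sum]
        exact Finset.sum_congr rfl fun j _ => by ring
      rw [this]
      rw [h9] at h8
      push_cast at h8
      gcongr
    linarith
  refine ⟨Real.exp (-H), Real.exp_pos _, fun n hn => ?_⟩
  refine le_trans ?_ ((Real.exp_le_exp.2 (hsum n)).trans (det_ge n))
  have hn1 : (1 : ℝ) ≤ n := by exact_mod_cast hn
  have h11 : (n : ℝ) ^ (5 / 48 - ε) ≤ (n : ℝ) ^ κ :=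
    Real.rpow_le_rpow_of_exponent_le hn1 (by rw [hκ]; linarith [min_le_left ε (5 / 48 : ℝ)])
  have h12 : (n : ℝ) ^ κ ≤ ((n : ℝ) + 1) ^ κ := Real.rpow_le_rpow (by linarith) (by linarith) hκ0
  have h13 : ((n : ℝ) + 1) ^ κ = Real.exp (κ * Real.log (n + 1)) := by
    rw [Real.rpow_def_of_pos (by linarith)]; congr 1; ring
  calc Real.exp (-H) * (n : ℝ) ^ (5 / 48 - ε) ≤ Real.exp (-H) * Real.exp (κ * Real.log (n + 1)) := by
        gcongr
        rw [← h13]
        exact h11.trans h12
    _ = _ := by rw [← Real.exp_add]; congr 1; ring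

end

end NUQ
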