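import Pool.Agent.NUQ.VG

/-!
# NUQ: the limit of the two ends of the strip
-/

set_option autoImplicit false

namespace NUQ

open MeasureTheory Filter Topology Set EXS CenC CenC.L

/-- convergence of the edge integral -/
theorem edge_lim {W : ℕ → ℝ → ℂ} {A : ℕ → ℝ} (hA : Tendsto A atTop atTop)
    (hcmp : ∀ n : ℕ, (n : ℝ) ≤ A n ∧ A n ≤ 2 * n)
    (hedge : ∀ᶠ n : ℕ in atTop, ∀ X : ℝ, 1 < X → ‖W n X‖ ≤ (X - 1) / (X + 1) * Real.exp (-((n : ℝ) / X)))
    {v : ℕ → ℝ → ℝ} (hm : ∀ n, Measurable (v n)) {C3 : ℝ} (hC3 : 0 ≤ C3)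
    (hv : ∀ᶠ n in atTop, ∀ s : ℝ, 0 < s → 1 / A n < s →
        |v n (A n * s)| ≤ ‖W n (A n * s)‖ * (1 + C3 * s ^ (-(1 / 2) : ℝ)))
    {g : ℝ → ℝ} (hg : ∀ s : ℝ, 0 < s → Tendsto (fun n => v n (A n * s)) atTop (𝓝 (g s))) :
    Tendsto (fun n => ∫ s in Ioi (0:ℝ), (Ioi (1 / A n)).indicator
      (fun s => v n (A n * s) * (1 / (s ^ 2 - (1 / A n) ^ 2))) s) atTop
      (𝓝 (∫ s in Ioi (0:ℝ), g s * s ^ (-1 - 1 : ℝ))) := by
  refine tendsto_integral_filter_of_dominated_convergence
      (fun s => Real.exp (-(1 / 2) / s) * s ^ (-1 - 1 : ℝ) +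
        C3 * (Real.exp (-(1 / 2) / s) * s ^ (-1 - (1 / 2 + 1) : ℝ)))
      (Eventually.of_forall fun n => ?_) ?_ ?_ ?_
  · have h1 := hm n
    apply Measurable.aestronglyMeasurable
    apply Measurable.indicator _ measurableSet_Ioi
    fun_prop
  · filter_upwards [hv, hedge, hA.eventually_gt_atTop 0] with n h1 h2 hA0
    refine (ae_restrict_iff' measurableSet_Ioi).2 (ae_of_all _ fun s hs => ?_)
    have hs0 : 0 < s := hs
    simp only [indicator]
    split_ifs with h3
    · have hX : 1 < A n * s := by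
        have h3' : 1 / A n < s := h3
        rw [div_lt_iff₀ hA0] at h3'
        linarith
      set X := A n * s with hXd
      have hX0 : 0 < X := by linarith
      have e1 : s ^ 2 - (1 / A n) ^ 2 = (X - 1) * (X + 1) / (A n) ^ 2 := by
        rw [hXd]
        field_simp
        ring
      have hX1 : 0 < X - 1 := by linarith
      have e2 : 0 < s ^ 2 - (1 / A n) ^ 2 := by
        rw [e1]
        positivity
      rw [norm_mul, Real.norm_eq_abs, Real.norm_eq_abs, abs_of_pos (one_div_pos.2 e2)]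
      have h4 := h1 s hs0 h3
      have h5 := h2 X hX
      have hp : 0 < s ^ (-(1 / 2) : ℝ) := by positivity
      have h6 : Real.exp (-((n : ℝ) / X)) ≤ Real.exp (-(1 / 2) / s) := by
        apply Real.exp_le_exp.2
        rw [neg_div, neg_le_neg_iff, div_le_div_iff₀ hs0 hX0]
        nlinarith [(hcmp n).2]
      have h7 : (X - 1) / (X + 1) * (1 / (s ^ 2 - (1 / A n) ^ 2)) ≤ s ^ (-1 - 1 : ℝ) := by
        rw [e1, rpow_k1 hs0]
        have e3 : (X - 1) / (X + 1) * (1 / ((X - 1) * (X + 1) / (A n) ^ 2)) = (A n) ^ 2 / (X + 1) ^ 2 := by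
          field_simp
        rw [e3, div_le_div_iff₀ (by positivity) (by positivity), one_mul, ← mul_pow, ← hXd]
        exact pow_le_pow_left₀ hX0.le (by linarith) 2
      calc |v n X| * (1 / (s ^ 2 - (1 / A n) ^ 2))
          ≤ (((X - 1) / (X + 1) * Real.exp (-(1 / 2) / s)) * (1 + C3 * s ^ (-(1 / 2) : ℝ))) *
            (1 / (s ^ 2 - (1 / A n) ^ 2)) := by
            refine mul_le_mul_of_nonneg_right (h4.trans ?_) (one_div_pos.2 e2).le
            refine mul_le_mul_of_nonneg_right (h5.trans ?_) (by positivity)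
            exact mul_le_mul_of_nonneg_left h6 (div_nonneg hX1.le (by linarith))
        _ = ((X - 1) / (X + 1) * (1 / (s ^ 2 - (1 / A n) ^ 2))) * (Real.exp (-(1 / 2) / s) *
            (1 + C3 * s ^ (-(1 / 2) : ℝ))) := by ring
        _ ≤ s ^ (-1 - 1 : ℝ) * (Real.exp (-(1 / 2) / s) * (1 + C3 * s ^ (-(1 / 2) : ℝ))) :=
            mul_le_mul_of_nonneg_right h7 (by positivity)
        _ = Real.exp (-(1 / 2) / s) * s ^ (-1 - 1 : ℝ) +
            C3 * (Real.exp (-(1 / 2) / s) * (s ^ (-(1 / 2) : ℝ) * s ^ (-1 - 1 : ℝ))) := by ring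
        _ = _ := by
            rw [← Real.rpow_add hs0]
            congr 4
            norm_num
    · rw [norm_zero]
      positivity
  · refine Integrable.add ?_ ((integrableOn_exp_rpow (by norm_num) (by norm_num)).const_mul _)
    exact integrableOn_exp_rpow (by norm_num) (by norm_num)
  · refine (ae_restrict_iff' measurableSet_Ioi).2 (ae_of_all _ fun s hs => ?_)
    have hs0 : 0 < s := hs
    have h0 : Tendsto (fun n => 1 / (s ^ 2 - (1 / A n) ^ 2)) atTop (𝓝 (1 / (s ^ 2 - 0 ^ 2))) := by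
      refine Tendsto.div tendsto_const_nhds (((hA.const_div_atTop 1).pow 2).const_sub _) ?_
      have : 0 < s ^ 2 := by positivity
      simpa using this.ne'
    have h1 : (1 : ℝ) / (s ^ 2 - 0 ^ 2) = s ^ (-1 - 1 : ℝ) := by
      rw [rpow_k1 hs0]
      norm_num
    rw [h1] at h0
    refine ((hg s hs0).mul h0).congr' ?_
    filter_upwards [inv_lt_ev hA hs0] with n hn
    simp only [indicator, mem_Ioi, hn, if_true]

/-- **the limits of the two ends** -/
theorem lim_ends {W : ℕ → ℝ → ℂ} {A : ℕ → ℝ} (h : Mul W A)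
    (hedge : ∀ᶠ n : ℕ in atTop, ∀ X : ℝ, 1 < X → ‖W n X‖ ≤ (X - 1) / (X + 1) * Real.exp (-((n : ℝ) / X)))
    {V : ℕ → ℂ → ℂ} (hV : ∀ᶠ n in atTop, VG (W n) (V n)) :
    ∃ θ : ℝ, θ ^ 2 = 2 / 3 ∧ Tendsto (fun n => (V n 0).re) atTop (𝓝 θ) ∧
      Tendsto (fun n => A n * ((V n 0).re - (V n (Real.pi : ℂ)).re) / 2) atTop (𝓝 (5 / 48 * θ)) := by
  classical
  have hpi := Real.pi_pos
  have key : ∀ n, ∃ q : ℝ → ℝ, Measurable q ∧ (VG (W n) (V n) → (∃ M : ℝ, Bh q M) ∧
      (∀ X : ℝ, 1 < X → q X = (W n X).im + KG (W n) q X) ∧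
      ∀ w : ℝ, 0 < w → w < Real.pi →
        V n (w : ℂ) = ((1 + (1 / Real.pi) * ∫ X in Set.Ioi (1 : ℝ), q X / (X + Real.cos w) : ℝ) : ℂ)) := by
    intro n
    by_cases h : VG (W n) (V n)
    · obtain ⟨q, h1, h2, h3, h4⟩ := int_eq h
      exact ⟨q, h1, fun _ => ⟨h2, h3, h4⟩⟩
    · exact ⟨fun _ => 0, measurable_const, fun h' => absurd h' h⟩
  choose q hqm hq using key
  have hAl := h.A_lim
  obtain ⟨g, hgm, D, C3, hD0, hC3, hD, hg, hgb, hge⟩ := h.scaled hqm
    (hV.mono fun n hn => ⟨(hq n hn).1, (hq n hn).2.1⟩)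
  have hSol := sol_of hgm hgb hge
  set γ : ℝ → ℝ := fun t => g (Real.exp t) with hγ
  obtain ⟨s0, s1⟩ := sol_all hSol
  have hD' : ∀ᶠ n in atTop, ∀ s : ℝ, 0 < s → 1 / A n < s →
      |q n (A n * s)| ≤ D * (Real.exp (-(1 / 2) / s) * s ^ (-(1 / 2) : ℝ)) :=
    hD.mono fun n hn s hs hs1 => (hn s hs hs1).1
  have hD2 : ∀ᶠ n in atTop, ∀ s : ℝ, 0 < s → 1 / A n < s →
      |q n (A n * s)| ≤ ‖W n (A n * s)‖ * (1 + C3 * s ^ (-(1 / 2) : ℝ)) :=
    hD.mono fun n hn s hs hs1 => (hn s hs hs1).2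
  have ke := edge_lim hAl h.cmp hedge hqm hC3 hD2 hg
  have k0 : Tendsto (fun n => ∫ s in Ioi (0:ℝ), (Ioi (1 / A n)).indicator
      (fun s => q n (A n * s) * (1 / (s + 1 / A n))) s) atTop (𝓝 (∫ s in Ioi (0:ℝ), g s * s ^ (-1 - 0 : ℝ))) := by
    refine L.ker_lim hAl hqm hD0 hD' hg (k := 0) le_rfl (κ := fun n s => 1 / (s + 1 / A n)) (fun n => by fun_prop)
      zero_le_one ?_ (fun s hs => ?_)
    · filter_upwards [hAl.eventually_gt_atTop 0] with n hA0 s hs _
      have h1 : 0 < 1 / A n := one_div_pos.2 hA0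
      rw [rpow_k0 hs, one_mul, abs_of_pos (by positivity)]
      gcongr
      linarith
    · rw [rpow_k0 hs]
      have h1 : Tendsto (fun n => 1 / (s + 1 / A n)) atTop (𝓝 (1 / (s + 0))) := by
        refine Tendsto.div tendsto_const_nhds ((hAl.const_div_atTop 1).const_add _) ?_
        rw [add_zero]
        exact hs.ne'
      rwa [add_zero] at h1
  -- values
  have hval : ∀ᶠ n in atTop,
      (V n 0).re = 1 + (1 / Real.pi) * ∫ s in Ioi (0:ℝ), (Ioi (1 / A n)).indicator
        (fun s => q n (A n * s) * (1 / (s + 1 / A n))) s ∧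
      A n * ((V n 0).re - (V n (Real.pi : ℂ)).re) / 2 =
        -((1 / Real.pi) * ∫ s in Ioi (0:ℝ), (Ioi (1 / A n)).indicator
        (fun s => q n (A n * s) * (1 / (s ^ 2 - (1 / A n) ^ 2))) s) := by
    obtain ⟨C2, hC2⟩ := CenC.L.Cf_le
    filter_upwards [hV, hedge, hAl.eventually_gt_atTop 0] with n hn hed hA0
    obtain ⟨⟨M, hM⟩, hqe, hqf⟩ := hq n hn
    have hM0 : 0 ≤ M := M_nonneg hM
    -- linear bound
    have hK : ∀ X : ℝ, 1 < X → |q n X| ≤ (1 + |C2| * M) * (X - 1) := by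
      intro X hX
      have hX0 : 0 < X := by linarith
      have hX1 : 0 < X - 1 := by linarith
      have h1 := hC2 (q n) M (hqm n) hM X hX
      have h2 : X ^ (-(1 / 2) : ℝ) ≤ 1 := Real.rpow_le_one_of_one_le_of_nonpos hX.le (by norm_num)
      have h3 : ‖Cf (q n) (T2 X)‖ ≤ |C2| * M := by
        calc ‖Cf (q n) (T2 X)‖ ≤ C2 * M * X ^ (-(1 / 2) : ℝ) := h1
          _ ≤ |C2| * M * 1 := by
              have := le_abs_self C2
              gcongr
          _ = _ := by ring
      have h4 := v_le (hqe X hX) (hed X hX) h3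
      refine h4.trans ?_
      have h5 : (X - 1) / (X + 1) * Real.exp (-((n : ℝ) / X)) ≤ X - 1 := by
        have h6 : Real.exp (-((n : ℝ) / X)) ≤ 1 := by
          rw [Real.exp_le_one_iff, neg_nonpos]
          positivity
        have h7 : (X - 1) / (X + 1) ≤ X - 1 := by
          rw [div_le_iff₀ (by linarith)]
          nlinarith
        calc (X - 1) / (X + 1) * Real.exp (-((n : ℝ) / X)) ≤ (X - 1) / (X + 1) * 1 :=
              mul_le_mul_of_nonneg_left h6 (div_nonneg hX1.le (by linarith))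
          _ ≤ X - 1 := by rw [mul_one]; exact h7
      rw [mul_comm]
      exact mul_le_mul_of_nonneg_left h5 (by positivity)
    obtain ⟨e0, e1⟩ := ends hn (hqm n) hM hK hqf
    have f0 : (V n 0).re = 1 + (1 / Real.pi) * ∫ s in Ioi (0:ℝ), (Ioi (1 / A n)).indicator
        (fun s => q n (A n * s) * (1 / (s + 1 / A n))) s := by
      rw [e0, Complex.ofReal_re, L.int_scale hA0]
    refine ⟨f0, ?_⟩
    rw [e0, e1, Complex.ofReal_re, Complex.ofReal_re]
    have i0 : IntegrableOn (fun X => q n X / (X + 1)) (Ioi 1) := by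
      refine Integrable.mono' (intg32.const_mul M) ?_ ?_
      · apply Measurable.aestronglyMeasurable
        have := hqm n
        fun_prop
      · refine (ae_restrict_iff' measurableSet_Ioi).2 (ae_of_all _ fun X hX => ?_)
        have hX1 : 1 < X := hX
        have hX0 : 0 < X := by linarith
        rw [Real.norm_eq_abs, abs_div, abs_of_pos (by linarith : 0 < X + 1)]
        have h2 : |q n X| / (X + 1) ≤ M * X ^ (-(1 / 2) : ℝ) / X := by
          apply div_le_div₀ (by positivity) (hM X hX1) hX0 (by linarith)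
        rwa [mul_div_assoc, CenC.L.rpow_div_self hX0] at h2
    have i1 : IntegrableOn (fun X => q n X / (X + -1)) (Ioi 1) := by
      refine Integrable.mono' (intg32.const_mul (2 * M + 4 * (1 + |C2| * M))) ?_ ?_
      · apply Measurable.aestronglyMeasurable
        have := hqm n
        fun_prop
      · refine (ae_restrict_iff' measurableSet_Ioi).2 (ae_of_all _ fun X hX => ?_)
        have hX1 : 1 < X := hX
        rw [Real.norm_eq_abs]
        exact edge_bd hM hK (by linarith : -1 ≤ (-1 : ℝ)) hX1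
    have i2 : (1 / Real.pi) * ∫ X in Ioi (1:ℝ), q n X / (X + 1) - q n X / (X + -1) =
        -((1 / Real.pi) * ∫ X in Ioi (1:ℝ), 2 * (q n X / (X ^ 2 - 1))) := by
      rw [← mul_neg, ← integral_neg]
      congr 1
      refine setIntegral_congr_fun measurableSet_Ioi fun X hX => ?_
      have hX1 : 1 < X := hX
      have h1 : X - 1 ≠ 0 := by linarith
      have h2 : X + 1 ≠ 0 := by linarith
      have h3 : X + -1 ≠ 0 := by rwa [← sub_eq_add_neg]
      have h4 : X ^ 2 - 1 ≠ 0 := by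
        have : X ^ 2 - 1 = (X - 1) * (X + 1) := by ring
        rw [this]
        exact mul_ne_zero h1 h2
      field_simp
      ring
    have i3 : A n * (1 + (1 / Real.pi) * (∫ X in Ioi (1:ℝ), q n X / (X + 1)) -
        (1 + (1 / Real.pi) * ∫ X in Ioi (1:ℝ), q n X / (X + -1))) / 2 =
        A n / 2 * ((1 / Real.pi) * ∫ X in Ioi (1:ℝ), q n X / (X + 1) - q n X / (X + -1)) := by
      rw [integral_sub i0 i1]
      ring
    rw [i3, i2, integral_const_mul, EXS.Univ.scale_int _ hA0, mul_neg, neg_inj]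
    have i4 : (fun t => (Ioi (1 / A n)).indicator (fun t => A n • (q n (A n * t) / ((A n * t) ^ 2 - 1))) t) =
        fun t => 1 / A n * (Ioi (1 / A n)).indicator
          (fun s => q n (A n * s) * (1 / (s ^ 2 - (1 / A n) ^ 2))) t := by
      funext t
      simp only [indicator]
      split_ifs with h5
      · rw [smul_eq_mul]
        have h6 : (A n * t) ^ 2 - 1 = (A n) ^ 2 * (t ^ 2 - (1 / A n) ^ 2) := by
          field_simp
        have h7 : t ^ 2 - (1 / A n) ^ 2 ≠ 0 := by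
          have h8 : 0 < 1 / A n := one_div_pos.2 hA0
          have h9 : 1 / A n < t := h5
          have : 0 < t ^ 2 - (1 / A n) ^ 2 := by nlinarith
          exact this.ne'
        rw [h6]
        field_simp
      · rw [mul_zero]
    rw [i4, integral_const_mul]
    field_simp
  refine ⟨th0 γ, s0, ?_, ?_⟩
  · have h1 : Tendsto (fun n => 1 + (1 / Real.pi) * ∫ s in Ioi (0:ℝ), (Ioi (1 / A n)).indicator
        (fun s => q n (A n * s) * (1 / (s + 1 / A n))) s) atTop (𝓝 (th0 γ)) := by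
      unfold th0
      rw [← L.mo_eq g 0]
      exact (k0.const_mul _).const_add 1
    exact h1.congr' (hval.mono fun n hn => hn.1.symm)
  · have h1 : Tendsto (fun n => -((1 / Real.pi) * ∫ s in Ioi (0:ℝ), (Ioi (1 / A n)).indicator
        (fun s => q n (A n * s) * (1 / (s ^ 2 - (1 / A n) ^ 2))) s)) atTop (𝓝 (th1 γ)) := by
      unfold th1
      rw [← L.mo_eq g 1]
      exact (ke.const_mul _).neg
    rw [s1] at h1
    exact h1.congr' (hval.mono fun n hn => hn.2.symm)

end NUQ
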