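import Pool.Agent.CenC.LimD
import Pool.Agent.CenC.Contr

/-!
# NUQ: the scaling limit for a general multiplier

`f(X) = Im (W_n(X) (1 + Cf f (T2 X)))` for multipliers `W_n` with the limit `wl`.
-/

set_option autoImplicit false

namespace NUQ

open MeasureTheory Filter Topology Set EXS CenC CenC.L

/-- the operator of the integral equation -/
noncomputable def KG (W : ℝ → ℂ) (f : ℝ → ℝ) (X : ℝ) : ℝ := (W X * Cf f (T2 X)).im

/-- the hypotheses on the multipliers -/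
structure Mul (W : ℕ → ℝ → ℂ) (A : ℕ → ℝ) : Prop where
  meas : ∀ n, Measurable (W n)
  norm : ∀ (n : ℕ) (X : ℝ), 1 < X → ‖W n X‖ ≤ Real.exp (-((n : ℝ) / X))
  sub1 : ∃ C : ℝ, 0 ≤ C ∧ ∀ (n : ℕ) (X : ℝ), 1 < X → ‖W n X - 1‖ ≤ C * ((n + 1) / X)
  con : ∃ N0 : ℕ, ∀ n : ℕ, N0 ≤ n → ∀ (f : ℝ → ℝ) (M : ℝ), 0 ≤ M → Measurable f → Bh f M →
    Bh (KG (W n) f) (4 / 5 * M)
  cmp : ∀ n : ℕ, (n : ℝ) ≤ A n ∧ A n ≤ 2 * n
  lim : ∀ s : ℝ, 0 < s → Tendsto (fun n : ℕ => W n (A n * s)) atTop (𝓝 (Complex.exp (EXS.Univ.Ae (2 * s))))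

section

variable {W : ℕ → ℝ → ℂ} {A : ℕ → ℝ}

theorem Mul.A_lim (h : Mul W A) : Tendsto A atTop atTop :=
  tendsto_atTop_mono (fun n => (h.cmp n).1) tendsto_natCast_atTop_atTop

theorem KG_meas {V : ℝ → ℂ} (hV : Measurable V) {f : ℝ → ℝ} (hf : Measurable f) : Measurable (KG V f) := by
  unfold KG
  have h5 := Cf_meas hf
  exact Complex.measurable_im.comp (hV.mul h5)

theorem KG_sub {V : ℝ → ℂ} {f g : ℝ → ℝ} {M M' : ℝ} (hf : Measurable f) (hg : Measurable g)
    (h : Bh f M) (h' : Bh g M') {X : ℝ} (hX : 1 < X) :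
    KG V f X - KG V g X = KG V (fun x => f x - g x) X := by
  unfold KG
  rw [← Complex.sub_im, ← mul_sub]
  congr 2
  unfold Cf
  rw [← mul_sub, ← integral_sub (Cf_int hf h hX) (Cf_int hg h' hX)]
  congr 1
  refine integral_congr_ae (ae_of_all _ fun x => ?_)
  simp only
  push_cast
  ring

/-- the source is bounded in the norm -/
theorem Mul.src_Bh (h : Mul W A) : ∃ C : ℝ, 0 ≤ C ∧ ∀ n : ℕ, Bh (fun X => (W n X).im) (C * Real.sqrt (n + 1)) := by
  obtain ⟨C, hC0, hC⟩ := h.sub1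
  refine ⟨C + 1, by positivity, fun n X hX => ?_⟩
  have hX0 : 0 < X := by linarith
  have h1 : |(W n X).im| ≤ C * ((n + 1) / X) := by
    have e : (W n X).im = (W n X - 1).im := by simp
    rw [e]
    exact (Complex.abs_im_le_norm _).trans (hC n X hX)
  have h2 : |(W n X).im| ≤ 1 := by
    refine (Complex.abs_im_le_norm _).trans ((h.norm n X hX).trans ?_)
    rw [Real.exp_le_one_iff]
    have : 0 ≤ (n : ℝ) / X := by positivity
    linarith
  have e2 : X ^ (-(1 / 2) : ℝ) = (Real.sqrt X)⁻¹ := by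
    rw [Real.rpow_neg hX0.le, Real.sqrt_eq_rpow]
  rw [e2, ← div_eq_mul_inv]
  have hs : 0 < Real.sqrt X := Real.sqrt_pos.2 hX0
  have hN : (0:ℝ) ≤ (n : ℝ) + 1 := by positivity
  have hsN := Real.sqrt_nonneg ((n : ℝ) + 1)
  rw [le_div_iff₀ hs]
  rcases le_total X ((n : ℝ) + 1) with h | h
  · have h3 : Real.sqrt X ≤ Real.sqrt ((n : ℝ) + 1) := Real.sqrt_le_sqrt h
    calc |(W n X).im| * Real.sqrt X ≤ 1 * Real.sqrt ((n : ℝ) + 1) :=
          mul_le_mul h2 h3 hs.le zero_le_one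
      _ ≤ (C + 1) * Real.sqrt ((n : ℝ) + 1) := mul_le_mul_of_nonneg_right (by linarith) hsN
  · have h3 : Real.sqrt ((n : ℝ) + 1) ≤ Real.sqrt X := Real.sqrt_le_sqrt h
    have h4 : ((n : ℝ) + 1) / X * Real.sqrt X ≤ Real.sqrt ((n : ℝ) + 1) := by
      have h5 : ((n : ℝ) + 1) / X * Real.sqrt X = ((n : ℝ) + 1) / Real.sqrt X := by
        have : X = Real.sqrt X * Real.sqrt X := (Real.mul_self_sqrt hX0.le).symm
        rw [div_mul_eq_mul_div, div_eq_div_iff hX0.ne' hs.ne']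
        nlinarith
      rw [h5, div_le_iff₀ hs]
      have h6 : ((n : ℝ) + 1) = Real.sqrt ((n : ℝ) + 1) * Real.sqrt ((n : ℝ) + 1) :=
        (Real.mul_self_sqrt hN).symm
      calc ((n : ℝ) + 1) = Real.sqrt ((n : ℝ) + 1) * Real.sqrt ((n : ℝ) + 1) := h6
        _ ≤ _ := mul_le_mul_of_nonneg_left h3 hsN
    calc |(W n X).im| * Real.sqrt X ≤ C * (((n : ℝ) + 1) / X) * Real.sqrt X :=
          mul_le_mul_of_nonneg_right h1 hs.le
      _ = C * (((n : ℝ) + 1) / X * Real.sqrt X) := by ring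
      _ ≤ C * Real.sqrt ((n : ℝ) + 1) := mul_le_mul_of_nonneg_left h4 hC0
      _ ≤ _ := mul_le_mul_of_nonneg_right (by linarith) hsN

/-- the iterates -/
noncomputable def itg (V : ℝ → ℂ) : ℕ → ℝ → ℝ
  | 0 => fun _ => 0
  | n + 1 => fun X => (V X).im + KG V (itg V n) X

theorem itg_meas {V : ℝ → ℂ} (hV : Measurable V) (n : ℕ) : Measurable (itg V n) := by
  induction n with
  | zero => exact measurable_const
  | succ n ih => exact (Complex.measurable_im.comp hV).add (KG_meas hV ih)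

section

variable {V : ℝ → ℂ} {S : ℝ}

theorem itg_Bh (hV : Measurable V) (hS0 : 0 ≤ S) (hS : Bh (fun X => (V X).im) S)
    (hK : ∀ (f : ℝ → ℝ) (M : ℝ), 0 ≤ M → Measurable f → Bh f M → Bh (KG V f) (4 / 5 * M)) (n : ℕ) :
    Bh (itg V n) (5 * S) := by
  induction n with
  | zero =>
    intro X hX
    have hX0 : 0 < X := by linarith
    simp only [itg, abs_zero]
    positivity
  | succ n ih =>
    have := Bh_add hS (hK _ _ (by positivity) (itg_meas hV n) ih)
    exact Bh_mono this (by linarith)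

/-- a priori bound of the solution -/
theorem sol_Bh {v : ℝ → ℝ} (hm : Measurable v) {M : ℝ}
    (hS0 : 0 ≤ S) (hS : Bh (fun X => (V X).im) S)
    (hK : ∀ (f : ℝ → ℝ) (M : ℝ), 0 ≤ M → Measurable f → Bh f M → Bh (KG V f) (4 / 5 * M))
    (hM : Bh v M) (heq : ∀ X : ℝ, 1 < X → v X = (V X).im + KG V v X) : Bh v (5 * S) := by
  have h1 : ∀ n : ℕ, Bh v ((4 / 5) ^ n * |M| + 5 * S) := by
    intro n
    induction n with
    | zero => exact Bh_mono hM (by have := le_abs_self M; simp; linarith)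
    | succ n ih =>
      have h2 := Bh_add hS (hK _ _ (by positivity) hm ih)
      have h3 : S + 4 / 5 * ((4 / 5) ^ n * |M| + 5 * S) = (4 / 5) ^ (n + 1) * |M| + 5 * S := by
        ring
      rw [h3] at h2
      intro X hX
      rw [heq X hX]
      exact h2 X hX
  intro X hX
  have h4 : Tendsto (fun n : ℕ => ((4 / 5 : ℝ) ^ n * |M| + 5 * S) * X ^ (-(1 / 2) : ℝ)) atTop
      (𝓝 ((0 * |M| + 5 * S) * X ^ (-(1 / 2) : ℝ))) :=
    (((tendsto_pow_atTop_nhds_zero_of_lt_one (by norm_num) (by norm_num)).mul_const _).add_const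
      _).mul_const _
  rw [zero_mul, zero_add] at h4
  exact ge_of_tendsto' h4 fun n => h1 n X hX

/-- the iterates approximate the solution -/
theorem sol_itg (hV : Measurable V) {v : ℝ → ℝ} (hm : Measurable v)
    (hS0 : 0 ≤ S) (hS : Bh (fun X => (V X).im) S)
    (hK : ∀ (f : ℝ → ℝ) (M : ℝ), 0 ≤ M → Measurable f → Bh f M → Bh (KG V f) (4 / 5 * M))
    (hM : Bh v (5 * S)) (heq : ∀ X : ℝ, 1 < X → v X = (V X).im + KG V v X) (n : ℕ) :
    Bh (fun X => v X - itg V n X) ((4 / 5) ^ n * (5 * S)) := by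
  induction n with
  | zero => simpa [itg] using hM
  | succ n ih =>
    have h2 := hK _ _ (by positivity) (hm.sub (itg_meas hV n)) ih
    intro X hX
    have h3 : |KG V (fun x => v x - itg V n x) X| ≤
      4 / 5 * ((4 / 5) ^ n * (5 * S)) * X ^ (-(1 / 2) : ℝ) := h2 X hX
    have h4 : v X - itg V (n + 1) X = KG V (fun x => v x - itg V n x) X := by
      rw [← KG_sub hm (itg_meas hV n) hM (itg_Bh hV hS0 hS hK n) hX]
      have h5 := heq X hX
      simp only [itg]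
      linarith
    simp only [h4]
    calc _ ≤ _ := h3
      _ = _ := by ring

/-- bound by the multiplier -/
theorem v_le {v : ℝ → ℝ} {X B w : ℝ} (hv : v X = (V X).im + KG V v X) (hw : ‖V X‖ ≤ w)
    (hB : ‖Cf v (T2 X)‖ ≤ B) : |v X| ≤ w * (1 + B) := by
  have h1 : v X = (V X * (1 + Cf v (T2 X))).im := by
    rw [hv, KG, mul_add, mul_one, Complex.add_im]
  rw [h1]
  refine (Complex.abs_im_le_norm _).trans ?_
  rw [norm_mul]
  refine mul_le_mul hw ?_ (norm_nonneg _) ((norm_nonneg _).trans hw)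
  refine (norm_add_le _ _).trans ?_
  rw [norm_one]
  linarith

end

/-- pointwise convergence of the iterates -/
theorem Mul.itg_lim (h : Mul W A) {B : ℕ → ℝ} (hBA : ∀ᶠ N in atTop, B N ≤ 4 * A N) {C : ℝ} (hC : 0 ≤ C)
    (hB : ∀ m : ℕ, ∀ᶠ n in atTop, Bh (itg (W n) m) (C * √(B n))) (m : ℕ) :
    ∃ g : ℝ → ℝ, ∀ s : ℝ, 0 < s →
      Tendsto (fun n : ℕ => itg (W n) m (A n * s)) atTop (𝓝 (g s)) := by
  induction m with
  | zero => exact ⟨fun _ => 0, fun s _ => by simp [itg]⟩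
  | succ m ih =>
    obtain ⟨g, hg⟩ := ih
    refine ⟨fun s => (Complex.exp (EXS.Univ.Ae (2 * s))).im + (Complex.exp (EXS.Univ.Ae (2 * s)) *
      (((1 / Real.pi : ℝ) : ℂ) * ∫ t in Ioi (0:ℝ), (g t : ℂ) / ((t : ℂ) + zs s))).im, fun s hs => ?_⟩
    have h1 := h.lim s hs
    have h2 := Cf_lim h.A_lim hBA (fun n => itg_meas (h.meas n) m) hC (hB m) hg hs
    exact ((Complex.continuous_im.tendsto _).comp h1).add ((Complex.continuous_im.tendsto _).comp (h1.mul h2))

/-- **the scaling limit** -/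
theorem Mul.scaled (h : Mul W A) {v : ℕ → ℝ → ℝ} (hm : ∀ n, Measurable (v n))
    (hev : ∀ᶠ n in atTop, (∃ M : ℝ, Bh (v n) M) ∧
      ∀ X : ℝ, 1 < X → v n X = (W n X).im + KG (W n) (v n) X) :
    ∃ g : ℝ → ℝ, Measurable g ∧ ∃ D C3 : ℝ, 0 ≤ D ∧ 0 ≤ C3 ∧
      (∀ᶠ n in atTop, ∀ s : ℝ, 0 < s → 1 / A n < s →
        |v n (A n * s)| ≤ D * (Real.exp (-(1 / 2) / s) * s ^ (-(1 / 2) : ℝ)) ∧
        |v n (A n * s)| ≤ ‖W n (A n * s)‖ * (1 + C3 * s ^ (-(1 / 2) : ℝ))) ∧
      (∀ s : ℝ, 0 < s → Tendsto (fun n => v n (A n * s)) atTop (𝓝 (g s))) ∧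
      (∀ s : ℝ, 0 < s → |g s| ≤ D * (Real.exp (-(1 / 2) / s) * s ^ (-(1 / 2) : ℝ))) ∧
      ∀ s : ℝ, 0 < s → g s = (Complex.exp (EXS.Univ.Ae (2 * s)) *
        (1 + ((1 / Real.pi : ℝ) : ℂ) * ∫ t in Ioi (0:ℝ), (g t : ℂ) / ((t : ℂ) + zs s))).im := by
  obtain ⟨C1, hC10, hC1⟩ := h.src_Bh
  obtain ⟨C2', hC2'⟩ := CenC.L.Cf_le
  obtain ⟨N0, hN0⟩ := h.con
  set C2 := |C2'| with hC2def
  have hC20 : 0 ≤ C2 := abs_nonneg _
  have hAl := h.A_lim
  have hcmp := h.cmp
  set B : ℕ → ℝ := fun n => (n : ℝ) + 1 with hBdef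
  have hBA : ∀ᶠ n in atTop, B n ≤ 4 * A n := by
    filter_upwards [eventually_ge_atTop 1] with n hn
    have h1 : (1 : ℝ) ≤ n := by exact_mod_cast hn
    have h2 := (hcmp n).1
    simp only [hBdef]
    linarith
  have hS : ∀ n, Bh (fun X => (W n X).im) (C1 * √(B n)) := fun n => hC1 n
  have hS0 : ∀ n : ℕ, 0 ≤ C1 * √(B n) := fun n => by positivity
  have hK : ∀ n, N0 ≤ n → ∀ (f : ℝ → ℝ) (M : ℝ), 0 ≤ M → Measurable f → Bh f M →
      Bh (KG (W n) f) (4 / 5 * M) := fun n hn => hN0 n hn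
  -- a priori bound
  have hv : ∀ᶠ n in atTop, Bh (v n) (5 * C1 * √(B n)) ∧
      ∀ X : ℝ, 1 < X → v n X = (W n X).im + KG (W n) (v n) X := by
    filter_upwards [hev, eventually_ge_atTop N0] with n hn hn0
    obtain ⟨⟨M, hM⟩, h2⟩ := hn
    refine ⟨?_, h2⟩
    have := sol_Bh (hm n) (hS0 n) (hS n) (hK n hn0) hM h2
    rwa [← mul_assoc] at this
  -- the iterates
  have hI : ∀ m : ℕ, ∀ᶠ n in atTop, Bh (itg (W n) m) (5 * C1 * √(B n)) := by
    intro m
    filter_upwards [eventually_ge_atTop N0] with n hn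
    have := itg_Bh (h.meas n) (hS0 n) (hS n) (hK n hn) m
    rwa [← mul_assoc] at this
  have hIl := h.itg_lim hBA (C := 5 * C1) (by positivity) hI
  -- pointwise limit of `v`
  have hV : ∀ s : ℝ, ∃ L : ℝ, (0 < s → Tendsto (fun n : ℕ => v n (A n * s)) atTop (𝓝 L)) ∧
      (¬ 0 < s → L = 0) := by
    intro s
    by_cases hs : 0 < s
    swap
    · exact ⟨0, fun h => absurd h hs, fun _ => rfl⟩
    have : ∃ L : ℝ, Tendsto (fun n : ℕ => v n (A n * s)) atTop (𝓝 L) := by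
      apply EXS.tendsto_of_approx
      intro ε hε
      have h1 : Tendsto (fun m : ℕ => 2 * ((4 / 5 : ℝ) ^ m * (5 * C1)) * s ^ (-(1 / 2) : ℝ)) atTop
          (𝓝 (2 * (0 * (5 * C1)) * s ^ (-(1 / 2) : ℝ))) :=
        (((tendsto_pow_atTop_nhds_zero_of_lt_one (by norm_num) (by norm_num)).mul_const
          _).const_mul _).mul_const _
      rw [zero_mul, mul_zero, zero_mul] at h1
      obtain ⟨m, hmε⟩ := (h1.eventually (gt_mem_nhds hε)).exists
      obtain ⟨g, hg⟩ := hIl m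
      refine ⟨_, _, hg s hs, ?_⟩
      filter_upwards [inv_lt_ev hAl hs, hv, eventually_ge_atTop N0, hBA, hAl.eventually_gt_atTop 0]
        with n h3 h4 h5 h6 h7
      have hM' : Bh (v n) (5 * (C1 * √(B n))) := by
        rw [← mul_assoc]
        exact h4.1
      have h8 := sol_itg (h.meas n) (hm n) (hS0 n) (hS n) (hK n h5) hM' h4.2 m
      have h9 : (4 / 5 : ℝ) ^ m * (5 * (C1 * √(B n)))
          = (4 / 5) ^ m * (5 * C1) * √(B n) := by ring
      rw [h9] at h8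
      exact (Bh_scale (by positivity) h7 h6 h8 hs h3).trans hmε.le
    obtain ⟨L, hL⟩ := this
    exact ⟨L, fun _ => hL, fun h => absurd hs h⟩
  choose g hg hg0 using hV
  have hgm : Measurable g := by
    refine measurable_of_tendsto_metrizable (f := fun (n : ℕ) => (Ioi (0:ℝ)).indicator
      (fun s => v n (A n * s))) (fun n => ?_) ?_
    · have := hm n
      apply Measurable.indicator _ measurableSet_Ioi
      fun_prop
    · rw [tendsto_pi_nhds]
      intro s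
      by_cases hs : 0 < s
      · simpa only [indicator, mem_Ioi, hs, if_true] using hg s hs
      · simp only [indicator, mem_Ioi, hs, if_false]
        rw [hg0 s hs]
        exact tendsto_const_nhds
  set D : ℝ := Real.exp (1 / 2) * (1 + 10 * C1 + C2 * (10 * C1)) with hD
  have hD0 : 0 ≤ D := by positivity
  have hbd : ∀ᶠ n in atTop, ∀ s : ℝ, 0 < s → 1 / A n < s →
        |v n (A n * s)| ≤ D * (Real.exp (-(1 / 2) / s) * s ^ (-(1 / 2) : ℝ)) ∧
        |v n (A n * s)| ≤ ‖W n (A n * s)‖ * (1 + C2 * (10 * C1) * s ^ (-(1 / 2) : ℝ)) := by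
    filter_upwards [hv, hBA, hAl.eventually_gt_atTop 0] with n h4 h6 h7 s hs h3
    have h1 := Bh_scale (by positivity) h7 h6 h4.1 hs h3
    have hX : 1 < A n * s := by
      rw [div_lt_iff₀ h7] at h3
      linarith
    have hp : 0 < s ^ (-(1 / 2) : ℝ) := by positivity
    have h2 := hC2' (v n) _ (hm n) h4.1 (A n * s) hX
    have h5 : ‖Cf (v n) (T2 (A n * s))‖ ≤ C2 * (10 * C1) * s ^ (-(1 / 2) : ℝ) := by
      have h8 : √(B n) ≤ 2 * (A n) ^ (1 / 2 : ℝ) := by
        rw [← Real.sqrt_eq_rpow]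
        have : 2 * √(A n) = √(4 * A n) := by
          rw [Real.sqrt_mul (by norm_num), show (4:ℝ) = 2 ^ 2 by norm_num,
            Real.sqrt_sq (by norm_num)]
        rw [this]
        exact Real.sqrt_le_sqrt h6
      have h9 : C2' ≤ C2 := le_abs_self _
      calc ‖Cf (v n) (T2 (A n * s))‖ ≤ C2' * (5 * C1 * √(B n)) * (A n * s) ^ (-(1 / 2) : ℝ) := h2
        _ ≤ C2 * (5 * C1 * (2 * (A n) ^ (1 / 2 : ℝ))) * (A n * s) ^ (-(1 / 2) : ℝ) := by gcongr
        _ = C2 * (10 * C1) * ((A n) ^ (1 / 2 : ℝ) * (A n) ^ (-(1 / 2) : ℝ)) * s ^ (-(1 / 2) : ℝ) := by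
            rw [Real.mul_rpow h7.le hs.le]; ring
        _ = C2 * (10 * C1) * s ^ (-(1 / 2) : ℝ) := by
            rw [← Real.rpow_add h7]
            norm_num
    refine ⟨?_, v_le (h4.2 _ hX) le_rfl h5⟩
    rcases le_total 1 s with hs1 | hs1
    · have h2 : Real.exp (-(1 / 2)) ≤ Real.exp (-(1 / 2) / s) := by
        apply Real.exp_le_exp.2
        rw [le_div_iff₀ hs]
        linarith
      have h5 : Real.exp (1 / 2) * Real.exp (-(1 / 2)) = 1 := by
        rw [← Real.exp_add]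
        simp
      have h8 : 1 ≤ Real.exp (1 / 2) * Real.exp (-(1 / 2) / s) :=
        h5.symm.le.trans (mul_le_mul_of_nonneg_left h2 (Real.exp_pos _).le)
      calc |v n (A n * s)| ≤ 2 * (5 * C1) * s ^ (-(1 / 2) : ℝ) := h1
        _ = (10 * C1) * (1 * s ^ (-(1 / 2) : ℝ)) := by ring
        _ ≤ (1 + 10 * C1 + C2 * (10 * C1)) * (Real.exp (1 / 2) * Real.exp (-(1 / 2) / s) * s ^ (-(1 / 2) : ℝ)) := by
            have h9 : 10 * C1 ≤ 1 + 10 * C1 + C2 * (10 * C1) := by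
              have : 0 ≤ C2 * (10 * C1) := by positivity
              linarith
            gcongr
        _ = _ := by rw [hD]; ring
    · have h8 := v_le (h4.2 _ hX) (h.norm n _ hX) h5
      have h9 : Real.exp (-((n : ℝ) / (A n * s))) ≤ Real.exp (-(1 / 2) / s) := by
        apply Real.exp_le_exp.2
        rw [neg_div, neg_le_neg_iff, div_le_div_iff₀ hs (by positivity)]
        nlinarith [(hcmp n).2]
      have h10 : 1 ≤ s ^ (-(1 / 2) : ℝ) := Real.one_le_rpow_of_pos_of_le_one_of_nonpos hs hs1 (by norm_num)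
      have h11 : 1 ≤ Real.exp (1 / 2) := Real.one_le_exp (by norm_num)
      calc |v n (A n * s)| ≤ Real.exp (-((n : ℝ) / (A n * s))) * (1 + C2 * (10 * C1) * s ^ (-(1 / 2) : ℝ)) := h8
        _ ≤ Real.exp (-(1 / 2) / s) * (s ^ (-(1 / 2) : ℝ) + C2 * (10 * C1) * s ^ (-(1 / 2) : ℝ)) := by gcongr
        _ = (1 + C2 * (10 * C1)) * (Real.exp (-(1 / 2) / s) * s ^ (-(1 / 2) : ℝ)) := by ring
        _ ≤ D * (Real.exp (-(1 / 2) / s) * s ^ (-(1 / 2) : ℝ)) := by
            refine mul_le_mul_of_nonneg_right ?_ (by positivity)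
            rw [hD]
            have h12 : 0 ≤ C2 * (10 * C1) := by positivity
            nlinarith
  refine ⟨g, hgm, D, C2 * (10 * C1), hD0, by positivity, hbd, hg, fun s hs => ?_, fun s hs => ?_⟩
  · refine le_of_tendsto (hg s hs).abs ?_
    filter_upwards [hbd, inv_lt_ev hAl hs] with n h1 h2
    exact (h1 s hs h2).1
  · have h1 := h.lim s hs
    have h2 := Cf_lim hAl hBA hm (by positivity : 0 ≤ 5 * C1) (hv.mono fun n hn => hn.1) hg hs
    have h3 := (Complex.continuous_im.tendsto _).comp (h1.mul (h2.const_add 1))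
    refine tendsto_nhds_unique ((hg s hs).congr' ?_) h3
    filter_upwards [hv, (hAl.atTop_mul_const hs).eventually_gt_atTop 1] with n h4 h5
    simp only [Function.comp_apply]
    rw [h4.2 _ h5, KG, mul_add, mul_one, Complex.add_im]

/-- the limit in the variable `t` solves the limit problem -/
theorem sol_of {g : ℝ → ℝ} (hgm : Measurable g) {D : ℝ}
    (hgb : ∀ s : ℝ, 0 < s → |g s| ≤ D * (Real.exp (-(1 / 2) / s) * s ^ (-(1 / 2) : ℝ)))
    (hge : ∀ s : ℝ, 0 < s → g s = (Complex.exp (EXS.Univ.Ae (2 * s)) *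
        (1 + ((1 / Real.pi : ℝ) : ℂ) * ∫ t in Ioi (0:ℝ), (g t : ℂ) / ((t : ℂ) + zs s))).im) :
    Sol (fun t => g (Real.exp t)) := by
  refine ⟨hgm.comp Real.measurable_exp, ⟨|D|, fun t => ?_⟩, fun t => ?_⟩
  · have h1 := hgb (Real.exp t) (Real.exp_pos t)
    refine h1.trans ?_
    have h2 : Real.exp (-(1 / 2) / Real.exp t) ≤ 1 := by
      rw [Real.exp_le_one_iff]
      have := Real.exp_pos t
      rw [neg_div, neg_nonpos]
      positivity
    have h3 : Real.exp t ^ (-(1 / 2) : ℝ) = Real.exp (-(t / 2)) := by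
      rw [← Real.exp_mul]
      congr 1
      ring
    rw [h3]
    have h4 := Real.exp_pos (-(t / 2))
    calc D * (Real.exp (-(1 / 2) / Real.exp t) * Real.exp (-(t / 2)))
        ≤ |D| * (Real.exp (-(1 / 2) / Real.exp t) * Real.exp (-(t / 2))) :=
          mul_le_mul_of_nonneg_right (le_abs_self D) (by positivity)
      _ ≤ |D| * (1 * Real.exp (-(t / 2))) := by gcongr
      _ = _ := by rw [one_mul]
  · have h1 := hge (Real.exp t) (Real.exp_pos t)
    rw [L.Cl_eq, L.wl_eq] at h1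
    exact h1

end

end NUQ
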