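import Pool.Agent.NUQ.Weak

/-!
# `∫ log(1 + 1/(2 cosh(π k / 3))) dk = 5 π / 12`
-/

set_option autoImplicit false

open MeasureTheory Filter Topology

namespace NUQ

noncomputable section

/-- `-log(1 - exp(-c k))` -/
def lg (c k : ℝ) : ℝ := -Real.log (1 - Real.exp (-(c * k)))

lemma lg_hasSum {c k : ℝ} (hc : 0 < c) (hk : 0 < k) :
    HasSum (fun n : ℕ => Real.exp (-(c * k)) ^ (n + 1) / (n + 1)) (lg c k) := by
  have h1 : Real.exp (-(c * k)) < 1 := Real.exp_lt_one_iff.2 (by have := mul_pos hc hk; linarith)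
  have h2 := Real.exp_pos (-(c * k))
  exact Real.hasSum_pow_div_log_of_abs_lt_one (by rw [abs_of_pos h2]; exact h1)

lemma term_int {c : ℝ} (hc : 0 < c) (n : ℕ) :
    Integrable (fun k : ℝ => Real.exp (-(c * k)) ^ (n + 1) / (n + 1)) (volume.restrict (Set.Ioi 0)) ∧
    ∫ k in Set.Ioi (0 : ℝ), Real.exp (-(c * k)) ^ (n + 1) / (n + 1) = 1 / c * (1 / ((n + 1 : ℕ) : ℝ) ^ 2) := by
  have e : (fun k : ℝ => Real.exp (-(c * k)) ^ (n + 1) / ((n : ℝ) + 1)) =
      fun k : ℝ => Real.exp ((-(c * (n + 1))) * k) / ((n : ℝ) + 1) := by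
    funext k
    rw [← Real.exp_nat_mul]
    congr 2
    push_cast; ring
  have hn : 0 < c * ((n : ℝ) + 1) := by positivity
  constructor
  · rw [e]
    exact (integrableOn_exp_mul_Ioi (by linarith) 0).div_const _
  · rw [e, integral_div, integral_exp_mul_Ioi (by linarith)]
    rw [mul_zero, Real.exp_zero]
    push_cast
    field_simp

lemma lg_int {c : ℝ} (hc : 0 < c) : Integrable (lg c) (volume.restrict (Set.Ioi 0)) ∧
    ∫ k in Set.Ioi (0 : ℝ), lg c k = Real.pi ^ 2 / (6 * c) := by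
  have hp := Real.pi_pos
  have hz : HasSum (fun n : ℕ => 1 / c * (1 / ((n + 1 : ℕ) : ℝ) ^ 2)) (1 / c * (Real.pi ^ 2 / 6)) := by
    have h1 := (hasSum_nat_add_iff' (f := fun n : ℕ => (1 : ℝ) / (n : ℝ) ^ 2) 1).2 hasSum_zeta_two
    simp only [Finset.range_one, Finset.sum_singleton, Nat.cast_zero] at h1
    have h2 := h1.mul_left (1 / c)
    simpa using h2
  have hnorm : ∀ n : ℕ, ∫ k in Set.Ioi (0 : ℝ), ‖Real.exp (-(c * k)) ^ (n + 1) / ((n : ℝ) + 1)‖ =
      1 / c * (1 / ((n + 1 : ℕ) : ℝ) ^ 2) := by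
    intro n
    rw [← (term_int hc n).2]
    congr 1
    funext k
    rw [Real.norm_eq_abs, abs_of_pos (by positivity)]
  have h1 := hasSum_integral_of_summable_integral_norm (μ := volume.restrict (Set.Ioi (0 : ℝ)))
    (F := fun (n : ℕ) (k : ℝ) => Real.exp (-(c * k)) ^ (n + 1) / ((n : ℝ) + 1)) (fun n => (term_int hc n).1)
    (by simp_rw [hnorm]; exact hz.summable)
  simp_rw [(term_int hc _).2] at h1
  have h2 := h1.unique hz
  have h3 : ∫ k in Set.Ioi (0 : ℝ), (∑' n : ℕ, Real.exp (-(c * k)) ^ (n + 1) / ((n : ℝ) + 1)) =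
      ∫ k in Set.Ioi (0 : ℝ), lg c k := by
    refine setIntegral_congr_fun measurableSet_Ioi fun k hk => ?_
    exact (lg_hasSum hc hk).tsum_eq
  rw [h3] at h2
  have h4 : ∫ k in Set.Ioi (0 : ℝ), lg c k = Real.pi ^ 2 / (6 * c) := by
    rw [h2]; field_simp
  refine ⟨?_, h4⟩
  by_contra hni
  rw [integral_undef hni] at h4
  have : 0 < Real.pi ^ 2 / (6 * c) := by positivity
  linarith

/-- the function `log(1 + 1/(2 cosh(π k / 3)))` -/
def gg (k : ℝ) : ℝ := Real.log (1 + 1 / (2 * Real.cosh (Real.pi * k / 3)))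

lemma gg_arg (k : ℝ) : 0 < 1 / (2 * Real.cosh (Real.pi * k / 3)) := by
  have := Real.cosh_pos (Real.pi * k / 3)
  positivity

lemma gg_cont : Continuous gg := by
  unfold gg
  refine Continuous.log ?_ fun k => by have := gg_arg k; positivity
  refine continuous_const.add (continuous_const.div (by fun_prop) fun k => ?_)
  have := Real.cosh_pos (Real.pi * k / 3)
  positivity

lemma gg_nonneg (k : ℝ) : 0 ≤ gg k := Real.log_nonneg (by have := gg_arg k; linarith)

lemma gg_le (k : ℝ) : gg k ≤ 1 := by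
  have h1 := gg_arg k
  have h2 : 1 / (2 * Real.cosh (Real.pi * k / 3)) ≤ 1 / 2 := by
    have := Real.one_le_cosh (Real.pi * k / 3)
    exact one_div_le_one_div_of_le two_pos (by linarith)
  have h3 := Real.log_le_sub_one_of_pos (by linarith : 0 < 1 + 1 / (2 * Real.cosh (Real.pi * k / 3)))
  unfold gg
  linarith

lemma gg_neg (k : ℝ) : gg (-k) = gg k := by
  unfold gg
  rw [show Real.pi * -k / 3 = -(Real.pi * k / 3) by ring, Real.cosh_neg]

lemma gg_exp (k : ℝ) : Real.exp (gg k) = 1 + 1 / (2 * Real.cosh (Real.pi * k / 3)) := by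
  unfold gg
  rw [Real.exp_log (by have := gg_arg k; linarith)]

/-- decomposition -/
lemma gg_eq {k : ℝ} (hk : 0 < k) : gg k = lg (Real.pi / 3) k - lg (3 * (Real.pi / 3)) k +
    lg (4 * (Real.pi / 3)) k - lg (2 * (Real.pi / 3)) k := by
  have hp := Real.pi_pos
  set y := Real.exp (-(Real.pi / 3 * k)) with hy
  have hy0 : 0 < y := Real.exp_pos _
  have hy1 : y < 1 := Real.exp_lt_one_iff.2 (by have := mul_pos hp hk; linarith)
  have e : ∀ n : ℕ, Real.exp (-((n : ℝ) * (Real.pi / 3) * k)) = y ^ n := by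
    intro n
    rw [hy, ← Real.exp_nat_mul]; congr 1; ring
  have e2 := e 2
  have e3 := e 3
  have e4 := e 4
  push_cast at e2 e3 e4
  unfold lg
  rw [e2, e3, e4, ← hy]
  have q1 : 0 < 1 - y := by linarith
  have q2 : 0 < 1 - y ^ 2 := by nlinarith
  have q3 : 0 < 1 - y ^ 3 := by nlinarith [mul_pos hy0 hy0, mul_pos (mul_pos hy0 hy0) hy0]
  have q4 : 0 < 1 - y ^ 4 := by nlinarith [mul_pos hy0 hy0]
  have h1 : 1 + 1 / (2 * Real.cosh (Real.pi * k / 3)) = (1 - y ^ 3) * (1 - y ^ 2) / ((1 - y) * (1 - y ^ 4)) := by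
    rw [Real.cosh_eq, show -(Real.pi * k / 3) = -(Real.pi / 3 * k) by ring, ← hy,
      show Real.pi * k / 3 = -(-(Real.pi / 3 * k)) by ring, Real.exp_neg, ← hy]
    have q5 : (1 + y ^ 2) ≠ 0 := by positivity
    have q6 : (1 - y ^ 4) = (1 - y ^ 2) * (1 + y ^ 2) := by ring
    rw [q6]
    field_simp
    ring
  unfold gg
  rw [h1, Real.log_div (by positivity) (by positivity), Real.log_mul q3.ne' q2.ne', Real.log_mul q1.ne' q4.ne']
  ring

lemma gg_int_half : Integrable gg (volume.restrict (Set.Ioi 0)) ∧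
    ∫ k in Set.Ioi (0 : ℝ), gg k = 5 * Real.pi / 24 := by
  have hp := Real.pi_pos
  have h1 := lg_int (c := Real.pi / 3) (by positivity)
  have h2 := lg_int (c := 2 * (Real.pi / 3)) (by positivity)
  have h3 := lg_int (c := 3 * (Real.pi / 3)) (by positivity)
  have h4 := lg_int (c := 4 * (Real.pi / 3)) (by positivity)
  have i1 := ((h1.1.sub h3.1).add h4.1).sub h2.1
  have hcongr : ∀ k ∈ Set.Ioi (0 : ℝ), (lg (Real.pi / 3) - lg (3 * (Real.pi / 3)) + lg (4 * (Real.pi / 3)) -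
      lg (2 * (Real.pi / 3))) k = gg k := fun k hk => (gg_eq hk).symm
  constructor
  · exact (integrableOn_congr_fun hcongr measurableSet_Ioi).1 i1
  · rw [← setIntegral_congr_fun measurableSet_Ioi hcongr]
    rw [integral_sub' ((h1.1.sub h3.1).add h4.1) h2.1, integral_add' (h1.1.sub h3.1) h4.1,
      integral_sub' h1.1 h3.1, h1.2, h2.2, h3.2, h4.2]
    field_simp
    ring

lemma gg_exp_le (k : ℝ) : gg k ≤ Real.exp (-(Real.pi / 3 * |k|)) := by
  have hp := Real.pi_pos
  have h1 := gg_arg k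
  have h3 := Real.log_le_sub_one_of_pos (by linarith : 0 < 1 + 1 / (2 * Real.cosh (Real.pi * k / 3)))
  have h4 := cosh_ge (Real.pi * k / 3)
  have h5 : |Real.pi * k / 3| = Real.pi / 3 * |k| := by
    rw [show Real.pi * k / 3 = (Real.pi / 3) * k by ring, abs_mul, abs_of_pos (by positivity)]
  rw [h5] at h4
  have h6 : 1 / (2 * Real.cosh (Real.pi * k / 3)) ≤ Real.exp (-(Real.pi / 3 * |k|)) := by
    rw [Real.exp_neg, ← one_div]
    exact one_div_le_one_div_of_le (Real.exp_pos _) (by linarith)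
  unfold gg
  linarith

lemma gg_int : Integrable gg := by
  have hp := Real.pi_pos
  refine (int_exp_abs (b := Real.pi / 3) (by positivity)).mono' gg_cont.aestronglyMeasurable ?_
  refine Eventually.of_forall fun k => ?_
  rw [Real.norm_eq_abs, abs_of_nonneg (gg_nonneg k)]
  exact gg_exp_le k

theorem gg_integral : ∫ k, gg k = 5 * Real.pi / 12 := by
  have h := half_int gg_neg
  rw [gg_int_half.2] at h
  linarith

end

end NUQ
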