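import Pool.Agent.NUQ.EndLim

/-!
# NUQ: the multiplier `nd ^ n`
-/

set_option autoImplicit false

namespace NUQ

open MeasureTheory Filter Topology Set EXS CenC CenC.L EXS.Num

/-- the node with `t = 1` -/
noncomputable def nd (X : ℝ) : ℂ :=
  ((X : ℂ) - ((1 : ℝ) : ℂ)) * (T2 X - ((1 : ℝ) : ℂ)) / (((X : ℂ) + ((1 : ℝ) : ℂ)) * (T2 X + ((1 : ℝ) : ℂ)))

theorem ta_le1 : ta ≤ 1 := ta_lt_one.le

theorem nd_meas : Measurable nd := by
  unfold nd
  have h2 := T2_meas
  fun_prop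

theorem nd_norm {X : ℝ} (hX : 1 < X) : ‖nd X‖ ≤ Real.exp (-(2.8 / X)) := by
  have := (EXS.Num.node hX ta_le1 le_rfl).1
  rwa [mul_one] at this

theorem nd_im {X : ℝ} (hX : 1 < X) : |(nd X).im| ≤ √3 / X * ‖nd X‖ := by
  have := (EXS.Num.node hX ta_le1 le_rfl).2
  rwa [mul_one] at this

theorem nd_le_one {X : ℝ} (hX : 1 < X) : ‖nd X‖ ≤ 1 := by
  refine (nd_norm hX).trans (Real.exp_le_one_iff.2 ?_)
  have : 0 < X := by linarith
  have : 0 ≤ 2.8 / X := by positivity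
  linarith

/-- the bound at the edge -/
theorem nd_edge {X : ℝ} (hX : 1 < X) : ‖nd X‖ ≤ (X - 1) / (X + 1) := by
  have hX0 : 0 < X := by linarith
  have e : nd X = (((X - 1) / (X + 1) : ℝ) : ℂ) * ((T2 X - ((1 : ℝ) : ℂ)) / (T2 X + ((1 : ℝ) : ℂ))) := by
    unfold nd
    push_cast
    rw [mul_div_mul_comm]
  rw [e, norm_mul, Complex.norm_real, Real.norm_of_nonneg (div_nonneg (by linarith) (by linarith))]
  have h1 : ‖(T2 X - ((1 : ℝ) : ℂ)) / (T2 X + ((1 : ℝ) : ℂ))‖ ≤ 1 := by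
    refine (EXS.Num.node_norm hX ta_le1 le_rfl).trans (Real.exp_le_one_iff.2 ?_)
    have : 0 ≤ 0.8 * 1 / X := by positivity
    linarith
  calc (X - 1) / (X + 1) * ‖(T2 X - ((1 : ℝ) : ℂ)) / (T2 X + ((1 : ℝ) : ℂ))‖ ≤ (X - 1) / (X + 1) * 1 :=
        mul_le_mul_of_nonneg_left h1 (div_nonneg (by linarith) (by linarith))
    _ = _ := mul_one _

theorem nd_sub_one {X : ℝ} (hX : 1 < X) : ‖nd X - 1‖ ≤ 4 / X := by
  have hX0 : 0 < X := by linarith
  have h1 := T2_norm_le hX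
  have h2 := X_le_norm_T2_add (t := 1) (by norm_num) hX
  have hXc : (X : ℂ) + ((1 : ℝ) : ℂ) ≠ 0 := by
    have : X + 1 ≠ 0 := by linarith
    exact_mod_cast this
  have hTc : T2 X + ((1 : ℝ) : ℂ) ≠ 0 := by
    intro h
    rw [h, norm_zero] at h2
    linarith
  have e : nd X - 1 = -(2 * (T2 X + (X : ℂ))) / (((X : ℂ) + ((1 : ℝ) : ℂ)) * (T2 X + ((1 : ℝ) : ℂ))) := by
    unfold nd
    field_simp
    push_cast
    ring
  have h3 : ‖T2 X + (X : ℂ)‖ ≤ 2 * X := by
    refine (norm_add_le _ _).trans ?_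
    rw [Complex.norm_real, Real.norm_of_nonneg hX0.le]
    linarith
  have h4 : X ≤ ‖(X : ℂ) + ((1 : ℝ) : ℂ)‖ := by
    rw [← Complex.ofReal_add, Complex.norm_real, Real.norm_of_nonneg (by linarith)]
    linarith
  rw [e, norm_div, norm_neg, norm_mul, norm_mul, Complex.norm_ofNat]
  calc 2 * ‖T2 X + (X : ℂ)‖ / (‖(X : ℂ) + ((1 : ℝ) : ℂ)‖ * ‖T2 X + ((1 : ℝ) : ℂ)‖) ≤ 2 * (2 * X) / (X * X) := by gcongr
    _ = 4 / X := by field_simp; norm_num

/-- the multiplier of `2 n` rows -/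
noncomputable def WN (n : ℕ) (X : ℝ) : ℂ := nd X ^ n

theorem WN_meas (n : ℕ) : Measurable (WN n) := nd_meas.pow_const n

theorem WN_norm' (n : ℕ) {X : ℝ} (hX : 1 < X) : ‖WN n X‖ ≤ Real.exp (-(2.8 * n / X)) := by
  unfold WN
  rw [norm_pow]
  refine (pow_le_pow_left₀ (norm_nonneg _) (nd_norm hX) n).trans (le_of_eq ?_)
  rw [← Real.exp_nat_mul]
  congr 1
  ring

theorem WN_norm (n : ℕ) {X : ℝ} (hX : 1 < X) : ‖WN n X‖ ≤ Real.exp (-((n : ℝ) / X)) := by
  refine (WN_norm' n hX).trans (Real.exp_le_exp.2 (neg_le_neg ?_))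
  have hX0 : 0 < X := by linarith
  have h4 : (0 : ℝ) ≤ n := Nat.cast_nonneg n
  gcongr
  linarith

theorem WN_le_one (n : ℕ) {X : ℝ} (hX : 1 < X) : ‖WN n X‖ ≤ 1 := by
  unfold WN
  rw [norm_pow]
  exact pow_le_one₀ (norm_nonneg _) (nd_le_one hX)

theorem WN_im' (n : ℕ) {X : ℝ} (hX : 1 < X) : |(WN n X).im| ≤ √3 * n / X * ‖WN n X‖ := by
  have hX0 : 0 < X := by linarith
  have h := EXS.Num.im_prod (Finset.univ : Finset (Fin n)) (z := fun _ => nd X) (a := fun _ => √3 / X)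
    (fun _ => by positivity) fun k _ => nd_im hX
  simp only [Finset.prod_const, Finset.card_univ, Fintype.card_fin, Finset.sum_const, nsmul_eq_mul] at h
  refine h.trans (le_of_eq ?_)
  unfold WN
  ring

theorem WN_im (n : ℕ) {X : ℝ} (hX : 1 < X) : |(WN n X).im| ≤ 1 / 4 := by
  have hX0 : 0 < X := by linarith
  have h1 := WN_norm' n hX
  have h2 := WN_im' n hX
  set y := 2.8 * (n : ℝ) / X with hy
  have hy0 : 0 ≤ y := by positivity
  have h5 : y * Real.exp (-y) ≤ 0.3679 := by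
    have h6 := Real.add_one_le_exp (y - 1)
    have h7 : y ≤ Real.exp (y - 1) := by linarith
    have h8 : y * Real.exp (-y) ≤ Real.exp (y - 1) * Real.exp (-y) :=
      mul_le_mul_of_nonneg_right h7 (Real.exp_pos _).le
    rw [← Real.exp_add, show y - 1 + -y = -1 by ring] at h8
    have h9 := Real.exp_neg_one_lt_d9
    linarith
  have h11 : √3 * n / X = √3 / 2.8 * y := by
    rw [hy]
    field_simp
  have h12 := s3_hi
  calc |(WN n X).im| ≤ √3 * n / X * ‖WN n X‖ := h2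
    _ ≤ (√3 / 2.8 * y) * Real.exp (-y) := by
        rw [← h11]
        exact mul_le_mul_of_nonneg_left h1 (by positivity)
    _ = √3 / 2.8 * (y * Real.exp (-y)) := by ring
    _ ≤ √3 / 2.8 * 0.3679 := by gcongr
    _ ≤ 1 / 4 := by
        rw [div_mul_eq_mul_div, div_le_iff₀ (by norm_num)]
        nlinarith

theorem WN_sub_one (n : ℕ) {X : ℝ} (hX : 1 < X) : ‖WN n X - 1‖ ≤ 4 * ((n + 1) / X) := by
  have hX0 : 0 < X := by linarith
  have h : ∀ m : ℕ, ‖nd X ^ m - 1‖ ≤ m * (4 / X) := by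
    intro m
    induction m with
    | zero => simp
    | succ m ih =>
      have e : nd X ^ (m + 1) - 1 = nd X * (nd X ^ m - 1) + (nd X - 1) := by ring
      rw [e]
      refine (norm_add_le _ _).trans ?_
      rw [norm_mul]
      have h1 := mul_le_mul (nd_le_one hX) ih (norm_nonneg _) zero_le_one
      have h2 := nd_sub_one hX
      push_cast
      linarith
  refine (h n).trans ?_
  rw [mul_div_assoc', mul_div_assoc']
  apply div_le_div_of_nonneg_right _ hX0.le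
  linarith

theorem WN_con (N : ℕ) (hN : 50 ≤ N) (f : ℝ → ℝ) (M : ℝ) (hM0 : 0 ≤ M) (hf : Measurable f) (hM : Bh f M) :
    Bh (KG (WN N) f) (4 / 5 * M) := by
  intro X hX
  have hX0 : 0 < X := by linarith
  have hsX : 0 < √X := Real.sqrt_pos.2 hX0
  have ht := nT_pos hX.le
  have ht2 := nT_sq hX.le
  have hst : 0 < √(nT X) := Real.sqrt_pos.2 ht
  have hst2 : √(nT X) ^ 2 = nT X := Real.sq_sqrt ht.le
  have hsX2 : √X ^ 2 = X := Real.sq_sqrt hX0.le
  have e1 : X ^ (-(1 / 2) : ℝ) = 1 / √X := by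
    rw [Real.rpow_neg hX0.le, ← Real.sqrt_eq_rpow, one_div]
  have s3l := s3_lo
  have s3h := s3_hi
  have h3p := s3_pos
  rw [e1]
  show |(WN N X * Cf f (T2 X)).im| ≤ _
  -- it is enough to bound the constant
  suffices h : ∃ p r : ℝ, |(WN N X).re| ≤ p ∧ |(WN N X).im| ≤ r ∧
      (r + (r * X / (2 * nT X) + √3 / 2 * p)) / √3 / √(nT X) ≤ 4 / 5 * (1 / √X) by
    obtain ⟨p, r, h1, h2, h3⟩ := h
    refine (contr_gen h1 h2 hX.le hf hM).trans ?_
    calc M * ((r + (r * X / (2 * nT X) + √3 / 2 * p)) / √3 / √(nT X)) ≤ M * (4 / 5 * (1 / √X)) :=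
          mul_le_mul_of_nonneg_left h3 hM0
      _ = _ := by ring
  rcases le_or_gt 4 X with h4 | h4
  · refine ⟨1, 1 / 4, (Complex.abs_re_le_norm _).trans (WN_le_one N hX), WN_im N hX, ?_⟩
    have ht3 : 0.976 * X ≤ nT X := by
      refine abs_le_of_sq_le_sq' ?_ ht.le |>.2
      rw [ht2]
      nlinarith
    have hs1 : 0.9879 * √X ≤ √(nT X) := by
      refine abs_le_of_sq_le_sq' ?_ hst.le |>.2
      rw [hst2, mul_pow, hsX2]
      nlinarith
    have h6 : X / (2 * nT X) ≤ 0.5123 := by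
      rw [div_le_iff₀ (by positivity)]
      nlinarith
    have h7 : 1 / 4 + (1 / 4 * X / (2 * nT X) + √3 / 2 * 1) ≤ 1.2442 := by
      have : 1 / 4 * X / (2 * nT X) = 1 / 4 * (X / (2 * nT X)) := by ring
      rw [this]
      linarith
    have h8 : (1 / 4 + (1 / 4 * X / (2 * nT X) + √3 / 2 * 1)) / √3 ≤ 0.7184 := by
      rw [div_le_iff₀ h3p]
      nlinarith
    rw [div_le_iff₀ hst]
    refine h8.trans ?_
    have h9 : 4 / 5 * (1 / √X) * (0.9879 * √X) ≤ 4 / 5 * (1 / √X) * √(nT X) :=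
      mul_le_mul_of_nonneg_left hs1 (by positivity)
    refine le_trans ?_ h9
    have : 4 / 5 * (1 / √X) * (0.9879 * √X) = 4 / 5 * 0.9879 := by
      field_simp
    rw [this]
    norm_num
  · have hW : ‖WN N X‖ ≤ 1 / 4 := by
      refine (WN_norm N hX).trans ?_
      have h5 : (50 : ℝ) ≤ N := by exact_mod_cast hN
      have h6 : 12 ≤ (N : ℝ) / X := by
        rw [le_div_iff₀ hX0]
        linarith
      have h7 : Real.exp (-((N : ℝ) / X)) ≤ Real.exp (-12) := Real.exp_le_exp.2 (by linarith)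
      have h8 : Real.exp (-12) ≤ 1 / 4 := by
        rw [Real.exp_neg, ← one_div]
        refine one_div_le_one_div_of_le (by norm_num) ?_
        have := Real.add_one_le_exp (12 : ℝ)
        linarith
      exact h7.trans h8
    refine ⟨1 / 4, 1 / 4, (Complex.abs_re_le_norm _).trans hW, (Complex.abs_im_le_norm _).trans hW, ?_⟩
    have ht3 := le_nT hX.le
    have hs1 : √X ≤ 1.4143 * √(nT X) := by
      refine abs_le_of_sq_le_sq' ?_ (by positivity) |>.2
      rw [mul_pow, hst2, hsX2]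
      nlinarith
    have h6 : X / (2 * nT X) ≤ 1 := by
      rw [div_le_iff₀ (by positivity)]
      linarith
    have h7 : 1 / 4 + (1 / 4 * X / (2 * nT X) + √3 / 2 * (1 / 4)) ≤ 0.7166 := by
      have : 1 / 4 * X / (2 * nT X) = 1 / 4 * (X / (2 * nT X)) := by ring
      rw [this]
      linarith
    have h8 : (1 / 4 + (1 / 4 * X / (2 * nT X) + √3 / 2 * (1 / 4))) / √3 ≤ 0.414 := by
      rw [div_le_iff₀ h3p]
      nlinarith
    rw [div_le_iff₀ hst]
    refine h8.trans ?_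
    have h9 : 4 / 5 * (1 / √X) * (√X / 1.4143) ≤ 4 / 5 * (1 / √X) * √(nT X) := by
      refine mul_le_mul_of_nonneg_left ?_ (by positivity)
      rw [div_le_iff₀ (by norm_num)]
      linarith
    refine le_trans ?_ h9
    have : 4 / 5 * (1 / √X) * (√X / 1.4143) = 4 / 5 / 1.4143 := by
      field_simp
    rw [this]
    norm_num

/-- the limit of the multiplier -/
theorem WN_lim {s : ℝ} (hs : 0 < s) :
    Tendsto (fun n : ℕ => WN n (2 * (n : ℝ) * s)) atTop (𝓝 (Complex.exp (EXS.Univ.Ae (2 * s)))) := by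
  have h1 := EXS.Univ.Wf_lim (n := fun N => N) (τ := fun N => fun _ : Fin N => (1 : ℝ)) (h := fun N => (N : ℝ))
    (fun _ _ => ⟨ta_le1, le_rfl⟩) (fun N => by simp) tendsto_natCast_atTop_atTop (s := 2 * s) (by positivity)
  have hX : Tendsto (fun n : ℕ => (n : ℝ) * (2 * s)) atTop atTop :=
    tendsto_natCast_atTop_atTop.atTop_mul_const (by positivity)
  have h2 := h1.div (EXS.A6.pre_lim.comp hX) one_ne_zero
  rw [div_one] at h2
  refine h2.congr' ?_
  filter_upwards [hX.eventually_gt_atTop 1] with n hn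
  have e : 2 * (n : ℝ) * s = (n : ℝ) * (2 * s) := by ring
  rw [e]
  simp only [Pi.div_apply, Function.comp_apply]
  set X : ℝ := (n : ℝ) * (2 * s) with hXd
  have hX0 : 0 < X := by linarith
  have l1 := ta_lo
  have l2 := ta_hi
  have hp : (((X : ℂ) - 1 / 2) / ((X : ℂ) + (ta : ℂ))) * ((T2 X - (ta : ℂ)) / (T2 X + 1 / 2)) ≠ 0 := by
    have n1 : (X : ℂ) - 1 / 2 ≠ 0 := by
      have h3 : X - 1 / 2 ≠ 0 := by linarith
      have h4 : ((X - 1 / 2 : ℝ) : ℂ) ≠ 0 := Complex.ofReal_ne_zero.2 h3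
      push_cast at h4
      exact h4
    have n2 : (X : ℂ) + (ta : ℂ) ≠ 0 := by
      have : X + ta ≠ 0 := by linarith
      exact_mod_cast this
    have n3 : T2 X + 1 / 2 ≠ 0 := by
      have := T2_add_ne (t := 1 / 2) hn.le (by norm_num)
      push_cast at this
      exact this
    have n4 : T2 X - (ta : ℂ) ≠ 0 := by
      intro h0
      have h3 := nsq' hn.le ta
      rw [h0, map_zero, EXS.Num.ta_sq] at h3
      nlinarith
    exact mul_ne_zero (div_ne_zero n1 n2) (div_ne_zero n4 n3)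
  rw [div_eq_iff hp]
  unfold Wf WN nd
  rw [Finset.prod_const, Finset.card_univ, Fintype.card_fin]
  ring

theorem mulN : Mul WN (fun n => 2 * (n : ℝ)) where
  meas := WN_meas
  norm := fun n X hX => WN_norm n hX
  sub1 := ⟨4, by norm_num, fun n X hX => WN_sub_one n hX⟩
  con := ⟨50, fun n hn f M hM0 hf hM => WN_con n hn f M hM0 hf hM⟩
  cmp := fun n => ⟨by have : (0:ℝ) ≤ n := Nat.cast_nonneg n
                      linarith, le_rfl⟩
  lim := fun s hs => WN_lim hs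

theorem WN_edge : ∀ᶠ n : ℕ in atTop, ∀ X : ℝ, 1 < X →
    ‖WN n X‖ ≤ (X - 1) / (X + 1) * Real.exp (-((n : ℝ) / X)) := by
  filter_upwards [eventually_ge_atTop 2] with n hn X hX
  have hX0 : 0 < X := by linarith
  obtain ⟨m, rfl⟩ : ∃ m, n = m + 1 := ⟨n - 1, by omega⟩
  have h1 : (1 : ℝ) ≤ m := by
    have : 1 ≤ m := by omega
    exact_mod_cast this
  have e : WN (m + 1) X = nd X * WN m X := by
    unfold WN
    ring
  rw [e, norm_mul]
  refine mul_le_mul (nd_edge hX) ((WN_norm' m hX).trans (Real.exp_le_exp.2 (neg_le_neg ?_))) (norm_nonneg _)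
    (div_nonneg (by linarith) (by linarith))
  push_cast
  gcongr
  linarith

/-- **the ends of the strip, `2 n` rows** -/
theorem ends_lim {V : ℕ → ℂ → ℂ} (hV : ∀ᶠ n in atTop, VG (WN n) (V n)) :
    ∃ θ : ℝ, θ ^ 2 = 2 / 3 ∧ Tendsto (fun n => (V n 0).re) atTop (𝓝 θ) ∧
      Tendsto (fun n : ℕ => (n : ℝ) * ((V n 0).re - (V n (Real.pi : ℂ)).re)) atTop (𝓝 (5 / 48 * θ)) := by
  obtain ⟨θ, h1, h2, h3⟩ := lim_ends mulN WN_edge hV
  refine ⟨θ, h1, h2, h3.congr fun n => ?_⟩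
  ring

end NUQ
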