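import Pool.Agent.NUQ.Pol

/-!
# Orthogonality
-/

set_option autoImplicit false

open MeasureTheory Filter Topology Complex
open scoped Polynomial

namespace NUQ

noncomputable section

/-- the functional of the weight -/
def Lw (p : ℝ[X]) : ℝ := ∫ k : ℝ, wf k * p.eval k

lemma Lw_add (p q : ℝ[X]) : Lw (p + q) = Lw p + Lw q := by
  unfold Lw
  rw [← integral_add (wf_poly p) (wf_poly q)]
  congr 1; funext k
  rw [Polynomial.eval_add]; ring

lemma Lw_C_mul (a : ℝ) (p : ℝ[X]) : Lw (Polynomial.C a * p) = a * Lw p := by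
  unfold Lw
  rw [← integral_const_mul]
  congr 1; funext k
  rw [Polynomial.eval_mul, Polynomial.eval_C]; ring

lemma Lw_zero : Lw 0 = 0 := by unfold Lw; simp

lemma Lw_sum {ι : Type*} (s : Finset ι) (f : ι → ℝ[X]) : Lw (∑ i ∈ s, f i) = ∑ i ∈ s, Lw (f i) := by
  classical
  induction s using Finset.induction_on with
  | empty => simp [Lw_zero]
  | insert a s ha ih => rw [Finset.sum_insert ha, Finset.sum_insert ha, Lw_add, ih]

theorem Lw_PP (m : ℕ) : Lw (PP m) = if m = 0 then 2 else 0 := by
  have h := Ft_inv (ph_cont m) (ph_int m) (Ft_ph_int m) 0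
  have h1 : ∫ k : ℝ, cexp (-(I * k * (0 : ℝ))) * Ft (ph m) k = I ^ m * (Real.pi * Lw (PP m) : ℝ) := by
    have : ∀ k : ℝ, cexp (-(I * k * (0 : ℝ))) * Ft (ph m) k =
        I ^ m * ((Real.pi * (wf k * (PP m).eval k) : ℝ) : ℂ) := by
      intro k
      rw [Ft_ph]
      simp only [Complex.ofReal_zero, mul_zero, neg_zero, Complex.exp_zero, one_mul]
      push_cast
      ring
    simp_rw [this]
    rw [integral_const_mul, integral_complex_ofReal, integral_const_mul]
    rfl
  rw [h1] at h
  have hp := Real.pi_pos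
  have hI : (I : ℂ) ^ m ≠ 0 := pow_ne_zero _ Complex.I_ne_zero
  have hph : ph m 0 = if m = 0 then 1 else 0 := by
    unfold ph
    rw [Real.tanh_zero, Real.cosh_zero]
    split_ifs with h0
    · rw [h0]; norm_num
    · rw [zero_pow h0]; norm_num
  split_ifs with h0
  · subst h0
    rw [hph, if_pos rfl, pow_zero, one_mul] at h
    have h2 : Real.pi * Lw (PP 0) = 2 * Real.pi * 1 := by exact_mod_cast h
    have : Real.pi * (Lw (PP 0) - 2) = 0 := by linarith
    rcases mul_eq_zero.1 this with h | h
    · exact absurd h hp.ne'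
    · linarith
  · rw [hph, if_neg h0] at h
    simp only [Complex.ofReal_zero, mul_zero] at h
    rcases mul_eq_zero.1 h with h | h
    · exact absurd h hI
    · have h2 : Real.pi * Lw (PP m) = 0 := by exact_mod_cast h
      rcases mul_eq_zero.1 h2 with h | h
      · exact absurd h hp.ne'
      · exact h

lemma Lw_X_pow (l : ℕ) : ∀ m : ℕ, (l < m → Lw (Polynomial.X ^ l * PP m) = 0) ∧
    (l = m → Lw (Polynomial.X ^ l * PP m) = 2 * (m.factorial : ℝ)) := by
  induction l with
  | zero =>
    intro m
    rw [pow_zero, one_mul, Lw_PP]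
    constructor
    · intro h; rw [if_neg (by omega)]
    · intro h; subst h; norm_num
  | succ l ih =>
    intro m
    have e : Polynomial.X ^ (l + 1) * PP m = Polynomial.C ((m : ℝ) + 2) * (Polynomial.X ^ l * PP (m + 1)) +
        Polynomial.C (m : ℝ) * (Polynomial.X ^ l * PP (m - 1)) := by
      rw [pow_succ, mul_assoc, X_mul_PP]; ring
    rw [e, Lw_add, Lw_C_mul, Lw_C_mul]
    constructor
    · intro h
      rw [(ih (m + 1)).1 (by omega), (ih (m - 1)).1 (by omega)]; ring
    · intro h
      rw [(ih (m + 1)).1 (by omega), (ih (m - 1)).2 (by omega)]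
      subst h
      rw [Nat.add_sub_cancel, Nat.factorial_succ]
      push_cast
      ring

lemma PP_natDegree (m : ℕ) : (PP m).natDegree ≤ m := by
  induction m using Nat.strong_induction_on with
  | _ m ih =>
    rcases m with _ | _ | m
    · simp [PP]
    · rw [PP]
      refine (Polynomial.natDegree_C_mul_le _ _).trans ?_
      simp
    · rw [PP]
      refine (Polynomial.natDegree_C_mul_le _ _).trans ((Polynomial.natDegree_sub_le _ _).trans ?_)
      refine max_le ?_ ?_
      · refine Polynomial.natDegree_mul_le.trans ?_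
        have := ih (m + 1) (by omega)
        have h2 : (Polynomial.X : ℝ[X]).natDegree ≤ 1 := Polynomial.natDegree_X_le
        omega
      · refine (Polynomial.natDegree_C_mul_le _ _).trans ?_
        have := ih m (by omega)
        omega

lemma PP_coeff (m : ℕ) : (PP m).coeff m = 1 / ((m + 1).factorial : ℝ) := by
  induction m using Nat.strong_induction_on with
  | _ m ih =>
    rcases m with _ | _ | m
    · simp [PP]
    · rw [PP]
      simp [Nat.factorial]
    · rw [PP, Polynomial.coeff_C_mul, Polynomial.coeff_sub, Polynomial.coeff_X_mul, ih (m + 1) (by omega),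
        Polynomial.coeff_C_mul, Polynomial.coeff_eq_zero_of_natDegree_lt
          (lt_of_le_of_lt (PP_natDegree m) (by omega)), mul_zero, sub_zero]
      rw [show m + 2 + 1 = (m + 2) + 1 by ring, Nat.factorial_succ (m + 2)]
      push_cast
      have h3 : (m : ℝ) + 3 ≠ 0 := by positivity
      have h4 : ((m + 2).factorial : ℝ) ≠ 0 := by positivity
      have h5 : (m : ℝ) + 2 + 1 ≠ 0 := by positivity
      rw [show m + 1 + 1 = m + 2 by ring]
      field_simp
      ring

/-- orthogonality to all polynomials of smaller degree -/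
theorem Lw_low {p : ℝ[X]} {m : ℕ} (h : p.natDegree < m) : Lw (p * PP m) = 0 := by
  conv_lhs => rw [p.as_sum_range_C_mul_X_pow]
  rw [Finset.sum_mul, Lw_sum]
  refine Finset.sum_eq_zero fun i hi => ?_
  rw [Finset.mem_range] at hi
  rw [mul_assoc, Lw_C_mul, (Lw_X_pow i m).1 (by omega), mul_zero]

theorem Lw_orth {l m : ℕ} (h : l ≠ m) : Lw (PP l * PP m) = 0 := by
  rcases lt_or_gt_of_ne h with h | h
  · exact Lw_low (lt_of_le_of_lt (PP_natDegree l) h)
  · rw [mul_comm]
    exact Lw_low (lt_of_le_of_lt (PP_natDegree m) h)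

theorem Lw_norm (m : ℕ) : Lw (PP m * PP m) = 2 / ((m : ℝ) + 1) := by
  conv_lhs => rw [(PP m).as_sum_range_C_mul_X_pow' (Nat.lt_succ_of_le (PP_natDegree m))]
  rw [← (PP m).as_sum_range_C_mul_X_pow' (Nat.lt_succ_of_le (PP_natDegree m))]
  have e : Lw ((∑ i ∈ Finset.range (m + 1), Polynomial.C ((PP m).coeff i) * Polynomial.X ^ i) * PP m) =
      2 / ((m : ℝ) + 1) := by
    rw [Finset.sum_range_succ, add_mul, Lw_add, Finset.sum_mul, Lw_sum,
      Finset.sum_eq_zero (fun i hi => ?_), mul_assoc, Lw_C_mul, (Lw_X_pow m m).2 rfl, PP_coeff,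
      Nat.factorial_succ]
    · have h1 : ((m.factorial : ℕ) : ℝ) ≠ 0 := by positivity
      push_cast
      field_simp
      ring
    · rw [Finset.mem_range] at hi
      rw [mul_assoc, Lw_C_mul, (Lw_X_pow i m).1 hi, mul_zero]
  rw [← (PP m).as_sum_range_C_mul_X_pow' (Nat.lt_succ_of_le (PP_natDegree m))] at e
  exact e

lemma PP_neg (m : ℕ) (k : ℝ) : (PP m).eval (-k) = (-1) ^ m * (PP m).eval k := by
  induction m using Nat.strong_induction_on with
  | _ m ih =>
    rcases m with _ | _ | m
    · simp [PP]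
    · rw [PP]; simp
    · rw [PP]
      simp only [Polynomial.eval_mul, Polynomial.eval_C, Polynomial.eval_sub, Polynomial.eval_X]
      rw [ih (m + 1) (by omega), ih m (by omega)]
      ring

lemma half_int {f : ℝ → ℝ} (h : ∀ k, f (-k) = f k) : ∫ k in Set.Ioi (0 : ℝ), f k = (1 / 2) * ∫ k, f k := by
  have h1 := integral_comp_abs (f := f)
  have h2 : ∀ x, f |x| = f x := fun x => by
    rcases abs_choice x with h3 | h3
    · rw [h3]
    · rw [h3, h]
  simp_rw [h2] at h1
  rw [h1]; ring

/-- orthonormal polynomials on the half line -/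
def qq (j : ℕ) : ℝ[X] := Polynomial.C (Real.sqrt (2 * j + 1)) * PP (2 * j)

lemma qq_neg (j : ℕ) (k : ℝ) : (qq j).eval (-k) = (qq j).eval k := by
  unfold qq
  rw [Polynomial.eval_mul, Polynomial.eval_mul, PP_neg, pow_mul]
  simp

theorem qq_orth (i j : ℕ) : ∫ k in Set.Ioi (0 : ℝ), wf k * ((qq i).eval k * (qq j).eval k) =
    if i = j then 1 else 0 := by
  rw [half_int (fun k => by rw [wf_neg, qq_neg, qq_neg])]
  have e : ∫ k : ℝ, wf k * ((qq i).eval k * (qq j).eval k) = Lw (qq i * qq j) := by
    unfold Lw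
    congr 1; funext k
    rw [Polynomial.eval_mul]
  have e2 : qq i * qq j = Polynomial.C (Real.sqrt (2 * i + 1) * Real.sqrt (2 * j + 1)) * (PP (2 * i) * PP (2 * j)) := by
    unfold qq
    rw [Polynomial.C_mul]; ring
  rw [e, e2, Lw_C_mul]
  split_ifs with h
  · subst h
    rw [Lw_norm, Real.mul_self_sqrt (by positivity)]
    push_cast
    have : (2 : ℝ) * i + 1 ≠ 0 := by positivity
    field_simp
  · rw [Lw_orth (by omega)]; ring

end

end NUQ
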