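import Pool.Agent.NUQ.Sech

/-!
# The orthogonal polynomials of `k / sinh(π k / 2)`
-/

set_option autoImplicit false

open MeasureTheory Filter Topology Complex

namespace NUQ

noncomputable section

lemma abs_one_sub_tanh {β : ℝ} : |1 - Real.tanh β| ≤ 2 * Real.exp (-(2 * β)) := by
  have h1 : 1 - Real.tanh β = Real.exp (-β) / Real.cosh β := by
    rw [Real.tanh_eq_sinh_div_cosh, Real.sinh_eq, Real.cosh_eq]
    have := Real.exp_pos β
    have := Real.exp_pos (-β)
    field_simp
    ring
  have h2 : Real.exp β / 2 ≤ Real.cosh β := by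
    rw [Real.cosh_eq]
    have := Real.exp_pos (-β)
    linarith
  have h3 := Real.exp_pos β
  rw [h1, abs_of_pos (by have := Real.cosh_pos β; positivity)]
  calc Real.exp (-β) / Real.cosh β ≤ Real.exp (-β) / (Real.exp β / 2) := by gcongr
    _ = 2 * Real.exp (-(2 * β)) := by
        rw [show -(2 * β) = -β + -β by ring, Real.exp_add, Real.exp_neg]
        field_simp

lemma tanh_top : Tendsto Real.tanh atTop (𝓝 1) := by
  have h1 : Tendsto (fun β : ℝ => 2 * Real.exp (-(2 * β))) atTop (𝓝 0) := by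
    have : Tendsto (fun β : ℝ => -(2 * β)) atTop atBot :=
      tendsto_neg_atTop_atBot.comp (tendsto_id.const_mul_atTop two_pos)
    simpa using (Real.tendsto_exp_atBot.comp this).const_mul 2
  have h2 : Tendsto (fun β => 1 - Real.tanh β) atTop (𝓝 0) :=
    squeeze_zero_norm (fun β => by rw [Real.norm_eq_abs]; exact abs_one_sub_tanh) h1
  have h3 := h2.const_sub 1
  simpa using h3

lemma tanh_bot : Tendsto Real.tanh atBot (𝓝 (-1)) := by
  have h1 : Tendsto (fun β => -Real.tanh (-β)) atBot (𝓝 (-1)) :=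
    (tanh_top.comp tendsto_neg_atBot_atTop).neg
  refine h1.congr fun β => ?_
  rw [Real.tanh_neg, neg_neg]

/-- the weight `k / sinh (π k / 2)` -/
def wf (k : ℝ) : ℝ := if k = 0 then 2 / Real.pi else k / Real.sinh (Real.pi * k / 2)

lemma wf_zero : wf 0 = 2 / Real.pi := by unfold wf; rw [if_pos rfl]

lemma wf_ne {k : ℝ} (hk : k ≠ 0) : wf k = k / Real.sinh (Real.pi * k / 2) := by
  unfold wf; rw [if_neg hk]

lemma wf_neg (k : ℝ) : wf (-k) = wf k := by
  by_cases hk : k = 0
  · rw [hk, neg_zero]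
  · rw [wf_ne hk, wf_ne (neg_ne_zero.2 hk), show Real.pi * -k / 2 = -(Real.pi * k / 2) by ring,
      Real.sinh_neg, neg_div_neg_eq]

theorem Ft_ph0 (k : ℝ) : Ft (ph 0) k = ((Real.pi * wf k : ℝ) : ℂ) := by
  by_cases hk : k = 0
  · subst hk
    have h1 : ∫ β : ℝ, 1 / Real.cosh β ^ 2 = 1 - (-1) := by
      refine integral_of_hasDerivAt_of_tendsto (f := Real.tanh) hasDerivAt_tanh ?_ tanh_bot tanh_top
      have := ph_int 0
      unfold ph at this
      simpa using this
    have h2 : Ft (ph 0) 0 = ((∫ β : ℝ, 1 / Real.cosh β ^ 2 : ℝ) : ℂ) := by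
      rw [← integral_complex_ofReal]
      unfold Ft ph
      simp
    rw [h2, h1, wf_zero]
    have := Real.pi_ne_zero
    push_cast
    rw [show ((Real.pi : ℂ) * (2 / Real.pi)) = 2 by
      have : (Real.pi : ℂ) ≠ 0 := by exact_mod_cast Real.pi_ne_zero
      field_simp]
    norm_num
  · rw [Ft_zero hk, wf_ne hk]
    congr 1
    ring

lemma Ft_cont {f : ℝ → ℝ} (hf : Integrable f) : Continuous (Ft f) := by
  unfold Ft
  refine continuous_of_dominated (bound := fun β => |f β|) ?_ ?_ hf.abs ?_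
  · exact fun k => (Ft_int hf k).aestronglyMeasurable
  · intro k
    refine Eventually.of_forall fun β => ?_
    rw [norm_mul, norm_cexp_I, one_mul, Complex.norm_real, Real.norm_eq_abs]
  · exact Eventually.of_forall fun β => by fun_prop

lemma wf_cont : Continuous wf := by
  have h : wf = fun k => (Ft (ph 0) k).re / Real.pi := by
    funext k
    rw [Ft_ph0, Complex.ofReal_re]
    have := Real.pi_ne_zero
    field_simp
  rw [h]
  exact (Complex.continuous_re.comp (Ft_cont (ph_int 0))).div_const _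

lemma wf_pos (k : ℝ) : 0 < wf k := by
  have hp := Real.pi_pos
  by_cases hk : k = 0
  · rw [hk, wf_zero]; positivity
  · rw [wf_ne hk]
    rcases lt_or_gt_of_ne hk with h | h
    · have : Real.sinh (Real.pi * k / 2) < 0 := by
        rw [Real.sinh_neg_iff]
        have : Real.pi * k < 0 := mul_neg_of_pos_of_neg hp h
        linarith
      exact div_pos_of_neg_of_neg h this
    · have : 0 < Real.sinh (Real.pi * k / 2) := by
        rw [Real.sinh_pos_iff]; positivity
      positivity

/-- `x / sinh x ≤ (1 + 2 x) exp(-x)` -/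
lemma div_sinh_le {x : ℝ} (hx : 0 < x) : x / Real.sinh x ≤ (1 + 2 * x) * Real.exp (-x) := by
  have hs : 0 < Real.sinh x := Real.sinh_pos_iff.2 hx
  rw [div_le_iff₀ hs, Real.sinh_eq]
  have h1 := Real.add_one_le_exp (2 * x)
  have h2 : Real.exp (-x) * Real.exp x = 1 := by rw [← Real.exp_add]; simp
  have h3 : Real.exp (-x) * Real.exp (-x) * Real.exp (2 * x) = 1 := by
    rw [← Real.exp_add, ← Real.exp_add]; ring_nf; simp
  have h4 : 0 < Real.exp (-x) := Real.exp_pos _
  have h5 : Real.exp (-x) * Real.exp (-x) * (2 * x + 1) ≤ 1 := by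
    calc _ ≤ Real.exp (-x) * Real.exp (-x) * Real.exp (2 * x) := by gcongr
      _ = 1 := h3
  nlinarith

lemma wf_le (k : ℝ) : wf k ≤ 2 / Real.pi * ((1 + Real.pi * |k|) * Real.exp (-(Real.pi / 2 * |k|))) := by
  have hp := Real.pi_pos
  by_cases hk : k = 0
  · rw [hk, wf_zero]; simp
  · have h1 : wf k = wf |k| := by
      rcases abs_choice k with h | h
      · rw [h]
      · rw [h, wf_neg]
    have hk' : 0 < |k| := abs_pos.2 hk
    rw [h1, wf_ne hk'.ne']
    have h2 := div_sinh_le (x := Real.pi * |k| / 2) (by positivity)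
    have h3 : |k| / Real.sinh (Real.pi * |k| / 2) =
        2 / Real.pi * (Real.pi * |k| / 2 / Real.sinh (Real.pi * |k| / 2)) := by
      field_simp
    rw [h3, show Real.pi / 2 * |k| = Real.pi * |k| / 2 by ring]
    gcongr
    calc _ ≤ _ := h2
      _ = _ := by ring_nf

lemma pow_le_exp (n : ℕ) {δ : ℝ} (hδ : 0 < δ) {x : ℝ} (hx : 0 ≤ x) :
    x ^ n ≤ n.factorial / δ ^ n * Real.exp (δ * x) := by
  have h := Real.pow_div_factorial_le_exp (δ * x) (by positivity) n
  rw [div_le_iff₀ (by positivity), mul_pow] at h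
  rw [div_mul_eq_mul_div, le_div_iff₀ (by positivity)]
  linarith

/-- exponential decay of the weight -/
lemma wf_exp {c : ℝ} (hc : c < Real.pi / 2) : ∃ C : ℝ, 0 < C ∧ ∀ k : ℝ, wf k ≤ C * Real.exp (-(c * |k|)) := by
  have hp := Real.pi_pos
  set δ := Real.pi / 2 - c with hδ
  have hδ' : 0 < δ := by rw [hδ]; linarith
  refine ⟨2 / Real.pi * (1 + Real.pi / δ), by positivity, fun k => (wf_le k).trans ?_⟩
  have h1 := pow_le_exp 1 hδ' (abs_nonneg k)
  have h0 : 1 ≤ Real.exp (δ * |k|) := Real.one_le_exp (by positivity)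
  rw [pow_one, Nat.factorial_one, pow_one, Nat.cast_one] at h1
  have h2 : (1 + Real.pi * |k|) ≤ (1 + Real.pi / δ) * Real.exp (δ * |k|) := by
    calc 1 + Real.pi * |k| ≤ Real.exp (δ * |k|) + Real.pi * (1 / δ * Real.exp (δ * |k|)) := by gcongr
      _ = _ := by ring
  have h3 : Real.exp (δ * |k|) * Real.exp (-(Real.pi / 2 * |k|)) = Real.exp (-(c * |k|)) := by
    rw [← Real.exp_add]; congr 1; rw [hδ]; ring
  calc 2 / Real.pi * ((1 + Real.pi * |k|) * Real.exp (-(Real.pi / 2 * |k|)))
      ≤ 2 / Real.pi * (((1 + Real.pi / δ) * Real.exp (δ * |k|)) * Real.exp (-(Real.pi / 2 * |k|))) := by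
        gcongr
    _ = 2 / Real.pi * (1 + Real.pi / δ) * (Real.exp (δ * |k|) * Real.exp (-(Real.pi / 2 * |k|))) := by ring
    _ = _ := by rw [h3]

/-- `wf k * |k|^n * exp(c|k|)` is integrable -/
lemma wf_pow_int (n : ℕ) {c : ℝ} (hc : c < Real.pi / 2) :
    Integrable fun k : ℝ => wf k * (|k| ^ n * Real.exp (c * |k|)) := by
  set c' := (c + Real.pi / 2) / 2 with hc'
  obtain ⟨C, hC, h⟩ := wf_exp (c := c') (by rw [hc']; linarith)
  set δ := (Real.pi / 2 - c) / 4 with hδ
  have hδ' : 0 < δ := by rw [hδ]; linarith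
  refine ((int_exp_abs hδ').const_mul (C * (n.factorial / δ ^ n))).mono' ?_ ?_
  · exact (wf_cont.mul ((continuous_abs.pow n).mul (by fun_prop))).aestronglyMeasurable
  · refine Eventually.of_forall fun k => ?_
    rw [Real.norm_eq_abs, abs_of_nonneg (by have := wf_pos k; positivity)]
    have h1 := pow_le_exp n hδ' (abs_nonneg k)
    calc wf k * (|k| ^ n * Real.exp (c * |k|))
        ≤ (C * Real.exp (-(c' * |k|))) * ((n.factorial / δ ^ n * Real.exp (δ * |k|)) * Real.exp (c * |k|)) := by
          gcongr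
          exact h k
      _ = C * (n.factorial / δ ^ n) * (Real.exp (-(c' * |k|)) * Real.exp (δ * |k|) * Real.exp (c * |k|)) := by
          ring
      _ = _ := by
          rw [← Real.exp_add, ← Real.exp_add]
          congr 2
          rw [hc', hδ]; ring

/-- `wf` times a function of polynomial growth -/
lemma wf_mul_int {f : ℝ → ℝ} (hf : Continuous f) (n : ℕ) {c A : ℝ} (hc : c < Real.pi / 2)
    (h : ∀ k, |f k| ≤ A * ((1 + |k| ^ n) * Real.exp (c * |k|))) : Integrable fun k : ℝ => wf k * f k := by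
  have h0 := wf_pow_int 0 hc
  have h1 := wf_pow_int n hc
  refine ((h0.add h1).const_mul A).mono' (wf_cont.mul hf).aestronglyMeasurable ?_
  refine Eventually.of_forall fun k => ?_
  have hw := wf_pos k
  rw [norm_mul, Real.norm_eq_abs, Real.norm_eq_abs, abs_of_pos hw]
  calc wf k * |f k| ≤ wf k * (A * ((1 + |k| ^ n) * Real.exp (c * |k|))) := by
        gcongr
        exact h k
    _ = _ := by simp only [Pi.add_apply]; ring

end

end NUQ
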