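import Pool.Agent.NUQ.Ortho

/-!
# The orthogonal polynomials: recursion, Fourier integrals, orthogonality
-/

set_option autoImplicit false

open MeasureTheory Filter Topology Complex
open scoped Polynomial FourierTransform

namespace NUQ

noncomputable section

/-- the orthogonal polynomials -/
def PP : ℕ → ℝ[X]
  | 0 => 1
  | 1 => Polynomial.C (1 / 2) * Polynomial.X
  | (m + 2) => Polynomial.C (1 / ((m : ℝ) + 3)) *
      (Polynomial.X * PP (m + 1) - Polynomial.C ((m : ℝ) + 1) * PP m)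

lemma X_mul_PP (m : ℕ) : Polynomial.X * PP m =
    Polynomial.C ((m : ℝ) + 2) * PP (m + 1) + Polynomial.C (m : ℝ) * PP (m - 1) := by
  rcases m with _ | m
  · simp only [PP, Nat.cast_zero, Polynomial.C_0, zero_mul, add_zero, zero_add, mul_one]
    rw [← mul_assoc, ← Polynomial.C_mul]
    norm_num
  · rw [PP, ← mul_assoc, ← Polynomial.C_mul]
    have h : ((m + 1 : ℕ) : ℝ) + 2 = (m : ℝ) + 3 := by push_cast; ring
    have h3 : (m : ℝ) + 3 ≠ 0 := by positivity
    rw [h, mul_one_div_cancel h3, Polynomial.C_1, one_mul, Nat.add_sub_cancel]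
    push_cast
    ring

lemma ph_eq (m : ℕ) (β : ℝ) : ph m β = Real.tanh β ^ m - Real.tanh β ^ (m + 2) := by
  unfold ph
  rw [div_eq_mul_one_div, ← one_sub_tanh_sq]
  ring

lemma hasDerivAt_ph (m : ℕ) (β : ℝ) :
    HasDerivAt (ph m) (m * ph (m - 1) β - (m + 2) * ph (m + 1) β) β := by
  have h : ph m = fun β => Real.tanh β ^ m - Real.tanh β ^ (m + 2) := funext (ph_eq m)
  rw [h]
  have h1 := ((hasDerivAt_tanh β).pow m).sub ((hasDerivAt_tanh β).pow (m + 2))
  refine h1.congr_deriv ?_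
  rw [ph, ph]
  rw [show m + 2 - 1 = m + 1 by omega]
  push_cast
  ring

lemma Ft_rec (m : ℕ) (k : ℝ) : (m : ℂ) * Ft (ph (m - 1)) k - ((m : ℂ) + 2) * Ft (ph (m + 1)) k =
    -(I * k) * Ft (ph m) k := by
  have hu : ∀ x : ℝ, HasDerivAt (fun β : ℝ => cexp (I * k * β)) (I * k * cexp (I * k * x)) x := by
    intro x
    have h1 : HasDerivAt (fun β : ℝ => I * k * (β : ℂ)) (I * k * 1) x :=
      (Complex.ofRealCLM.hasDerivAt (x := x)).const_mul (I * k)
    have h2 := h1.cexp
    refine h2.congr_deriv ?_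
    ring
  have hv : ∀ x : ℝ, HasDerivAt (fun β : ℝ => (ph m β : ℂ))
      ((m * ph (m - 1) x - (m + 2) * ph (m + 1) x : ℝ) : ℂ) x := fun x => (hasDerivAt_ph m x).ofReal_comp
  have hint : Integrable fun x : ℝ => m * ph (m - 1) x - (m + 2) * ph (m + 1) x :=
    ((ph_int _).const_mul _).sub ((ph_int _).const_mul _)
  have key := integral_mul_deriv_eq_deriv_mul_of_integrable (u := fun β : ℝ => cexp (I * k * β))
    (v := fun β : ℝ => (ph m β : ℂ)) (u' := fun x : ℝ => I * k * cexp (I * k * x))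
    (v' := fun x : ℝ => ((m * ph (m - 1) x - (m + 2) * ph (m + 1) x : ℝ) : ℂ))
    (fun x _ => hu x) (fun x _ => hv x) (Ft_int hint k)
    (by
      have := (Ft_int (ph_int m) k).const_mul (I * k)
      refine this.congr (Eventually.of_forall fun x => ?_)
      simp only [Pi.mul_apply]; ring)
    (Ft_int (ph_int m) k)
  have e1 : ∫ x : ℝ, cexp (I * k * x) * ((m * ph (m - 1) x - (m + 2) * ph (m + 1) x : ℝ) : ℂ) =
      (m : ℂ) * Ft (ph (m - 1)) k - ((m : ℂ) + 2) * Ft (ph (m + 1)) k := by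
    unfold Ft
    rw [← integral_const_mul, ← integral_const_mul, ← integral_sub
      ((Ft_int (ph_int (m - 1)) k).const_mul _) ((Ft_int (ph_int (m + 1)) k).const_mul _)]
    congr 1
    funext x
    push_cast
    ring
  have e2 : ∫ x : ℝ, I * k * cexp (I * k * x) * (ph m x : ℂ) = I * k * Ft (ph m) k := by
    unfold Ft
    rw [← integral_const_mul]
    congr 1
    funext x
    ring
  rw [e1, e2] at key
  rw [key]; ring

theorem Ft_ph (m : ℕ) (k : ℝ) :
    Ft (ph m) k = I ^ m * (((PP m).eval k * (Real.pi * wf k) : ℝ) : ℂ) := by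
  induction m using Nat.strong_induction_on with
  | _ m ih =>
    rcases m with _ | _ | m
    · rw [Ft_ph0, PP]; simp
    · have h := Ft_rec 0 k
      have h0 := ih 0 (by norm_num)
      rw [h0] at h
      simp only [zero_add, PP, Polynomial.eval_one, pow_zero, one_mul] at h ⊢
      simp only [Nat.cast_zero, zero_mul, zero_sub, zero_add] at h
      have h2 : (2 : ℂ) ≠ 0 := two_ne_zero
      have : Ft (ph 1) k = (1 / 2) * (2 * Ft (ph 1) k) := by ring
      rw [this, show (2 : ℂ) * Ft (ph 1) k = -(-(2 * Ft (ph 1) k)) by ring, h]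
      simp only [Polynomial.eval_mul, Polynomial.eval_C, Polynomial.eval_X]
      push_cast
      ring
    · have h := Ft_rec (m + 1) k
      rw [Nat.add_sub_cancel, ih m (by omega), ih (m + 1) (by omega)] at h
      have h3 : ((m : ℂ) + 3) ≠ 0 := by
        have : ((m : ℝ) + 3) ≠ 0 := by positivity
        exact_mod_cast this
      have e : Ft (ph (m + 2)) k = (1 / ((m : ℂ) + 3)) * ((((m + 1 : ℕ) : ℂ) + 2) * Ft (ph (m + 1 + 1)) k) := by
        have : ((m + 1 : ℕ) : ℂ) + 2 = (m : ℂ) + 3 := by push_cast; ring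
        rw [this, ← mul_assoc, one_div_mul_cancel h3, one_mul]
      have e2 : (((m + 1 : ℕ) : ℂ) + 2) * Ft (ph (m + 1 + 1)) k =
          ((m + 1 : ℕ) : ℂ) * (I ^ m * (((PP m).eval k * (Real.pi * wf k) : ℝ) : ℂ)) +
          I * k * (I ^ (m + 1) * (((PP (m + 1)).eval k * (Real.pi * wf k) : ℝ) : ℂ)) := by
        linear_combination (-1 : ℂ) * h
      rw [e, e2, PP]
      simp only [Polynomial.eval_mul, Polynomial.eval_C, Polynomial.eval_X, Polynomial.eval_sub]
      push_cast
      have hI : I ^ (m + 2) = -I ^ m := by rw [pow_add, Complex.I_sq]; ring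
      rw [hI, pow_succ]
      have hI2 : I * (I ^ m * I) = -I ^ m := by
        rw [mul_comm (I ^ m) I, ← mul_assoc, Complex.I_mul_I]; ring
      linear_combination (1 / ((m : ℂ) + 3)) * (((PP (m + 1)).eval k : ℝ) : ℂ) * k * Real.pi * wf k * hI2

lemma PP_growth (p : ℝ[X]) : ∃ A : ℝ, 0 ≤ A ∧ ∀ k : ℝ, |p.eval k| ≤ A * (1 + |k| ^ p.natDegree) := by
  refine ⟨∑ i ∈ Finset.range (p.natDegree + 1), |p.coeff i|, Finset.sum_nonneg fun i _ => abs_nonneg _,
    fun k => ?_⟩
  rw [Polynomial.eval_eq_sum_range, Finset.sum_mul]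
  refine (Finset.abs_sum_le_sum_abs _ _).trans (Finset.sum_le_sum fun i hi => ?_)
  rw [abs_mul, abs_pow]
  gcongr
  rw [Finset.mem_range, Nat.lt_succ_iff] at hi
  rcases le_total |k| 1 with h | h
  · have : |k| ^ i ≤ 1 := pow_le_one₀ (abs_nonneg _) h
    have : 0 ≤ |k| ^ p.natDegree := by positivity
    linarith
  · have : |k| ^ i ≤ |k| ^ p.natDegree := pow_le_pow_right₀ h hi
    linarith

/-- the weight times a polynomial times a bounded function -/
lemma wf_poly_int (p : ℝ[X]) {f : ℝ → ℝ} (hf : Continuous f) {B c : ℝ} (hc : c < Real.pi / 2)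
    (hB : ∀ k, |f k| ≤ B * Real.exp (c * |k|)) : Integrable fun k : ℝ => wf k * (p.eval k * f k) := by
  obtain ⟨A, hA, h⟩ := PP_growth p
  refine wf_mul_int (f := fun k => p.eval k * f k) (p.continuous.mul hf) p.natDegree (c := c) (A := A * B) hc
    fun k => ?_
  rw [abs_mul]
  calc |p.eval k| * |f k| ≤ (A * (1 + |k| ^ p.natDegree)) * (B * Real.exp (c * |k|)) := by
        gcongr
        · exact h k
        · exact hB k
    _ = _ := by ring

lemma wf_poly (p : ℝ[X]) : Integrable fun k : ℝ => wf k * p.eval k := by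
  have := wf_poly_int p (f := fun _ => 1) continuous_const (B := 1) (c := 0) (by have := Real.pi_pos; linarith)
    (fun k => by simp)
  simpa using this

lemma Ft_ph_int (m : ℕ) : Integrable (Ft (ph m)) := by
  have h : Ft (ph m) = fun k => I ^ m * (((PP m).eval k * (Real.pi * wf k) : ℝ) : ℂ) := funext (Ft_ph m)
  rw [h]
  refine Integrable.const_mul (Integrable.ofReal ?_) _
  refine ((wf_poly (PP m)).const_mul Real.pi).congr (Eventually.of_forall fun k => ?_)
  show Real.pi * (wf k * (PP m).eval k) = (PP m).eval k * (Real.pi * wf k)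
  ring

lemma Ft_fourier (f : ℝ → ℝ) (w : ℝ) : 𝓕 (fun β : ℝ => (f β : ℂ)) w = Ft f (-2 * Real.pi * w) := by
  rw [Real.fourier_real_eq_integral_exp_smul]
  unfold Ft
  congr 1
  funext β
  rw [smul_eq_mul]
  congr 2
  push_cast
  ring

/-- **Fourier inversion** -/
theorem Ft_inv {f : ℝ → ℝ} (hc : Continuous f) (hi : Integrable f) (hF : Integrable (Ft f)) (x : ℝ) :
    ∫ k : ℝ, cexp (-(I * k * x)) * Ft f k = 2 * Real.pi * f x := by
  have hp := Real.pi_pos
  have h1 : Integrable (𝓕 (fun β : ℝ => (f β : ℂ))) := by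
    have e : 𝓕 (fun β : ℝ => (f β : ℂ)) = fun w => Ft f (-2 * Real.pi * w) := funext (Ft_fourier f)
    rw [e]
    exact hF.comp_mul_left' (by have := Real.pi_pos; intro h; nlinarith)
  have h2 := Continuous.fourierInv_fourier_eq (f := fun β : ℝ => (f β : ℂ))
    (Complex.continuous_ofReal.comp hc) (hi.ofReal (𝕜 := ℂ)) h1
  have h3 := congrFun h2 x
  rw [Real.fourierInv_eq'] at h3
  have h4 : ∫ v : ℝ, cexp ((2 * Real.pi * inner ℝ v x : ℝ) * I) • 𝓕 (fun β : ℝ => (f β : ℂ)) v =
      ∫ v : ℝ, (fun k : ℝ => cexp (-(I * k * x)) * Ft f k) (-2 * Real.pi * v) := by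
    congr 1
    funext v
    rw [Ft_fourier, smul_eq_mul]
    congr 2
    rw [real_inner_eq_re_inner (𝕜 := ℝ)]
    simp only [RCLike.inner_apply, conj_trivial, RCLike.re_to_real]
    push_cast
    ring
  rw [h4, Measure.integral_comp_mul_left (fun k : ℝ => cexp (-(I * k * x)) * Ft f k) (-2 * Real.pi)] at h3
  have h5 : |(-2 * Real.pi)⁻¹| = (2 * Real.pi)⁻¹ := by
    rw [abs_inv, show -2 * Real.pi = -(2 * Real.pi) by ring, abs_neg, abs_of_pos (by positivity)]
  rw [h5] at h3
  have h6 : ((2 * Real.pi : ℝ) : ℂ) ≠ 0 := by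
    have : 2 * Real.pi ≠ 0 := by positivity
    exact_mod_cast this
  rw [Complex.real_smul] at h3
  push_cast at h3 h6
  rw [← h3, ← mul_assoc, mul_inv_cancel₀ h6, one_mul]

end

end NUQ
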