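import Mathlib

/-!
# Fourier integrals of `tanh ^ m * sech ^ 2`

`τ m k = ∫ exp(i k β) tanh^m β sech^2 β dβ = i^m P_m(k) π w(k)`, `w(k) = k / sinh(π k / 2)`, where `P_m`
are the orthogonal polynomials of the weight `w` (board: `Q_m^2` from below).
-/

set_option autoImplicit false

open MeasureTheory Filter Topology Complex

namespace NUQ

noncomputable section

/-- `tanh^m sech^2` -/
def ph (m : ℕ) (β : ℝ) : ℝ := Real.tanh β ^ m / Real.cosh β ^ 2

lemma cosh_sq_pos (β : ℝ) : 0 < Real.cosh β ^ 2 := by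
  have := Real.cosh_pos β
  positivity

lemma cont_tanh : Continuous Real.tanh := by
  have : Real.tanh = fun x => Real.sinh x / Real.cosh x := by
    funext x; exact Real.tanh_eq_sinh_div_cosh x
  rw [this]
  exact Real.continuous_sinh.div Real.continuous_cosh fun x => (Real.cosh_pos x).ne'

lemma ph_cont (m : ℕ) : Continuous (ph m) := by
  unfold ph
  exact (cont_tanh.pow m).div (Real.continuous_cosh.pow 2) fun x => (cosh_sq_pos x).ne'

lemma tanh_abs_le (β : ℝ) : |Real.tanh β| ≤ 1 := by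
  have h := Real.tanh_bijOn.1 (Set.mem_univ β)
  rw [abs_le]
  exact ⟨h.1.le, h.2.le⟩

lemma cosh_ge (β : ℝ) : Real.exp |β| / 2 ≤ Real.cosh β := by
  rw [← Real.cosh_abs, Real.cosh_eq]
  have := Real.exp_pos (-|β|)
  linarith

lemma inv_cosh_sq_le (β : ℝ) : 1 / Real.cosh β ^ 2 ≤ 4 * Real.exp (-(2 * |β|)) := by
  have h1 := cosh_ge β
  have h2 : (Real.exp |β| / 2) ^ 2 ≤ Real.cosh β ^ 2 := by
    gcongr
  have h3 : (Real.exp |β| / 2) ^ 2 = Real.exp (2 * |β|) / 4 := by
    rw [div_pow, ← Real.exp_nat_mul]; norm_num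
  rw [h3] at h2
  have h4 : 0 < Real.exp (2 * |β|) / 4 := by positivity
  calc 1 / Real.cosh β ^ 2 ≤ 1 / (Real.exp (2 * |β|) / 4) := one_div_le_one_div_of_le h4 h2
    _ = 4 * Real.exp (-(2 * |β|)) := by rw [Real.exp_neg]; field_simp

lemma ph_abs_le (m : ℕ) (β : ℝ) : |ph m β| ≤ 1 / Real.cosh β ^ 2 := by
  unfold ph
  rw [abs_div, abs_pow, abs_of_pos (cosh_sq_pos β)]
  gcongr
  exact pow_le_one₀ (abs_nonneg _) (tanh_abs_le β)

lemma ph_le (m : ℕ) (β : ℝ) : |ph m β| ≤ 4 * Real.exp (-(2 * |β|)) :=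
  (ph_abs_le m β).trans (inv_cosh_sq_le β)

lemma int_exp_abs {b : ℝ} (hb : 0 < b) : Integrable fun y : ℝ => Real.exp (-(b * |y|)) := by
  have h1 : IntegrableOn (fun y : ℝ => Real.exp (-(b * |y|))) (Set.Ioi 0) := by
    refine (integrableOn_exp_mul_Ioi (a := -b) (by linarith) 0).congr_fun ?_ measurableSet_Ioi
    intro y hy
    simp only
    rw [abs_of_pos hy, neg_mul]
  have h2 : IntegrableOn (fun y : ℝ => Real.exp (-(b * |y|))) (Set.Iic 0) := by
    refine (integrableOn_exp_mul_Iic (a := b) hb 0).congr_fun ?_ measurableSet_Iic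
    intro y hy
    simp only
    rw [abs_of_nonpos hy]
    congr 1; ring
  have h3 := h2.union h1
  rwa [Set.Iic_union_Ioi, integrableOn_univ] at h3

lemma ph_int (m : ℕ) : Integrable (ph m) := by
  refine ((int_exp_abs (b := 2) two_pos).const_mul 4).mono' (ph_cont m).aestronglyMeasurable ?_
  exact Eventually.of_forall fun β => by rw [Real.norm_eq_abs]; exact ph_le m β

lemma norm_cexp_I (k β : ℝ) : ‖cexp (I * k * β)‖ = 1 := by
  rw [show I * k * β = ((k * β : ℝ) : ℂ) * I by push_cast; ring]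
  exact Complex.norm_exp_ofReal_mul_I _

lemma hasDerivAt_tanh (β : ℝ) : HasDerivAt Real.tanh (1 / Real.cosh β ^ 2) β := by
  have h : Real.tanh = fun x => Real.sinh x / Real.cosh x := by
    funext x; exact Real.tanh_eq_sinh_div_cosh x
  rw [h]
  have hc := (Real.cosh_pos β).ne'
  have h1 := (Real.hasDerivAt_sinh β).div (Real.hasDerivAt_cosh β) hc
  have h2 : Real.cosh β * Real.cosh β - Real.sinh β * Real.sinh β = 1 := by
    have := Real.cosh_sq β
    rw [← sq, ← sq]
    linarith
  rw [h2] at h1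
  exact h1

lemma one_sub_tanh_sq (β : ℝ) : 1 - Real.tanh β ^ 2 = 1 / Real.cosh β ^ 2 := by
  rw [Real.tanh_eq_sinh_div_cosh]
  have h1 := (Real.cosh_pos β).ne'
  have h2 := Real.cosh_sq β
  field_simp
  linarith

/-- `∫ exp(i k β) f β` -/
def Ft (f : ℝ → ℝ) (k : ℝ) : ℂ := ∫ β : ℝ, cexp (I * k * β) * (f β : ℂ)

lemma Ft_int {f : ℝ → ℝ} (hf : Integrable f) (k : ℝ) :
    Integrable fun β : ℝ => cexp (I * k * β) * (f β : ℂ) := by
  refine (hf.ofReal (𝕜 := ℂ)).bdd_mul (c := 1) ?_ ?_
  · exact (by fun_prop : Continuous fun β : ℝ => cexp (I * k * β)).aestronglyMeasurable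
  · exact Eventually.of_forall fun β => (norm_cexp_I k β).le

/-- **The Fourier integral of `sech^2`.** -/
theorem Ft_zero {k : ℝ} (hk : k ≠ 0) : Ft (ph 0) k = ((Real.pi * k / Real.sinh (Real.pi * k / 2) : ℝ) : ℂ) := by
  set u : ℂ := 1 + I * k / 2 with hu
  set v : ℂ := 1 - I * k / 2 with hv
  have e1 : betaIntegral u v = (1 / 2 : ℂ) * Ft (ph 0) k := by
    unfold betaIntegral
    rw [intervalIntegral.integral_of_le zero_le_one, integral_Ioc_eq_integral_Ioo]
    set σ : ℝ → ℝ := fun β => (1 + Real.tanh β) / 2 with hσ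
    have hd : ∀ β ∈ (Set.univ : Set ℝ), HasDerivWithinAt σ (1 / (2 * Real.cosh β ^ 2)) Set.univ β := by
      intro β _
      have := ((hasDerivAt_tanh β).const_add 1).div_const 2
      refine (this.hasDerivWithinAt).congr_deriv ?_
      field_simp
    have hinj : Set.InjOn σ Set.univ := by
      intro a _ b _ h
      apply Real.tanh_injective
      have : (1 + Real.tanh a) / 2 = (1 + Real.tanh b) / 2 := h
      linarith
    have himg : σ '' Set.univ = Set.Ioo 0 1 := by
      ext x
      constructor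
      · rintro ⟨β, -, rfl⟩
        have h := Real.tanh_bijOn.1 (Set.mem_univ β)
        constructor
        · show 0 < (1 + Real.tanh β) / 2
          linarith [h.1]
        · show (1 + Real.tanh β) / 2 < 1
          linarith [h.2]
      · intro hx
        obtain ⟨β, -, hβ⟩ := Real.tanh_surjOn (show 2 * x - 1 ∈ Set.Ioo (-1 : ℝ) 1 by
          constructor <;> linarith [hx.1, hx.2])
        exact ⟨β, Set.mem_univ _, by show (1 + Real.tanh β) / 2 = x; rw [hβ]; ring⟩
    rw [← himg, integral_image_eq_integral_abs_deriv_smul MeasurableSet.univ hd hinj, setIntegral_univ,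
      Ft, ← integral_const_mul]
    congr 1
    funext β
    have hb := Real.tanh_bijOn.1 (Set.mem_univ β)
    have hx0 : 0 < σ β := by show 0 < (1 + Real.tanh β) / 2; linarith [hb.1]
    have hx1 : 0 < 1 - σ β := by show 0 < 1 - (1 + Real.tanh β) / 2; linarith [hb.2]
    have hc := Real.cosh_pos β
    have hlog : Real.log (σ β) - Real.log (1 - σ β) = 2 * β := by
      rw [← Real.log_div hx0.ne' hx1.ne']
      have : σ β / (1 - σ β) = Real.exp (2 * β) := by
        rw [div_eq_iff hx1.ne']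
        show (1 + Real.tanh β) / 2 = Real.exp (2 * β) * (1 - (1 + Real.tanh β) / 2)
        rw [Real.tanh_eq_sinh_div_cosh, Real.sinh_eq, Real.cosh_eq]
        have h1 := Real.exp_pos β
        have h2 : Real.exp (-β) = (Real.exp β)⁻¹ := Real.exp_neg β
        have h3 : Real.exp (2 * β) = Real.exp β ^ 2 := by rw [← Real.exp_nat_mul]; norm_num
        rw [h2, h3]
        field_simp
        ring
      rw [this, Real.log_exp]
    rw [abs_of_pos (by positivity), hu, hv]
    have p1 : (σ β : ℂ) ^ (1 + I * k / 2 - 1) = cexp (I * k / 2 * Real.log (σ β)) := by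
      rw [Complex.cpow_def_of_ne_zero (by exact_mod_cast hx0.ne'), ← Complex.ofReal_log hx0.le]
      congr 1; ring
    have p2 : (1 - (σ β : ℂ)) ^ (1 - I * k / 2 - 1) = cexp (-(I * k / 2) * Real.log (1 - σ β)) := by
      rw [show (1 : ℂ) - (σ β : ℂ) = ((1 - σ β : ℝ) : ℂ) by push_cast; ring,
        Complex.cpow_def_of_ne_zero (by exact_mod_cast hx1.ne'), ← Complex.ofReal_log hx1.le]
      congr 1; ring
    rw [p1, p2, ← Complex.exp_add, show I * (k : ℂ) / 2 * (Real.log (σ β) : ℂ) +
      -(I * k / 2) * (Real.log (1 - σ β) : ℂ) = I * k / 2 * ((Real.log (σ β) - Real.log (1 - σ β) : ℝ) : ℂ) by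
        push_cast; ring, hlog]
    rw [show I * (k : ℂ) / 2 * ((2 * β : ℝ) : ℂ) = I * k * β by push_cast; ring, Complex.real_smul]
    unfold ph
    push_cast
    rw [pow_zero]
    have hc' : (Real.cosh β : ℂ) ≠ 0 := by exact_mod_cast hc.ne'
    rw [Complex.ofReal_cosh] at hc'
    field_simp
  have hre : 0 < u.re := by rw [hu]; simp
  have hrv : 0 < v.re := by rw [hv]; simp
  have e2 := Complex.Gamma_mul_Gamma_eq_betaIntegral hre hrv
  have e3 : u + v = 2 := by rw [hu, hv]; ring
  rw [e3, e1, show (2 : ℂ) = 1 + 1 by norm_num, Complex.Gamma_add_one 1 one_ne_zero, Complex.Gamma_one] at e2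
  have hk' : I * (k : ℂ) / 2 ≠ 0 := by
    have : (k : ℂ) ≠ 0 := by exact_mod_cast hk
    simp [this]
  have e4 : Complex.Gamma u = I * k / 2 * Complex.Gamma (I * k / 2) := by
    rw [hu, add_comm, Complex.Gamma_add_one _ hk']
  have e5 := Complex.Gamma_mul_Gamma_one_sub (I * k / 2)
  rw [← hv] at e5
  rw [e4, mul_assoc, e5] at e2
  have e6 : Complex.sin (Real.pi * (I * k / 2)) = Real.sinh (Real.pi * k / 2) * I := by
    rw [show (Real.pi : ℂ) * (I * k / 2) = ((Real.pi * k / 2 : ℝ) : ℂ) * I by push_cast; ring,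
      Complex.sin_mul_I, Complex.ofReal_sinh]
  rw [e6] at e2
  have hs : (Real.sinh (Real.pi * k / 2) : ℂ) ≠ 0 := by
    have : Real.sinh (Real.pi * k / 2) ≠ 0 := by
      rw [Ne, Real.sinh_eq_zero]
      have := Real.pi_pos
      intro h
      rcases mul_eq_zero.1 (by linarith : Real.pi * k = 0) with h | h
      · linarith
      · exact hk h
    exact_mod_cast this
  have e7 : Ft (ph 0) k = 2 * (I * k / 2 * (Real.pi / (Real.sinh (Real.pi * k / 2) * I))) := by
    rw [e2]; ring
  have hI := Complex.I_ne_zero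
  rw [e7, Complex.ofReal_div, Complex.ofReal_mul]
  field_simp

end

end NUQ
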