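import Pool.Agent.NUQ.LimG
import Pool.Agent.EXS.S5
import Pool.Agent.CenC.SolAll

/-!
# NUQ: the function of the strip, general multiplier; values at the ends
-/

set_option autoImplicit false

namespace NUQ

open MeasureTheory Filter Topology Set EXS CenC CenC.L

/-- the function of the strip `|Re w| ≤ π`: all that is used of it -/
structure VG (W : ℝ → ℂ) (V : ℂ → ℂ) : Prop where
  cont : ContinuousOn V {w | |w.re| ≤ Real.pi}
  diff : DifferentiableOn ℂ V {w | |w.re| < Real.pi}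
  even : ∀ w, V (-w) = V w
  real : ∀ w, V (starRingEnd ℂ w) = starRingEnd ℂ (V w)
  bd : ∃ C : ℝ, ∀ w : ℂ, |w.re| ≤ Real.pi → ‖V w - 1‖ ≤ C * Real.exp (-(3 / 4 * |w.im|))
  jump : ∀ η : ℝ, 0 < η → (V ((Real.pi : ℂ) + Complex.I * (η : ℂ))).im =
    (W (Real.cosh η) * V (((Real.pi / 3 : ℝ) : ℂ) + Complex.I * (η : ℂ))).im

theorem int_eq {W : ℝ → ℂ} {V : ℂ → ℂ} (hV : VG W V) :
    ∃ q : ℝ → ℝ, Measurable q ∧ (∃ M : ℝ, Bh q M) ∧
      (∀ X : ℝ, 1 < X → q X = (W X).im + KG W q X) ∧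
      ∀ w : ℝ, 0 < w → w < Real.pi →
        V (w : ℂ) = ((1 + (1 / Real.pi) * ∫ X in Set.Ioi (1 : ℝ), q X / (X + Real.cos w) : ℝ) : ℂ) := by
  classical
  have hpi := Real.pi_pos
  obtain ⟨C, hC⟩ := hV.bd
  set f : ℂ → ℂ := fun w => V w - 1 with hf
  have fcont : ContinuousOn f {w | |w.re| ≤ Real.pi} := hV.cont.sub continuousOn_const
  have fdiff : DifferentiableOn ℂ f {w | |w.re| < Real.pi} := hV.diff.sub (differentiableOn_const _)
  have feven : ∀ w, f (-w) = f w := fun w => by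
    simp only [hf]
    rw [hV.even]
  have freal : ∀ w, f (starRingEnd ℂ w) = starRingEnd ℂ (f w) := fun w => by
    simp only [hf]
    rw [hV.real, map_sub, map_one]
  -- the boundary function
  set g : ℝ → ℝ := fun X => (f ((Real.pi : ℂ) + Complex.I * (Real.arcosh X : ℂ))).im with hg
  have gcont : ContinuousOn g (Set.Ioi 1) := by
    have h1 : ContinuousOn (fun X : ℝ => (Real.pi : ℂ) + Complex.I * (Real.arcosh X : ℂ)) (Set.Ioi 1) := by
      have h2 : ContinuousOn Real.arcosh (Set.Ioi 1) :=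
        Real.continuousOn_arcosh.mono fun X hX => Set.mem_Ici.2 (le_of_lt (Set.mem_Ioi.1 hX))
      exact continuousOn_const.add (continuousOn_const.mul (Complex.continuous_ofReal.comp_continuousOn h2))
    have h3 : ContinuousOn (fun X : ℝ => f ((Real.pi : ℂ) + Complex.I * (Real.arcosh X : ℂ))) (Set.Ioi 1) :=
      fcont.comp h1 fun X _ => by
        show |((Real.pi : ℂ) + Complex.I * (Real.arcosh X : ℂ)).re| ≤ Real.pi
        rw [re_pi, abs_of_pos Real.pi_pos]
    exact Complex.continuous_im.comp_continuousOn h3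
  set q : ℝ → ℝ := (Set.Ioi (1:ℝ)).piecewise g (fun _ => 0) with hq
  have qm : Measurable q := gcont.measurable_piecewise continuousOn_const measurableSet_Ioi
  have qX : ∀ X : ℝ, 1 < X → q X = g X := fun X hX => Set.piecewise_eq_of_mem _ _ _ (Set.mem_Ioi.2 hX)
  have qη : ∀ η : ℝ, 0 < η → q (Real.cosh η) = (f ((Real.pi : ℂ) + Complex.I * (η : ℂ))).im := by
    intro η hη
    rw [qX _ (Real.one_lt_cosh.2 hη.ne'), hg]
    simp only
    rw [Real.arcosh_cosh hη.le]
  have disp := fun (w : ℂ) (h0 : 0 < w.re) (h1 : w.re < Real.pi) =>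
    dispersion fcont fdiff feven freal (a := 3 / 4) (by norm_num) hC h0 h1 (F := q) qη
  refine ⟨q, qm, ⟨|C|, ?_⟩, ?_, ?_⟩
  · intro X hX
    rw [qX X hX, hg]
    simp only
    set η := Real.arcosh X with hη
    have hη0 : 0 < η := arcosh_pos' hX
    have h1 := hC ((Real.pi : ℂ) + Complex.I * (η : ℂ)) (by rw [re_pi, abs_of_pos hpi])
    rw [im_pi, abs_of_pos hη0] at h1
    have h2 : Real.exp (-(3 / 4 * η)) ≤ X ^ (-(1 / 2) : ℝ) := by
      have h3 : X ≤ Real.exp η := by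
        rw [← Real.cosh_arcosh hX.le, ← hη]
        rw [Real.cosh_eq]
        have : Real.exp (-η) ≤ Real.exp η := Real.exp_le_exp.2 (by linarith)
        linarith
      have h4 : Real.log X ≤ η := by
        rw [← Real.log_exp η]
        exact Real.log_le_log (by linarith) h3
      have h5 : 0 < Real.log X := Real.log_pos hX
      rw [Real.rpow_def_of_pos (by linarith), Real.exp_le_exp]
      nlinarith
    calc |(f ((Real.pi : ℂ) + Complex.I * (η : ℂ))).im| ≤ ‖f ((Real.pi : ℂ) + Complex.I * (η : ℂ))‖ :=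
          Complex.abs_im_le_norm _
      _ ≤ C * Real.exp (-(3 / 4 * η)) := h1
      _ ≤ |C| * Real.exp (-(3 / 4 * η)) := mul_le_mul_of_nonneg_right (le_abs_self C) (Real.exp_pos _).le
      _ ≤ |C| * X ^ (-(1 / 2) : ℝ) := mul_le_mul_of_nonneg_left h2 (abs_nonneg _)
  · intro X hX
    set η := Real.arcosh X with hη
    have hη0 : 0 < η := arcosh_pos' hX
    have hXc : Real.cosh η = X := Real.cosh_arcosh hX.le
    have h1 := qη η hη0
    have h0 : (f ((Real.pi : ℂ) + Complex.I * (η : ℂ))).im = (V ((Real.pi : ℂ) + Complex.I * (η : ℂ))).im := by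
      simp only [hf, Complex.sub_im, Complex.one_im, sub_zero]
    rw [h0, hV.jump η hη0, hXc] at h1
    have h2 := disp (((Real.pi / 3 : ℝ) : ℂ) + Complex.I * (η : ℂ)) (by simp [hpi]) (by simp; linarith)
    rw [T2_cosh5 hη0.le, hXc] at h2
    have h3 : V (((Real.pi / 3 : ℝ) : ℂ) + Complex.I * (η : ℂ)) = 1 + Cf q (T2 X) := by
      rw [← h2, hf]
      simp only
      ring
    rw [h3, mul_add, mul_one, Complex.add_im] at h1
    exact h1
  · intro w hw0 hw1
    have h2 := disp (w : ℂ) (by rwa [Complex.ofReal_re]) (by rwa [Complex.ofReal_re])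
    have h3 : V (w : ℂ) = 1 + Cf q (Complex.cos (w : ℂ)) := by
      rw [← h2, hf]
      simp only
      ring
    rw [h3]
    unfold Cf
    rw [← Complex.ofReal_cos]
    push_cast
    congr 2
    rw [← integral_complex_ofReal]
    apply setIntegral_congr_fun measurableSet_Ioi
    intro X _
    push_cast
    rfl

theorem intg32 : IntegrableOn (fun X : ℝ => X ^ (-(3 / 2) : ℝ)) (Ioi 1) :=
  integrableOn_Ioi_rpow_of_lt (by norm_num) one_pos

/-- an end of the strip -/
theorem end_val {V : ℂ → ℂ} {q : ℝ → ℝ} (hqm : Measurable q)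
    (hform : ∀ w : ℝ, 0 < w → w < Real.pi →
        V (w : ℂ) = ((1 + (1 / Real.pi) * ∫ X in Set.Ioi (1 : ℝ), q X / (X + Real.cos w) : ℝ) : ℂ))
    {w0 : ℝ} {l : Filter ℝ} [l.NeBot] [l.IsCountablyGenerated] (hl : l ≤ 𝓝 w0)
    (hin : ∀ᶠ w in l, 0 < w ∧ w < Real.pi)
    (hcont : Tendsto (fun w : ℝ => V (w : ℂ)) l (𝓝 (V (w0 : ℂ)))) {D : ℝ}
    (hD : ∀ᶠ w in l, ∀ X : ℝ, 1 < X → |q X / (X + Real.cos w)| ≤ D * X ^ (-(3 / 2) : ℝ))
    (hne : ∀ X : ℝ, 1 < X → X + Real.cos w0 ≠ 0) :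
    V (w0 : ℂ) = ((1 + (1 / Real.pi) * ∫ X in Set.Ioi (1 : ℝ), q X / (X + Real.cos w0) : ℝ) : ℂ) := by
  have h1 : Tendsto (fun w : ℝ => ∫ X in Set.Ioi (1 : ℝ), q X / (X + Real.cos w)) l
      (𝓝 (∫ X in Set.Ioi (1 : ℝ), q X / (X + Real.cos w0))) := by
    refine tendsto_integral_filter_of_dominated_convergence (fun X => D * X ^ (-(3 / 2) : ℝ))
      (Eventually.of_forall fun w => ?_) ?_ (intg32.const_mul _) ?_
    · apply Measurable.aestronglyMeasurable
      fun_prop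
    · filter_upwards [hD] with w hw
      refine (ae_restrict_iff' measurableSet_Ioi).2 (ae_of_all _ fun X hX => ?_)
      rw [Real.norm_eq_abs]
      exact hw X hX
    · refine (ae_restrict_iff' measurableSet_Ioi).2 (ae_of_all _ fun X hX => ?_)
      refine Tendsto.div tendsto_const_nhds ?_ (hne X hX)
      exact ((Real.continuous_cos.tendsto w0).mono_left hl).const_add X
  have h2 : Tendsto (fun w : ℝ => ((1 + (1 / Real.pi) * ∫ X in Set.Ioi (1 : ℝ), q X / (X + Real.cos w) : ℝ) : ℂ)) l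
      (𝓝 ((1 + (1 / Real.pi) * ∫ X in Set.Ioi (1 : ℝ), q X / (X + Real.cos w0) : ℝ) : ℂ)) :=
    (Complex.continuous_ofReal.tendsto _).comp ((h1.const_mul _).const_add _)
  refine tendsto_nhds_unique hcont (h2.congr' ?_)
  filter_upwards [hin] with w hw
  exact (hform w hw.1 hw.2).symm

/-- the bound near the edge -/
theorem edge_bd {q : ℝ → ℝ} {M : ℝ} (hM : Bh q M) {K : ℝ} (hK : ∀ X : ℝ, 1 < X → |q X| ≤ K * (X - 1))
    {c : ℝ} (h1 : -1 ≤ c) {X : ℝ} (hX : 1 < X) :
    |q X / (X + c)| ≤ (2 * M + 4 * K) * X ^ (-(3 / 2) : ℝ) := by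
  have hM0 : 0 ≤ M := M_nonneg hM
  have hK0 : 0 ≤ K := by
    have := (abs_nonneg _).trans (hK 2 (by norm_num))
    linarith
  have hX0 : 0 < X := by linarith
  have hX1 : 0 < X - 1 := by linarith
  rw [abs_div, abs_of_pos (by linarith : 0 < X + c)]
  have h2 : |q X| / (X + c) ≤ |q X| / (X - 1) := by
    gcongr
    linarith
  have hp : 0 < X ^ (-(3 / 2) : ℝ) := by positivity
  refine h2.trans ?_
  rcases le_total X 2 with h3 | h3
  · have h4 : |q X| / (X - 1) ≤ K := by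
      rw [div_le_iff₀ hX1]
      exact hK X hX
    have h5 : (1:ℝ) / 4 ≤ X ^ (-(3 / 2) : ℝ) := by
      have h6 : (2:ℝ) ^ (-(3 / 2) : ℝ) ≤ X ^ (-(3 / 2) : ℝ) :=
        Real.rpow_le_rpow_of_nonpos hX0 h3 (by norm_num)
      have h7 : (2:ℝ) ^ (-2 : ℝ) ≤ (2:ℝ) ^ (-(3 / 2) : ℝ) :=
        Real.rpow_le_rpow_of_exponent_le (by norm_num) (by norm_num)
      have h8 : (2:ℝ) ^ (-2 : ℝ) = 1 / 4 := by
        rw [show (-2 : ℝ) = -((2 : ℕ) : ℝ) by norm_num, Real.rpow_neg (by norm_num), Real.rpow_natCast]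
        norm_num
      linarith
    nlinarith [mul_nonneg hM0 hp.le]
  · have h4 : |q X| / (X - 1) ≤ M * X ^ (-(1 / 2) : ℝ) / (X / 2) := by
      apply div_le_div₀ (by positivity) (hM X hX) (by positivity) (by linarith)
    have h5 : M * X ^ (-(1 / 2) : ℝ) / (X / 2) = 2 * M * X ^ (-(3 / 2) : ℝ) := by
      rw [← CenC.L.rpow_div_self hX0]
      field_simp
    nlinarith [mul_nonneg hK0 hp.le]

/-- the values at both ends -/
theorem ends {W : ℝ → ℂ} {V : ℂ → ℂ} (hV : VG W V) {q : ℝ → ℝ} (hqm : Measurable q) {M : ℝ} (hM : Bh q M)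
    {K : ℝ} (hK : ∀ X : ℝ, 1 < X → |q X| ≤ K * (X - 1))
    (hform : ∀ w : ℝ, 0 < w → w < Real.pi →
        V (w : ℂ) = ((1 + (1 / Real.pi) * ∫ X in Set.Ioi (1 : ℝ), q X / (X + Real.cos w) : ℝ) : ℂ)) :
    V 0 = ((1 + (1 / Real.pi) * ∫ X in Set.Ioi (1 : ℝ), q X / (X + 1) : ℝ) : ℂ) ∧
      V (Real.pi : ℂ) = ((1 + (1 / Real.pi) * ∫ X in Set.Ioi (1 : ℝ), q X / (X + -1) : ℝ) : ℂ) := by
  have hpi := Real.pi_pos
  have hM0 : 0 ≤ M := M_nonneg hM
  have hK0 : 0 ≤ K := by
    have := (abs_nonneg _).trans (hK 2 (by norm_num))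
    linarith
  have hcontR : ContinuousOn (fun w : ℝ => V (w : ℂ)) (Icc 0 Real.pi) := by
    refine hV.cont.comp Complex.continuous_ofReal.continuousOn fun w hw => ?_
    show |((w : ℝ) : ℂ).re| ≤ Real.pi
    rw [Complex.ofReal_re, abs_le]
    exact ⟨by linarith [hw.1], hw.2⟩
  constructor
  · have : (𝓝[Ioo 0 (Real.pi / 2)] (0:ℝ)).NeBot := left_nhdsWithin_Ioo_neBot (by positivity)
    have h := end_val (V := V) hqm hform (w0 := 0) (l := 𝓝[Ioo 0 (Real.pi / 2)] 0) ?_ ?_ ?_ (D := M) ?_ ?_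
    · simpa using h
    · exact nhdsWithin_le_nhds
    · filter_upwards [self_mem_nhdsWithin] with w hw
      exact ⟨hw.1, by linarith [hw.2]⟩
    · have := hcontR 0 ⟨le_rfl, hpi.le⟩
      simp only [ContinuousWithinAt] at this
      exact this.mono_left (nhdsWithin_mono _ fun w hw => ⟨hw.1.le, by linarith [hw.2]⟩)
    · filter_upwards [self_mem_nhdsWithin] with w hw X hX
      have h1 : 0 < Real.cos w := Real.cos_pos_of_mem_Ioo ⟨by linarith [hw.1], hw.2⟩
      have hX0 : 0 < X := by linarith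
      rw [abs_div, abs_of_pos (by linarith : 0 < X + Real.cos w)]
      have h2 : |q X| / (X + Real.cos w) ≤ M * X ^ (-(1 / 2) : ℝ) / X := by
        apply div_le_div₀ (by positivity) (hM X hX) hX0 (by linarith)
      rwa [mul_div_assoc, CenC.L.rpow_div_self hX0] at h2
    · intro X hX
      rw [Real.cos_zero]
      linarith
  · have : (𝓝[Ioo 0 Real.pi] Real.pi).NeBot := right_nhdsWithin_Ioo_neBot hpi
    have h := end_val (V := V) hqm hform (w0 := Real.pi) (l := 𝓝[Ioo 0 Real.pi] Real.pi) ?_ ?_ ?_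
      (D := 2 * M + 4 * K) ?_ ?_
    · simpa using h
    · exact nhdsWithin_le_nhds
    · filter_upwards [self_mem_nhdsWithin] with w hw
      exact hw
    · have := hcontR Real.pi ⟨hpi.le, le_rfl⟩
      simp only [ContinuousWithinAt] at this
      exact this.mono_left (nhdsWithin_mono _ fun w hw => ⟨hw.1.le, hw.2.le⟩)
    · filter_upwards [self_mem_nhdsWithin] with w hw X hX
      exact edge_bd hM hK (Real.neg_one_le_cos w) hX
    · intro X hX
      rw [Real.cos_pi]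
      linarith

end NUQ
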