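import Pool.Agent.NUQ.Conv

/-!
# Weak convergence of `(m+1)^2 w^2 P_m^2` to `w / π`, and a lower bound
-/

set_option autoImplicit false

open MeasureTheory Filter Topology Complex
open scoped BoundedContinuousFunction

namespace NUQ

noncomputable section

/-- the density `(w P_m)^2` -/
def rm (m : ℕ) (k : ℝ) : ℝ := (wf k * (PP m).eval k) ^ 2

lemma rm_nonneg (m : ℕ) (k : ℝ) : 0 ≤ rm m k := sq_nonneg _

lemma rm_cont (m : ℕ) : Continuous (rm m) := (wf_cont.mul (PP m).continuous).pow 2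

lemma wf_le_one (k : ℝ) : wf k ≤ 2 / Real.pi := by
  have h1 := norm_integral_le_of_norm_le (f := fun β : ℝ => cexp (I * k * β) * (ph 0 β : ℂ))
    (g := ph 0) (μ := volume) (ph_int 0) (Eventually.of_forall fun β => by
      rw [norm_mul, norm_cexp_I, one_mul, Complex.norm_real, Real.norm_eq_abs, abs_of_nonneg]
      unfold ph
      rw [pow_zero]
      have := cosh_sq_pos β
      positivity)
  have h2 : ‖Ft (ph 0) k‖ ≤ ∫ β, ph 0 β := h1
  have h3 : Ft (ph 0) 0 = ((∫ β, ph 0 β : ℝ) : ℂ) := by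
    rw [← integral_complex_ofReal]
    unfold Ft
    simp
  rw [Ft_ph0, wf_zero] at h3
  have hp := Real.pi_pos
  have h4 : Real.pi * (2 / Real.pi) = ∫ β, ph 0 β := by exact_mod_cast h3
  rw [← h4, Ft_ph0, Complex.norm_real, Real.norm_eq_abs, abs_of_pos (mul_pos hp (wf_pos k))] at h2
  exact le_of_mul_le_mul_left h2 hp

lemma rm_int (m : ℕ) : Integrable (rm m) := by
  have h := wf_poly_int ((PP m) ^ 2) (f := wf) wf_cont (B := 2 / Real.pi) (c := 0)
    (by have := Real.pi_pos; linarith) (fun k => by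
      rw [abs_of_pos (wf_pos k)]; simpa using wf_le_one k)
  refine h.congr (Eventually.of_forall fun k => ?_)
  show wf k * ((PP m ^ 2).eval k * wf k) = (wf k * (PP m).eval k) ^ 2
  rw [Polynomial.eval_pow]; ring

/-- **Parseval** -/
theorem rm_ft (m : ℕ) (s : ℝ) : ∫ k : ℝ, cexp (-(I * k * s)) * (rm m k : ℂ) = ((2 / Real.pi * cm m s : ℝ) : ℂ) := by
  have hp := Real.pi_pos
  have hpc : (Real.pi : ℂ) ≠ 0 := by exact_mod_cast hp.ne'
  -- the double integral
  have hF := Ft_ph_int m
  have hprod : Integrable (Function.uncurry fun (k β : ℝ) =>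
      (cexp (-(I * k * s)) * Ft (ph m) k) * (cexp (I * k * β) * (ph m β : ℂ))) (volume.prod volume) := by
    have h1 : Integrable (fun z : ℝ × ℝ => Ft (ph m) z.1 * (ph m z.2 : ℂ)) (volume.prod volume) :=
      hF.mul_prod ((ph_int m).ofReal (𝕜 := ℂ))
    have h2 : Integrable (fun z : ℝ × ℝ => (cexp (-(I * z.1 * s)) * cexp (I * z.1 * z.2)) *
        (Ft (ph m) z.1 * (ph m z.2 : ℂ))) (volume.prod volume) := by
      refine h1.bdd_mul (c := 1) ?_ ?_
      · exact (by fun_prop : Continuous fun z : ℝ × ℝ => cexp (-(I * z.1 * s)) * cexp (I * z.1 * z.2)).aestronglyMeasurable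
      · refine Eventually.of_forall fun z => ?_
        rw [norm_mul, norm_cexp_I, show -(I * (z.1 : ℂ) * s) = I * (z.1 : ℂ) * ((-s : ℝ) : ℂ) by push_cast; ring,
          norm_cexp_I, mul_one]
    refine h2.congr (Eventually.of_forall fun z => ?_)
    simp only [Function.uncurry]
    ring
  have hswap := integral_integral_swap hprod
  -- left side
  have hL : ∫ k : ℝ, ∫ β : ℝ, (cexp (-(I * k * s)) * Ft (ph m) k) * (cexp (I * k * β) * (ph m β : ℂ)) =
      I ^ m * I ^ m * (Real.pi ^ 2 * ∫ k : ℝ, cexp (-(I * k * s)) * (rm m k : ℂ)) := by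
    rw [← integral_const_mul, ← integral_const_mul]
    congr 1
    funext k
    rw [integral_const_mul]
    have : ∫ β : ℝ, cexp (I * k * β) * (ph m β : ℂ) = Ft (ph m) k := rfl
    rw [this, Ft_ph]
    unfold rm
    push_cast
    ring
  -- right side
  have hR : ∫ β : ℝ, ∫ k : ℝ, (cexp (-(I * k * s)) * Ft (ph m) k) * (cexp (I * k * β) * (ph m β : ℂ)) =
      I ^ m * I ^ m * ((2 * Real.pi * cm m s : ℝ) : ℂ) := by
    have e1 : ∀ β : ℝ, ∫ k : ℝ, (cexp (-(I * k * s)) * Ft (ph m) k) * (cexp (I * k * β) * (ph m β : ℂ)) =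
        ((2 * Real.pi * (ph m β * ph m (s - β)) : ℝ) : ℂ) := by
      intro β
      have h1 := Ft_inv (ph_cont m) (ph_int m) hF (s - β)
      have h2 : ∀ k : ℝ, (cexp (-(I * k * s)) * Ft (ph m) k) * (cexp (I * k * β) * (ph m β : ℂ)) =
          (ph m β : ℂ) * (cexp (-(I * k * ((s - β : ℝ) : ℂ))) * Ft (ph m) k) := by
        intro k
        have : cexp (-(I * k * ((s - β : ℝ) : ℂ))) = cexp (-(I * k * s)) * cexp (I * k * β) := by
          rw [← Complex.exp_add]; congr 1; push_cast; ring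
        rw [this]; ring
      simp_rw [h2]
      rw [integral_const_mul, h1]
      push_cast
      ring
    simp_rw [e1]
    rw [integral_complex_ofReal, integral_const_mul]
    have e2 : ∫ β : ℝ, ph m β * ph m (s - β) = (-1) ^ m * cm m s := by
      have h3 := integral_add_right_eq_self (μ := volume) (fun β : ℝ => ph m β * ph m (s - β)) (s / 2)
      rw [← h3]
      unfold cm
      rw [← integral_const_mul]
      congr 1
      funext θ
      rw [show s - (θ + s / 2) = -(θ - s / 2) by ring, ph_neg]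
      ring
    rw [e2]
    have e3 : ((-1 : ℝ) ^ m : ℝ) = ((-1 : ℝ)) ^ m := rfl
    have e4 : (I ^ m * I ^ m : ℂ) = (((-1 : ℝ) ^ m : ℝ) : ℂ) := by
      rw [← mul_pow, Complex.I_mul_I]; push_cast; ring
    rw [e4]
    push_cast
    ring
  rw [hL, hR] at hswap
  have hI : (I ^ m * I ^ m : ℂ) ≠ 0 := mul_ne_zero (pow_ne_zero _ Complex.I_ne_zero) (pow_ne_zero _ Complex.I_ne_zero)
  have h5 := mul_left_cancel₀ hI hswap
  have h6 : (Real.pi : ℂ) ^ 2 ≠ 0 := pow_ne_zero _ hpc
  apply mul_left_cancel₀ h6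
  rw [h5]
  push_cast
  field_simp

lemma cm_neg (m : ℕ) (s : ℝ) : cm m (-s) = cm m s := by
  unfold cm
  congr 1
  funext θ
  rw [show θ + -s / 2 = θ - s / 2 by ring, show θ - -s / 2 = θ + s / 2 by ring, mul_comm]

theorem cm_lim' (s : ℝ) :
    Tendsto (fun m : ℕ => ((m : ℝ) + 1) ^ 2 * cm m s) atTop (𝓝 (1 / Real.cosh s ^ 2)) := by
  rcases le_total 0 s with h | h
  · exact cm_lim h
  · have := cm_lim (s := -s) (by linarith)
    rw [Real.cosh_neg] at this
    simpa [cm_neg] using this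

lemma rm_mass (m : ℕ) : ∫ k : ℝ, rm m k = 2 / Real.pi * cm m 0 := by
  have h := rm_ft m 0
  simp only [Complex.ofReal_zero, mul_zero, neg_zero, Complex.exp_zero, one_mul] at h
  rw [integral_complex_ofReal] at h
  exact_mod_cast h

lemma cm_pos (m : ℕ) : 0 < cm m 0 := by
  have hp := Real.pi_pos
  have h1 : 0 < ∫ k : ℝ, rm m k := by
    rw [integral_pos_iff_support_of_nonneg (rm_nonneg m) (rm_int m)]
    have h2 : IsOpen (Function.support (rm m)) := (rm_cont m).isOpen_support
    refine h2.measure_pos _ ?_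
    by_contra h
    rw [Set.not_nonempty_iff_eq_empty, Function.support_eq_empty_iff] at h
    have h3 : ∀ k, (PP m).eval k = 0 := by
      intro k
      have := congrFun h k
      unfold rm at this
      have h4 := pow_eq_zero_iff (two_ne_zero) |>.1 this
      rcases mul_eq_zero.1 h4 with h5 | h5
      · exact absurd h5 (wf_pos k).ne'
      · exact h5
    have h4 : PP m = 0 := Polynomial.funext fun k => by rw [h3 k, Polynomial.eval_zero]
    have h5 := PP_coeff m
    rw [h4, Polynomial.coeff_zero] at h5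
    have : (0 : ℝ) < 1 / ((m + 1).factorial : ℝ) := by positivity
    linarith
  rw [rm_mass] at h1
  by_contra h
  have : 2 / Real.pi * cm m 0 ≤ 0 := mul_nonpos_of_nonneg_of_nonpos (by positivity) (not_lt.1 h)
  linarith

/-! ### probability measures -/

/-- measure with a density -/
def dm (ρ : ℝ → ℝ) : Measure ℝ := volume.withDensity fun x => ENNReal.ofReal (ρ x)

lemma dm_prob {ρ : ℝ → ℝ} (h0 : ∀ x, 0 ≤ ρ x) (hi : Integrable ρ) (h1 : ∫ x, ρ x = 1) :
    IsProbabilityMeasure (dm ρ) := by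
  constructor
  unfold dm
  rw [withDensity_apply _ MeasurableSet.univ, Measure.restrict_univ,
    ← ofReal_integral_eq_lintegral_ofReal hi (Eventually.of_forall h0), h1, ENNReal.ofReal_one]

lemma dm_integral {E : Type*} [NormedAddCommGroup E] [NormedSpace ℝ E] {ρ : ℝ → ℝ} (hc : Continuous ρ)
    (h0 : ∀ x, 0 ≤ ρ x) (f : ℝ → E) : ∫ x, f x ∂(dm ρ) = ∫ x, ρ x • f x := by
  unfold dm
  rw [integral_withDensity_eq_integral_toReal_smul (hc.measurable.ennreal_ofReal)
    (Eventually.of_forall fun x => ENNReal.ofReal_lt_top)]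
  congr 1
  funext x
  rw [ENNReal.toReal_ofReal (h0 x)]

/-- normalised density -/
def nm (m : ℕ) (k : ℝ) : ℝ := rm m k / (2 / Real.pi * cm m 0)

lemma nm_nonneg (m : ℕ) (k : ℝ) : 0 ≤ nm m k := by
  have := rm_nonneg m k
  have := cm_pos m
  have := Real.pi_pos
  unfold nm
  positivity

lemma nm_cont (m : ℕ) : Continuous (nm m) := (rm_cont m).div_const _

lemma nm_one (m : ℕ) : ∫ k, nm m k = 1 := by
  unfold nm
  rw [integral_div, rm_mass]
  have := cm_pos m
  have := Real.pi_pos
  field_simp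

lemma hw_one : ∫ k, wf k / 2 = 1 := by
  have h := Lw_PP 0
  rw [if_pos rfl] at h
  unfold Lw PP at h
  simp only [Polynomial.eval_one, mul_one] at h
  rw [integral_div, h]; norm_num

lemma wf_int : Integrable wf := by
  have := wf_poly 1
  simpa using this

/-- the probability measures -/
def pm (m : ℕ) : ProbabilityMeasure ℝ := ⟨dm (nm m), dm_prob (nm_nonneg m) ((rm_int m).div_const _) (nm_one m)⟩

/-- the limit -/
def pl : ProbabilityMeasure ℝ := ⟨dm fun k => wf k / 2, dm_prob (fun k => by have := wf_pos k; positivity)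
  (wf_int.div_const _) hw_one⟩

theorem pm_tendsto : Tendsto pm atTop (𝓝 pl) := by
  refine ProbabilityMeasure.tendsto_of_tendsto_charFun fun t => ?_
  have hp := Real.pi_pos
  have e1 : ∀ m, charFun (pm m : Measure ℝ) t = ((cm m t / cm m 0 : ℝ) : ℂ) := by
    intro m
    rw [charFun_apply_real]
    show ∫ x : ℝ, cexp (t * x * I) ∂(dm (nm m)) = _
    rw [dm_integral (nm_cont m) (nm_nonneg m)]
    have h1 := rm_ft m (-t)
    have h2 : ∀ x : ℝ, nm m x • cexp (t * x * I) =
        (((2 / Real.pi * cm m 0)⁻¹ : ℝ) : ℂ) * (cexp (-(I * x * ((-t : ℝ) : ℂ))) * (rm m x : ℂ)) := by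
      intro x
      rw [Complex.real_smul]
      unfold nm
      rw [show -(I * (x : ℂ) * ((-t : ℝ) : ℂ)) = t * x * I by push_cast; ring]
      push_cast
      ring
    simp_rw [h2]
    rw [integral_const_mul, h1, cm_neg]
    have := (cm_pos m).ne'
    rw [← Complex.ofReal_mul]
    congr 1
    field_simp
  have e2 : charFun (pl : Measure ℝ) t = ((1 / Real.cosh t ^ 2 : ℝ) : ℂ) := by
    rw [charFun_apply_real]
    show ∫ x : ℝ, cexp (t * x * I) ∂(dm fun k => wf k / 2) = _
    rw [dm_integral (wf_cont.div_const _) (fun k => by have := wf_pos k; positivity)]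
    have h1 := Ft_inv (ph_cont 0) (ph_int 0) (Ft_ph_int 0) (-t)
    have h2 : ∀ x : ℝ, (wf x / 2) • cexp (t * x * I) =
        (((2 * Real.pi)⁻¹ : ℝ) : ℂ) * (cexp (-(I * x * ((-t : ℝ) : ℂ))) * Ft (ph 0) x) := by
      intro x
      rw [Complex.real_smul, Ft_ph0, show -(I * (x : ℂ) * ((-t : ℝ) : ℂ)) = t * x * I by push_cast; ring]
      have : (Real.pi : ℂ) ≠ 0 := by exact_mod_cast hp.ne'
      push_cast
      field_simp
    simp_rw [h2]
    rw [integral_const_mul, h1]
    have h3 : ph 0 (-t) = 1 / Real.cosh t ^ 2 := by unfold ph; rw [pow_zero, Real.cosh_neg]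
    rw [h3]
    have : (Real.pi : ℂ) ≠ 0 := by exact_mod_cast hp.ne'
    push_cast
    field_simp
  simp_rw [e1, e2]
  refine (Complex.continuous_ofReal.tendsto _).comp ?_
  have h3 := (cm_lim' t).div (cm_lim' 0) (by rw [Real.cosh_zero]; norm_num)
  rw [Real.cosh_zero, one_pow, div_one, div_one] at h3
  refine h3.congr fun m => ?_
  have := (cm_pos m).ne'
  have hm : ((m : ℝ) + 1) ≠ 0 := by positivity
  simp only [Pi.div_apply]
  field_simp

/-- the lower bound with a cut-off -/
lemma low_cut {G : ℝ → ℝ} (hG : Continuous G) (h0 : ∀ k, 0 ≤ G k) {B : ℝ} (hB : ∀ k, G k ≤ B) {M : ℝ} (hM : 0 ≤ M)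
    {ε : ℝ} (hε : 0 < ε) : ∀ᶠ m : ℕ in atTop, (1 / Real.pi) * (∫ k, min (G k) (M * wf k)) - ε ≤
      ((m : ℝ) + 1) ^ 2 * ∫ k, wf k * ((PP m).eval k ^ 2 * G k) := by
  have hp := Real.pi_pos
  set φ : ℝ → ℝ := fun k => min (G k / wf k) M with hφ
  have hφc : Continuous φ := (hG.div wf_cont fun k => (wf_pos k).ne').min continuous_const
  have hφ0 : ∀ k, 0 ≤ φ k := fun k => le_min (div_nonneg (h0 k) (wf_pos k).le) hM
  have hφM : ∀ k, φ k ≤ M := fun k => min_le_right _ _
  set Φ : ℝ →ᵇ ℝ := BoundedContinuousFunction.ofNormedAddCommGroup φ hφc M (fun k => by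
    rw [Real.norm_eq_abs, abs_of_nonneg (hφ0 k)]; exact hφM k) with hΦ
  have h1 := (ProbabilityMeasure.tendsto_iff_forall_integral_tendsto.1 pm_tendsto) Φ
  have e1 : ∀ m, ∫ ω, Φ ω ∂(pm m : Measure ℝ) = (2 / Real.pi * cm m 0)⁻¹ * ∫ k, rm m k * φ k := by
    intro m
    show ∫ ω, φ ω ∂(dm (nm m)) = _
    rw [dm_integral (nm_cont m) (nm_nonneg m), ← integral_const_mul]
    congr 1
    funext k
    unfold nm
    rw [smul_eq_mul]
    ring
  have e2 : ∫ ω, Φ ω ∂(pl : Measure ℝ) = (1 / 2) * ∫ k, min (G k) (M * wf k) := by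
    show ∫ ω, φ ω ∂(dm fun k => wf k / 2) = _
    rw [dm_integral (wf_cont.div_const _) (fun k => by have := wf_pos k; positivity), ← integral_const_mul]
    congr 1
    funext k
    have hw := wf_pos k
    rw [smul_eq_mul, hφ]
    simp only
    rw [mul_comm (wf k / 2), mul_div_assoc', min_mul_of_nonneg _ _ hw.le, div_mul_cancel₀ _ hw.ne']
    ring
  simp_rw [e1] at h1
  rw [e2] at h1
  -- multiply by `(m+1)^2 (2/π) cm m 0 → 2/π`
  have h2 := (((cm_lim' 0).const_mul (2 / Real.pi)).mul h1)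
  rw [Real.cosh_zero, one_pow, div_one, mul_one] at h2
  have h3 : Tendsto (fun m : ℕ => ((m : ℝ) + 1) ^ 2 * ∫ k, rm m k * φ k) atTop
      (𝓝 ((1 / Real.pi) * ∫ k, min (G k) (M * wf k))) := by
    refine (h2.congr fun m => ?_).trans (le_of_eq ?_)
    · have := (cm_pos m).ne'
      field_simp
    · congr 1; ring
  have h4 := h3.eventually (eventually_gt_nhds (sub_lt_self ((1 / Real.pi) * ∫ k, min (G k) (M * wf k)) hε))
  filter_upwards [h4] with m hm
  refine hm.le.trans ?_
  gcongr ?_ * ?_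
  refine integral_mono ?_ ?_ fun k => ?_
  · refine ((rm_int m).const_mul M).mono' ((rm_cont m).mul hφc).aestronglyMeasurable (Eventually.of_forall fun k => ?_)
    rw [Real.norm_eq_abs, abs_of_nonneg (mul_nonneg (rm_nonneg m k) (hφ0 k)), mul_comm]
    exact mul_le_mul_of_nonneg_right (hφM k) (rm_nonneg m k)
  · have h := wf_poly_int ((PP m) ^ 2) (f := G) hG (B := B) (c := 0) (by linarith) (fun k => by
      rw [abs_of_nonneg (h0 k)]; simpa using hB k)
    refine h.congr (Eventually.of_forall fun k => ?_)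
    simp only [Polynomial.eval_pow]
  · have hw := wf_pos k
    have : φ k * wf k ≤ G k := by
      calc φ k * wf k ≤ (G k / wf k) * wf k := by gcongr; exact min_le_left _ _
        _ = G k := div_mul_cancel₀ _ hw.ne'
    show rm m k * φ k ≤ wf k * ((PP m).eval k ^ 2 * G k)
    calc rm m k * φ k = wf k * (PP m).eval k ^ 2 * (φ k * wf k) := by unfold rm; ring
      _ ≤ wf k * (PP m).eval k ^ 2 * G k := by gcongr
      _ = _ := by ring

/-- **the lower bound** -/
theorem low_lim {G : ℝ → ℝ} (hG : Continuous G) (h0 : ∀ k, 0 ≤ G k) {B : ℝ} (hB : ∀ k, G k ≤ B)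
    (hi : Integrable G) {ε : ℝ} (hε : 0 < ε) : ∀ᶠ m : ℕ in atTop, (1 / Real.pi) * (∫ k, G k) - ε ≤
      ((m : ℝ) + 1) ^ 2 * ∫ k, wf k * ((PP m).eval k ^ 2 * G k) := by
  have hp := Real.pi_pos
  have h1 : Tendsto (fun M : ℕ => ∫ k, min (G k) ((M : ℝ) * wf k)) atTop (𝓝 (∫ k, G k)) := by
    refine tendsto_integral_of_dominated_convergence G ?_ hi ?_ ?_
    · exact fun M => (hG.min (continuous_const.mul wf_cont)).aestronglyMeasurable
    · refine fun M => Eventually.of_forall fun k => ?_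
      have hw := wf_pos k
      rw [Real.norm_eq_abs, abs_of_nonneg (le_min (h0 k) (by positivity))]
      exact min_le_left _ _
    · refine Eventually.of_forall fun k => ?_
      have hw := wf_pos k
      have h2 : ∀ᶠ M : ℕ in atTop, G k ≤ (M : ℝ) * wf k := by
        have : Tendsto (fun M : ℕ => (M : ℝ) * wf k) atTop atTop :=
          tendsto_natCast_atTop_atTop.atTop_mul_const hw
        exact this.eventually_ge_atTop _
      refine (tendsto_const_nhds (x := G k)).congr' ?_
      filter_upwards [h2] with M hM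
      rw [min_eq_left hM]
  have h2 := h1.eventually (eventually_gt_nhds (sub_lt_self (∫ k, G k) (by positivity : 0 < Real.pi * (ε / 2))))
  obtain ⟨M, hM⟩ := h2.exists
  filter_upwards [low_cut hG h0 hB (Nat.cast_nonneg M) (half_pos hε)] with m hm
  refine le_trans ?_ hm
  have : (1 / Real.pi) * (∫ k, G k) - ε / 2 ≤ (1 / Real.pi) * ∫ k, min (G k) ((M : ℝ) * wf k) := by
    have h3 : (∫ k, G k) - Real.pi * (ε / 2) ≤ ∫ k, min (G k) ((M : ℝ) * wf k) := hM.le
    calc (1 / Real.pi) * (∫ k, G k) - ε / 2 = (1 / Real.pi) * ((∫ k, G k) - Real.pi * (ε / 2)) := by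
          field_simp
      _ ≤ _ := by gcongr
  linarith

end

end NUQ
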